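import Pool.Agent.FBZ.DH2

/-!
# FBZ module DK: successor cardinals in `N`

* `onto_of_mem_succ`: if `SuccCard N μ κ`, `ω ⊆ μ`, then `Onto N μ a` for all `a ∈ κ`, `a ≠ ∅`.
  By `∈`-induction on `a`: `a ∈ N`, `a` ordinal.  If `Card N a` then `a = μ` or `a ∈ μ` and
  `onto_refl` / `onto_subset` apply.  Otherwise some `b ∈ a` and `f ∈ N` have `Surj f b a`; `b ≠ ∅`
  (as `a ≠ ∅`), `b ∈ κ`, so `Onto N μ b` by induction and `onto_trans`.
* `not_onto_succ`: `¬ Onto N μ κ` (definition of `Card N κ`, `μ ∈ κ`).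
* `ord_subset_mem`: if `σ` is an ordinal, `σ ⊆ E`, `E ⊆ κ`, `Onto N μ E` then `σ ∈ κ`: `σ ⊆ κ` so
  `σ = κ` or `σ ∈ κ` (`IsOrdinal.eq_or_mem_of_subset`), and `σ = κ` gives `E = κ`, contradiction.
* `exists_succCard`: let `W = powN N (prod μ μ)`.  For `r ∈ W` and an ordinal `α ∈ N` say that
  `C r α` holds if there is `f ∈ N` with `Surj f μ α` and
  `∀ a ∈ μ, ∀ b ∈ μ, (pair a b ∈ r ↔ ap f a ∈ ap f b)`.
  (1) `C r α` and `C r α'` imply `α = α'`: let `f, f'` be the witnesses; by `∈`-induction on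
  `ap f a` one gets `ap f a = ap f' a` for all `a ∈ μ`: `ap f a = {ap f b : b ∈ μ, pair b a ∈ r}`
  because `ap f a ∈ α`, `α` is transitive and `f` is onto `α`; the same for `f'`.
  Then `α = {ap f a : a ∈ μ} = α'`.
  (2) if `α ∈ N` is an ordinal and `Onto N μ α`, then `C r α` for
  `r = {pair a b : ap f a ∈ ap f b} ∈ W` (`sep_mem`).
  (3) `C` is definable, so by `replU`, applied to the set of the `r ∈ W` with `∃ α ∈ N, C r α`, there
  is `b ∈ N` consisting of the ordinals `α ∈ N` with `Onto N μ α`; put `κ = insert ∅ b`.  It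
  consists of `∅` and of the (necessarily nonempty, as `μ ≠ ∅`) ordinals `α ∈ N` with
  `Onto N μ α`; it is transitive (`onto_subset`), so an ordinal of `N`
  (`isOrdinal_iff_forall_mem_isOrdinal`).
  (4) `μ ∈ κ` (`onto_refl`).  `κ` is a cardinal of `N`: if `a ∈ κ`, `f ∈ N`, `Surj f a κ`, then
  `a ≠ ∅`, so `Onto N μ a`, so `Onto N μ κ`, so `κ ∈ κ`, contradiction.  If `a ∈ κ` and `Card N a`
  then not `μ ∈ a` (as `Onto N μ a` or `a = ∅`), so `a = μ` or `a ∈ μ` by trichotomy.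
* `card_omega`: `Card N ω`: a surjection from a natural number onto `ω` would make `ω` finite.
-/

namespace Pool.Agent.FBZ
open ZFSet
universe u
variable {N : Set ZFSet.{u}}

private theorem DK_ne {f a b : ZFSet.{u}} (h : Surj f a b) (hb : b ≠ ∅) : a ≠ ∅ := by
  rintro rfl
  obtain ⟨y, hy⟩ : ∃ y, y ∈ b := by
    by_contra h0
    push Not at h0
    exact hb ((ZFSet.eq_empty b).2 h0)
  obtain ⟨x, hx, _⟩ := h.2 y hy
  exact ZFSet.notMem_empty x hx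

theorem onto_of_mem_succ (hN : ZF N) {μ κ a : ZFSet.{u}} (h : SuccCard N μ κ)
    (hinf : ZFSet.omega ⊆ μ) (ha : a ∈ κ) (hne : a ≠ ∅) : Onto N μ a := by
  obtain ⟨hμ, hκ, hμκ, hs⟩ := h
  revert ha hne
  refine ZFSet.inductionOn a fun a ih ha hne => ?_
  have haN : a ∈ N := hN.trans κ hκ.1 a ha
  have hao : a.IsOrdinal := hκ.2.1.mem ha
  by_cases hc : Card N a
  · rcases hs a ha hc with h | h
    · rw [h]
      exact onto_refl hN hμ.1
    · exact onto_subset hN hμ.1 haN (hμ.2.1.subset_of_mem h) hne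
  · have h1 : ∃ b ∈ a, ∃ f ∈ N, Surj f b a := by
      by_contra hh
      push Not at hh
      exact hc ⟨haN, hao, hh⟩
    obtain ⟨b, hb, f, hf, hfs⟩ := h1
    exact onto_trans hN (ih b hb (hκ.2.1.mem_trans hb ha) (DK_ne hfs hne)) ⟨f, hf, hfs⟩

theorem not_onto_succ {μ κ : ZFSet.{u}} (h : SuccCard N μ κ) : ¬ Onto N μ κ := by
  rintro ⟨f, hf, hs⟩
  exact h.2.1.2.2 μ h.2.2.1 f hf hs

theorem ord_subset_mem {μ κ σ E : ZFSet.{u}} (h : SuccCard N μ κ) (hσ : σ.IsOrdinal)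
    (hσE : σ ⊆ E) (hE : E ⊆ κ) (hO : Onto N μ E) : σ ∈ κ := by
  have h1 : σ ⊆ κ := fun x hx => hE (hσE hx)
  rcases (hσ.subset_iff_eq_or_mem h.2.1.2.1).1 h1 with h2 | h2
  · exfalso
    have h3 : E = κ := by
      ext x
      exact ⟨fun hx => hE hx, fun hx => hσE (h2 ▸ hx)⟩
    rw [h3] at hO
    exact not_onto_succ h hO
  · exact h2

/-- `r` is the relation on `μ` induced by a function of `N` from `μ` onto the ordinal `α` -/
private def DKC (N : Set ZFSet.{u}) (μ r α : ZFSet.{u}) : Prop :=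
  α.IsOrdinal ∧ ∃ f ∈ N, Surj f μ α ∧ ∀ a ∈ μ, ∀ b ∈ μ, (pair a b ∈ r ↔ ap f a ∈ ap f b)

private theorem DK_dfn (hN : ZF N) {μ : ZFSet.{u}} (hμ : μ ∈ N) :
    Dfn N (fun v => DKC N μ (v 1) (v 0)) :=
  Dfn.and (Dfn.isOrdinal hN (DT.var hN 0))
    (Dfn.ex (Dfn.and (Dfn.surj hN (DT.var hN 0) (DT.cst hN hμ) (DT.var hN 1))
      (Dfn.ball hN (DT.cst hN hμ) (Dfn.ball hN (DT.cst hN hμ)
        (Dfn.iff (Dfn.mem hN (DT.pairT hN (DT.var hN 1) (DT.var hN 0)) (DT.var hN 4))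
          (Dfn.mem hN (DT.apT hN (DT.var hN 2) (DT.var hN 1))
            (DT.apT hN (DT.var hN 2) (DT.var hN 0))))))))

private theorem DK_aux {μ r α α' f f' : ZFSet.{u}} (hα : α.IsOrdinal) (hα' : α'.IsOrdinal)
    (hf : Surj f μ α) (hf' : Surj f' μ α')
    (hr : ∀ a ∈ μ, ∀ b ∈ μ, (pair a b ∈ r ↔ ap f a ∈ ap f b))
    (hr' : ∀ a ∈ μ, ∀ b ∈ μ, (pair a b ∈ r ↔ ap f' a ∈ ap f' b)) (x : ZFSet.{u}) :
    ∀ a ∈ μ, ap f a = x → ap f' a = x := by
  have h1 := (surj_iff.1 hf)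
  have h2 := (surj_iff.1 hf')
  refine ZFSet.inductionOn x fun x ih a ha hax => ?_
  ext z
  constructor
  · intro hz
    have hz' : z ∈ α' := hα'.mem_trans hz (pair_ap h2.1 ha).2
    obtain ⟨b, hb, hbz⟩ := h2.2 z hz'
    have h3 : ap f b ∈ ap f a := (hr b hb a ha).1 ((hr' b hb a ha).2 (hbz.symm ▸ hz))
    rw [hax] at h3
    have h4 := ih (ap f b) h3 b hb rfl
    rw [← hbz, h4]
    exact h3
  · intro hz
    have hz1 : z ∈ ap f a := hax.symm ▸ hz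
    have hz' : z ∈ α := hα.mem_trans hz1 (pair_ap h1.1 ha).2
    obtain ⟨b, hb, hbz⟩ := h1.2 z hz'
    have h3 : ap f' b ∈ ap f' a := (hr' b hb a ha).1 ((hr b hb a ha).2 (hbz.symm ▸ hz1))
    have h4 := ih z hz b hb hbz
    rw [← h4]
    exact h3

private theorem DK_uniq {μ r α α' : ZFSet.{u}} (h : DKC N μ r α) (h' : DKC N μ r α') :
    α = α' := by
  obtain ⟨hα, f, _, hf, hr⟩ := h
  obtain ⟨hα', f', _, hf', hr'⟩ := h'
  have h1 := (surj_iff.1 hf)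
  have h2 := (surj_iff.1 hf')
  ext z
  constructor
  · intro hz
    obtain ⟨a, ha, haz⟩ := h1.2 z hz
    rw [← DK_aux hα hα' hf hf' hr hr' z a ha haz]
    exact (pair_ap h2.1 ha).2
  · intro hz
    obtain ⟨a, ha, haz⟩ := h2.2 z hz
    rw [← DK_aux hα' hα hf' hf hr' hr z a ha haz]
    exact (pair_ap h1.1 ha).2

private theorem DK_ex (hN : ZF N) {μ α : ZFSet.{u}} (hμ : μ ∈ N) (hα : α.IsOrdinal)
    (h : Onto N μ α) : ∃ r ∈ powN N (prod μ μ), DKC N μ r α := by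
  obtain ⟨f, hf, hfs⟩ := h
  have h1 : (prod μ μ).sep (fun p => ap f (fs p) ∈ ap f (sn p)) ∈ N := by
    refine sep_mem hN ?_ (prod_mem hN hμ hμ)
    exact Dfn.mem hN (DT.apT hN (DT.cst hN hf) (DT.fsT hN (DT.var hN 0)))
      (DT.apT hN (DT.cst hN hf) (DT.snT hN (DT.var hN 0)))
  refine ⟨_, mem_powN.2 ⟨h1, fun x hx => (mem_sep.1 hx).1⟩, hα, f, hf, hfs, ?_⟩
  intro a ha b hb
  rw [mem_sep, fs_pair, sn_pair, pair_mem_prod]
  exact ⟨fun h => h.2, fun h => ⟨⟨ha, hb⟩, h⟩⟩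

theorem exists_succCard (hN : ZF N) {μ : ZFSet.{u}} (h : Card N μ) (hinf : ZFSet.omega ⊆ μ) :
    ∃ κ, SuccCard N μ κ := by
  have hμN := h.1
  have hμne : μ ≠ ∅ := by
    rintro rfl
    exact ZFSet.notMem_empty _ (hinf (nz_mem_omega 0))
  obtain ⟨A, hA⟩ : ∃ A, A = (powN N (prod μ μ)).sep (fun r => ∃ α ∈ N, DKC N μ r α) :=
    ⟨_, rfl⟩
  have hAN : A ∈ N := by
    rw [hA]
    refine sep_mem hN ?_ (powN_mem hN (prod_mem hN hμN hμN))
    exact Dfn.ex (DK_dfn hN hμN)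
  obtain ⟨b, hbN, hb⟩ := replU hN (Q := fun _ r α => DKC N μ r α) (DK_dfn hN hμN)
    (v := fun _ => μ) (fun _ => hμN) hAN (by
      intro r hr
      rw [hA, mem_sep] at hr
      obtain ⟨_, α, hαN, hα⟩ := hr
      exact ⟨α, ⟨hαN, hα⟩, fun β hβ => DK_uniq hβ.2 hα⟩)
  have hb' : ∀ α, α ∈ b ↔ α ∈ N ∧ α.IsOrdinal ∧ Onto N μ α := by
    intro α
    rw [hb]
    constructor
    · rintro ⟨hαN, r, _, hα, f, hf, hfs, _⟩
      exact ⟨hαN, hα, f, hf, hfs⟩
    · rintro ⟨hαN, hα, hO⟩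
      obtain ⟨r, hr, hC⟩ := DK_ex hN hμN hα hO
      refine ⟨hαN, r, ?_, hC⟩
      rw [hA, mem_sep]
      exact ⟨hr, α, hαN, hC⟩
  have hκN : (insert ∅ b : ZFSet.{u}) ∈ N := insert_mem hN (empty_mem hN) hbN
  have hmem : ∀ {α : ZFSet.{u}}, α ∈ (insert ∅ b : ZFSet.{u}) → α ≠ ∅ →
      α ∈ N ∧ α.IsOrdinal ∧ Onto N μ α := by
    intro α hα hne
    rw [mem_insert_iff] at hα
    rcases hα with h1 | h1
    · exact (hne h1).elim
    · exact (hb' α).1 h1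
  have hord : (insert ∅ b : ZFSet.{u}).IsOrdinal := by
    rw [isOrdinal_iff_forall_mem_isOrdinal]
    refine ⟨fun y hy z hz => ?_, fun y hy => ?_⟩
    · have hyne : y ≠ ∅ := by
        rintro rfl
        exact ZFSet.notMem_empty _ hz
      obtain ⟨h1, h2, h3⟩ := hmem hy hyne
      rw [mem_insert_iff]
      by_cases hz0 : z = ∅
      · exact Or.inl hz0
      · right
        rw [hb']
        have hzN : z ∈ N := hN.trans y h1 z hz
        exact ⟨hzN, h2.mem hz, onto_trans hN h3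
          (onto_subset hN h1 hzN (h2.subset_of_mem hz) hz0)⟩
    · by_cases hy0 : y = ∅
      · rw [hy0]
        exact isOrdinal_empty
      · exact (hmem hy hy0).2.1
  have hμκ : μ ∈ (insert ∅ b : ZFSet.{u}) := by
    rw [mem_insert_iff, hb']
    exact Or.inr ⟨hμN, h.2.1, onto_refl hN hμN⟩
  refine ⟨insert ∅ b, h, ⟨hκN, hord, ?_⟩, hμκ, ?_⟩
  · intro a ha f hf hfs
    have hκne : (insert ∅ b : ZFSet.{u}) ≠ ∅ := by
      intro h0
      rw [h0] at hμκ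
      exact ZFSet.notMem_empty _ hμκ
    obtain ⟨h1, h2, h3⟩ := hmem ha (DK_ne hfs hκne)
    have h4 : Onto N μ (insert ∅ b : ZFSet.{u}) := onto_trans hN h3 ⟨f, hf, hfs⟩
    have h5 : (insert ∅ b : ZFSet.{u}) ∈ (insert ∅ b : ZFSet.{u}) := by
      exact mem_insert_iff.2 (Or.inr ((hb' _).2 ⟨hκN, hord, h4⟩))
    exact ZFSet.mem_irrefl _ h5
  · intro a ha hca
    rcases hca.2.1.mem_trichotomous h.2.1 with h1 | h1 | h1
    · exact Or.inr h1
    · exact Or.inl h1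
    · exfalso
      have hane : a ≠ ∅ := by
        rintro rfl
        exact ZFSet.notMem_empty _ h1
      obtain ⟨_, _, f, hf, hfs⟩ := hmem ha hane
      exact hca.2.2 μ h1 f hf hfs

theorem card_omega (hN : ZF N) : Card N ZFSet.omega := by
  refine ⟨hN.omega, isOrdinal_omega, ?_⟩
  intro a ha f hf hfs
  obtain ⟨n, rfl⟩ := mem_omega.1 ha
  exact infinite_of_omega_subset (fun _ hx => hx) (onto_fin ⟨f, hf, hfs⟩ (fin_nz n))

end Pool.Agent.FBZ
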