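import Pool.Agent.FBZ.DC3

/-!
# FBZ module DE1: natural numbers and omega

`nz n` is the von Neumann natural number `n`.
* `mem_omega`: Mathlib's `ZFSet.omega` is `mk PSet.omega` with
  `PSet.omega = ⟨ULift ℕ, fun n => PSet.ofNat n.down⟩` and `PSet.ofNat (n+1) = insert (ofNat n) (ofNat n)`;
  so `nz n = mk (PSet.ofNat n)` (induction) and `x ∈ omega ↔ ∃ n, x = mk (PSet.ofNat n)`
  (`Quotient.inductionOn x`, `PSet.mem` unfolds).  Alternatively: one inclusion by
  `omega_zero`, `omega_succ`.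
* `mem_nz`: induction on `n` (`mem_insert_iff`).  `nz_mem_nz`: `mem_nz` and injectivity;
  injectivity: if `m < n` and `nz m = nz n` then `nz m ∈ nz n = nz m`, contradiction
  (`mem_irrefl`).  `nz_subset_nz`: if `m ≤ n` use `mem_nz`; if `n < m` then
  `nz n ∈ nz m ⊆ nz n`, contradiction.
* ordinals: `isOrdinal_empty`, `isOrdinal_succ`; `omega`: transitive set of transitive sets
  (`isOrdinal_iff_forall_mem_isTransitive`).
* `nz_mem_N`: `nz n ∈ ω ∈ N`.  `fin_nz`: `Fin' (nz n)` by induction.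
-/

namespace Pool.Agent.FBZ
open ZFSet
universe u
variable {N : Set ZFSet.{u}}

private theorem de1_nz (n : ℕ) : nz.{u} n = ZFSet.mk (PSet.ofNat n) := by
  induction n with
  | zero => rfl
  | succ n ih =>
    change (insert (nz n) (nz n) : ZFSet.{u}) = _
    rw [ih]
    rfl

theorem mem_omega {x : ZFSet.{u}} : x ∈ ZFSet.omega ↔ ∃ n : ℕ, x = nz n := by
  refine Quotient.inductionOn x fun y => ?_
  change (ZFSet.mk y ∈ ZFSet.mk PSet.omega) ↔ ∃ n : ℕ, ZFSet.mk y = nz n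
  rw [mk_mem_iff]
  constructor
  · rintro ⟨⟨n⟩, hn⟩
    refine ⟨n, ?_⟩
    rw [de1_nz]
    exact ZFSet.sound hn
  · rintro ⟨n, hn⟩
    rw [de1_nz] at hn
    exact ⟨⟨n⟩, ZFSet.exact hn⟩

theorem nz_mem_omega (n : ℕ) : nz.{u} n ∈ ZFSet.omega := by
  exact mem_omega.2 ⟨n, rfl⟩

theorem mem_nz {n : ℕ} {x : ZFSet.{u}} : x ∈ nz n ↔ ∃ m, m < n ∧ x = nz m := by
  induction n with
  | zero =>
    constructor
    · intro h
      exact absurd h (notMem_empty x)
    · rintro ⟨m, hm, _⟩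
      exact absurd hm (Nat.not_lt_zero m)
  | succ n ih =>
    change x ∈ (insert (nz n) (nz n) : ZFSet.{u}) ↔ _
    rw [mem_insert_iff, ih]
    constructor
    · rintro (rfl | ⟨m, hm, rfl⟩)
      · exact ⟨n, Nat.lt_succ_self n, rfl⟩
      · exact ⟨m, Nat.lt_succ_of_lt hm, rfl⟩
    · rintro ⟨m, hm, rfl⟩
      rcases Nat.lt_succ_iff_lt_or_eq.1 hm with h | h
      · exact Or.inr ⟨m, h, rfl⟩
      · exact Or.inl (by rw [h])

theorem nz_inj {m n : ℕ} : nz.{u} m = nz n ↔ m = n := by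
  constructor
  · intro h
    rcases lt_trichotomy m n with hlt | heq | hgt
    · exfalso
      have h1 : nz.{u} m ∈ nz n := mem_nz.2 ⟨m, hlt, rfl⟩
      rw [h] at h1
      exact mem_irrefl _ h1
    · exact heq
    · exfalso
      have h1 : nz.{u} n ∈ nz m := mem_nz.2 ⟨n, hgt, rfl⟩
      rw [h] at h1
      exact mem_irrefl _ h1
  · rintro rfl
    rfl

theorem nz_mem_nz {m n : ℕ} : nz.{u} m ∈ nz n ↔ m < n := by
  rw [mem_nz]
  constructor
  · rintro ⟨k, hk, e⟩
    rw [nz_inj.1 e]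
    exact hk
  · intro h
    exact ⟨m, h, rfl⟩

theorem nz_subset_nz {m n : ℕ} : nz.{u} m ⊆ nz n ↔ m ≤ n := by
  constructor
  · intro h
    by_contra hcon
    exact mem_irrefl _ (h (nz_mem_nz.2 (not_le.1 hcon)))
  · intro h x hx
    obtain ⟨k, hk, rfl⟩ := mem_nz.1 hx
    exact nz_mem_nz.2 (lt_of_lt_of_le hk h)

theorem isOrdinal_nz (n : ℕ) : (nz.{u} n).IsOrdinal := by
  induction n with
  | zero => exact isOrdinal_empty
  | succ n ih => exact isOrdinal_succ ih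

theorem isOrdinal_omega : (ZFSet.omega.{u}).IsOrdinal := by
  rw [isOrdinal_iff_forall_mem_isTransitive]
  constructor
  · intro y hy x hx
    obtain ⟨n, rfl⟩ := mem_omega.1 hy
    obtain ⟨k, _, rfl⟩ := mem_nz.1 hx
    exact nz_mem_omega k
  · intro y hy
    obtain ⟨n, rfl⟩ := mem_omega.1 hy
    exact (isOrdinal_nz n).isTransitive

theorem nz_mem_N (hN : ZF N) (n : ℕ) : nz n ∈ N := by
  exact mem_N hN hN.omega (nz_mem_omega n)

theorem fin_nz (n : ℕ) : Fin' (nz.{u} n) := by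
  refine Set.Finite.subset ((Set.finite_lt_nat n).image nz) ?_
  intro x hx
  obtain ⟨k, hk, rfl⟩ := mem_nz.1 hx
  exact ⟨k, hk, rfl⟩

theorem sUnion_nz_succ (n : ℕ) : (⋃₀ (nz.{u} (n + 1)) : ZFSet.{u}) = nz n := by
  ext z
  rw [mem_sUnion]
  constructor
  · rintro ⟨y, hy, hz⟩
    obtain ⟨k, hk, rfl⟩ := mem_nz.1 hy
    exact nz_subset_nz.2 (Nat.lt_succ_iff.1 hk) hz
  · intro hz
    exact ⟨nz n, nz_mem_nz.2 (Nat.lt_succ_self n), hz⟩

/-- An ordinal is either a natural number or contains `ω`. -/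
theorem ord_nat_or {x : ZFSet.{u}} (hx : x.IsOrdinal) : (∃ n, x = nz n) ∨ ZFSet.omega ⊆ x := by
  rcases hx.mem_or_subset isOrdinal_omega with h | h
  · exact Or.inl (mem_omega.1 h)
  · exact Or.inr h

end Pool.Agent.FBZ
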