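import Pool.Agent.FBZ.DC2

/-!
# FBZ module DC3: functions, surjections and ordinals are definable; the relation `Onto`

`Onto N a b` (there is a function of `N` from `a` onto `b`) is the basic comparison of sizes.
* `Dfn.isFunc`: `IsFunc x y f := f ⊆ prod x y ∧ ∀ z ∈ x, ∃! w, pair z w ∈ f`; write `∃! w` as
  `∃ w ∈ N, pair z w ∈ f ∧ ∀ w' ∈ N, pair z w' ∈ f → w' = w` (witnesses are in `N` because
  `f ∈ N`).  `Dfn.surj`: definition of `Surj`.  `Dfn.onto`: definition.  `Dfn.isOrdinal`: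
  `isOrdinal_iff_forall_mem_isTransitive`, `IsTransitive x := ∀ y ∈ x, y ⊆ x`.
* `surj_iff`: `Surj f a b ↔ IsFunc a b f ∧ ∀ y ∈ b, ∃ x ∈ a, ap f x = y`.
* `onto_gr`: `gr F a` is a function onto `img F a`.
* `onto_refl`: `gr id a`.  `onto_trans`: for `f : a → b`, `g : b → c` in `N` the function
  `x ↦ ap g (ap f x)` on `a` is in `N` (`gr_mem` with the parameters `f, g` through `DT.cst`,
  `DT.apT`).  `onto_subset`: `c ⊆ b`, `c` nonempty: `x ↦ if x ∈ c then x else c₀`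
  (`DT.ite`).  `onto_prod`: `p ↦ pair (ap f (fst p)) (ap g (snd p))`, where for `p = pair x y`
  one has `fst p = ⋃₀ (dom {p})` and `snd p = ⋃₀ (ran {p})` (`dom {pair x y} = {x}`).
* `onto_fin`: if `a` is finite and `Onto N a b` then `b` is finite (image of a finite set).
-/

namespace Pool.Agent.FBZ
open ZFSet
universe u
variable {N : Set ZFSet.{u}} {t s r : Env.{u} → ZFSet.{u}}

/-- There is a function of `N` from `a` onto `b`. -/
def Onto (N : Set ZFSet.{u}) (a b : ZFSet.{u}) : Prop := ∃ f ∈ N, Surj f a b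

/-- First and second component of an ordered pair. -/
noncomputable def fs (p : ZFSet.{u}) : ZFSet.{u} := (⋃₀ (dom {p}) : ZFSet.{u})

noncomputable def sn (p : ZFSet.{u}) : ZFSet.{u} := (⋃₀ (ran {p}) : ZFSet.{u})

private theorem dc3_dom {a b f : ZFSet.{u}} (hf : IsFunc a b f) : dom f = a := by
  ext z
  rw [mem_dom]
  constructor
  · rintro ⟨y, hy⟩
    have h1 := hf.1 hy
    rw [pair_mem_prod] at h1
    exact h1.1
  · intro hz
    exact ⟨ap f z, (pair_ap hf hz).1⟩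

theorem fs_pair (x y : ZFSet.{u}) : fs (pair x y) = x := by
  unfold fs
  have h : dom ({pair x y} : ZFSet.{u}) = {x} := by
    ext z
    rw [mem_dom, mem_singleton]
    constructor
    · rintro ⟨b, hb⟩
      rw [mem_singleton, pair_inj] at hb
      exact hb.1
    · rintro rfl
      exact ⟨y, by rw [mem_singleton]⟩
  rw [h, sUnion_singleton]

theorem sn_pair (x y : ZFSet.{u}) : sn (pair x y) = y := by
  unfold sn
  have h : ran ({pair x y} : ZFSet.{u}) = {y} := by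
    ext z
    rw [mem_ran, mem_singleton]
    constructor
    · rintro ⟨b, hb⟩
      rw [mem_singleton, pair_inj] at hb
      exact hb.2
    · rintro rfl
      exact ⟨x, by rw [mem_singleton]⟩
  rw [h, sUnion_singleton]

theorem DT.fsT (hN : ZF N) (ht : DT N t) : DT N (fun v => fs (t v)) := by
  exact DT.sUnionT hN (DT.domT hN (DT.singleT hN ht))

theorem DT.snT (hN : ZF N) (ht : DT N t) : DT N (fun v => sn (t v)) := by
  exact DT.sUnionT hN (DT.ranT hN (DT.singleT hN ht))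

theorem surj_iff {f a b : ZFSet.{u}} :
    Surj f a b ↔ IsFunc a b f ∧ ∀ y ∈ b, ∃ x ∈ a, ap f x = y := by
  constructor
  · rintro ⟨hf, h⟩
    refine ⟨hf, fun y hy => ?_⟩
    obtain ⟨x, hx, hxy⟩ := h y hy
    exact ⟨x, hx, ap_eq hf hxy⟩
  · rintro ⟨hf, h⟩
    refine ⟨hf, fun y hy => ?_⟩
    obtain ⟨x, hx, hxy⟩ := h y hy
    refine ⟨x, hx, ?_⟩
    rw [← hxy]
    exact (pair_ap hf hx).1

theorem Dfn.isFunc (hN : ZF N) (ht : DT N t) (hs : DT N s) (hr : DT N r) :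
    Dfn N (fun v => IsFunc (t v) (s v) (r v)) := by
  refine Dfn.app3 hN (P := fun x y f => IsFunc x y f) ?_ ht hs hr
  refine Dfn.congr (R := fun v => v 2 ⊆ prod (v 0) (v 1) ∧ ∀ z ∈ v 0, ∃ w ∈ N,
    pair z w ∈ v 2 ∧ ∀ w' ∈ N, pair z w' ∈ v 2 → w' = w) ?_ ?_
  · refine Dfn.and ?_ ?_
    · exact Dfn.subset hN (DT.var hN 2) (DT.prodT hN (DT.var hN 0) (DT.var hN 1))
    · refine Dfn.ball hN (Q := fun v z => ∃ w ∈ N,
        pair z w ∈ v 2 ∧ ∀ w' ∈ N, pair z w' ∈ v 2 → w' = w) (DT.var hN 0) ?_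
      refine Dfn.ex (Q := fun v w => pair (v 0) w ∈ v 3 ∧
        ∀ w' ∈ N, pair (v 0) w' ∈ v 3 → w' = w) ?_
      refine Dfn.and ?_ ?_
      · exact Dfn.mem hN (DT.pairT hN (DT.var hN 1) (DT.var hN 0)) (DT.var hN 4)
      · refine Dfn.all (Q := fun v w' => pair (v 1) w' ∈ v 4 → w' = v 0) ?_
        exact Dfn.imp (Dfn.mem hN (DT.pairT hN (DT.var hN 2) (DT.var hN 0)) (DT.var hN 5))
          (Dfn.eq hN (DT.var hN 0) (DT.var hN 1))
  · intro v hv
    constructor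
    · rintro ⟨h1, h2⟩
      refine ⟨h1, fun z hz => ?_⟩
      obtain ⟨w, hw, hu⟩ := h2 z hz
      refine ⟨w, ?_, hw, fun w' _ hw' => hu w' hw'⟩
      exact ((pair_mem_iff hN).1 (mem_N hN (hv 2) hw)).2
    · rintro ⟨h1, h2⟩
      refine ⟨h1, fun z hz => ?_⟩
      obtain ⟨w, _, hw, hu⟩ := h2 z hz
      exact ⟨w, hw, fun w' hw' =>
        hu w' ((pair_mem_iff hN).1 (mem_N hN (hv 2) hw')).2 hw'⟩

theorem Dfn.surj (hN : ZF N) (ht : DT N t) (hs : DT N s) (hr : DT N r) :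
    Dfn N (fun v => Surj (t v) (s v) (r v)) := by
  refine Dfn.app3 hN (P := fun f a b => Surj f a b) ?_ ht hs hr
  refine Dfn.and (R := fun v => IsFunc (v 1) (v 2) (v 0))
    (R' := fun v => ∀ y ∈ v 2, ∃ x ∈ v 1, pair x y ∈ v 0) ?_ ?_
  · exact Dfn.isFunc hN (DT.var hN 1) (DT.var hN 2) (DT.var hN 0)
  · refine Dfn.ball hN (Q := fun v y => ∃ x ∈ v 1, pair x y ∈ v 0) (DT.var hN 2) ?_
    refine Dfn.bex hN (t := fun v => v 2) (Q := fun v x => pair x (v 0) ∈ v 1) (DT.var hN 2) ?_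
    exact Dfn.mem hN (DT.pairT hN (DT.var hN 0) (DT.var hN 1)) (DT.var hN 2)

theorem Dfn.onto (hN : ZF N) (ht : DT N t) (hs : DT N s) :
    Dfn N (fun v => Onto N (t v) (s v)) := by
  exact Dfn.ex (Q := fun v f => Surj f (t v) (s v))
    (Dfn.surj hN (DT.var hN 0) (DT.shift ht) (DT.shift hs))

theorem Dfn.isOrdinal (hN : ZF N) (ht : DT N t) : Dfn N (fun v => (t v).IsOrdinal) := by
  refine Dfn.app1 hN (P := fun x => x.IsOrdinal) ?_ ht
  refine Dfn.congr (R := fun v => (∀ y ∈ v 0, y ⊆ v 0) ∧ ∀ y ∈ v 0, ∀ z ∈ y, z ⊆ y) ?_ ?_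
  · refine Dfn.and ?_ ?_
    · exact Dfn.ball hN (DT.var hN 0) (Dfn.subset hN (DT.var hN 0) (DT.var hN 1))
    · exact Dfn.ball hN (DT.var hN 0)
        (Dfn.ball hN (DT.var hN 0) (Dfn.subset hN (DT.var hN 0) (DT.var hN 1)))
  · intro v hv
    exact isOrdinal_iff_forall_mem_isTransitive

theorem surj_gr (F : ZFSet.{u} → ZFSet.{u}) (a : ZFSet.{u}) : Surj (gr F a) a (img F a) := by
  refine ⟨gr_isFunc fun x hx => mem_img.2 ⟨x, hx, rfl⟩, fun y hy => ?_⟩
  obtain ⟨x, hx, rfl⟩ := mem_img.1 hy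
  exact ⟨x, hx, mem_gr.2 ⟨hx, rfl⟩⟩

theorem onto_img (hN : ZF N) {F : ZFSet.{u} → ZFSet.{u}} (h : DT N (fun v => F (v 0)))
    {a : ZFSet.{u}} (ha : a ∈ N) : Onto N a (img F a) := by
  exact ⟨gr F a, gr_mem hN h ha, surj_gr F a⟩

theorem onto_refl (hN : ZF N) {a : ZFSet.{u}} (ha : a ∈ N) : Onto N a a := by
  have h := onto_img hN (F := fun x => x) (DT.var hN 0) ha
  have e : img (fun x => x) a = a := by
    ext z
    rw [mem_img]
    constructor
    · rintro ⟨x, hx, rfl⟩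
      exact hx
    · intro hz
      exact ⟨z, hz, rfl⟩
  rwa [e] at h

theorem onto_trans (hN : ZF N) {a b c : ZFSet.{u}} (h : Onto N a b) (h' : Onto N b c) :
    Onto N a c := by
  obtain ⟨f, hf, hfs⟩ := h
  obtain ⟨g, hg, hgs⟩ := h'
  have ha : a ∈ N := by
    rw [← dc3_dom hfs.1]
    exact dom_mem hN hf
  have h := onto_img hN (F := fun x => ap g (ap f x))
    (DT.apT hN (DT.cst hN hg) (DT.apT hN (DT.cst hN hf) (DT.var hN 0))) ha
  have e : img (fun x => ap g (ap f x)) a = c := by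
    ext z
    rw [mem_img]
    constructor
    · rintro ⟨x, hx, rfl⟩
      exact (pair_ap hgs.1 (pair_ap hfs.1 hx).2).2
    · intro hz
      obtain ⟨y, hy, hyz⟩ := (surj_iff.1 hgs).2 z hz
      obtain ⟨x, hx, hxy⟩ := (surj_iff.1 hfs).2 y hy
      exact ⟨x, hx, by rw [hxy, hyz]⟩
  rwa [e] at h

theorem onto_subset (hN : ZF N) {b c : ZFSet.{u}} (hb : b ∈ N) (hc : c ∈ N) (hcb : c ⊆ b)
    (hne : c ≠ ∅) : Onto N b c := by
  classical
  obtain ⟨c₀, hc₀⟩ : ∃ c₀, c₀ ∈ c := by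
    by_contra hcon
    exact hne ((eq_empty c).2 fun z hz => hcon ⟨z, hz⟩)
  have h := onto_img hN (F := fun x => @ite _ (x ∈ c) (Classical.propDecidable _) x c₀)
    (DT.ite hN (R := fun v => v 0 ∈ c) (Dfn.mem hN (DT.var hN 0) (DT.cst hN hc)) (DT.var hN 0)
      (DT.cst hN (mem_N hN hc hc₀))) hb
  have e : img (fun x => @ite _ (x ∈ c) (Classical.propDecidable _) x c₀) b = c := by
    ext z
    rw [mem_img]
    constructor
    · rintro ⟨x, hx, rfl⟩
      by_cases hxc : x ∈ c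
      · rw [if_pos hxc]
        exact hxc
      · rw [if_neg hxc]
        exact hc₀
    · intro hz
      exact ⟨z, hcb hz, by rw [if_pos hz]⟩
  rwa [e] at h

theorem onto_prod (hN : ZF N) {a b c d : ZFSet.{u}} (h : Onto N a b) (h' : Onto N c d) :
    Onto N (prod a c) (prod b d) := by
  obtain ⟨f, hf, hfs⟩ := h
  obtain ⟨g, hg, hgs⟩ := h'
  have ha : a ∈ N := by
    rw [← dc3_dom hfs.1]
    exact dom_mem hN hf
  have hc : c ∈ N := by
    rw [← dc3_dom hgs.1]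
    exact dom_mem hN hg
  have h := onto_img hN (F := fun p => pair (ap f (fs p)) (ap g (sn p)))
    (DT.pairT hN (DT.apT hN (DT.cst hN hf) (DT.fsT hN (DT.var hN 0)))
      (DT.apT hN (DT.cst hN hg) (DT.snT hN (DT.var hN 0)))) (prod_mem hN ha hc)
  have e : img (fun p => pair (ap f (fs p)) (ap g (sn p))) (prod a c) = prod b d := by
    ext z
    rw [mem_img, mem_prod]
    constructor
    · rintro ⟨p, hp, rfl⟩
      rw [mem_prod] at hp
      obtain ⟨x, hx, y, hy, rfl⟩ := hp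
      rw [fs_pair, sn_pair]
      exact ⟨_, (pair_ap hfs.1 hx).2, _, (pair_ap hgs.1 hy).2, rfl⟩
    · rintro ⟨x', hx', y', hy', rfl⟩
      obtain ⟨x, hx, hxx⟩ := (surj_iff.1 hfs).2 x' hx'
      obtain ⟨y, hy, hyy⟩ := (surj_iff.1 hgs).2 y' hy'
      refine ⟨pair x y, ?_, ?_⟩
      · rw [mem_prod]
        exact ⟨x, hx, y, hy, rfl⟩
      · rw [fs_pair, sn_pair, hxx, hyy]
  rwa [e] at h

theorem onto_fin {a b : ZFSet.{u}} (h : Onto N a b) (ha : Fin' a) : Fin' b := by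
  obtain ⟨f, _, hfs⟩ := h
  refine Set.Finite.subset (Set.Finite.image (ap f) ha) ?_
  intro y hy
  obtain ⟨x, hx, hxy⟩ := (surj_iff.1 hfs).2 y hy
  exact ⟨x, hx, hxy⟩

theorem isFunc_mono {a b c f : ZFSet.{u}} (hf : IsFunc a b f) (h : b ⊆ c) : IsFunc a c f := by
  refine ⟨fun p hp => ?_, hf.2⟩
  have h1 := hf.1 hp
  rw [mem_prod] at h1 ⊢
  obtain ⟨x, hx, y, hy, e⟩ := h1
  exact ⟨x, hx, y, h hy, e⟩

theorem ran_surj {a b f : ZFSet.{u}} (hf : Surj f a b) : ran f = b := by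
  ext z
  rw [mem_ran]
  constructor
  · rintro ⟨x, hx⟩
    have h1 := hf.1.1 hx
    rw [pair_mem_prod] at h1
    exact h1.2
  · intro hz
    obtain ⟨x, _, hxz⟩ := hf.2 z hz
    exact ⟨x, hxz⟩

theorem onto_mem_left (hN : ZF N) {a b : ZFSet.{u}} (h : Onto N a b) : a ∈ N := by
  obtain ⟨f, hf, hfs⟩ := h
  rw [← dc3_dom hfs.1]
  exact dom_mem hN hf

theorem onto_mem_right (hN : ZF N) {a b : ZFSet.{u}} (h : Onto N a b) : b ∈ N := by
  obtain ⟨f, hf, hfs⟩ := h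
  rw [← ran_surj hfs]
  exact ran_mem hN hf

end Pool.Agent.FBZ
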