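import Pool.Agent.FBZ.FA

/-!
# FBZ module FH: sets of the extension given by relations of the ground model

* `build_one`: the name `x = img (fun c => pair (chk P (fs c)) (sn c)) (C ∩ prod A P)` is in `N`
  (`img_mem`, `DT.chkT`), and by `mem_val`, `val_chk` its value is
  `{a ∈ A : ∃ p ∈ H, pair a p ∈ C}`.
* `build_seq`: for `α ∈ A` the name `x α = img (fun c => pair (chk P (fs c)) (sn c))
  ((prod W P).sep (fun c => pair α c ∈ C))` has value
  `{w ∈ W : ∃ p ∈ H, pair α (pair w p) ∈ C}`; this is a definable term in `α` (`DT.imgT`, `DT.sepT`).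
  The name `X = img (fun c => pair (opn P (chk P (fs c)) (x (fs c))) (sn c)) (prod A P)`
  is in `N` and its value is `{pair α (val H (x α)) : α ∈ A}` (`val_op`, `H ⊆ P` nonempty).
-/

namespace Pool.Agent.FBZ
open ZFSet
universe u
variable {N : Set ZFSet.{u}} {P le H : ZFSet.{u}}

theorem build_one (hN : ZF N) (hP : P ∈ N) (hHP : H ⊆ P) (hne : ∃ p, p ∈ H)
    {A C : ZFSet.{u}} (hA : A ∈ N) (hC : C ∈ N) :
    A.sep (fun a => ∃ p ∈ H, pair a p ∈ C) ∈ Ext N H := by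
  have hS : (prod A P).sep (fun c => c ∈ C) ∈ N := by
    have h1 := DT.sepT hN (t := fun _ => prod A P) (Q := fun _ c => c ∈ C)
      (DT.cst hN (prod_mem hN hA hP)) (Dfn.mem hN (DT.var hN 0) (DT.cst hN hC))
    exact h1.1 (fun _ => ZFSet.omega) (fun _ => hN.omega)
  have hF : DT N (fun v => pair (chk P (fs (v 0))) (sn (v 0))) := by
    have h1 : DT N (fun v => fs (v 0)) := DT.fsT hN (DT.var hN 0)
    have h2 : DT N (fun v => sn (v 0)) := DT.snT hN (DT.var hN 0)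
    exact DT.pairT hN (DT.chkT hN hP h1) h2
  refine ⟨img (fun c => pair (chk P (fs c)) (sn c)) ((prod A P).sep (fun c => c ∈ C)),
    img_mem hN (F := fun c => pair (chk P (fs c)) (sn c)) hF hS, ?_⟩
  ext a
  rw [mem_sep, mem_val]
  constructor
  · rintro ⟨ha, p, hp, hpC⟩
    refine ⟨chk P a, p, hp, ?_, (val_chk hHP hne a).symm⟩
    rw [mem_img]
    refine ⟨pair a p, mem_sep.2 ⟨pair_mem_prod.2 ⟨ha, hHP hp⟩, hpC⟩, ?_⟩
    rw [fs_pair, sn_pair]
  · rintro ⟨y, p, hp, hyp, rfl⟩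
    rw [mem_img] at hyp
    obtain ⟨c, hc, hcy⟩ := hyp
    obtain ⟨hc1, hc2⟩ := mem_sep.1 hc
    obtain ⟨b, hb, q, hq, rfl⟩ := mem_prod.1 hc1
    rw [fs_pair, sn_pair, pair_inj] at hcy
    obtain ⟨rfl, rfl⟩ := hcy
    rw [val_chk hHP hne]
    exact ⟨hb, p, hp, hc2⟩

theorem build_seq (hN : ZF N) (hP : P ∈ N) (hHP : H ⊆ P) (hne : ∃ p, p ∈ H)
    {A W C : ZFSet.{u}} (hA : A ∈ N) (hW : W ∈ N) (hC : C ∈ N) :
    gr (fun α => W.sep (fun w => ∃ p ∈ H, pair α (pair w p) ∈ C)) A ∈ Ext N H := by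
  set x : ZFSet.{u} → ZFSet.{u} := fun α => img (fun c => pair (chk P (fs c)) (sn c))
    ((prod W P).sep (fun c => pair α c ∈ C)) with hx
  have hfs0 : DT N (fun v => fs (v 0)) := DT.fsT hN (DT.var hN 0)
  have hsn0 : DT N (fun v => sn (v 0)) := DT.snT hN (DT.var hN 0)
  have hF0 : DT N (fun v => pair (chk P (fs (v 0))) (sn (v 0))) :=
    DT.pairT hN (DT.chkT hN hP hfs0) hsn0
  have hxT : ∀ {t : Env.{u} → ZFSet.{u}}, DT N t → DT N (fun v => x (t v)) := by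
    intro t ht
    have h1 : DT N (fun v => (prod W P).sep (fun c => pair (t v) c ∈ C)) :=
      DT.sepT hN (t := fun _ => prod W P) (Q := fun v c => pair (t v) c ∈ C)
        (DT.cst hN (prod_mem hN hW hP))
        (Dfn.mem hN (DT.pairT hN (DT.shift ht) (DT.var hN 0)) (DT.cst hN hC))
    exact DT.imgT hN (F := fun _ c => pair (chk P (fs c)) (sn c)) h1 hF0
  have hval : ∀ α, val H (x α) = W.sep (fun w => ∃ p ∈ H, pair α (pair w p) ∈ C) := by
    intro α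
    ext w
    rw [mem_sep, mem_val]
    constructor
    · rintro ⟨y, p, hp, hyp, rfl⟩
      simp only [hx] at hyp
      rw [mem_img] at hyp
      obtain ⟨c, hc, hcy⟩ := hyp
      obtain ⟨hc1, hc2⟩ := mem_sep.1 hc
      obtain ⟨b, hb, q, hq, rfl⟩ := mem_prod.1 hc1
      rw [fs_pair, sn_pair, pair_inj] at hcy
      obtain ⟨rfl, rfl⟩ := hcy
      rw [val_chk hHP hne]
      exact ⟨hb, p, hp, hc2⟩
    · rintro ⟨hw, p, hp, hpC⟩
      refine ⟨chk P w, p, hp, ?_, (val_chk hHP hne w).symm⟩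
      simp only [hx]
      rw [mem_img]
      refine ⟨pair w p, mem_sep.2 ⟨pair_mem_prod.2 ⟨hw, hHP hp⟩, hpC⟩, ?_⟩
      rw [fs_pair, sn_pair]
  have hF1 : DT N (fun v => pair (opn P (chk P (fs (v 0))) (x (fs (v 0)))) (sn (v 0))) :=
    DT.pairT hN (DT.opnT hN hP (DT.chkT hN hP hfs0) (hxT hfs0)) hsn0
  refine ⟨img (fun c => pair (opn P (chk P (fs c)) (x (fs c))) (sn c)) (prod A P),
    img_mem hN (F := fun c => pair (opn P (chk P (fs c)) (x (fs c))) (sn c)) hF1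
      (prod_mem hN hA hP), ?_⟩
  ext z
  rw [mem_gr', mem_val]
  constructor
  · rintro ⟨α, hα, rfl⟩
    obtain ⟨p, hp⟩ := hne
    refine ⟨opn P (chk P α) (x α), p, hp, ?_, ?_⟩
    · rw [mem_img]
      refine ⟨pair α p, pair_mem_prod.2 ⟨hα, hHP hp⟩, ?_⟩
      rw [fs_pair, sn_pair]
    · rw [val_op hHP ⟨p, hp⟩, val_chk hHP ⟨p, hp⟩, hval]
  · rintro ⟨y, p, hp, hyp, rfl⟩
    rw [mem_img] at hyp
    obtain ⟨c, hc, hcy⟩ := hyp
    obtain ⟨α, hα, q, hq, rfl⟩ := mem_prod.1 hc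
    rw [fs_pair, sn_pair, pair_inj] at hcy
    obtain ⟨rfl, rfl⟩ := hcy
    exact ⟨α, hα, by rw [val_op hHP hne, val_chk hHP hne, hval]⟩

end Pool.Agent.FBZ
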