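import Pool.Agent.FBZ.FA

/-!
# FBZ module FI: existence of generic filters over countable models (Rasiowa-Sikorski)

If `N` is countable, the dense sets of `N` are enumerated as `D 0, D 1, ...` (if there is none,
but `P` itself is one).  Choose `p 0 = p`, `p (n+1) ∈ D n` with `pair (p (n+1)) (p n) ∈ le`, and let
`H = P.sep (fun q => ∃ n, pair (p n) q ∈ le)`.  `H ⊆ P`; upward closed (`pair q q' ∈ le` implies
`q' ∈ P` by `field`); directed: if `p m ≤ q`, `p n ≤ q'` then `p (max m n) ∈ H` is below both; it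
meets every dense set of `N`, and `p = p 0 ∈ H`.
-/

namespace Pool.Agent.FBZ
open ZFSet
universe u
variable {N : Set ZFSet.{u}} {P le : ZFSet.{u}}

theorem exists_generic (hf : Forcing P le) (hP : P ∈ N) (hc : N.Countable) {p : ZFSet.{u}}
    (hp : p ∈ P) : ∃ H, Generic N P le H ∧ p ∈ H := by
  classical
  have hPd : Dense P le P := ⟨fun _ h => h, fun q hq => ⟨q, hq, hf.refl q hq⟩⟩
  have hcount : {D : ZFSet.{u} | D ∈ N ∧ Dense P le D}.Countable :=
    hc.mono fun D hD => hD.1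
  obtain ⟨D, hD⟩ := hcount.exists_eq_range ⟨P, hP, hPd⟩
  have hDd : ∀ n, Dense P le (D n) := fun n => by
    have h1 : D n ∈ {D : ZFSet.{u} | D ∈ N ∧ Dense P le D} := by
      rw [hD]
      exact Set.mem_range_self n
    exact h1.2
  have hstep : ∀ (n : ℕ) (q : {q : ZFSet.{u} // q ∈ P}),
      ∃ r : {q : ZFSet.{u} // q ∈ P}, r.1 ∈ D n ∧ pair r.1 q.1 ∈ le := by
    intro n q
    obtain ⟨r, hr, hrq⟩ := (hDd n).2 q.1 q.2
    exact ⟨⟨r, (hDd n).1 hr⟩, hr, hrq⟩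
  choose g hg1 hg2 using hstep
  let s : ℕ → {q : ZFSet.{u} // q ∈ P} := fun n => Nat.rec ⟨p, hp⟩ (fun n q => g n q) n
  have hs : ∀ n, s (n + 1) = g n (s n) := fun n => rfl
  have hmono : ∀ m n, m ≤ n → pair (s n).1 (s m).1 ∈ le := by
    intro m n hmn
    induction n, hmn using Nat.le_induction with
    | base => exact hf.refl _ (s m).2
    | succ n hmn ih =>
      rw [hs]
      exact hf.trans _ _ _ (hg2 n (s n)) ih
  have hfield : ∀ a b : ZFSet.{u}, pair a b ∈ le → a ∈ P ∧ b ∈ P := by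
    intro a b hab
    exact pair_mem_prod.1 (hf.field hab)
  refine ⟨P.sep (fun q => ∃ n, pair (s n).1 q ∈ le), ⟨?_, ?_, ?_, ?_⟩, ?_⟩
  · intro q hq
    exact (mem_sep.1 hq).1
  · intro q hq q' hqq'
    obtain ⟨_, n, hn⟩ := mem_sep.1 hq
    exact mem_sep.2 ⟨(hfield _ _ hqq').2, n, hf.trans _ _ _ hn hqq'⟩
  · intro q hq q' hq'
    obtain ⟨_, n, hn⟩ := mem_sep.1 hq
    obtain ⟨_, m, hm⟩ := mem_sep.1 hq'
    refine ⟨(s (max m n)).1, mem_sep.2 ⟨(s (max m n)).2, max m n, hf.refl _ (s (max m n)).2⟩,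
      ?_, ?_⟩
    · exact hf.trans _ _ _ (hmono n _ (le_max_right m n)) hn
    · exact hf.trans _ _ _ (hmono m _ (le_max_left m n)) hm
  · intro E hE hEd
    have h1 : E ∈ {D : ZFSet.{u} | D ∈ N ∧ Dense P le D} := ⟨hE, hEd⟩
    rw [hD] at h1
    obtain ⟨n, hn⟩ := h1
    refine ⟨(s (n + 1)).1, mem_sep.2 ⟨(s (n + 1)).2, n + 1, hf.refl _ (s (n + 1)).2⟩, ?_⟩
    rw [← hn, hs]
    exact hg1 n (s n)
  · exact mem_sep.2 ⟨hp, 0, hf.refl p hp⟩

end Pool.Agent.FBZ
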