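import Pool.Agent.FBZ.FC

/-!
# FBZ module FD: subsets of ground model sets in the extension

* `flat_one`: let `f = val H x`, `x ∈ N`.  Let `T = tc {img (chk P) A} ∈ N`-like set: a transitive set of
  `N` containing all `chk P a`, `a ∈ A`, e.g. `T = tc (img (chk P) A)` (`img_mem`, `DT.chkT`,
  `tc_mem_N`, `tc_trans`, `subset_tc`).  Put
  `B = {pair a p : a ∈ A, p ∈ P, ∃ w r, pair w r ∈ x ∧ pair p r ∈ le ∧ Forces T P le w (chk P a) p}`
  (a separation from `prod A P` by a definable predicate; use `fs`, `sn`).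
  Openness: `forces_mono` and transitivity of `le`.  Truth: if `p ∈ H`, `pair a p ∈ B`, then `r ∈ H`
  and `val H w = val H (chk P a) = a` by `truth_eq`, so `a ∈ val H x`.  Conversely if
  `a ∈ val H x`, `a = val H w` with `pair w r ∈ x`, `r ∈ H`, then by `truth_eq` some `p ∈ H` has
  `Forces w (chk P a) p`, and a common lower bound of `p` and `r` in `H` is as required.
* `flat_two`: let `F = val H x`.  Let `X = tc x ∪ ...` be a transitive set `T ∈ N` which contains all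
  `chk P (pair n j)` (`n, j ∈ ω`) and all `opn P (chk P β) g` (`β ∈ l`, `g ∈ tc x`), e.g.
  `T = tc (img (chk P) (prod ω ω) ∪ img (fun c => opn P (chk P (fs c)) (sn c)) (prod l (tc x)))`.
  Put `B` = the set of all `pair (pair (pair β n) j) p` (in `prod (prod (prod l ω) ω) P`) such that
  there are `z, r₁, g, w, r` with `pair z r₁ ∈ x`, `g ∈ tc x`, `pair p r₁ ∈ le`,
  `Forces T P le z (opn P (chk P β) g) p`, `pair w r ∈ g`, `pair p r ∈ le`,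
  `Forces T P le w (chk P (pair n j)) p`.
  (→ of the truth statement) if `p ∈ H` is as required then `val H z = pair β (val H g)`
  (`truth_eq`, `val_op`, `val_chk`) is in `F` and `pair n j = val H w ∈ val H g`; take
  `x' = val H g`.  (←) if `pair β x' ∈ F` and `pair n j ∈ x'`: `pair β x' = val H z`,
  `pair z r₁ ∈ x`, `r₁ ∈ H`.  Now `x' ∈ {β, x'} ∈ pair β x' = val H z`, so `x' = val H g` with `g` in
  the transitive closure of `z`, so `g ∈ tc x` (apply `mem_val` twice; if `pair y p ∈ z` then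
  `y ∈ tc z`).  Then `val H z = val H (opn P (chk P β) g)`, and `pair n j = val H w` with
  `pair w r ∈ g`, `r ∈ H`.  `truth_eq` gives two conditions of `H`; take a common lower bound with
  `r₁, r`.
-/

namespace Pool.Agent.FBZ
open ZFSet
universe u
variable {N : Set ZFSet.{u}} {P le H : ZFSet.{u}}

private theorem FD_pair_trans {T a b y : ZFSet.{u}} (hT : T.IsTransitive) (h : pair a b ∈ y)
    (hy : y ∈ T) : a ∈ T := by
  have h1 : pair a b ∈ T := hT.mem_trans h hy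
  have h2 : ({a} : ZFSet.{u}) ∈ T := hT.mem_trans (by simp [pair]) h1
  exact hT.mem_trans (by simp) h2

private theorem FD_le {P le : ZFSet.{u}} (hf : Forcing P le) {a b : ZFSet.{u}}
    (h : pair a b ∈ le) : a ∈ P ∧ b ∈ P := pair_mem_prod.1 (hf.field h)

theorem flat_one (hN : ZF N) (hf : Forcing P le) (hP : P ∈ N) (hle : le ∈ N)
    (hG : Generic N P le H) {f A : ZFSet.{u}} (hfE : f ∈ Ext N H) (hA : A ∈ N) :
    ∃ B ∈ N, B ⊆ prod A P ∧ (∀ a p q, pair a p ∈ B → pair q p ∈ le → pair a q ∈ B) ∧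
      ∀ a ∈ A, (a ∈ f ↔ ∃ p ∈ H, pair a p ∈ B) := by
  obtain ⟨x, hx, rfl⟩ := hfE
  have hne : ∃ p, p ∈ H := gen_nonempty hf hP hG
  have hchk0 : DT N (fun v => chk P (v 0)) := DT.chkT hN hP (DT.var hN 0)
  set T : ZFSet.{u} := tc (img (chk P) A) with hTdef
  have hT : T ∈ N := tc_mem_N hN (img_mem hN (F := chk P) hchk0 hA)
  have hTt : T.IsTransitive := tc_trans _
  have hTc : ∀ a ∈ A, chk P a ∈ T := fun a ha => subset_tc _ (mem_img.2 ⟨a, ha, rfl⟩)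
  have hR : Dfn N (fun v => pair (v 1) (v 0) ∈ x ∧ pair (sn (v 2)) (v 0) ∈ le ∧
      Forces T P le (v 1) (chk P (fs (v 2))) (sn (v 2))) := by
    have hsn : DT N (fun v => sn (v 2)) := DT.snT hN (DT.var hN 2)
    have hfs : DT N (fun v => fs (v 2)) := DT.fsT hN (DT.var hN 2)
    refine Dfn.and ?_ (Dfn.and ?_ ?_)
    · exact Dfn.mem hN (DT.pairT hN (DT.var hN 1) (DT.var hN 0)) (DT.cst hN hx)
    · exact Dfn.mem hN (DT.pairT hN hsn (DT.var hN 0)) (DT.cst hN hle)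
    · exact Dfn.forces hN hT hP hle (DT.var hN 1) (DT.chkT hN hP hfs) hsn
  have hR1 : Dfn N (fun v => ∃ r ∈ N, pair (v 0) r ∈ x ∧ pair (sn (v 1)) r ∈ le ∧
      Forces T P le (v 0) (chk P (fs (v 1))) (sn (v 1))) :=
    Dfn.ex (Q := fun v r => pair (v 0) r ∈ x ∧ pair (sn (v 1)) r ∈ le ∧
      Forces T P le (v 0) (chk P (fs (v 1))) (sn (v 1))) hR
  have hR2 : Dfn N (fun v => ∃ w ∈ N, ∃ r ∈ N, pair w r ∈ x ∧ pair (sn (v 0)) r ∈ le ∧
      Forces T P le w (chk P (fs (v 0))) (sn (v 0))) :=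
    Dfn.ex (Q := fun v w => ∃ r ∈ N, pair w r ∈ x ∧ pair (sn (v 0)) r ∈ le ∧
      Forces T P le w (chk P (fs (v 0))) (sn (v 0))) hR1
  have hB : (prod A P).sep (fun c => ∃ w ∈ N, ∃ r ∈ N, pair w r ∈ x ∧ pair (sn c) r ∈ le ∧
      Forces T P le w (chk P (fs c)) (sn c)) ∈ N := sep_mem hN hR2 (prod_mem hN hA hP)
  have hmem : ∀ a p, pair a p ∈ (prod A P).sep (fun c => ∃ w ∈ N, ∃ r ∈ N, pair w r ∈ x ∧
      pair (sn c) r ∈ le ∧ Forces T P le w (chk P (fs c)) (sn c)) ↔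
      (a ∈ A ∧ p ∈ P) ∧ ∃ w ∈ N, ∃ r ∈ N, pair w r ∈ x ∧ pair p r ∈ le ∧
        Forces T P le w (chk P a) p := by
    intro a p
    rw [mem_sep, pair_mem_prod, fs_pair, sn_pair]
  refine ⟨_, hB, fun c hc => (mem_sep.1 hc).1, ?_, ?_⟩
  · intro a p q hap hqp
    rw [hmem] at hap ⊢
    obtain ⟨⟨ha, hp⟩, w, hw, r, hr, hwr, hpr, hF⟩ := hap
    exact ⟨⟨ha, (FD_le hf hqp).1⟩, w, hw, r, hr, hwr, hf.trans _ _ _ hqp hpr,
      forces_mono hf hF hqp⟩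
  · intro a ha
    constructor
    · intro hax
      obtain ⟨w, r, hr, hwr, haw⟩ := mem_val.1 hax
      have hwN := (pair_mem_iff hN).1 (mem_N hN hx hwr)
      have h1 : val H w = val H (chk P a) := by rw [← haw, val_chk hG.sub hne]
      obtain ⟨p, hp, hF⟩ := (truth_eq hN hf hP hle hG hT hTt hwN.1 (hTc a ha)).1 h1
      obtain ⟨q, hq, hqp, hqr⟩ := hG.dir p hp r hr
      refine ⟨q, hq, ?_⟩
      rw [hmem]
      exact ⟨⟨ha, hG.sub hq⟩, w, hwN.1, r, hwN.2, hwr, hqr, forces_mono hf hF hqp⟩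
    · rintro ⟨p, hp, hap⟩
      rw [hmem] at hap
      obtain ⟨_, w, hw, r, hr, hwr, hpr, hF⟩ := hap
      have h1 : val H w = val H (chk P a) :=
        (truth_eq hN hf hP hle hG hT hTt hw (hTc a ha)).2 ⟨p, hp, hF⟩
      rw [val_chk hG.sub hne] at h1
      exact mem_val.2 ⟨w, r, hG.up p hp r hpr, hwr, h1.symm⟩

theorem flat_two (hN : ZF N) (hf : Forcing P le) (hP : P ∈ N) (hle : le ∈ N)
    (hG : Generic N P le H) {F l : ZFSet.{u}} (hF : F ∈ Ext N H) (hl : l ∈ N) :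
    ∃ B ∈ N, B ⊆ prod (prod (prod l ZFSet.omega) ZFSet.omega) P ∧
      (∀ a p q, pair a p ∈ B → pair q p ∈ le → pair a q ∈ B) ∧
      ∀ β ∈ l, ∀ n ∈ ZFSet.omega.{u}, ∀ j ∈ ZFSet.omega.{u},
        ((∃ x, pair β x ∈ F ∧ pair n j ∈ x) ↔ ∃ p ∈ H, pair (pair (pair β n) j) p ∈ B) := by
  obtain ⟨x, hx, rfl⟩ := hF
  have hne : ∃ p, p ∈ H := gen_nonempty hf hP hG
  have hchk0 : DT N (fun v => chk P (v 0)) := DT.chkT hN hP (DT.var hN 0)
  have htx : tc x ∈ N := tc_mem_N hN hx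
  have htxt : (tc x).IsTransitive := tc_trans _
  have hop0 : DT N (fun v => opn P (chk P (fs (v 0))) (sn (v 0))) := by
    have h1 : DT N (fun v => fs (v 0)) := DT.fsT hN (DT.var hN 0)
    have h2 : DT N (fun v => sn (v 0)) := DT.snT hN (DT.var hN 0)
    exact DT.opnT hN hP (DT.chkT hN hP h1) h2
  have hωω : prod ZFSet.omega.{u} ZFSet.omega.{u} ∈ N := prod_mem hN hN.omega hN.omega
  set T : ZFSet.{u} := tc (img (chk P) (prod ZFSet.omega.{u} ZFSet.omega.{u}) ∪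
    img (fun c => opn P (chk P (fs c)) (sn c)) (prod l (tc x))) with hTdef
  have hT : T ∈ N := tc_mem_N hN (union_mem hN (img_mem hN (F := chk P) hchk0 hωω)
    (img_mem hN (F := fun c => opn P (chk P (fs c)) (sn c)) hop0 (prod_mem hN hl htx)))
  have hTt : T.IsTransitive := tc_trans _
  have hTc : ∀ n ∈ ZFSet.omega.{u}, ∀ j ∈ ZFSet.omega.{u}, chk P (pair n j) ∈ T := by
    intro n hn j hj
    exact subset_tc _ (mem_union.2 (Or.inl (mem_img.2 ⟨pair n j, pair_mem_prod.2 ⟨hn, hj⟩, rfl⟩)))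
  have hTo : ∀ β ∈ l, ∀ g ∈ tc x, opn P (chk P β) g ∈ T := by
    intro β hβ g hg
    refine subset_tc _ (mem_union.2 (Or.inr (mem_img.2
      ⟨pair β g, pair_mem_prod.2 ⟨hβ, hg⟩, ?_⟩)))
    rw [fs_pair, sn_pair]
  have hR : Dfn N (fun v => pair (v 4) (v 3) ∈ x ∧ v 2 ∈ tc x ∧ pair (sn (v 5)) (v 3) ∈ le ∧
      Forces T P le (v 4) (opn P (chk P (fs (fs (fs (v 5))))) (v 2)) (sn (v 5)) ∧
      pair (v 1) (v 0) ∈ v 2 ∧ pair (sn (v 5)) (v 0) ∈ le ∧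
      Forces T P le (v 1) (chk P (pair (sn (fs (fs (v 5)))) (sn (fs (v 5))))) (sn (v 5))) := by
    have hsn : DT N (fun v => sn (v 5)) := DT.snT hN (DT.var hN 5)
    have hfs : DT N (fun v => fs (v 5)) := DT.fsT hN (DT.var hN 5)
    have hffs : DT N (fun v => fs (fs (v 5))) := DT.fsT hN hfs
    have hfffs : DT N (fun v => fs (fs (fs (v 5)))) := DT.fsT hN hffs
    have hsffs : DT N (fun v => sn (fs (fs (v 5)))) := DT.snT hN hffs
    have hsfs : DT N (fun v => sn (fs (v 5))) := DT.snT hN hfs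
    refine Dfn.and ?_ (Dfn.and ?_ (Dfn.and ?_ (Dfn.and ?_ (Dfn.and ?_ (Dfn.and ?_ ?_)))))
    · exact Dfn.mem hN (DT.pairT hN (DT.var hN 4) (DT.var hN 3)) (DT.cst hN hx)
    · exact Dfn.mem hN (DT.var hN 2) (DT.cst hN htx)
    · exact Dfn.mem hN (DT.pairT hN hsn (DT.var hN 3)) (DT.cst hN hle)
    · exact Dfn.forces hN hT hP hle (DT.var hN 4)
        (DT.opnT hN hP (DT.chkT hN hP hfffs) (DT.var hN 2)) hsn
    · exact Dfn.mem hN (DT.pairT hN (DT.var hN 1) (DT.var hN 0)) (DT.var hN 2)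
    · exact Dfn.mem hN (DT.pairT hN hsn (DT.var hN 0)) (DT.cst hN hle)
    · exact Dfn.forces hN hT hP hle (DT.var hN 1)
        (DT.chkT hN hP (DT.pairT hN hsffs hsfs)) hsn
  have hR1 : Dfn N (fun v => ∃ r ∈ N, pair (v 3) (v 2) ∈ x ∧ v 1 ∈ tc x ∧
      pair (sn (v 4)) (v 2) ∈ le ∧
      Forces T P le (v 3) (opn P (chk P (fs (fs (fs (v 4))))) (v 1)) (sn (v 4)) ∧
      pair (v 0) r ∈ v 1 ∧ pair (sn (v 4)) r ∈ le ∧
      Forces T P le (v 0) (chk P (pair (sn (fs (fs (v 4)))) (sn (fs (v 4))))) (sn (v 4))) :=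
    Dfn.ex (Q := fun v r => pair (v 3) (v 2) ∈ x ∧ v 1 ∈ tc x ∧
      pair (sn (v 4)) (v 2) ∈ le ∧
      Forces T P le (v 3) (opn P (chk P (fs (fs (fs (v 4))))) (v 1)) (sn (v 4)) ∧
      pair (v 0) r ∈ v 1 ∧ pair (sn (v 4)) r ∈ le ∧
      Forces T P le (v 0) (chk P (pair (sn (fs (fs (v 4)))) (sn (fs (v 4))))) (sn (v 4))) hR
  have hR2 : Dfn N (fun v => ∃ w ∈ N, ∃ r ∈ N, pair (v 2) (v 1) ∈ x ∧ v 0 ∈ tc x ∧
      pair (sn (v 3)) (v 1) ∈ le ∧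
      Forces T P le (v 2) (opn P (chk P (fs (fs (fs (v 3))))) (v 0)) (sn (v 3)) ∧
      pair w r ∈ v 0 ∧ pair (sn (v 3)) r ∈ le ∧
      Forces T P le w (chk P (pair (sn (fs (fs (v 3)))) (sn (fs (v 3))))) (sn (v 3))) :=
    Dfn.ex (Q := fun v w => ∃ r ∈ N, pair (v 2) (v 1) ∈ x ∧ v 0 ∈ tc x ∧
      pair (sn (v 3)) (v 1) ∈ le ∧
      Forces T P le (v 2) (opn P (chk P (fs (fs (fs (v 3))))) (v 0)) (sn (v 3)) ∧
      pair w r ∈ v 0 ∧ pair (sn (v 3)) r ∈ le ∧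
      Forces T P le w (chk P (pair (sn (fs (fs (v 3)))) (sn (fs (v 3))))) (sn (v 3))) hR1
  have hR3 : Dfn N (fun v => ∃ g ∈ N, ∃ w ∈ N, ∃ r ∈ N, pair (v 1) (v 0) ∈ x ∧ g ∈ tc x ∧
      pair (sn (v 2)) (v 0) ∈ le ∧
      Forces T P le (v 1) (opn P (chk P (fs (fs (fs (v 2))))) g) (sn (v 2)) ∧
      pair w r ∈ g ∧ pair (sn (v 2)) r ∈ le ∧
      Forces T P le w (chk P (pair (sn (fs (fs (v 2)))) (sn (fs (v 2))))) (sn (v 2))) :=
    Dfn.ex (Q := fun v g => ∃ w ∈ N, ∃ r ∈ N, pair (v 1) (v 0) ∈ x ∧ g ∈ tc x ∧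
      pair (sn (v 2)) (v 0) ∈ le ∧
      Forces T P le (v 1) (opn P (chk P (fs (fs (fs (v 2))))) g) (sn (v 2)) ∧
      pair w r ∈ g ∧ pair (sn (v 2)) r ∈ le ∧
      Forces T P le w (chk P (pair (sn (fs (fs (v 2)))) (sn (fs (v 2))))) (sn (v 2))) hR2
  have hR4 : Dfn N (fun v => ∃ r₁ ∈ N, ∃ g ∈ N, ∃ w ∈ N, ∃ r ∈ N, pair (v 0) r₁ ∈ x ∧ g ∈ tc x ∧
      pair (sn (v 1)) r₁ ∈ le ∧
      Forces T P le (v 0) (opn P (chk P (fs (fs (fs (v 1))))) g) (sn (v 1)) ∧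
      pair w r ∈ g ∧ pair (sn (v 1)) r ∈ le ∧
      Forces T P le w (chk P (pair (sn (fs (fs (v 1)))) (sn (fs (v 1))))) (sn (v 1))) :=
    Dfn.ex (Q := fun v r₁ => ∃ g ∈ N, ∃ w ∈ N, ∃ r ∈ N, pair (v 0) r₁ ∈ x ∧ g ∈ tc x ∧
      pair (sn (v 1)) r₁ ∈ le ∧
      Forces T P le (v 0) (opn P (chk P (fs (fs (fs (v 1))))) g) (sn (v 1)) ∧
      pair w r ∈ g ∧ pair (sn (v 1)) r ∈ le ∧
      Forces T P le w (chk P (pair (sn (fs (fs (v 1)))) (sn (fs (v 1))))) (sn (v 1))) hR3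
  have hR5 : Dfn N (fun v => ∃ z ∈ N, ∃ r₁ ∈ N, ∃ g ∈ N, ∃ w ∈ N, ∃ r ∈ N,
      pair z r₁ ∈ x ∧ g ∈ tc x ∧ pair (sn (v 0)) r₁ ∈ le ∧
      Forces T P le z (opn P (chk P (fs (fs (fs (v 0))))) g) (sn (v 0)) ∧
      pair w r ∈ g ∧ pair (sn (v 0)) r ∈ le ∧
      Forces T P le w (chk P (pair (sn (fs (fs (v 0)))) (sn (fs (v 0))))) (sn (v 0))) :=
    Dfn.ex (Q := fun v z => ∃ r₁ ∈ N, ∃ g ∈ N, ∃ w ∈ N, ∃ r ∈ N,
      pair z r₁ ∈ x ∧ g ∈ tc x ∧ pair (sn (v 0)) r₁ ∈ le ∧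
      Forces T P le z (opn P (chk P (fs (fs (fs (v 0))))) g) (sn (v 0)) ∧
      pair w r ∈ g ∧ pair (sn (v 0)) r ∈ le ∧
      Forces T P le w (chk P (pair (sn (fs (fs (v 0)))) (sn (fs (v 0))))) (sn (v 0))) hR4
  have hB := sep_mem hN (a := prod (prod (prod l ZFSet.omega.{u}) ZFSet.omega.{u}) P)
    (Q := fun c => ∃ z ∈ N, ∃ r₁ ∈ N, ∃ g ∈ N, ∃ w ∈ N, ∃ r ∈ N,
      pair z r₁ ∈ x ∧ g ∈ tc x ∧ pair (sn c) r₁ ∈ le ∧
      Forces T P le z (opn P (chk P (fs (fs (fs c)))) g) (sn c) ∧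
      pair w r ∈ g ∧ pair (sn c) r ∈ le ∧
      Forces T P le w (chk P (pair (sn (fs (fs c))) (sn (fs c)))) (sn c)) hR5
    (prod_mem hN (prod_mem hN (prod_mem hN hl hN.omega) hN.omega) hP)
  have hmem : ∀ β n j p, pair (pair (pair β n) j) p ∈
      (prod (prod (prod l ZFSet.omega.{u}) ZFSet.omega.{u}) P).sep
      (fun c => ∃ z ∈ N, ∃ r₁ ∈ N, ∃ g ∈ N, ∃ w ∈ N, ∃ r ∈ N,
      pair z r₁ ∈ x ∧ g ∈ tc x ∧ pair (sn c) r₁ ∈ le ∧
      Forces T P le z (opn P (chk P (fs (fs (fs c)))) g) (sn c) ∧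
      pair w r ∈ g ∧ pair (sn c) r ∈ le ∧
      Forces T P le w (chk P (pair (sn (fs (fs c))) (sn (fs c)))) (sn c)) ↔
      (((β ∈ l ∧ n ∈ ZFSet.omega.{u}) ∧ j ∈ ZFSet.omega.{u}) ∧ p ∈ P) ∧
      ∃ z ∈ N, ∃ r₁ ∈ N, ∃ g ∈ N, ∃ w ∈ N, ∃ r ∈ N,
      pair z r₁ ∈ x ∧ g ∈ tc x ∧ pair p r₁ ∈ le ∧
      Forces T P le z (opn P (chk P β) g) p ∧
      pair w r ∈ g ∧ pair p r ∈ le ∧
      Forces T P le w (chk P (pair n j)) p := by
    intro β n j p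
    rw [mem_sep, pair_mem_prod, pair_mem_prod, pair_mem_prod, fs_pair, sn_pair, fs_pair, sn_pair,
      fs_pair, sn_pair]
  refine ⟨_, hB, fun c hc => (mem_sep.1 hc).1, ?_, ?_⟩
  · intro a p q hap hqp
    obtain ⟨a', ha', p', hp', hpe⟩ := mem_prod.1 (mem_sep.1 hap).1
    obtain ⟨rfl, rfl⟩ := pair_inj.1 hpe
    obtain ⟨b, hb, j, hj, rfl⟩ := mem_prod.1 ha'
    obtain ⟨β, hβ, n, hn, rfl⟩ := mem_prod.1 hb
    rw [hmem] at hap ⊢
    obtain ⟨⟨h1, _⟩, z, hz, r₁, hr₁, g, hg, w, hw, r, hr, h2, h3, h4, h5, h6, h7, h8⟩ := hap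
    exact ⟨⟨h1, (FD_le hf hqp).1⟩, z, hz, r₁, hr₁, g, hg, w, hw, r, hr, h2, h3,
      hf.trans _ _ _ hqp h4, forces_mono hf h5 hqp, h6, hf.trans _ _ _ hqp h7,
      forces_mono hf h8 hqp⟩
  · intro β hβ n hn j hj
    constructor
    · rintro ⟨x', hx', hnj⟩
      obtain ⟨z, r₁, hr₁, hzr₁, hz⟩ := mem_val.1 hx'
      have hzt : z ∈ tc x := by
        have h1 : pair z r₁ ∈ tc x := subset_tc _ hzr₁
        have h2 : ({z} : ZFSet.{u}) ∈ tc x := htxt.mem_trans (by simp [pair]) h1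
        exact htxt.mem_trans (by simp) h2
      have hy1 : ({β, x'} : ZFSet.{u}) ∈ val H z := by
        rw [← hz]
        simp [pair]
      obtain ⟨y1, p1, hp1, hyp1, hy1e⟩ := mem_val.1 hy1
      have hx1 : x' ∈ val H y1 := by
        rw [← hy1e]
        simp
      obtain ⟨g, p2, hp2, hgp2, hge⟩ := mem_val.1 hx1
      have hy1t : y1 ∈ tc x := FD_pair_trans htxt hyp1 hzt
      have hgt : g ∈ tc x := FD_pair_trans htxt hgp2 hy1t
      subst hge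
      obtain ⟨w, r, hr, hwr, hwe⟩ := mem_val.1 hnj
      have hwt : w ∈ tc x := FD_pair_trans htxt hwr hgt
      have hrN : r ∈ N := ((pair_mem_iff hN).1 (mem_N hN (mem_N hN htx hgt) hwr)).2
      have hr₁N : r₁ ∈ N := ((pair_mem_iff hN).1 (mem_N hN hx hzr₁)).2
      have e1 : val H z = val H (opn P (chk P β) g) := by
        rw [val_op hG.sub hne, val_chk hG.sub hne, ← hz]
      have e2 : val H w = val H (chk P (pair n j)) := by
        rw [val_chk hG.sub hne, ← hwe]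
      obtain ⟨a1, ha1, hF1⟩ := (truth_eq hN hf hP hle hG hT hTt (mem_N hN htx hzt)
        (hTo β hβ g hgt)).1 e1
      obtain ⟨a2, ha2, hF2⟩ := (truth_eq hN hf hP hle hG hT hTt (mem_N hN htx hwt)
        (hTc n hn j hj)).1 e2
      obtain ⟨b1, hb1, hb11, hb12⟩ := hG.dir a1 ha1 a2 ha2
      obtain ⟨b2, hb2, hb21, hb22⟩ := hG.dir r₁ hr₁ r hr
      obtain ⟨q, hq, hq1, hq2⟩ := hG.dir b1 hb1 b2 hb2
      refine ⟨q, hq, ?_⟩
      rw [hmem]
      exact ⟨⟨⟨⟨hβ, hn⟩, hj⟩, hG.sub hq⟩, z, mem_N hN htx hzt, r₁, hr₁N, g, mem_N hN htx hgt,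
        w, mem_N hN htx hwt, r, hrN, hzr₁, hgt, hf.trans _ _ _ hq2 hb21,
        forces_mono hf hF1 (hf.trans _ _ _ hq1 hb11), hwr, hf.trans _ _ _ hq2 hb22,
        forces_mono hf hF2 (hf.trans _ _ _ hq1 hb12)⟩
    · rintro ⟨p, hp, hB⟩
      rw [hmem] at hB
      obtain ⟨_, z, hz, r₁, hr₁, g, hg, w, hw, r, hr, h2, h3, h4, h5, h6, h7, h8⟩ := hB
      have e1 : val H z = val H (opn P (chk P β) g) :=
        (truth_eq hN hf hP hle hG hT hTt hz (hTo β hβ g h3)).2 ⟨p, hp, h5⟩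
      have e2 : val H w = val H (chk P (pair n j)) :=
        (truth_eq hN hf hP hle hG hT hTt hw (hTc n hn j hj)).2 ⟨p, hp, h8⟩
      rw [val_op hG.sub hne, val_chk hG.sub hne] at e1
      rw [val_chk hG.sub hne] at e2
      refine ⟨val H g, ?_, ?_⟩
      · rw [← e1]
        exact mem_val.2 ⟨z, r₁, hG.up p hp r₁ h4, h2, rfl⟩
      · rw [← e2]
        exact mem_val.2 ⟨w, r, hG.up p hp r h7, h6, rfl⟩

end Pool.Agent.FBZ
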