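import Pool.Agent.FBZ.FA
import Pool.Agent.FBZ.DK

/-!
# FBZ module FJ: ordinals and cardinals of the extension

* `rank_val_le`: `(val H x).rank ≤ x.rank`, by induction on `x.rank`: `rank_le_iff`, `mem_val`: the
  elements of `val H x` are the `val H y` with `pair y p ∈ x`, and `rank y < rank x`.
* `rkz x` is the rank of `x` as a von Neumann ordinal:
  `rkz x = ⋃₀ (img (fun z => insert (rkz z) (rkz z)) x)`; `rkz x = (x.rank).toZFSet` by
  `∈`-induction (extensionality, `Ordinal.mem_toZFSet_iff`, `lt_rank_iff`).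
  It is a definable term by `DT.recFT`, so `rkz x ∈ N` for `x ∈ N`.
* `ord_ext_mem`: let `α = val H x` be an ordinal, `x ∈ N`.  `α = (α.rank).toZFSet ⊆
  (x.rank).toZFSet = rkz x` (`IsOrdinal.toZFSet_rank_eq`, `Ordinal.toZFSet_monotone`), both are
  ordinals, so `α = rkz x` or `α ∈ rkz x`, and `α ∈ N`.
* `card_of_card_ext`: `N ⊆ Ext N H` (`mem_Ext_of_mem`).
* `succ_ext`: if `Card N a ↔ Card (Ext N H) a` for all `a` then `SuccCard N μ κ ↔ SuccCard (Ext N H) μ κ`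
  (immediate from the definition).
-/

namespace Pool.Agent.FBZ
open ZFSet
universe u
variable {N : Set ZFSet.{u}} {P le H : ZFSet.{u}}

theorem rank_val_le (H x : ZFSet.{u}) : (val H x).rank ≤ x.rank := by
  induction x using (InvImage.wf ZFSet.rank.{u} wellFounded_lt).induction with
  | _ x ih =>
    rw [rank_le_iff]
    intro z hz
    obtain ⟨y, p, hp, hyp, rfl⟩ := mem_val.1 hz
    have h1 : y.rank < x.rank := rank_lt_of_mem_actv (mem_actv.2 ⟨p, hp, hyp⟩)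
    exact (ih y h1).trans_lt h1

private noncomputable def rkz : ZFSet.{u} → ZFSet.{u} :=
  recF (fun g => (⋃₀ (img (fun y => (insert y y : ZFSet.{u})) (ran g)) : ZFSet.{u}))

private theorem rkz_eq (x : ZFSet.{u}) :
    rkz x = (⋃₀ (img (fun y => (insert y y : ZFSet.{u})) (img rkz x)) : ZFSet.{u}) := by
  unfold rkz
  rw [recF_eq, ran_gr]

private theorem mem_rkz {x z : ZFSet.{u}} : z ∈ rkz x ↔ ∃ w ∈ x, z ∈ (insert (rkz w) (rkz w) : ZFSet.{u}) := by
  rw [rkz_eq, mem_sUnion]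
  constructor
  · rintro ⟨a, ha, hz⟩
    obtain ⟨b, hb, rfl⟩ := mem_img.1 ha
    obtain ⟨w, hw, rfl⟩ := mem_img.1 hb
    exact ⟨w, hw, hz⟩
  · rintro ⟨w, hw, hz⟩
    exact ⟨_, mem_img.2 ⟨rkz w, mem_img.2 ⟨w, hw, rfl⟩, rfl⟩, hz⟩

private theorem rkz_rank (x : ZFSet.{u}) : rkz x = x.rank.toZFSet := by
  induction x using ZFSet.inductionOn with
  | _ x ih =>
    ext z
    rw [mem_rkz, Ordinal.mem_toZFSet_iff]
    constructor
    · rintro ⟨w, hw, hz⟩
      rw [ih w hw, ← Ordinal.toZFSet_succ, Ordinal.mem_toZFSet_iff] at hz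
      obtain ⟨a, ha, rfl⟩ := hz
      exact ⟨a, (Order.lt_succ_iff.1 ha).trans_lt (rank_lt_of_mem hw), rfl⟩
    · rintro ⟨a, ha, rfl⟩
      obtain ⟨w, hw, haw⟩ := lt_rank_iff.1 ha
      refine ⟨w, hw, ?_⟩
      rw [ih w hw, ← Ordinal.toZFSet_succ, Ordinal.mem_toZFSet_iff]
      exact ⟨a, Order.lt_succ_iff.2 haw, rfl⟩

private theorem rkz_mem (hN : ZF N) {x : ZFSet.{u}} (hx : x ∈ N) : rkz x ∈ N := by
  have h1 : DT N (fun v : Env.{u} => rkz (v 0)) := by
    unfold rkz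
    refine DT.recFT (Φ := fun _ g => (⋃₀ (img (fun y => (insert y y : ZFSet.{u})) (ran g)) : ZFSet.{u}))
      hN ?_ (DT.var hN 0)
    refine DT.sUnionT hN (DT.imgT (F := fun _ y => (insert y y : ZFSet.{u})) hN
      (DT.ranT hN (DT.var hN 0)) ?_)
    exact DT.insertT hN (DT.var hN 0) (DT.var hN 0)
  have h2 := h1.1 (fun _ => x) (fun _ => hx)
  exact h2

theorem toZFSet_rank_mem (hN : ZF N) {x : ZFSet.{u}} (hx : x ∈ N) : x.rank.toZFSet ∈ N := by
  rw [← rkz_rank]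
  exact rkz_mem hN hx

theorem ord_ext_mem (hN : ZF N) {α : ZFSet.{u}} (hα : α ∈ Ext N H) (ho : α.IsOrdinal) :
    α ∈ N := by
  obtain ⟨x, hx, rfl⟩ := hα
  have h1 : (val H x).rank ≤ x.rank := rank_val_le H x
  have h2 : (val H x).rank.toZFSet = val H x := ho.toZFSet_rank_eq
  have h3 := toZFSet_rank_mem hN hx
  rcases h1.eq_or_lt with h | h
  · rw [← h2, h]
    exact h3
  · rw [← h2]
    exact hN.trans _ h3 _ (Ordinal.toZFSet_mem_toZFSet_iff.2 h)

theorem card_of_card_ext (hN : ZF N) (hP : P ∈ N) (hHP : H ⊆ P) (hne : ∃ p, p ∈ H)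
    {a : ZFSet.{u}} (h : Card (Ext N H) a) : Card N a :=
  ⟨ord_ext_mem hN h.1 h.2.1, h.2.1, fun b hb f hf => h.2.2 b hb f (mem_Ext_of_mem hN hP hHP hne hf)⟩

theorem succ_ext (h : ∀ a : ZFSet.{u}, Card N a ↔ Card (Ext N H) a) (μ κ : ZFSet.{u}) :
    SuccCard N μ κ ↔ SuccCard (Ext N H) μ κ := by
  unfold SuccCard
  simp only [h]

end Pool.Agent.FBZ
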