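import Pool.Agent.FBZ.DE1

/-!
# FBZ module DE2: finite sets in `N`

* `fin_mem`: for a finite set `s : Set ZFSet` with all elements in `N` there is `z ∈ N` with
  `∀ y, y ∈ z ↔ y ∈ s` (`Set.Finite.induction_on`, `empty_mem`, `insert_mem`); then `x = z`.
* `fin_onto`: a finite nonempty `x ⊆ N` is enumerated as `x = {x_0, ..., x_{n-1}}`; the set
  `f = {pair (nz i) (x_i) : i < n}` is finite with elements in `N`, so in `N`, and
  `Surj f (nz n) x`.  (Take `n = ncard x` and a bijection with `Fin n`; or do an induction: if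
  `Surj f (nz n) x` then `insert (pair (nz n) a) f` is a surjection `nz (n+1) → insert a x`.)
* `Dfn.fin`: for `x ∈ N`: `Fin' x ↔ x = ∅ ∨ ∃ n ∈ ω, Onto N n x` (by `fin_onto`; conversely
  `onto_fin` and `fin_nz`, `mem_omega`).
* `DT.finsetT`: `finset x = (powN N x).sep Fin'` for `x ∈ N` by `fin_mem`; `DT.sepT`, `DT.powT`.
* `nc x = nz (ncard x)` is the number of elements of the finite set `x`.
  For `x ∈ N`: `y = nc x ↔ (¬ Fin' x ∧ y = ∅) ∨ (Fin' x ∧ y ∈ ω ∧ ∃ f ∈ N, IsFunc y x f ∧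
  (∀ z ∈ x, ∃! i, i ∈ y ∧ pair i z ∈ f))` (bijections `nz n → x`; such an `f` exists in `N` for
  `n = ncard x` because the graph of an external bijection is a finite set of elements of `N`; and a
  bijection `nz n → x` shows `ncard x = n`).  The value `nc x` is in `N` by `nz_mem_N`.
* `powerset`/`finset` closure: subsets, unions and insertions of finite sets are finite.
-/

namespace Pool.Agent.FBZ
open ZFSet
universe u
variable {N : Set ZFSet.{u}} {t : Env.{u} → ZFSet.{u}}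

/-- The number of elements of a finite set, as an element of `ω`. -/
noncomputable def nc (x : ZFSet.{u}) : ZFSet.{u} := nz (x : Set ZFSet.{u}).ncard

private theorem de2_ex_mem (hN : ZF N) (s : Set ZFSet.{u}) (hs : s.Finite) :
    (∀ y ∈ s, y ∈ N) → ∃ z ∈ N, ∀ y, y ∈ z ↔ y ∈ s := by
  refine Set.Finite.induction_on
    (motive := fun s _ => (∀ y ∈ s, y ∈ N) → ∃ z ∈ N, ∀ y, y ∈ z ↔ y ∈ s) s hs ?_ ?_
  · intro _
    exact ⟨∅, empty_mem hN, fun y => by simp⟩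
  · intro a s _ _ ih h
    obtain ⟨z, hz, hzs⟩ := ih fun y hy => h y (Set.mem_insert_of_mem _ hy)
    refine ⟨insert a z, insert_mem hN (h a (Set.mem_insert _ _)) hz, fun y => ?_⟩
    rw [mem_insert_iff, Set.mem_insert_iff, hzs]

private theorem de2_ex_set (s : Set ZFSet.{u}) (hs : s.Finite) :
    ∃ z : ZFSet.{u}, ∀ y, y ∈ z ↔ y ∈ s := by
  refine Set.Finite.induction_on
    (motive := fun s _ => ∃ z : ZFSet.{u}, ∀ y, y ∈ z ↔ y ∈ s) s hs ?_ ?_
  · exact ⟨∅, fun y => by simp⟩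
  · intro a s _ _ ih
    obtain ⟨z, hzs⟩ := ih
    refine ⟨insert a z, fun y => ?_⟩
    rw [mem_insert_iff, Set.mem_insert_iff, hzs]

private theorem de2_fin_img {F : ZFSet.{u} → ZFSet.{u}} {a : ZFSet.{u}} (h : Fin' a) :
    Fin' (img F a) := by
  refine Set.Finite.subset (Set.Finite.image F h) ?_
  intro y hy
  obtain ⟨x, hx, e⟩ := mem_img.1 hy
  exact ⟨x, hx, e.symm⟩

/-- A bijective enumeration of a finite set by the natural number `nc x`. -/
private theorem de2_enum {x : ZFSet.{u}} (hx : Fin' x) :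
    ∃ F : ZFSet.{u} → ZFSet.{u},
      (∀ i < (x : Set ZFSet.{u}).ncard, F (nz i) ∈ x) ∧
      (∀ z ∈ x, ∃ i < (x : Set ZFSet.{u}).ncard, F (nz i) = z) ∧
      (∀ i < (x : Set ZFSet.{u}).ncard, ∀ j < (x : Set ZFSet.{u}).ncard,
        F (nz i) = F (nz j) → i = j) := by
  classical
  have hc : hx.toFinset.card = (x : Set ZFSet.{u}).ncard := (Set.ncard_eq_toFinset_card _ hx).symm
  obtain ⟨n, hn⟩ : ∃ n, n = (x : Set ZFSet.{u}).ncard := ⟨_, rfl⟩
  rw [← hn] at hc ⊢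
  subst hc
  let e := hx.toFinset.equivFin
  refine ⟨fun z => if h : ∃ i : Fin hx.toFinset.card, z = nz i then (e.symm h.choose).1 else ∅,
    ?_⟩
  have key : ∀ i (hi : i < hx.toFinset.card),
      (if h : ∃ j : Fin hx.toFinset.card, nz.{u} i = nz j then (e.symm h.choose).1 else ∅) =
        (e.symm ⟨i, hi⟩).1 := by
    intro i hi
    have h : ∃ j : Fin hx.toFinset.card, nz.{u} i = nz j := ⟨⟨i, hi⟩, rfl⟩
    rw [dif_pos h]
    have h1 : h.choose = ⟨i, hi⟩ := by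
      have h2 := nz_inj.1 h.choose_spec
      exact Fin.ext h2.symm
    rw [h1]
  refine ⟨fun i hi => ?_, fun z hz => ?_, fun i hi j hj hij => ?_⟩
  · simp only []
    rw [key i hi]
    have h2 := (e.symm ⟨i, hi⟩).2
    rw [Set.Finite.mem_toFinset] at h2
    exact h2
  · have hz' : z ∈ hx.toFinset := by
      rw [Set.Finite.mem_toFinset]
      exact hz
    refine ⟨(e ⟨z, hz'⟩).1, (e ⟨z, hz'⟩).2, ?_⟩
    simp only []
    rw [key _ (e ⟨z, hz'⟩).2]
    have : (⟨(e ⟨z, hz'⟩).1, (e ⟨z, hz'⟩).2⟩ : Fin hx.toFinset.card) = e ⟨z, hz'⟩ := rfl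
    rw [this, Equiv.symm_apply_apply]
  · simp only [] at hij
    rw [key i hi, key j hj] at hij
    have h2 := e.symm.injective (Subtype.ext hij)
    exact congrArg Fin.val h2

theorem fin_mem (hN : ZF N) {x : ZFSet.{u}} (hx : Fin' x) (h : ∀ y ∈ x, y ∈ N) : x ∈ N := by
  obtain ⟨z, hz, hzs⟩ := de2_ex_mem hN (x : Set ZFSet.{u}) hx h
  have e : x = z := by
    ext y
    rw [hzs]
    rfl
  rw [e]
  exact hz

private theorem de2_gr_mem (hN : ZF N) {x : ZFSet.{u}} (h : ∀ y ∈ x, y ∈ N)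
    {F : ZFSet.{u} → ZFSet.{u}} {n : ℕ} (hF : ∀ i < n, F (nz i) ∈ x) : gr F (nz n) ∈ N := by
  refine fin_mem hN (de2_fin_img (fin_nz n)) fun p hp => ?_
  obtain ⟨y, hy, rfl⟩ := mem_gr'.1 hp
  obtain ⟨i, hi, rfl⟩ := mem_nz.1 hy
  exact pair_mem hN (nz_mem_N hN i) (h _ (hF i hi))

theorem fin_onto (hN : ZF N) {x : ZFSet.{u}} (hx : Fin' x) (h : ∀ y ∈ x, y ∈ N) (hne : x ≠ ∅) :
    ∃ n : ℕ, Onto N (nz n) x := by
  have _ := hne
  obtain ⟨F, h1, h2, -⟩ := de2_enum hx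
  refine ⟨(x : Set ZFSet.{u}).ncard, gr F (nz (x : Set ZFSet.{u}).ncard),
    de2_gr_mem hN h h1, ?_⟩
  have h3 := surj_gr F (nz (x : Set ZFSet.{u}).ncard)
  have e : img F (nz (x : Set ZFSet.{u}).ncard) = x := by
    ext z
    rw [mem_img]
    constructor
    · rintro ⟨y, hy, rfl⟩
      obtain ⟨i, hi, rfl⟩ := mem_nz.1 hy
      exact h1 i hi
    · intro hz
      obtain ⟨i, hi, e⟩ := h2 z hz
      exact ⟨nz i, mem_nz.2 ⟨i, hi, rfl⟩, e.symm⟩
  rw [e] at h3
  exact h3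

theorem Dfn.fin (hN : ZF N) (ht : DT N t) : Dfn N (fun v => Fin' (t v)) := by
  refine Dfn.congr (R := fun v => t v = ∅ ∨ ∃ n ∈ ZFSet.omega, Onto N n (t v)) ?_ ?_
  · refine Dfn.or (Dfn.eq hN ht (DT.empty hN)) ?_
    exact Dfn.bex hN (Q := fun v n => Onto N n (t v)) (DT.omegaT hN)
      (Dfn.onto hN (DT.var hN 0) ht.shift)
  · intro v hv
    constructor
    · intro h
      by_cases h0 : t v = ∅
      · exact Or.inl h0
      · obtain ⟨n, hn⟩ := fin_onto hN h (fun y hy => mem_N hN (ht.1 v hv) hy) h0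
        exact Or.inr ⟨nz n, nz_mem_omega n, hn⟩
    · rintro (h | ⟨n, hn, h⟩)
      · rw [h]
        unfold Fin'
        rw [coe_empty]
        exact Set.finite_empty
      · obtain ⟨k, rfl⟩ := mem_omega.1 hn
        exact onto_fin h (fin_nz k)

theorem mem_finset {x z : ZFSet.{u}} : z ∈ finset x ↔ z ⊆ x ∧ Fin' z := by
  unfold finset
  rw [mem_sep, mem_powerset]

theorem DT.finsetT (hN : ZF N) (ht : DT N t) : DT N (fun v => finset (t v)) := by
  have h : DT N (fun v => (powN N (t v)).sep Fin') :=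
    DT.sepT hN (Q := fun _ z => Fin' z) (DT.powT hN ht) (Dfn.fin hN (DT.var hN 0))
  refine h.congr fun v hv => ?_
  ext z
  rw [mem_finset, mem_sep, mem_powN]
  constructor
  · rintro ⟨h1, h2⟩
    exact ⟨⟨fin_mem hN h2 fun y hy => mem_N hN (ht.1 v hv) (h1 hy), h1⟩, h2⟩
  · rintro ⟨⟨-, h1⟩, h2⟩
    exact ⟨h1, h2⟩

theorem finset_mem (hN : ZF N) {x : ZFSet.{u}} (hx : x ∈ N) : finset x ∈ N := by
  exact (DT.finsetT hN (DT.var hN 0)).1 (fun _ => x) (fun _ => hx)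

private theorem de2_nc (hN : ZF N) {x y : ZFSet.{u}} (hx : x ∈ N) :
    y = nc x ↔ (¬ Fin' x ∧ y = ∅) ∨ (Fin' x ∧ y ∈ ZFSet.omega ∧ ∃ f ∈ N, IsFunc y x f ∧
      ∀ z ∈ x, ∃ i ∈ y, pair i z ∈ f ∧ ∀ j ∈ y, pair j z ∈ f → j = i) := by
  by_cases hf : Fin' x
  · constructor
    · rintro rfl
      refine Or.inr ⟨hf, nz_mem_omega _, ?_⟩
      obtain ⟨F, h1, h2, h3⟩ := de2_enum hf
      refine ⟨gr F (nc x), de2_gr_mem hN (fun y hy => mem_N hN hx hy) h1, ?_, ?_⟩
      · refine gr_isFunc fun y hy => ?_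
        obtain ⟨i, hi, rfl⟩ := mem_nz.1 hy
        exact h1 i hi
      · intro z hz
        obtain ⟨i, hi, e⟩ := h2 z hz
        refine ⟨nz i, mem_nz.2 ⟨i, hi, rfl⟩, mem_gr.2 ⟨mem_nz.2 ⟨i, hi, rfl⟩, e.symm⟩, ?_⟩
        intro j hj hjz
        obtain ⟨k, hk, rfl⟩ := mem_nz.1 hj
        have h4 := (mem_gr.1 hjz).2
        rw [← e] at h4
        rw [h3 i hi k hk h4]
    · rintro (⟨h, -⟩ | ⟨-, hy, f, -, hfun, hb⟩)
      · exact absurd hf h
      · obtain ⟨n, rfl⟩ := mem_omega.1 hy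
        unfold nc
        rw [nz_inj]
        have h1 : ∀ z ∈ x, ∃ i, i < n ∧ pair (nz i) z ∈ f := by
          intro z hz
          obtain ⟨i, hi, h, -⟩ := hb z hz
          obtain ⟨k, hk, rfl⟩ := mem_nz.1 hi
          exact ⟨k, hk, h⟩
        -- the map `i ↦ ap f (nz i)` is a bijection from `range n` onto `x`
        have h2 : (x : Set ZFSet.{u}) = (fun i : ℕ => ap f (nz i)) '' (Set.Iio n) := by
          ext z
          constructor
          · intro hz
            obtain ⟨i, hi, h⟩ := h1 z hz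
            exact ⟨i, hi, ap_eq hfun h⟩
          · rintro ⟨i, hi, rfl⟩
            exact (pair_ap hfun (mem_nz.2 ⟨i, hi, rfl⟩)).2
        rw [h2, Set.InjOn.ncard_image]
        · rw [Set.ncard_eq_toFinset_card']
          simp
        · intro i hi j hj hij
          have hi' : nz.{u} i ∈ nz n := mem_nz.2 ⟨i, hi, rfl⟩
          have hj' : nz.{u} j ∈ nz n := mem_nz.2 ⟨j, hj, rfl⟩
          obtain ⟨h3, h4⟩ := pair_ap hfun hi'
          obtain ⟨h5, -⟩ := pair_ap hfun hj'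
          obtain ⟨k, -, -, hk⟩ := hb _ h4
          have e1 := hk _ hi' h3
          simp only [] at hij
          rw [← hij] at h5
          have e2 := hk _ hj' h5
          exact nz_inj.1 (e1.trans e2.symm)
  · constructor
    · rintro rfl
      refine Or.inl ⟨hf, ?_⟩
      unfold nc
      rw [Set.Infinite.ncard hf]
      rfl
    · rintro (⟨-, rfl⟩ | ⟨h, -⟩)
      · unfold nc
        rw [Set.Infinite.ncard hf]
        rfl
      · exact absurd h hf

theorem DT.ncT (hN : ZF N) (ht : DT N t) : DT N (fun v => nc (t v)) := by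
  refine ⟨fun v _ => nz_mem_N hN _, ?_⟩
  refine Dfn.app2 hN (P := fun y x => y = nc x) ?_ (DT.var hN 0) ht.shift
  refine Dfn.congr (R := fun v => (¬ Fin' (v 1) ∧ v 0 = ∅) ∨
    (Fin' (v 1) ∧ v 0 ∈ ZFSet.omega ∧ ∃ f ∈ N, IsFunc (v 0) (v 1) f ∧
      ∀ z ∈ v 1, ∃ i ∈ v 0, pair i z ∈ f ∧ ∀ j ∈ v 0, pair j z ∈ f → j = i)) ?_ ?_
  · refine Dfn.or (Dfn.and (Dfn.not (Dfn.fin hN (DT.var hN 1)))
      (Dfn.eq hN (DT.var hN 0) (DT.empty hN))) ?_
    refine Dfn.and (Dfn.fin hN (DT.var hN 1)) (Dfn.and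
      (Dfn.mem hN (DT.var hN 0) (DT.omegaT hN)) ?_)
    refine Dfn.ex (Q := fun v f => IsFunc (v 0) (v 1) f ∧
      ∀ z ∈ v 1, ∃ i ∈ v 0, pair i z ∈ f ∧ ∀ j ∈ v 0, pair j z ∈ f → j = i) ?_
    refine Dfn.and (Dfn.isFunc hN (DT.var hN 1) (DT.var hN 2) (DT.var hN 0)) ?_
    refine Dfn.ball hN (t := fun v => v 2)
      (Q := fun v z => ∃ i ∈ v 1, pair i z ∈ v 0 ∧ ∀ j ∈ v 1, pair j z ∈ v 0 → j = i)
      (DT.var hN 2) ?_
    refine Dfn.bex hN (t := fun v => v 2)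
      (Q := fun v i => pair i (v 0) ∈ v 1 ∧ ∀ j ∈ v 2, pair j (v 0) ∈ v 1 → j = i)
      (DT.var hN 2) ?_
    refine Dfn.and (Dfn.mem hN (DT.pairT hN (DT.var hN 0) (DT.var hN 1)) (DT.var hN 2)) ?_
    refine Dfn.ball hN (t := fun v => v 3)
      (Q := fun v j => pair j (v 1) ∈ v 2 → j = v 0) (DT.var hN 3) ?_
    exact Dfn.imp (Dfn.mem hN (DT.pairT hN (DT.var hN 0) (DT.var hN 2)) (DT.var hN 3))
      (Dfn.eq hN (DT.var hN 0) (DT.var hN 1))
  · intro v hv
    exact de2_nc hN (hv 1)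

theorem fin_empty : Fin' (∅ : ZFSet.{u}) := by
  unfold Fin'
  rw [coe_empty]
  exact Set.finite_empty

theorem fin_insert {x y : ZFSet.{u}} (h : Fin' y) : Fin' (insert x y) := by
  unfold Fin'
  rw [coe_insert]
  exact Set.Finite.insert x h

theorem fin_union {x y : ZFSet.{u}} (hx : Fin' x) (hy : Fin' y) : Fin' (x ∪ y) := by
  unfold Fin'
  rw [coe_union]
  exact Set.Finite.union hx hy

theorem fin_subset {x y : ZFSet.{u}} (hy : Fin' y) (h : x ⊆ y) : Fin' x := by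
  exact Set.Finite.subset hy fun z hz => h hz

end Pool.Agent.FBZ
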