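import Pool.Agent.FBZ.Defs

/-!
# FBZ module DA1: definability calculus, renaming and connectives

`sat_rn`: induction on the formula, for all `f v`; in the case `all` use that
`cons x v` composed with the lifted renaming is `cons x (fun n => v (f n))` (the two functions
agree at `0` and at `n + 1`).

`Dfn N R` means: `R v ↔ Sat N φ (mix v w)` for all `v` in `N`, where `w` is an assignment of
parameters.  For two predicates with data `(φ, w)`, `(φ', w')` use the parameter assignment
`W = mix w w'` (again in `N`); then `mix v w = fun n => (mix v W) (ρ n)` with `ρ n = n` for even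
`n` and `ρ (2k+1) = 2(2k)+1` (because `W (2k) = w k`), and
`mix v w' = fun n => (mix v W) (ρ' n)` with `ρ' n = n` for even `n` and `ρ' (2k+1) = 2(2k+1)+1`.
So by `sat_rn` both predicates are given by formulas with the same parameters and `and` is
immediate; `not` is immediate; `or`, `imp`, `iff` follow from `not`, `and` and `congr`.
`memVar i j`: the formula `.mem (2i) (2j)`, parameters `fun _ => ω`; `eqVar` similarly.
`prop`: by cases on `p`, with the formulas `.eq 0 0` and `.neg (.eq 0 0)`.
-/

namespace Pool.Agent.FBZ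
open ZFSet
universe u
variable {N : Set ZFSet.{u}} {R R' : Env.{u} → Prop}

theorem sat_rn (φ : Fml) (f : ℕ → ℕ) (v : Env.{u}) :
    Sat N (φ.rn f) v ↔ Sat N φ (fun n => v (f n)) := by
  induction φ generalizing f v with
  | mem i j => exact Iff.rfl
  | eq i j => exact Iff.rfl
  | neg φ ih => exact not_congr (ih f v)
  | and φ ψ ih ih' => exact and_congr (ih f v) (ih' f v)
  | all φ ih =>
    refine forall_congr' fun x => forall_congr' fun _ => ?_
    refine (ih _ (cons x v)).trans ?_
    refine iff_of_eq (congrArg (Sat N φ) ?_)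
    funext n
    cases n with
    | zero => rfl
    | succ n => rfl

theorem In.cons {x : ZFSet.{u}} {v : Env.{u}} (hx : x ∈ N) (hv : In N v) :
    In N (Pool.Agent.FBZ.cons x v) := by
  intro i
  cases i with
  | zero => exact hx
  | succ i => exact hv i

theorem In.tl {v : Env.{u}} (hv : In N v) : In N (Pool.Agent.FBZ.tl v) := by
  intro i
  exact hv (i + 1)

theorem cons_tl (v : Env.{u}) : cons (v 0) (tl v) = v := by
  funext n
  cases n with
  | zero => rfl
  | succ n => rfl

theorem tl_cons (x : ZFSet.{u}) (v : Env.{u}) : tl (cons x v) = v := by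
  rfl

theorem Dfn.congr (h : Dfn N R) (e : ∀ v, In N v → (R' v ↔ R v)) : Dfn N R' := by
  obtain ⟨φ, w, hw, h1⟩ := h
  exact ⟨φ, w, hw, fun v hv => (e v hv).trans (h1 v hv)⟩

private theorem da1_even (v w : Env.{u}) (i : ℕ) : mix v w (2 * i) = v i := by
  unfold mix
  rw [if_pos (by omega)]
  congr 1
  omega

private theorem da1_odd (v w : Env.{u}) (i : ℕ) : mix v w (2 * i + 1) = w i := by
  unfold mix
  rw [if_neg (by omega)]
  congr 1
  omega

private theorem da1_mix_in {v w : Env.{u}} (hv : In N v) (hw : In N w) : In N (mix v w) := by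
  intro n
  unfold mix
  split_ifs
  · exact hv _
  · exact hw _

private def da1_l (n : ℕ) : ℕ := if n % 2 = 0 then n else 2 * (2 * (n / 2)) + 1

private def da1_r (n : ℕ) : ℕ := if n % 2 = 0 then n else 2 * (2 * (n / 2) + 1) + 1

private theorem da1_mix_l (v w w' : Env.{u}) :
    (fun n => mix v (mix w w') (da1_l n)) = mix v w := by
  funext n
  unfold da1_l
  by_cases h : n % 2 = 0
  · rw [if_pos h]
    unfold mix
    rw [if_pos h, if_pos h]
  · rw [if_neg h, da1_odd, da1_even]
    unfold mix
    rw [if_neg h]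

private theorem da1_mix_r (v w w' : Env.{u}) :
    (fun n => mix v (mix w w') (da1_r n)) = mix v w' := by
  funext n
  unfold da1_r
  by_cases h : n % 2 = 0
  · rw [if_pos h]
    unfold mix
    rw [if_pos h, if_pos h]
  · rw [if_neg h, da1_odd, da1_odd]
    unfold mix
    rw [if_neg h]

theorem Dfn.memVar (hN : ZF N) (i j : ℕ) : Dfn N (fun v => v i ∈ v j) := by
  refine ⟨.mem (2 * i) (2 * j), fun _ => ZFSet.omega, fun _ => hN.omega, fun v _ => ?_⟩
  show v i ∈ v j ↔ mix v _ (2 * i) ∈ mix v _ (2 * j)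
  rw [da1_even, da1_even]

theorem Dfn.eqVar (hN : ZF N) (i j : ℕ) : Dfn N (fun v => v i = v j) := by
  refine ⟨.eq (2 * i) (2 * j), fun _ => ZFSet.omega, fun _ => hN.omega, fun v _ => ?_⟩
  show v i = v j ↔ mix v _ (2 * i) = mix v _ (2 * j)
  rw [da1_even, da1_even]

theorem Dfn.prop (hN : ZF N) (p : Prop) : Dfn N (fun _ => p) := by
  by_cases hp : p
  · exact ⟨.eq 0 0, fun _ => ZFSet.omega, fun _ => hN.omega, fun v _ => iff_of_true hp rfl⟩
  · exact ⟨.neg (.eq 0 0), fun _ => ZFSet.omega, fun _ => hN.omega, fun v _ =>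
      iff_of_false hp fun h => h rfl⟩

theorem Dfn.not (h : Dfn N R) : Dfn N (fun v => ¬ R v) := by
  obtain ⟨φ, w, hw, h1⟩ := h
  exact ⟨.neg φ, w, hw, fun v hv => not_congr (h1 v hv)⟩

theorem Dfn.and (h : Dfn N R) (h' : Dfn N R') : Dfn N (fun v => R v ∧ R' v) := by
  obtain ⟨φ, w, hw, h1⟩ := h
  obtain ⟨φ', w', hw', h1'⟩ := h'
  refine ⟨.and (φ.rn da1_l) (φ'.rn da1_r), mix w w', da1_mix_in hw hw', fun v hv => ?_⟩
  refine and_congr ((h1 v hv).trans ?_) ((h1' v hv).trans ?_)
  · rw [← da1_mix_l v w w']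
    exact (sat_rn φ _ _).symm
  · rw [← da1_mix_r v w w']
    exact (sat_rn φ' _ _).symm

theorem Dfn.or (h : Dfn N R) (h' : Dfn N R') : Dfn N (fun v => R v ∨ R' v) := by
  refine ((h.not.and h'.not).not).congr fun v _ => ?_
  tauto

theorem Dfn.imp (h : Dfn N R) (h' : Dfn N R') : Dfn N (fun v => R v → R' v) := by
  refine ((h.and h'.not).not).congr fun v _ => ?_
  tauto

theorem Dfn.iff (h : Dfn N R) (h' : Dfn N R') : Dfn N (fun v => (R v ↔ R' v)) := by
  refine ((h.imp h').and (h'.imp h)).congr fun v _ => ?_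
  tauto

end Pool.Agent.FBZ
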