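import Mathlib

/-!
# FBZ: forcing over transitive models of ZF, basic definitions

Everything takes place in Mathlib's `ZFSet`.  A model is a set `N` of `ZFSet`s.

* `Fml`, `Sat`: first-order formulas in `∈`, `=` and their truth in `(N, ∈)`; variables are
  de Bruijn indices, an assignment is a function `v : ℕ → ZFSet`, `all φ` quantifies variable `0`.
* `ZF N`: `N` is a transitive model of ZF.
* `Dfn N R`: the relation `R` is definable over `(N, ∈)` with parameters from `N`.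
* `Forcing P le`, `Generic N P le H`, `val H x`, `Ext N H`: forcing notions, generic filters,
  evaluation of names, the generic extension `N[H]`.
* cardinals, reals and the bounding number in the sense of a transitive class `M`.
-/

namespace Pool.Agent.FBZ
open ZFSet
universe u

/-! ### formulas and satisfaction -/

/-- First-order formulas of set theory (de Bruijn indices). -/
inductive Fml : Type
  | mem : ℕ → ℕ → Fml
  | eq : ℕ → ℕ → Fml
  | neg : Fml → Fml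
  | and : Fml → Fml → Fml
  | all : Fml → Fml

/-- Assignments. -/
abbrev Env := ℕ → ZFSet.{u}

/-- Put `x` in front of the assignment `v`. -/
def cons (x : ZFSet.{u}) (v : Env.{u}) : Env.{u}
  | 0 => x
  | n + 1 => v n

/-- Drop the first entry of the assignment `v`. -/
def tl (v : Env.{u}) : Env.{u} := fun n => v (n + 1)

/-- Truth of a formula in the structure `(N, ∈)`. -/
def Sat (N : Set ZFSet.{u}) : Fml → Env.{u} → Prop
  | .mem i j, v => v i ∈ v j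
  | .eq i j, v => v i = v j
  | .neg φ, v => ¬ Sat N φ v
  | .and φ ψ, v => Sat N φ v ∧ Sat N ψ v
  | .all φ, v => ∀ x ∈ N, Sat N φ (cons x v)

/-- The assignment `v` takes its values in `N`. -/
def In (N : Set ZFSet.{u}) (v : Env.{u}) : Prop := ∀ i, v i ∈ N

/-- `N` is a transitive model of ZF.  (Extensionality and Foundation hold in every transitive
set.) -/
structure ZF (N : Set ZFSet.{u}) : Prop where
  trans : ∀ x ∈ N, ∀ y ∈ x, y ∈ N
  omega : ZFSet.omega ∈ N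
  pairing : ∀ x ∈ N, ∀ y ∈ N, ({x, y} : ZFSet.{u}) ∈ N
  union : ∀ x ∈ N, (⋃₀ x : ZFSet.{u}) ∈ N
  power : ∀ x ∈ N, ∃ y ∈ N, ∀ z, z ∈ y ↔ z ∈ N ∧ z ⊆ x
  separation : ∀ (φ : Fml) (v : Env.{u}), In N v → ∀ a ∈ N,
    ∃ b ∈ N, ∀ z, z ∈ b ↔ z ∈ a ∧ Sat N φ (cons z v)
  replacement : ∀ (φ : Fml) (v : Env.{u}), In N v → ∀ a ∈ N,
    (∀ x ∈ a, ∃! y, y ∈ N ∧ Sat N φ (cons x (cons y v))) →
    ∃ b ∈ N, ∀ y, y ∈ b ↔ y ∈ N ∧ ∃ x ∈ a, Sat N φ (cons x (cons y v))

/-! ### cardinals, reals, the bounding number in a transitive class `M` -/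

/-- `f` is a function from `a` onto `b`. -/
def Surj (f a b : ZFSet.{u}) : Prop := IsFunc a b f ∧ ∀ y ∈ b, ∃ x ∈ a, pair x y ∈ f

/-- `κ` is a cardinal of `M`: an ordinal of `M` which is not the image of a smaller ordinal under
a function of `M`. -/
def Card (M : Set ZFSet.{u}) (κ : ZFSet.{u}) : Prop :=
  κ ∈ M ∧ κ.IsOrdinal ∧ ∀ a ∈ κ, ∀ f ∈ M, ¬ Surj f a κ

/-- `κ` is the next cardinal of `M` after the cardinal `μ`. -/
def SuccCard (M : Set ZFSet.{u}) (μ κ : ZFSet.{u}) : Prop :=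
  Card M μ ∧ Card M κ ∧ μ ∈ κ ∧ ∀ a ∈ κ, Card M a → a = μ ∨ a ∈ μ

/-- `κ` is `ω₂` in the sense of `M`. -/
def Omega2 (M : Set ZFSet.{u}) (κ : ZFSet.{u}) : Prop :=
  ∃ κ₁, SuccCard M ZFSet.omega κ₁ ∧ SuccCard M κ₁ κ

/-- `x ≤* y` for functions `x, y : ω → ω` (sets of ordered pairs). -/
def LeStar (x y : ZFSet.{u}) : Prop :=
  ∃ m ∈ ZFSet.omega.{u}, ∀ n ∈ ZFSet.omega.{u}, m ⊆ n → ∀ a b, pair n a ∈ x → pair n b ∈ y → a ⊆ b

/-- `F` is a family of functions `ω → ω` indexed by the ordinal `κ`, which is not bounded by any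
function `g : ω → ω` of `M`. -/
def Unbounded (M : Set ZFSet.{u}) (κ F : ZFSet.{u}) : Prop :=
  IsFunc κ (funs ZFSet.omega ZFSet.omega) F ∧
    ∀ g ∈ M, IsFunc ZFSet.omega ZFSet.omega g → ∃ α ∈ κ, ∃ x, pair α x ∈ F ∧ ¬ LeStar x g

/-- In the sense of `M` the bounding number exists and is equal to `κ`. -/
def BoundingNumber (M : Set ZFSet.{u}) (κ : ZFSet.{u}) : Prop :=
  Card M κ ∧ (∃ F ∈ M, Unbounded M κ F) ∧ ∀ a ∈ κ, ∀ F ∈ M, ¬ Unbounded M a F

/-! ### forcing -/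

/-- `(P, le)` is a forcing notion: a nonempty preordered set (`pair p q ∈ le` means `p ≤ q`). -/
structure Forcing (P le : ZFSet.{u}) : Prop where
  nonempty : ∃ p, p ∈ P
  field : le ⊆ prod P P
  refl : ∀ p ∈ P, pair p p ∈ le
  trans : ∀ p q r, pair p q ∈ le → pair q r ∈ le → pair p r ∈ le

/-- `D` is a dense subset of `P`. -/
def Dense (P le D : ZFSet.{u}) : Prop := D ⊆ P ∧ ∀ p ∈ P, ∃ q ∈ D, pair q p ∈ le

/-- `H` is a `P`-generic filter over `N`. -/
structure Generic (N : Set ZFSet.{u}) (P le H : ZFSet.{u}) : Prop where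
  sub : H ⊆ P
  up : ∀ p ∈ H, ∀ q, pair p q ∈ le → q ∈ H
  dir : ∀ p ∈ H, ∀ q ∈ H, ∃ r ∈ H, pair r p ∈ le ∧ pair r q ∈ le
  meets : ∀ D ∈ N, Dense P le D → ∃ p ∈ H, p ∈ D

/-- The names occurring in the name `x` with a condition of `H`. -/
noncomputable def actv (H x : ZFSet.{u}) : ZFSet.{u} :=
  (⋃₀ ⋃₀ x : ZFSet.{u}).sep (fun y => ∃ p ∈ H, pair y p ∈ x)

theorem mem_actv {H x y : ZFSet.{u}} : y ∈ actv H x ↔ ∃ p ∈ H, pair y p ∈ x := by
  unfold actv
  rw [mem_sep]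
  refine ⟨fun h => h.2, fun h => ⟨?_, h⟩⟩
  obtain ⟨p, hp, hpx⟩ := h
  rw [mem_sUnion]
  refine ⟨{y}, ?_, by simp⟩
  rw [mem_sUnion]
  exact ⟨pair y p, hpx, by simp [pair]⟩

theorem rank_lt_of_mem_actv {H x y : ZFSet.{u}} (h : y ∈ actv H x) : y.rank < x.rank := by
  rw [actv, mem_sep, mem_sUnion] at h
  obtain ⟨z, hz, hy⟩ := h.1
  rw [mem_sUnion] at hz
  obtain ⟨w, hw, hz⟩ := hz
  exact (rank_lt_of_mem hy).trans ((rank_lt_of_mem hz).trans (rank_lt_of_mem hw))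

/-- The value of the name `x`: `val H x = {val H y : ∃ p ∈ H, (y, p) ∈ x}`. -/
noncomputable def val (H : ZFSet.{u}) (x : ZFSet.{u}) : ZFSet.{u} :=
  ZFSet.range (fun y : ↥(actv H x) => val H y.1)
termination_by x.rank
decreasing_by exact rank_lt_of_mem_actv y.2

/-- The generic extension `N[H]`. -/
def Ext (N : Set ZFSet.{u}) (H : ZFSet.{u}) : Set ZFSet.{u} := {z | ∃ x ∈ N, z = val H x}

theorem mem_val {H x z : ZFSet.{u}} :
    z ∈ val H x ↔ ∃ y p, p ∈ H ∧ pair y p ∈ x ∧ z = val H y := by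
  rw [val, mem_range]
  constructor
  · rintro ⟨y, rfl⟩
    obtain ⟨p, hp, hpx⟩ := mem_actv.1 y.2
    exact ⟨y.1, p, hp, hpx, rfl⟩
  · rintro ⟨y, p, hp, hpx, rfl⟩
    exact ⟨⟨y, mem_actv.2 ⟨p, hp, hpx⟩⟩, rfl⟩

end Pool.Agent.FBZ
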