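import Pool.Agent.FBZ.DA1

/-!
# FBZ module DA2: definability calculus, quantifiers, renaming, parameters

* `all`: let `Q (tl v) (v 0) ↔ Sat N φ (mix v w)`.  For `v` in `N` and `x ∈ N`, apply this to
  `cons x v` (in `N`): `Q v x ↔ Sat N φ (mix (cons x v) w)`, and
  `mix (cons x v) w = fun n => (cons x (mix v w)) (ρ n)` with `ρ 0 = 0`, `ρ (2(i+1)) = 2i+1`,
  `ρ (2i+1) = 2i+2`; so `Q v x ↔ Sat N (φ.rn ρ) (cons x (mix v w))` (this is `Dfn.key`) and the
  quantified statement is given by `.all (φ.rn ρ)` with the same parameters.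
* `ex` is `not`, `all`, `not`.
* `rn f`: `mix (fun n => v (f n)) w = fun n => (mix v w) (ρ n)` with `ρ (2i) = 2 (f i)`,
  `ρ (2i+1) = 2i+1`.
* `fix`: `mix (cons c v) w = fun n => (mix v (cons c w)) (ρ n)` with `ρ 0 = 1`,
  `ρ (2(i+1)) = 2i`, `ρ (2i+1) = 2(i+1)+1`.
* `shift`: `rn` with `f n = n + 1`.
-/

namespace Pool.Agent.FBZ
open ZFSet
universe u
variable {N : Set ZFSet.{u}} {R : Env.{u} → Prop}

private theorem da2_even (v w : Env.{u}) (i : ℕ) : mix v w (2 * i) = v i := by
  unfold mix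
  rw [if_pos (by omega)]
  congr 1
  omega

private theorem da2_odd (v w : Env.{u}) (i : ℕ) : mix v w (2 * i + 1) = w i := by
  unfold mix
  rw [if_neg (by omega)]
  congr 1
  omega

private theorem da2_cases (n : ℕ) : (∃ i, n = 2 * i) ∨ (∃ i, n = 2 * i + 1) := by
  rcases Nat.even_or_odd n with h | h
  · obtain ⟨i, hi⟩ := h
    exact Or.inl ⟨i, by omega⟩
  · obtain ⟨i, hi⟩ := h
    exact Or.inr ⟨i, hi⟩

private def da2_k (n : ℕ) : ℕ := if n = 0 then 0 else if n % 2 = 0 then n - 1 else n + 1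

private theorem da2_key (x : ZFSet.{u}) (v w : Env.{u}) :
    (fun n => (cons x (mix v w)) (da2_k n)) = mix (cons x v) w := by
  funext n
  rcases da2_cases n with ⟨i, rfl⟩ | ⟨i, rfl⟩
  · cases i with
    | zero => rfl
    | succ i =>
      have h : da2_k (2 * (i + 1)) = 2 * i + 1 := by
        unfold da2_k
        rw [if_neg (by omega), if_pos (by omega)]
        omega
      show (cons x (mix v w)) (da2_k (2 * (i + 1))) = _
      rw [h, da2_even]
      show mix v w (2 * i) = v i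
      rw [da2_even]
  · have h : da2_k (2 * i + 1) = (2 * i + 1) + 1 := by
      unfold da2_k
      rw [if_neg (by omega), if_neg (by omega)]
    show (cons x (mix v w)) (da2_k (2 * i + 1)) = _
    rw [h, da2_odd]
    show mix v w (2 * i + 1) = w i
    rw [da2_odd]

private def da2_r (f : ℕ → ℕ) (n : ℕ) : ℕ := if n % 2 = 0 then 2 * f (n / 2) else n

private theorem da2_rn (f : ℕ → ℕ) (v w : Env.{u}) :
    (fun n => (mix v w) (da2_r f n)) = mix (fun n => v (f n)) w := by
  funext n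
  rcases da2_cases n with ⟨i, rfl⟩ | ⟨i, rfl⟩
  · have h : da2_r f (2 * i) = 2 * f i := by
      unfold da2_r
      rw [if_pos (by omega)]
      congr 2
      omega
    show (mix v w) (da2_r f (2 * i)) = _
    rw [h, da2_even, da2_even]
  · have h : da2_r f (2 * i + 1) = 2 * i + 1 := by
      unfold da2_r
      rw [if_neg (by omega)]
    show (mix v w) (da2_r f (2 * i + 1)) = _
    rw [h, da2_odd, da2_odd]

private def da2_f (n : ℕ) : ℕ := if n = 0 then 1 else if n % 2 = 0 then n - 2 else n + 2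

private theorem da2_fix (c : ZFSet.{u}) (v w : Env.{u}) :
    (fun n => (mix v (cons c w)) (da2_f n)) = mix (cons c v) w := by
  funext n
  rcases da2_cases n with ⟨i, rfl⟩ | ⟨i, rfl⟩
  · cases i with
    | zero => rfl
    | succ i =>
      have h : da2_f (2 * (i + 1)) = 2 * i := by
        unfold da2_f
        rw [if_neg (by omega), if_pos (by omega)]
        omega
      show (mix v (cons c w)) (da2_f (2 * (i + 1))) = _
      rw [h, da2_even, da2_even]
      rfl
  · have h : da2_f (2 * i + 1) = 2 * (i + 1) + 1 := by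
      unfold da2_f
      rw [if_neg (by omega), if_neg (by omega)]
      omega
    show (mix v (cons c w)) (da2_f (2 * i + 1)) = _
    rw [h, da2_odd, da2_odd]
    rfl

/-- The form of a definable relation which is used for quantifiers and for the axioms. -/
theorem Dfn.key {Q : Env.{u} → ZFSet.{u} → Prop} (h : Dfn N (fun v => Q (tl v) (v 0))) :
    ∃ (φ : Fml) (w : Env.{u}), In N w ∧
      ∀ v, In N v → ∀ x ∈ N, (Q v x ↔ Sat N φ (cons x (mix v w))) := by
  obtain ⟨φ, w, hw, h1⟩ := h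
  refine ⟨φ.rn da2_k, w, hw, fun v hv x hx => ?_⟩
  refine (h1 (cons x v) (In.cons hx hv)).trans ?_
  rw [← da2_key x v w]
  exact (sat_rn φ _ _).symm

theorem Dfn.all {Q : Env.{u} → ZFSet.{u} → Prop} (h : Dfn N (fun v => Q (tl v) (v 0))) :
    Dfn N (fun v => ∀ x ∈ N, Q v x) := by
  obtain ⟨φ, w, hw, h1⟩ := h.key
  exact ⟨.all φ, w, hw, fun v hv => forall_congr' fun x => forall_congr' fun hx => h1 v hv x hx⟩

theorem Dfn.ex {Q : Env.{u} → ZFSet.{u} → Prop} (h : Dfn N (fun v => Q (tl v) (v 0))) :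
    Dfn N (fun v => ∃ x ∈ N, Q v x) := by
  have h2 := (Dfn.all (Q := fun v x => ¬ Q v x) h.not).not
  refine h2.congr fun v _ => ?_
  show (∃ x ∈ N, Q v x) ↔ ¬ ∀ x ∈ N, ¬ Q v x
  push Not
  rfl

theorem Dfn.rn (f : ℕ → ℕ) (h : Dfn N R) : Dfn N (fun v => R (fun n => v (f n))) := by
  obtain ⟨φ, w, hw, h1⟩ := h
  refine ⟨φ.rn (da2_r f), w, hw, fun v hv => ?_⟩
  refine (h1 (fun n => v (f n)) (fun n => hv (f n))).trans ?_
  rw [← da2_rn f v w]
  exact (sat_rn φ _ _).symm

theorem Dfn.shift (h : Dfn N R) : Dfn N (fun v => R (tl v)) := by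
  exact Dfn.rn (fun n => n + 1) h

theorem Dfn.fix (h : Dfn N R) {c : ZFSet.{u}} (hc : c ∈ N) : Dfn N (fun v => R (cons c v)) := by
  obtain ⟨φ, w, hw, h1⟩ := h
  refine ⟨φ.rn da2_f, cons c w, In.cons hc hw, fun v hv => ?_⟩
  refine (h1 (cons c v) (In.cons hc hv)).trans ?_
  rw [← da2_fix c v w]
  exact (sat_rn φ _ _).symm

end Pool.Agent.FBZ
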