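import Pool.Agent.FBZ.DA2

/-!
# FBZ module DA3: Separation and Replacement for definable predicates

* `sepU`: take `φ, w` from `Dfn.key`; the axiom `separation` for `φ` and the assignment `mix v w`
  gives `b ∈ N` with `z ∈ b ↔ z ∈ a ∧ Sat N φ (cons z (mix v w))`; elements of `a ∈ N` are in `N`,
  so `b = a.sep (Q v)` (`ZFSet.ext`).  `sep_mem` is the special case `Q v z := Q z` (any `v`, e.g.
  the constant assignment `ω`).
* `replU`: the hypothesis on `Q` says: in the variables `y = v 0`, `x = v 1`, `tl (tl v)`.  Apply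
  `Dfn.key` twice, or argue directly: for `x, y ∈ N` and `v` in `N` apply the definition of `Dfn`
  to `cons y (cons x v)`: `Q v x y ↔ Sat N φ (mix (cons y (cons x v)) w)`, and this assignment is
  `fun n => (cons x (cons y (mix v w))) (ρ n)` with `ρ 0 = 1`, `ρ 2 = 0`, `ρ (2(i+2)) = 2i+2`,
  `ρ (2i+1) = 2i+3`.  The axiom `replacement` for `φ.rn ρ` and `mix v w` gives `b`.
* `imgU`: apply `replU` to `Q v x y := y = F v x`.  Its definability: the hypothesis `DT` says that
  `v 0 = F (tl (tl v)) ((tl v) 0)` is definable, which is literally `Q (tl (tl v)) (v 1) (v 0)`.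
  The value `F v x` is in `N` (first part of `DT` applied to `cons x v`).  So `b ∈ N` has the same
  elements as `img (F v) a` (`mem_img`).
-/

namespace Pool.Agent.FBZ
open ZFSet
universe u
variable {N : Set ZFSet.{u}}

private theorem in_mix3 {v w : Env.{u}} (hv : In N v) (hw : In N w) : In N (mix v w) := by
  intro n
  unfold mix
  split_ifs
  · exact hv _
  · exact hw _

/-- Separation for definable predicates. -/
theorem sepU (hN : ZF N) {Q : Env.{u} → ZFSet.{u} → Prop} (h : Dfn N (fun v => Q (tl v) (v 0)))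
    {v : Env.{u}} (hv : In N v) {a : ZFSet.{u}} (ha : a ∈ N) : a.sep (Q v) ∈ N := by
  obtain ⟨φ, w, hw, hφ⟩ := h.key
  obtain ⟨b, hb, hbz⟩ := hN.separation φ (mix v w) (in_mix3 hv hw) a ha
  have e : a.sep (Q v) = b := by
    ext z
    rw [mem_sep, hbz]
    exact and_congr_right fun hz => hφ v hv z (hN.trans a ha z hz)
  rw [e]
  exact hb


/-- Separation for definable predicates, no extra variables. -/
theorem sep_mem (hN : ZF N) {Q : ZFSet.{u} → Prop} (h : Dfn N (fun v => Q (v 0)))
    {a : ZFSet.{u}} (ha : a ∈ N) : a.sep Q ∈ N := by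
  exact sepU hN (Q := fun _ => Q) h (v := fun _ => ZFSet.omega) (fun _ => hN.omega) ha


/-- Replacement for definable relations. -/
theorem replU (hN : ZF N) {Q : Env.{u} → ZFSet.{u} → ZFSet.{u} → Prop}
    (h : Dfn N (fun v => Q (tl (tl v)) (v 1) (v 0)))
    {v : Env.{u}} (hv : In N v) {a : ZFSet.{u}} (ha : a ∈ N)
    (hf : ∀ x ∈ a, ∃! y, y ∈ N ∧ Q v x y) :
    ∃ b ∈ N, ∀ y, y ∈ b ↔ y ∈ N ∧ ∃ x ∈ a, Q v x y := by
  obtain ⟨φ, w, hw, hφ⟩ := h
  obtain ⟨ρ, hρ⟩ : ∃ ρ : ℕ → ℕ, ρ = fun n => if n = 0 then 1 else if n = 2 then 0 else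
    if n % 2 = 0 then n - 2 else n + 2 := ⟨_, rfl⟩
  have hM := in_mix3 hv hw
  have key : ∀ x ∈ N, ∀ y ∈ N, (Q v x y ↔ Sat N (φ.rn ρ) (cons x (cons y (mix v w)))) := by
    intro x hx y hy
    have h1 := hφ (cons y (cons x v)) ((hv.cons hx).cons hy)
    have e : mix (cons y (cons x v)) w = fun n => (cons x (cons y (mix v w))) (ρ n) := by
      funext n
      by_cases h0 : n = 0
      · subst h0
        rw [hρ]
        rfl
      · by_cases h2 : n = 2
        · subst h2
          rw [hρ]
          rfl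
        · rcases Nat.even_or_odd' n with ⟨k, rfl | rfl⟩
          · obtain ⟨i, rfl⟩ : ∃ i, k = i + 2 := ⟨k - 2, by omega⟩
            have e1 : ρ (2 * (i + 2)) = 2 * i + 2 := by
              rw [hρ]
              simp only
              rw [if_neg (by omega), if_neg (by omega), if_pos (by omega)]
              omega
            rw [e1]
            have e2 : cons x (cons y (mix v w)) (2 * i + 2) = mix v w (2 * i) := rfl
            rw [e2]
            unfold mix
            rw [if_pos (by omega), if_pos (by omega)]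
            have e3 : 2 * (i + 2) / 2 = i + 2 := by omega
            have e4 : 2 * i / 2 = i := by omega
            rw [e3, e4]
            rfl
          · have e1 : ρ (2 * k + 1) = 2 * k + 1 + 2 := by
              rw [hρ]
              simp only
              rw [if_neg (by omega), if_neg (by omega), if_neg (by omega)]
            rw [e1]
            have e2 : cons x (cons y (mix v w)) (2 * k + 1 + 2) = mix v w (2 * k + 1) := rfl
            rw [e2]
            unfold mix
            rw [if_neg (by omega), if_neg (by omega)]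
    rw [sat_rn, ← e]
    exact h1
  obtain ⟨b, hb, hbz⟩ := hN.replacement (φ.rn ρ) (mix v w) hM a ha fun x hx => by
    obtain ⟨y, ⟨hy, hq⟩, hu⟩ := hf x hx
    have hxN := hN.trans a ha x hx
    exact ⟨y, ⟨hy, (key x hxN y hy).1 hq⟩, fun z hz => hu z ⟨hz.1, (key x hxN z hz.1).2 hz.2⟩⟩
  refine ⟨b, hb, fun y => ?_⟩
  rw [hbz]
  refine and_congr_right fun hy => ?_
  constructor
  · rintro ⟨x, hx, hs⟩
    exact ⟨x, hx, (key x (hN.trans a ha x hx) y hy).2 hs⟩
  · rintro ⟨x, hx, hs⟩
    exact ⟨x, hx, (key x (hN.trans a ha x hx) y hy).1 hs⟩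


/-- Replacement for definable functions. -/
theorem imgU (hN : ZF N) {F : Env.{u} → ZFSet.{u} → ZFSet.{u}}
    (h : DT N (fun v => F (tl v) (v 0)))
    {v : Env.{u}} (hv : In N v) {a : ZFSet.{u}} (ha : a ∈ N) : img (F v) a ∈ N := by
  have hFN : ∀ x ∈ a, F v x ∈ N := fun x hx => h.1 _ (hv.cons (hN.trans a ha x hx))
  obtain ⟨b, hb, hbz⟩ := replU hN (Q := fun v x y => y = F v x) h.2 hv ha
    fun x hx => ⟨F v x, ⟨hFN x hx, rfl⟩, fun z hz => hz.2⟩
  have e : img (F v) a = b := by
    ext z
    rw [mem_img, hbz]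
    constructor
    · rintro ⟨x, hx, rfl⟩
      exact ⟨hFN x hx, x, hx, rfl⟩
    · rintro ⟨_, x, hx, rfl⟩
      exact ⟨x, hx, rfl⟩
  rw [e]
  exact hb


end Pool.Agent.FBZ
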