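import Pool.Agent.FBZ.DA3

/-!
# FBZ module DB1: definable terms and substitution

* `DT.var i`: `v 0 = tl v i` is `v 0 = v (i+1)` (`Dfn.eqVar`).  `DT.cst`: apply `Dfn.fix` to
  `Dfn.eqVar 1 0` (`v 1 = v 0`): the assignment `cons c v` gives `v 0 = c`.
* `DT.rn`: `Dfn.rn` with `0 ↦ 0`, `n+1 ↦ f n + 1`.  `DT.shift`: `f n = n + 1`.
* `Dfn.sub`: `R (cons (t v) v) ↔ ∃ x ∈ N, x = t v ∧ R (cons x v)` (`t v ∈ N`); use `Dfn.ex` with
  `Q v x := x = t v ∧ R (cons x v)`: the first part is the definition of `DT`, the second is `R v`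
  because `cons (v 0) (tl v) = v`.
* `Dfn.app1`: `P (t v)` is `Dfn.sub` for `R v := P (v 0)`.  `Dfn.app2`: apply `Dfn.sub` to
  `R v := P (v 0) (s (tl v))`, whose definability is again `Dfn.sub` (with `DT.shift` and a
  renaming exchanging variables) - or directly
  `P (t v) (s v) ↔ ∃ x ∈ N, x = t v ∧ ∃ y ∈ N, y = s v ∧ P x y` with `Dfn.ex` twice
  (inner variables `y = v 0`, `x = v 1`, old assignment `tl (tl v)`; `Dfn.rn` for `P (v 1) (v 0)`).
  `app3`, `app4`, `app5` in the same way.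
* `Dfn.mem`, `Dfn.eq`: `app2` for `memVar 0 1`, `eqVar 0 1`.  `Dfn.subset`: for `x, y ∈ N`,
  `x ⊆ y ↔ ∀ z ∈ N, z ∈ x → z ∈ y` (`N` transitive).
-/

namespace Pool.Agent.FBZ
open ZFSet
universe u
variable {N : Set ZFSet.{u}} {R : Env.{u} → Prop} {t s r q p t' : Env.{u} → ZFSet.{u}}

theorem DT.congr (h : DT N t) (e : ∀ v, In N v → t' v = t v) : DT N t' := by
  refine ⟨fun v hv => ?_, h.2.congr fun v hv => ?_⟩
  · rw [e v hv]
    exact h.1 v hv
  · rw [e _ hv.tl]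


theorem DT.var (hN : ZF N) (i : ℕ) : DT N (fun v => v i) := by
  exact ⟨fun v hv => hv i, Dfn.eqVar hN 0 (i + 1)⟩


theorem DT.cst (hN : ZF N) {c : ZFSet.{u}} (hc : c ∈ N) : DT N (fun _ => c) := by
  have _ := hN
  refine ⟨fun v _ => hc, ?_⟩
  exact (Dfn.eqVar hN 1 0).fix hc


theorem DT.rn (f : ℕ → ℕ) (h : DT N t) : DT N (fun v => t (fun n => v (f n))) := by
  refine ⟨fun v hv => h.1 _ fun n => hv (f n), ?_⟩
  exact h.2.rn (fun n => match n with | 0 => 0 | k + 1 => f k + 1)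


theorem DT.shift (h : DT N t) : DT N (fun v => t (tl v)) := by
  exact h.rn (fun n => n + 1)


theorem Dfn.sub (hN : ZF N) (h : Dfn N R) (ht : DT N t) : Dfn N (fun v => R (cons (t v) v)) := by
  have _ := hN
  have h1 : Dfn N (fun v => v 0 = t (tl v) ∧ R (cons (v 0) (tl v))) := by
    refine ht.2.and (h.congr fun v _ => ?_)
    rw [cons_tl]
  have h2 := Dfn.ex (Q := fun v x => x = t v ∧ R (cons x v)) h1
  refine h2.congr fun v hv => ?_
  constructor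
  · intro hr
    exact ⟨t v, ht.1 v hv, rfl, hr⟩
  · rintro ⟨x, _, rfl, hr⟩
    exact hr


theorem Dfn.app1 (hN : ZF N) {P : ZFSet.{u} → Prop} (h : Dfn N (fun v => P (v 0)))
    (ht : DT N t) : Dfn N (fun v => P (t v)) := by
  exact Dfn.sub hN (R := fun v => P (v 0)) h ht


theorem Dfn.app2 (hN : ZF N) {P : ZFSet.{u} → ZFSet.{u} → Prop}
    (h : Dfn N (fun v => P (v 0) (v 1))) (ht : DT N t) (hs : DT N s) :
    Dfn N (fun v => P (t v) (s v)) := by
  -- first substitute `s` for the second variable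
  have h1 : Dfn N (fun v => P (v 1) (v 0)) :=
    h.rn (fun n => match n with | 0 => 1 | 1 => 0 | k + 2 => k + 2)
  have h2 : Dfn N (fun v => P (v 0) (s (tl v))) :=
    Dfn.sub hN (R := fun v => P (v 1) (v 0)) h1 hs.shift
  exact Dfn.sub hN (R := fun v => P (v 0) (s (tl v))) h2 ht


theorem Dfn.app3 (hN : ZF N) {P : ZFSet.{u} → ZFSet.{u} → ZFSet.{u} → Prop}
    (h : Dfn N (fun v => P (v 0) (v 1) (v 2))) (ht : DT N t) (hs : DT N s) (hr : DT N r) :
    Dfn N (fun v => P (t v) (s v) (r v)) := by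
  have h1 : Dfn N (fun v => P (v 1) (v 2) (v 0)) :=
    h.rn (fun n => match n with | 0 => 1 | 1 => 2 | 2 => 0 | k + 3 => k + 3)
  have h2 : Dfn N (fun v => P (v 0) (v 1) (r (tl (tl v)))) :=
    Dfn.sub hN (R := fun v => P (v 1) (v 2) (v 0)) h1 hr.shift.shift
  have h3 : Dfn N (fun v => P (v 1) (v 0) (r (tl (tl v)))) :=
    h2.rn (fun n => match n with | 0 => 1 | 1 => 0 | k + 2 => k + 2)
  have h4 : Dfn N (fun v => P (v 0) (s (tl v)) (r (tl v))) :=
    Dfn.sub hN (R := fun v => P (v 1) (v 0) (r (tl (tl v)))) h3 hs.shift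
  exact Dfn.sub hN (R := fun v => P (v 0) (s (tl v)) (r (tl v))) h4 ht


theorem Dfn.app4 (hN : ZF N) {P : ZFSet.{u} → ZFSet.{u} → ZFSet.{u} → ZFSet.{u} → Prop}
    (h : Dfn N (fun v => P (v 0) (v 1) (v 2) (v 3))) (ht : DT N t) (hs : DT N s) (hr : DT N r)
    (hq : DT N q) : Dfn N (fun v => P (t v) (s v) (r v) (q v)) := by
  have h1 : Dfn N (fun v => P (v 1) (v 2) (v 3) (v 0)) :=
    h.rn (fun n => match n with | 0 => 1 | 1 => 2 | 2 => 3 | 3 => 0 | k + 4 => k + 4)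
  have h2 : Dfn N (fun v => P (v 0) (v 1) (v 2) (q (tl (tl (tl v))))) :=
    Dfn.sub hN (R := fun v => P (v 1) (v 2) (v 3) (v 0)) h1 hq.shift.shift.shift
  have h3 : Dfn N (fun v => P (v 1) (v 2) (v 0) (q (tl (tl (tl v))))) :=
    h2.rn (fun n => match n with | 0 => 1 | 1 => 2 | 2 => 0 | k + 3 => k + 3)
  have h4 : Dfn N (fun v => P (v 0) (v 1) (r (tl (tl v))) (q (tl (tl v)))) :=
    Dfn.sub hN (R := fun v => P (v 1) (v 2) (v 0) (q (tl (tl (tl v))))) h3 hr.shift.shift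
  have h5 : Dfn N (fun v => P (v 1) (v 0) (r (tl (tl v))) (q (tl (tl v)))) :=
    h4.rn (fun n => match n with | 0 => 1 | 1 => 0 | k + 2 => k + 2)
  have h6 : Dfn N (fun v => P (v 0) (s (tl v)) (r (tl v)) (q (tl v))) :=
    Dfn.sub hN (R := fun v => P (v 1) (v 0) (r (tl (tl v))) (q (tl (tl v)))) h5 hs.shift
  exact Dfn.sub hN (R := fun v => P (v 0) (s (tl v)) (r (tl v)) (q (tl v))) h6 ht


theorem Dfn.app5 (hN : ZF N)
    {P : ZFSet.{u} → ZFSet.{u} → ZFSet.{u} → ZFSet.{u} → ZFSet.{u} → Prop}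
    (h : Dfn N (fun v => P (v 0) (v 1) (v 2) (v 3) (v 4))) (ht : DT N t) (hs : DT N s)
    (hr : DT N r) (hq : DT N q) (hp : DT N p) :
    Dfn N (fun v => P (t v) (s v) (r v) (q v) (p v)) := by
  have h1 : Dfn N (fun v => P (v 1) (v 2) (v 3) (v 4) (v 0)) :=
    h.rn (fun n => match n with | 0 => 1 | 1 => 2 | 2 => 3 | 3 => 4 | 4 => 0 | k + 5 => k + 5)
  have h2 : Dfn N (fun v => P (v 0) (v 1) (v 2) (v 3) (p (tl (tl (tl (tl v)))))) :=
    Dfn.sub hN (R := fun v => P (v 1) (v 2) (v 3) (v 4) (v 0)) h1 hp.shift.shift.shift.shift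
  have h3 : Dfn N (fun v => P (v 1) (v 2) (v 3) (v 0) (p (tl (tl (tl (tl v)))))) :=
    h2.rn (fun n => match n with | 0 => 1 | 1 => 2 | 2 => 3 | 3 => 0 | k + 4 => k + 4)
  have h4 : Dfn N (fun v => P (v 0) (v 1) (v 2) (q (tl (tl (tl v)))) (p (tl (tl (tl v))))) :=
    Dfn.sub hN (R := fun v => P (v 1) (v 2) (v 3) (v 0) (p (tl (tl (tl (tl v)))))) h3
      hq.shift.shift.shift
  have h5 : Dfn N (fun v => P (v 1) (v 2) (v 0) (q (tl (tl (tl v)))) (p (tl (tl (tl v))))) :=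
    h4.rn (fun n => match n with | 0 => 1 | 1 => 2 | 2 => 0 | k + 3 => k + 3)
  have h6 : Dfn N (fun v => P (v 0) (v 1) (r (tl (tl v))) (q (tl (tl v))) (p (tl (tl v)))) :=
    Dfn.sub hN (R := fun v => P (v 1) (v 2) (v 0) (q (tl (tl (tl v)))) (p (tl (tl (tl v))))) h5
      hr.shift.shift
  have h7 : Dfn N (fun v => P (v 1) (v 0) (r (tl (tl v))) (q (tl (tl v))) (p (tl (tl v)))) :=
    h6.rn (fun n => match n with | 0 => 1 | 1 => 0 | k + 2 => k + 2)
  have h8 : Dfn N (fun v => P (v 0) (s (tl v)) (r (tl v)) (q (tl v)) (p (tl v))) :=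
    Dfn.sub hN (R := fun v => P (v 1) (v 0) (r (tl (tl v))) (q (tl (tl v))) (p (tl (tl v)))) h7
      hs.shift
  exact Dfn.sub hN (R := fun v => P (v 0) (s (tl v)) (r (tl v)) (q (tl v)) (p (tl v))) h8 ht


theorem Dfn.mem (hN : ZF N) (ht : DT N t) (hs : DT N s) : Dfn N (fun v => t v ∈ s v) := by
  exact Dfn.app2 hN (P := fun x y => x ∈ y) (Dfn.memVar hN 0 1) ht hs


theorem Dfn.eq (hN : ZF N) (ht : DT N t) (hs : DT N s) : Dfn N (fun v => t v = s v) := by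
  exact Dfn.app2 hN (P := fun x y => x = y) (Dfn.eqVar hN 0 1) ht hs


theorem Dfn.subset (hN : ZF N) (ht : DT N t) (hs : DT N s) : Dfn N (fun v => t v ⊆ s v) := by
  have h2 : Dfn N (fun v => v 0 ⊆ v 1) := by
    refine (Dfn.all (Q := fun v z => z ∈ v 0 → z ∈ v 1)
      ((Dfn.memVar hN 0 1).imp (Dfn.memVar hN 0 2))).congr fun v hv => ?_
    constructor
    · intro h z _ hz
      exact h hz
    · intro h z hz
      exact h z (hN.trans _ (hv 0) z hz) hz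
  exact Dfn.app2 hN (P := fun x y => x ⊆ y) h2 ht hs


end Pool.Agent.FBZ
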