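import Pool.Agent.FBZ.DB1

/-!
# FBZ module DB2: bounded quantifiers, terms defined by their elements, composition of terms

* `Dfn.ball`: `∀ x ∈ t v, Q v x ↔ ∀ x ∈ N, x ∈ t v → Q v x` (as `t v ∈ N` and `N` is transitive),
  then `Dfn.all`, `Dfn.imp`, `Dfn.mem` (for the terms `v 0` and `t (tl v)`, `DT.shift`).
  `Dfn.bex`: the same with `Dfn.ex`, `Dfn.and`.
* `DT.ofMem`: for `v` in `N`, `v 0 = t (tl v) ↔ ∀ z ∈ N, (z ∈ v 0 ↔ z ∈ t (tl v))`: both sets are in
  `N`, and elements of elements of `N` are in `N` (`ZFSet.ext`).  The relation `z ∈ t (tl v)` in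
  the variables `z, v 0, v 1, ...` is the hypothesis after the renaming `0 ↦ 0`, `n+1 ↦ n+2`.
* `DT.app1`: the value is in `N` (first component of the hypothesis for the assignment
  `fun _ => t v`); `v 0 = F (t (tl v))` is `Dfn.app2` for the relation `x = F y` (hypothesis after
  a renaming) and the terms `v 0`, `t (tl v)`.  `app2`, `app3` similarly (with `Dfn.app3`,
  `Dfn.app4`).
* `DT.ite`: `v 0 = (if R (tl v) then t (tl v) else s (tl v)) ↔
  (R (tl v) ∧ v 0 = t (tl v)) ∨ (¬ R (tl v) ∧ v 0 = s (tl v))`.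
-/

namespace Pool.Agent.FBZ
open ZFSet
universe u
variable {N : Set ZFSet.{u}} {R : Env.{u} → Prop} {t s r : Env.{u} → ZFSet.{u}}

theorem Dfn.ball (hN : ZF N) {Q : Env.{u} → ZFSet.{u} → Prop} (ht : DT N t)
    (h : Dfn N (fun v => Q (tl v) (v 0))) : Dfn N (fun v => ∀ x ∈ t v, Q v x) := by
  have h1 : Dfn N (fun v => ∀ x ∈ N, (x ∈ t v → Q v x)) :=
    Dfn.all (Q := fun v x => (x ∈ t v → Q v x)) (Dfn.imp (Dfn.mem hN (DT.var hN 0) ht.shift) h)
  refine Dfn.congr h1 fun v hv => ?_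
  constructor
  · intro h2 x _ hx
    exact h2 x hx
  · intro h2 x hx
    exact h2 x (hN.trans _ (ht.1 v hv) x hx) hx

theorem Dfn.bex (hN : ZF N) {Q : Env.{u} → ZFSet.{u} → Prop} (ht : DT N t)
    (h : Dfn N (fun v => Q (tl v) (v 0))) : Dfn N (fun v => ∃ x ∈ t v, Q v x) := by
  have h1 : Dfn N (fun v => ∃ x ∈ N, (x ∈ t v ∧ Q v x)) :=
    Dfn.ex (Q := fun v x => (x ∈ t v ∧ Q v x)) (Dfn.and (Dfn.mem hN (DT.var hN 0) ht.shift) h)
  refine Dfn.congr h1 fun v hv => ?_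
  constructor
  · rintro ⟨x, hx, h2⟩
    exact ⟨x, hN.trans _ (ht.1 v hv) x hx, hx, h2⟩
  · rintro ⟨x, _, hx, h2⟩
    exact ⟨x, hx, h2⟩

private def DB2_f : ℕ → ℕ
  | 0 => 0
  | n + 1 => n + 2

/-- A term is definable as soon as its values are in `N` and membership in it is definable. -/
theorem DT.ofMem (hN : ZF N) (h0 : ∀ v, In N v → t v ∈ N)
    (h1 : Dfn N (fun v => v 0 ∈ t (tl v))) : DT N t := by
  refine ⟨h0, ?_⟩
  have h2 : Dfn N (fun v => v 0 ∈ t (tl (tl v))) := h1.rn DB2_f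
  have h3 : Dfn N (fun v => ∀ z ∈ N, (z ∈ v 0 ↔ z ∈ t (tl v))) :=
    Dfn.all (Q := fun v z => (z ∈ v 0 ↔ z ∈ t (tl v))) (Dfn.iff (Dfn.memVar hN 0 1) h2)
  refine Dfn.congr h3 fun v hv => ?_
  constructor
  · intro h4 z _
    rw [h4]
  · intro h4
    ext z
    constructor
    · intro hz
      exact (h4 z (hN.trans _ (hv 0) z hz)).1 hz
    · intro hz
      exact (h4 z (hN.trans _ (h0 _ hv.tl) z hz)).2 hz

theorem DT.app1 (hN : ZF N) {F : ZFSet.{u} → ZFSet.{u}} (h : DT N (fun v => F (v 0)))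
    (ht : DT N t) : DT N (fun v => F (t v)) := by
  refine ⟨fun v hv => h.1 (fun _ => t v) (fun _ => ht.1 v hv), ?_⟩
  exact Dfn.app2 hN (P := fun x y => x = F y) h.2 (DT.var hN 0) ht.shift

theorem DT.app2 (hN : ZF N) {F : ZFSet.{u} → ZFSet.{u} → ZFSet.{u}}
    (h : DT N (fun v => F (v 0) (v 1))) (ht : DT N t) (hs : DT N s) :
    DT N (fun v => F (t v) (s v)) := by
  refine ⟨fun v hv => h.1 (cons (t v) (fun _ => s v))
    (In.cons (ht.1 v hv) (fun _ => hs.1 v hv)), ?_⟩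
  exact Dfn.app3 hN (P := fun x y z => x = F y z) h.2 (DT.var hN 0) ht.shift hs.shift

theorem DT.app3 (hN : ZF N) {F : ZFSet.{u} → ZFSet.{u} → ZFSet.{u} → ZFSet.{u}}
    (h : DT N (fun v => F (v 0) (v 1) (v 2))) (ht : DT N t) (hs : DT N s) (hr : DT N r) :
    DT N (fun v => F (t v) (s v) (r v)) := by
  refine ⟨fun v hv => h.1 (cons (t v) (cons (s v) (fun _ => r v)))
    (In.cons (ht.1 v hv) (In.cons (hs.1 v hv) (fun _ => hr.1 v hv))), ?_⟩
  exact Dfn.app4 hN (P := fun x y z w => x = F y z w) h.2 (DT.var hN 0) ht.shift hs.shift hr.shift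

open Classical in
theorem DT.ite (hN : ZF N) (h : Dfn N R) (ht : DT N t) (hs : DT N s) :
    DT N (fun v => if R v then t v else s v) := by
  refine ⟨fun v hv => ?_, ?_⟩
  · by_cases hR : R v
    · simp only [if_pos hR]
      exact ht.1 v hv
    · simp only [if_neg hR]
      exact hs.1 v hv
  · have h1 : Dfn N (fun v => (R (tl v) ∧ v 0 = t (tl v)) ∨ (¬ R (tl v) ∧ v 0 = s (tl v))) :=
      Dfn.or (Dfn.and h.shift ht.2) (Dfn.and h.shift.not hs.2)
    refine Dfn.congr h1 fun v hv => ?_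
    by_cases hR : R (tl v)
    · simp [hR]
    · simp [hR]

end Pool.Agent.FBZ
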