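import Pool.Agent.FBZ.DB2

/-!
# FBZ module DC1: basic set operations are definable terms, I

Except for constants always `DT.ofMem` (value in `N`, membership in the value definable).
* `∅ ∈ N` because `∅ ∈ ω ∈ N` (`omega_zero`); `DT.empty`, `DT.omega`: `DT.cst`.
* `DT.sepT`: the value is in `N` by `sepU`; membership `v 0 ∈ (t (tl v)).sep (Q (tl v))` is
  `v 0 ∈ t (tl v) ∧ Q (tl v) (v 0)`.
* `DT.upair`: value in `N` by `pairing`; `z ∈ {x, y} ↔ z = x ∨ z = y`.  `DT.singleT`: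
  `{x} = {x, x}` (`pair_eq_singleton`, `DT.congr`).  `DT.pairT`: `pair x y = {{x}, {x, y}}`.
* `DT.sUnionT`: value in `N` by `union`; `z ∈ ⋃₀ x ↔ ∃ y ∈ x, z ∈ y` (`Dfn.bex`).
  `DT.unionT`: `x ∪ y = ⋃₀ {x, y}` (`sUnion_pair`).  `DT.insertT`: `insert x y = {x} ∪ y`
  (`ZFSet.insert_eq`).  `DT.interT`, `DT.sdiffT`: `DT.sepT` (`sep_mem`, `sep_notMem` of Mathlib's
  `ZFSet`, or `ext`).
* the `_mem` statements: apply the first component of the `DT` statement to a suitable assignment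
  (e.g. `cons x (cons y (fun _ => ω))`) or use the axioms directly.  `pair_mem_iff`: `x ∈ {x}` and
  `{x}, {x, y} ∈ pair x y`.
-/

namespace Pool.Agent.FBZ
open ZFSet
universe u
variable {N : Set ZFSet.{u}} {t s : Env.{u} → ZFSet.{u}}

theorem mem_N (hN : ZF N) {x y : ZFSet.{u}} (hx : x ∈ N) (hy : y ∈ x) : y ∈ N :=
  hN.trans x hx y hy

theorem empty_mem (hN : ZF N) : (∅ : ZFSet.{u}) ∈ N := by
  exact hN.trans _ hN.omega _ omega_zero

theorem DT.empty (hN : ZF N) : DT N (fun _ => ∅) := by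
  exact DT.cst hN (empty_mem hN)

theorem DT.omegaT (hN : ZF N) : DT N (fun _ => ZFSet.omega) := by
  exact DT.cst hN hN.omega

theorem DT.sepT (hN : ZF N) {Q : Env.{u} → ZFSet.{u} → Prop} (ht : DT N t)
    (h : Dfn N (fun v => Q (tl v) (v 0))) : DT N (fun v => (t v).sep (Q v)) := by
  refine DT.ofMem hN (fun v hv => sepU hN h hv (ht.1 v hv)) ?_
  refine ((Dfn.mem hN (DT.var hN 0) ht.shift).and h).congr fun v hv => ?_
  exact mem_sep

theorem DT.upair (hN : ZF N) (ht : DT N t) (hs : DT N s) :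
    DT N (fun v => ({t v, s v} : ZFSet.{u})) := by
  refine DT.ofMem hN (fun v hv => hN.pairing _ (ht.1 v hv) _ (hs.1 v hv)) ?_
  refine ((Dfn.eq hN (DT.var hN 0) ht.shift).or (Dfn.eq hN (DT.var hN 0) hs.shift)).congr
    fun v hv => ?_
  exact mem_pair

theorem DT.singleT (hN : ZF N) (ht : DT N t) : DT N (fun v => ({t v} : ZFSet.{u})) := by
  exact (DT.upair hN ht ht).congr fun v _ => (pair_eq_singleton _).symm

theorem DT.pairT (hN : ZF N) (ht : DT N t) (hs : DT N s) : DT N (fun v => pair (t v) (s v)) := by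
  exact DT.upair hN (DT.singleT hN ht) (DT.upair hN ht hs)

theorem DT.sUnionT (hN : ZF N) (ht : DT N t) : DT N (fun v => (⋃₀ (t v) : ZFSet.{u})) := by
  refine DT.ofMem hN (fun v hv => hN.union _ (ht.1 v hv)) ?_
  have h1 : Dfn N (fun v => ∃ y ∈ t (tl v), v 0 ∈ y) :=
    Dfn.bex hN (Q := fun v y => v 0 ∈ y) ht.shift (Dfn.memVar hN 1 0)
  exact h1.congr fun v hv => mem_sUnion

theorem DT.unionT (hN : ZF N) (ht : DT N t) (hs : DT N s) : DT N (fun v => t v ∪ s v) := by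
  exact (DT.sUnionT hN (DT.upair hN ht hs)).congr fun v _ => (sUnion_pair _ _).symm

theorem DT.insertT (hN : ZF N) (ht : DT N t) (hs : DT N s) :
    DT N (fun v => (insert (t v) (s v) : ZFSet.{u})) := by
  exact (DT.unionT hN (DT.singleT hN ht) hs).congr fun v _ => insert_eq _ _

theorem DT.interT (hN : ZF N) (ht : DT N t) (hs : DT N s) : DT N (fun v => t v ∩ s v) := by
  exact (DT.sepT hN (Q := fun v z => z ∈ s v) ht (Dfn.mem hN (DT.var hN 0) hs.shift)).congr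
    fun v _ => (ZFSet.sep_mem _ _).symm

theorem DT.sdiffT (hN : ZF N) (ht : DT N t) (hs : DT N s) : DT N (fun v => t v \ s v) := by
  exact (DT.sepT hN (Q := fun v z => z ∉ s v) ht
    (Dfn.mem hN (DT.var hN 0) hs.shift).not).congr fun v _ => (ZFSet.sep_notMem _ _).symm

theorem pair_mem (hN : ZF N) {x y : ZFSet.{u}} (hx : x ∈ N) (hy : y ∈ N) : pair x y ∈ N := by
  have h1 : ({x} : ZFSet.{u}) ∈ N := by
    rw [← pair_eq_singleton]
    exact hN.pairing x hx x hx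
  exact hN.pairing _ h1 _ (hN.pairing x hx y hy)

theorem pair_mem_iff (hN : ZF N) {x y : ZFSet.{u}} : pair x y ∈ N ↔ x ∈ N ∧ y ∈ N := by
  refine ⟨fun h => ?_, fun h => pair_mem hN h.1 h.2⟩
  have h1 : ({x, y} : ZFSet.{u}) ∈ N := mem_N hN h (mem_pair.2 (Or.inr rfl))
  exact ⟨mem_N hN h1 (mem_pair.2 (Or.inl rfl)), mem_N hN h1 (mem_pair.2 (Or.inr rfl))⟩

theorem singleton_mem (hN : ZF N) {x : ZFSet.{u}} (hx : x ∈ N) : ({x} : ZFSet.{u}) ∈ N := by
  rw [← pair_eq_singleton]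
  exact hN.pairing x hx x hx

theorem insert_mem (hN : ZF N) {x y : ZFSet.{u}} (hx : x ∈ N) (hy : y ∈ N) :
    (insert x y : ZFSet.{u}) ∈ N := by
  rw [insert_eq, ← sUnion_pair]
  exact hN.union _ (hN.pairing _ (singleton_mem hN hx) _ hy)

theorem union_mem (hN : ZF N) {x y : ZFSet.{u}} (hx : x ∈ N) (hy : y ∈ N) : x ∪ y ∈ N := by
  rw [← sUnion_pair]
  exact hN.union _ (hN.pairing _ hx _ hy)

theorem sUnion_mem (hN : ZF N) {x : ZFSet.{u}} (hx : x ∈ N) : (⋃₀ x : ZFSet.{u}) ∈ N := by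
  exact hN.union _ hx

end Pool.Agent.FBZ
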