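import Pool.Agent.FBZ.DC1

/-!
# FBZ module DC2: images, graphs, range, domain, application, power set, products

* `mem_ran`: if `pair b z ∈ e` then `z ∈ {b, z} ∈ pair b z ∈ e`, so `z ∈ ⋃₀ ⋃₀ e`.  `mem_dom`: the
  same with `z ∈ {z} ∈ pair z b ∈ e`.  `mem_gr`: `mem_img`, `pair_inj`.
* `DT.imgT`: value in `N` by `imgU`; `z ∈ img (F v) (t v) ↔ ∃ x ∈ t v, z = F v x`: `Dfn.bex` and
  `Dfn.eq` for the terms `v 1` and `F (tl (tl v)) (v 0)` in the variables `x, z, v` (the hypothesis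
  renamed by `0 ↦ 0`, `n+1 ↦ n+2`).  `DT.grT`: `DT.imgT` and `DT.pairT`.
* `DT.ranT`, `DT.domT`: `DT.sepT`; the quantifier over `b` can be bounded by `N` because
  `pair b z ∈ e ∈ N` implies `b ∈ N` (`pair_mem_iff`).
* `ap f x` is the union of all `y` with `pair x y ∈ f`, so it is `f(x)` if `f` is a function.
* `DT.powT`: value in `N`: the axiom `power` gives `y ∈ N` with the elements of `powN N x`;
  membership: `z ∈ powN N x ↔ z ⊆ x` for `z ∈ N`.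
* `DT.prodT`: `prod a b = ⋃₀ (img (fun x => img (fun y => pair x y) b) a)`.
* `gr_isFunc`, `gr_eq`: `mem_gr`.  `isFunc_gr`: a set function `f : a → b` is the graph of
  `ap f` on `a`.
-/

namespace Pool.Agent.FBZ
open ZFSet
universe u
variable {N : Set ZFSet.{u}} {t s : Env.{u} → ZFSet.{u}}

/-- The value `f(x)` of a set function. -/
noncomputable def ap (f x : ZFSet.{u}) : ZFSet.{u} :=
  (⋃₀ ((ran f).sep (fun y => pair x y ∈ f)) : ZFSet.{u})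

theorem mem_ran {e z : ZFSet.{u}} : z ∈ ran e ↔ ∃ b, pair b z ∈ e := by
  unfold ran
  rw [mem_sep]
  refine ⟨fun h => h.2, fun h => ⟨?_, h⟩⟩
  obtain ⟨b, hb⟩ := h
  rw [mem_sUnion]
  refine ⟨{b, z}, ?_, by simp⟩
  rw [mem_sUnion]
  exact ⟨pair b z, hb, by simp [pair]⟩

theorem mem_dom {e z : ZFSet.{u}} : z ∈ dom e ↔ ∃ b, pair z b ∈ e := by
  unfold dom
  rw [mem_sep]
  refine ⟨fun h => h.2, fun h => ⟨?_, h⟩⟩
  obtain ⟨b, hb⟩ := h
  rw [mem_sUnion]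
  refine ⟨{z}, ?_, by simp⟩
  rw [mem_sUnion]
  exact ⟨pair z b, hb, by simp [pair]⟩

theorem mem_gr {F : ZFSet.{u} → ZFSet.{u}} {a x y : ZFSet.{u}} :
    pair x y ∈ gr F a ↔ x ∈ a ∧ y = F x := by
  unfold gr
  rw [mem_img]
  constructor
  · rintro ⟨x', hx', h⟩
    obtain ⟨h1, h2⟩ := pair_inj.1 h
    subst h1
    exact ⟨hx', h2⟩
  · rintro ⟨hx, rfl⟩
    exact ⟨x, hx, rfl⟩

theorem mem_gr' {F : ZFSet.{u} → ZFSet.{u}} {a p : ZFSet.{u}} :
    p ∈ gr F a ↔ ∃ x ∈ a, p = pair x (F x) := by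
  unfold gr
  exact mem_img

theorem dom_gr (F : ZFSet.{u} → ZFSet.{u}) (a : ZFSet.{u}) : dom (gr F a) = a := by
  ext z
  rw [mem_dom]
  constructor
  · rintro ⟨b, hb⟩
    exact (mem_gr.1 hb).1
  · intro h
    exact ⟨F z, mem_gr.2 ⟨h, rfl⟩⟩

theorem ran_gr (F : ZFSet.{u} → ZFSet.{u}) (a : ZFSet.{u}) : ran (gr F a) = img F a := by
  ext z
  rw [mem_ran, mem_img]
  constructor
  · rintro ⟨b, hb⟩
    exact ⟨b, (mem_gr.1 hb).1, (mem_gr.1 hb).2⟩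
  · rintro ⟨x, hx, h⟩
    exact ⟨x, mem_gr.2 ⟨hx, h⟩⟩

theorem ap_eq {a b f x y : ZFSet.{u}} (hf : IsFunc a b f) (h : pair x y ∈ f) : ap f x = y := by
  have hx : x ∈ a := (pair_mem_prod.1 (hf.1 h)).1
  obtain ⟨w, hw, hu⟩ := hf.2 x hx
  have hy : y = w := hu y h
  ext z
  unfold ap
  rw [mem_sUnion]
  constructor
  · rintro ⟨y', hy', hz⟩
    rw [mem_sep] at hy'
    have h1 : y' = w := hu y' hy'.2
    rw [hy, ← h1]
    exact hz
  · intro hz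
    exact ⟨y, mem_sep.2 ⟨mem_ran.2 ⟨x, h⟩, h⟩, hz⟩

theorem pair_ap {a b f x : ZFSet.{u}} (hf : IsFunc a b f) (hx : x ∈ a) :
    pair x (ap f x) ∈ f ∧ ap f x ∈ b := by
  obtain ⟨w, hw, hu⟩ := hf.2 x hx
  have h1 : ap f x = w := ap_eq hf hw
  rw [h1]
  exact ⟨hw, (pair_mem_prod.1 (hf.1 hw)).2⟩

theorem ap_gr {F : ZFSet.{u} → ZFSet.{u}} {a x : ZFSet.{u}} (hx : x ∈ a) : ap (gr F a) x = F x := by
  ext z
  unfold ap
  rw [mem_sUnion]
  constructor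
  · rintro ⟨y', hy', hz⟩
    rw [mem_sep] at hy'
    rw [← (mem_gr.1 hy'.2).2]
    exact hz
  · intro hz
    have h : pair x (F x) ∈ gr F a := mem_gr.2 ⟨hx, rfl⟩
    exact ⟨F x, mem_sep.2 ⟨mem_ran.2 ⟨x, h⟩, h⟩, hz⟩

theorem gr_isFunc {F : ZFSet.{u} → ZFSet.{u}} {a b : ZFSet.{u}} (h : ∀ x ∈ a, F x ∈ b) :
    IsFunc a b (gr F a) := by
  refine ⟨fun p hp => ?_, fun x hx => ⟨F x, mem_gr.2 ⟨hx, rfl⟩, fun y hy => (mem_gr.1 hy).2⟩⟩
  obtain ⟨x, hx, rfl⟩ := mem_gr'.1 hp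
  exact pair_mem_prod.2 ⟨hx, h x hx⟩

theorem isFunc_gr {a b f : ZFSet.{u}} (hf : IsFunc a b f) : f = gr (ap f) a := by
  ext p
  rw [mem_gr']
  constructor
  · intro hp
    obtain ⟨x, hx, y, hy, h⟩ := mem_prod.1 (hf.1 hp)
    subst h
    exact ⟨x, hx, by rw [ap_eq hf hp]⟩
  · rintro ⟨x, hx, rfl⟩
    exact (pair_ap hf hx).1

theorem DT.imgT (hN : ZF N) {F : Env.{u} → ZFSet.{u} → ZFSet.{u}} (ht : DT N t)
    (h : DT N (fun v => F (tl v) (v 0))) : DT N (fun v => img (F v) (t v)) := by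
  refine DT.ofMem hN (fun v hv => imgU hN h hv (ht.1 v hv)) ?_
  have h1 : DT N (fun v => F (tl (tl v)) (v 0)) :=
    DT.rn (fun n => match n with | 0 => 0 | k + 1 => k + 2) h
  have h2 : Dfn N (fun v => v 1 = F (tl (tl v)) (v 0)) := Dfn.eq hN (DT.var hN 1) h1
  have h3 : Dfn N (fun v => ∃ x ∈ t (tl v), v 0 = F (tl v) x) :=
    Dfn.bex hN (Q := fun v x => v 0 = F (tl v) x) ht.shift h2
  refine h3.congr fun v _ => ?_
  rw [mem_img]

theorem DT.grT (hN : ZF N) {F : Env.{u} → ZFSet.{u} → ZFSet.{u}} (ht : DT N t)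
    (h : DT N (fun v => F (tl v) (v 0))) : DT N (fun v => gr (F v) (t v)) := by
  exact DT.imgT hN (F := fun v z => pair z (F v z)) ht (DT.pairT hN (DT.var hN 0) h)

theorem DT.ranT (hN : ZF N) (ht : DT N t) : DT N (fun v => ran (t v)) := by
  have h2 : Dfn N (fun v => pair (v 0) (v 1) ∈ t (tl (tl v))) :=
    Dfn.mem hN (DT.pairT hN (DT.var hN 0) (DT.var hN 1)) ht.shift.shift
  have h3 : Dfn N (fun v => ∃ b ∈ N, pair b (v 0) ∈ t (tl v)) :=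
    Dfn.ex (Q := fun v b => pair b (v 0) ∈ t (tl v)) h2
  have h4 : Dfn N (fun v => ∃ b, pair b (v 0) ∈ t (tl v)) := by
    refine h3.congr fun v hv => ⟨fun ⟨b, hb⟩ => ?_, fun ⟨b, _, hb⟩ => ⟨b, hb⟩⟩
    exact ⟨b, ((pair_mem_iff hN).1 (mem_N hN (ht.shift.1 v hv) hb)).1, hb⟩
  exact DT.sepT hN (Q := fun v z => ∃ b, pair b z ∈ t v) (DT.sUnionT hN (DT.sUnionT hN ht)) h4

theorem DT.domT (hN : ZF N) (ht : DT N t) : DT N (fun v => dom (t v)) := by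
  have h2 : Dfn N (fun v => pair (v 1) (v 0) ∈ t (tl (tl v))) :=
    Dfn.mem hN (DT.pairT hN (DT.var hN 1) (DT.var hN 0)) ht.shift.shift
  have h3 : Dfn N (fun v => ∃ b ∈ N, pair (v 0) b ∈ t (tl v)) :=
    Dfn.ex (Q := fun v b => pair (v 0) b ∈ t (tl v)) h2
  have h4 : Dfn N (fun v => ∃ b, pair (v 0) b ∈ t (tl v)) := by
    refine h3.congr fun v hv => ⟨fun ⟨b, hb⟩ => ?_, fun ⟨b, _, hb⟩ => ⟨b, hb⟩⟩
    exact ⟨b, ((pair_mem_iff hN).1 (mem_N hN (ht.shift.1 v hv) hb)).2, hb⟩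
  exact DT.sepT hN (Q := fun v z => ∃ b, pair z b ∈ t v) (DT.sUnionT hN (DT.sUnionT hN ht)) h4

theorem DT.apT (hN : ZF N) (ht : DT N t) (hs : DT N s) : DT N (fun v => ap (t v) (s v)) := by
  have h2 : Dfn N (fun v => pair (s (tl v)) (v 0) ∈ t (tl v)) :=
    Dfn.mem hN (DT.pairT hN hs.shift (DT.var hN 0)) ht.shift
  exact DT.sUnionT hN (DT.sepT hN (Q := fun v y => pair (s v) y ∈ t v) (DT.ranT hN ht) h2)

theorem mem_powN {x z : ZFSet.{u}} : z ∈ powN N x ↔ z ∈ N ∧ z ⊆ x := by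
  unfold powN
  rw [mem_sep, mem_powerset]
  exact and_comm

theorem DT.powT (hN : ZF N) (ht : DT N t) : DT N (fun v => powN N (t v)) := by
  refine DT.ofMem hN (fun v hv => ?_) ?_
  · obtain ⟨y, hy, h⟩ := hN.power (t v) (ht.1 v hv)
    have h1 : powN N (t v) = y := by
      ext z
      rw [mem_powN, h z]
    rw [h1]
    exact hy
  · have h2 : Dfn N (fun v => v 0 ⊆ t (tl v)) := Dfn.subset hN (DT.var hN 0) ht.shift
    refine h2.congr fun v hv => ?_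
    rw [mem_powN]
    exact ⟨fun h => h.2, fun h => ⟨hv 0, h⟩⟩

theorem DT.prodT (hN : ZF N) (ht : DT N t) (hs : DT N s) : DT N (fun v => prod (t v) (s v)) := by
  have h1 : DT N (fun v => pair (v 1) (v 0)) := DT.pairT hN (DT.var hN 1) (DT.var hN 0)
  have h2 : DT N (fun v => img (fun y => pair (v 0) y) (s (tl v))) :=
    DT.imgT hN (F := fun v y => pair (v 0) y) hs.shift h1
  have h3 : DT N (fun v => img (fun x => img (fun y => pair x y) (s v)) (t v)) :=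
    DT.imgT hN (F := fun v x => img (fun y => pair x y) (s v)) ht h2
  refine (DT.sUnionT hN h3).congr fun v _ => ?_
  ext p
  rw [mem_prod, mem_sUnion]
  constructor
  · rintro ⟨x, hx, y, hy, rfl⟩
    exact ⟨img (fun y => pair x y) (s v), mem_img.2 ⟨x, hx, rfl⟩, mem_img.2 ⟨y, hy, rfl⟩⟩
  · rintro ⟨w, hw, hp⟩
    obtain ⟨x, hx, rfl⟩ := mem_img.1 hw
    obtain ⟨y, hy, rfl⟩ := mem_img.1 hp
    exact ⟨x, hx, y, hy, rfl⟩

theorem prod_mem (hN : ZF N) {x y : ZFSet.{u}} (hx : x ∈ N) (hy : y ∈ N) : prod x y ∈ N := by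
  have h := (DT.prodT hN (DT.var hN 0) (DT.var hN 1)).1 (cons x (fun _ => y))
    (In.cons hx fun _ => hy)
  exact h

theorem powN_mem (hN : ZF N) {x : ZFSet.{u}} (hx : x ∈ N) : powN N x ∈ N := by
  exact (DT.powT hN (DT.var hN 0)).1 (fun _ => x) (fun _ => hx)

theorem ran_mem (hN : ZF N) {x : ZFSet.{u}} (hx : x ∈ N) : ran x ∈ N := by
  exact (DT.ranT hN (DT.var hN 0)).1 (fun _ => x) (fun _ => hx)

theorem dom_mem (hN : ZF N) {x : ZFSet.{u}} (hx : x ∈ N) : dom x ∈ N := by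
  exact (DT.domT hN (DT.var hN 0)).1 (fun _ => x) (fun _ => hx)

/-- A definable function has its graphs (over sets of `N`) in `N`; version without variables. -/
theorem gr_mem (hN : ZF N) {F : ZFSet.{u} → ZFSet.{u}} (h : DT N (fun v => F (v 0)))
    {a : ZFSet.{u}} (ha : a ∈ N) : gr F a ∈ N := by
  exact (DT.grT hN (F := fun _ => F) (DT.var hN 0) h).1 (fun _ => a) (fun _ => ha)

theorem img_mem (hN : ZF N) {F : ZFSet.{u} → ZFSet.{u}} (h : DT N (fun v => F (v 0)))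
    {a : ZFSet.{u}} (ha : a ∈ N) : img F a ∈ N := by
  exact (DT.imgT hN (F := fun _ => F) (DT.var hN 0) h).1 (fun _ => a) (fun _ => ha)

end Pool.Agent.FBZ
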