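import Pool.Agent.FBZ.DE2

/-!
# FBZ module DF1: transitive closures in `N`

`tc x` is the transitive closure of `x` (the smallest transitive set containing `x` as a subset).
* `tc_eq`: `recF_eq`, `dom_gr`, `ran_gr`.
* `tc_trans`: `∈`-induction on `x`: the sets `tc z`, `z ∈ x`, are transitive; if `y ∈ tc x` and
  `w ∈ y`: either `y ∈ x`, then `w ∈ y ⊆ tc y ⊆ tc x`; or `y ∈ tc z` with `z ∈ x`, then
  `w ∈ tc z ⊆ tc x`.
* `tc_min`: `∈`-induction: `x ⊆ T` transitive implies `z ⊆ T` for `z ∈ x`, so `tc z ⊆ T`.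
* `tc_mem_N` (`x ∈ N → tc x ∈ N`), by `∈`-induction: let `tc z ∈ N` for all `z ∈ x`.  The relation
  `Q z T := T.IsTransitive ∧ z ⊆ T ∧ ∀ T' ∈ N, T'.IsTransitive → z ⊆ T' → T ⊆ T'` is definable, and
  for `z ∈ x` the only `T ∈ N` with `Q z T` is `tc z`.  By `replU` there is `b ∈ N` with
  `b = img tc x`, and `tc x = x ∪ ⋃₀ b ∈ N`.
* `DT.tcT`: for `z ∈ N`: `T = tc z ↔ Q z T` (both directions as above), so
  `v 0 = tc (v 1)` is definable; then `DT.app1`.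
* `rank_lt_tc`: `z ∈ tc x → rank z < rank x`: `∈`-induction with `tc_eq` (`rank_lt_of_mem`).
-/

namespace Pool.Agent.FBZ
open ZFSet
universe u
variable {N : Set ZFSet.{u}} {t : Env.{u} → ZFSet.{u}}

/-- Transitive closure. -/
noncomputable def tc : ZFSet.{u} → ZFSet.{u} := recF (fun g => dom g ∪ (⋃₀ (ran g) : ZFSet.{u}))

theorem tc_eq (x : ZFSet.{u}) : tc x = x ∪ (⋃₀ (img tc x) : ZFSet.{u}) := by
  have h : tc x = dom (gr tc x) ∪ (⋃₀ (ran (gr tc x)) : ZFSet.{u}) := by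
    conv_lhs => rw [tc, recF_eq]
    rfl
  rw [h, dom_gr, ran_gr]

private theorem DF1_mem {x z : ZFSet.{u}} : z ∈ tc x ↔ z ∈ x ∨ ∃ w ∈ x, z ∈ tc w := by
  rw [tc_eq, mem_union, mem_sUnion]
  constructor
  · rintro (h | ⟨w, hw, hz⟩)
    · exact Or.inl h
    · obtain ⟨y, hy, rfl⟩ := mem_img.1 hw
      exact Or.inr ⟨y, hy, hz⟩
  · rintro (h | ⟨w, hw, hz⟩)
    · exact Or.inl h
    · exact Or.inr ⟨tc w, mem_img.2 ⟨w, hw, rfl⟩, hz⟩

theorem subset_tc (x : ZFSet.{u}) : x ⊆ tc x := fun _ hz => DF1_mem.2 (Or.inl hz)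

theorem tc_trans (x : ZFSet.{u}) : (tc x).IsTransitive := by
  induction x using ZFSet.inductionOn with
  | _ x ih =>
  intro y hy w hw
  rcases DF1_mem.1 hy with h | ⟨z, hz, h⟩
  · exact DF1_mem.2 (Or.inr ⟨y, h, subset_tc y hw⟩)
  · exact DF1_mem.2 (Or.inr ⟨z, hz, ih z hz y h hw⟩)

theorem tc_min {x T : ZFSet.{u}} (hx : x ⊆ T) (hT : T.IsTransitive) : tc x ⊆ T := by
  induction x using ZFSet.inductionOn with
  | _ x ih =>
  intro z hz
  rcases DF1_mem.1 hz with h | ⟨w, hw, h⟩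
  · exact hx h
  · exact ih w hw (hT w (hx hw)) h

theorem mem_tc {x z : ZFSet.{u}} : z ∈ tc x ↔ z ∈ x ∨ ∃ w ∈ x, z ∈ tc w := DF1_mem

theorem rank_lt_tc {x z : ZFSet.{u}} (h : z ∈ tc x) : z.rank < x.rank := by
  induction x using ZFSet.inductionOn with
  | _ x ih =>
  rcases DF1_mem.1 h with h1 | ⟨w, hw, h1⟩
  · exact rank_lt_of_mem h1
  · exact (ih w hw h1).trans (rank_lt_of_mem hw)

private def DF1_Q (N : Set ZFSet.{u}) (z T : ZFSet.{u}) : Prop :=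
  T.IsTransitive ∧ z ⊆ T ∧ ∀ T' ∈ N, (T'.IsTransitive → (z ⊆ T' → T ⊆ T'))

private theorem DF1_dfn (hN : ZF N) : Dfn N (fun v => DF1_Q N (v 1) (v 0)) := by
  unfold DF1_Q
  refine Dfn.and ?_ (Dfn.and (Dfn.subset hN (DT.var hN 1) (DT.var hN 0)) ?_)
  · exact Dfn.ball hN (DT.var hN 0) (Dfn.subset hN (DT.var hN 0) (DT.var hN 1))
  · refine Dfn.all (Q := fun v T' => (T'.IsTransitive → (v 1 ⊆ T' → v 0 ⊆ T'))) ?_
    refine Dfn.imp ?_ (Dfn.imp (Dfn.subset hN (DT.var hN 2) (DT.var hN 0))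
      (Dfn.subset hN (DT.var hN 1) (DT.var hN 0)))
    exact Dfn.ball hN (DT.var hN 0) (Dfn.subset hN (DT.var hN 0) (DT.var hN 1))

private theorem DF1_Q_tc {z : ZFSet.{u}} : DF1_Q N z (tc z) :=
  ⟨tc_trans z, subset_tc z, fun _ _ hT hz => tc_min hz hT⟩

private theorem DF1_uniq {z T : ZFSet.{u}} (hz : tc z ∈ N) (h : DF1_Q N z T) : T = tc z := by
  obtain ⟨h1, h2, h3⟩ := h
  ext y
  constructor
  · intro hy
    exact h3 (tc z) hz (tc_trans z) (subset_tc z) hy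
  · intro hy
    exact tc_min h2 h1 hy

theorem tc_mem_N (hN : ZF N) {x : ZFSet.{u}} (hx : x ∈ N) : tc x ∈ N := by
  induction x using ZFSet.inductionOn with
  | _ x ih =>
  have ih' : ∀ z ∈ x, tc z ∈ N := fun z hz => ih z hz (mem_N hN hx hz)
  obtain ⟨b, hb, hb'⟩ := replU hN (Q := fun _ z T => DF1_Q N z T) (DF1_dfn hN)
    (v := fun _ => x) (fun _ => hx) hx (fun z hz => by
      refine ⟨tc z, ⟨ih' z hz, DF1_Q_tc⟩, ?_⟩
      rintro T ⟨_, hT⟩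
      exact DF1_uniq (ih' z hz) hT)
  have h1 : b = img tc x := by
    ext y
    rw [hb', mem_img]
    constructor
    · rintro ⟨_, z, hz, hQ⟩
      exact ⟨z, hz, DF1_uniq (ih' z hz) hQ⟩
    · rintro ⟨z, hz, rfl⟩
      exact ⟨ih' z hz, z, hz, DF1_Q_tc⟩
  rw [tc_eq, ← h1]
  exact union_mem hN hx (sUnion_mem hN hb)

theorem DT.tcT (hN : ZF N) (ht : DT N t) : DT N (fun v => tc (t v)) := by
  refine DT.app1 hN ⟨fun v hv => tc_mem_N hN (hv 0), ?_⟩ ht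
  refine Dfn.congr (DF1_dfn hN) fun v hv => ?_
  change v 0 = tc (v 1) ↔ DF1_Q N (v 1) (v 0)
  constructor
  · intro h
    rw [h]
    exact DF1_Q_tc
  · intro h
    exact DF1_uniq (tc_mem_N hN (hv 1)) h

end Pool.Agent.FBZ
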