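import Pool.Agent.FBZ.DF1

/-!
# FBZ module DF2: the definable recursion theorem

If `Φ v g` is a definable term (in the variables `v, g`), then the function `F = recF (Φ v)`
(i.e. `F x = Φ v (gr F x)`) is a definable term in the variables `v, x`.

Proof.  Fix `v` in `N`, `F = recF (Φ v)`, and put `T z = insert z (tc z)` (transitive).
For `f, z ∈ N` let `A v z f` be:
  `(∀ p ∈ f, ∃ w ∈ T z, ∃ y ∈ N, p = pair w y)` and
  `∀ w ∈ T z, ∀ y ∈ N, (pair w y ∈ f ↔ y = Φ v (f.sep (fun p => ∃ a ∈ w, ∃ b ∈ N, p = pair a b)))`.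
(1) `A v z f → f = gr F (T z)`: by `∈`-induction on `w ∈ T z` (all elements of `w` are in `T z`)
    `f.sep (...) = gr F w`, hence `pair w y ∈ f ↔ y = Φ v (gr F w) = F w`.  Here
    `Φ v (gr F w) ∈ N` since `gr F w = f.sep (...) ∈ N`.
(2) if `gr F (T z) ∈ N` then `A v z (gr F (T z))`, by `recF_eq`.
(3) for all `z ∈ N`: `gr F (T z) ∈ N`.  By `∈`-induction: for `w ∈ z` the only `f ∈ N` with
    `A v w f` is `gr F (T w)`; `A` is definable, so by `replU` the set `{gr F (T w) : w ∈ z}` is in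
    `N`; its union is `gr F (tc z)` because `tc z` is the union of the `T w`, `w ∈ z` (`mem_tc`).
    Then `gr F z = (gr F (tc z)).sep (p = pair a b with a ∈ z)` is in `N`, so
    `F z = Φ v (gr F z) ∈ N` and `gr F (T z) = insert (pair z (F z)) (gr F (tc z)) ∈ N`.
(4) `F z ∈ N`, and for `y ∈ N`: `y = F z ↔ ∃ f ∈ N, A v z f ∧ pair z y ∈ f`.  This is definable in
    `y, z, v`.
-/

namespace Pool.Agent.FBZ
open ZFSet
universe u
variable {N : Set ZFSet.{u}}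

/-- Substitution of a term for the first variable of a term. -/
private theorem df2_sub (hN : ZF N) {s t : Env.{u} → ZFSet.{u}} (hs : DT N s) (ht : DT N t) :
    DT N (fun v => s (cons (t v) v)) := by
  refine ⟨fun v hv => hs.1 _ (hv.cons (ht.1 v hv)), ?_⟩
  have h1 : Dfn N (fun v => v 1 = s (cons (v 0) (tl (tl v)))) := by
    refine (hs.2.rn (fun n => match n with | 0 => 1 | 1 => 0 | k + 2 => k + 2)).congr
      fun v hv => ?_
    refine iff_of_eq (congrArg (fun e => v 1 = s e) ?_)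
    funext n
    cases n with
    | zero => rfl
    | succ n => rfl
  exact Dfn.sub hN h1 ht.shift

/-- The set `insert z (tc z)`. -/
private noncomputable def df2_T (z : ZFSet.{u}) : ZFSet.{u} := insert z (tc z)

private theorem df2_mem_T {z w : ZFSet.{u}} : w ∈ df2_T z ↔ w = z ∨ w ∈ tc z := by
  unfold df2_T
  exact mem_insert_iff

private theorem df2_T_trans {z w a : ZFSet.{u}} (hw : w ∈ df2_T z) (ha : a ∈ w) :
    a ∈ df2_T z := by
  rw [df2_mem_T] at hw ⊢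
  rcases hw with rfl | hw
  · exact Or.inr (subset_tc _ ha)
  · exact Or.inr (tc_trans z w hw ha)

private theorem df2_T_N (hN : ZF N) {z : ZFSet.{u}} (hz : z ∈ N) : df2_T z ∈ N :=
  insert_mem hN hz (tc_mem_N hN hz)

/-- `p` is an ordered pair with first component in `w`. -/
private def df2_B (N : Set ZFSet.{u}) (w p : ZFSet.{u}) : Prop := ∃ a ∈ w, ∃ b ∈ N, p = pair a b

private def df2_A (N : Set ZFSet.{u}) (Ψ : ZFSet.{u} → ZFSet.{u}) (z f : ZFSet.{u}) : Prop :=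
  (∀ p ∈ f, df2_B N (df2_T z) p) ∧
    ∀ w ∈ df2_T z, ∀ y ∈ N, (pair w y ∈ f ↔ y = Ψ (f.sep (df2_B N w)))

private theorem df2_B_dfn (hN : ZF N) {t s : Env.{u} → ZFSet.{u}} (ht : DT N t) (hs : DT N s) :
    Dfn N (fun v => df2_B N (t v) (s v)) := by
  refine Dfn.app2 hN (P := fun w p => df2_B N w p) ?_ ht hs
  refine Dfn.bex hN (t := fun v => v 0) (Q := fun v a => ∃ b ∈ N, v 1 = pair a b)
    (DT.var hN 0) ?_
  refine Dfn.ex (Q := fun v b => v 2 = pair (v 0) b) ?_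
  exact Dfn.eq hN (DT.var hN 3) (DT.pairT hN (DT.var hN 1) (DT.var hN 0))

private theorem df2_sep_N (hN : ZF N) {f w : ZFSet.{u}} (hf : f ∈ N) (hw : w ∈ N) :
    f.sep (df2_B N w) ∈ N :=
  sep_mem hN (Q := df2_B N w) (df2_B_dfn hN (DT.cst hN hw) (DT.var hN 0)) hf

private theorem df2_A_dfn (hN : ZF N) {Φ : Env.{u} → ZFSet.{u} → ZFSet.{u}}
    (h : DT N (fun v => Φ (tl v) (v 0))) :
    Dfn N (fun v => df2_A N (Φ (tl (tl v))) (v 1) (v 0)) := by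
  refine Dfn.and ?_ ?_
  · refine Dfn.ball hN (t := fun v => v 0) (Q := fun v p => df2_B N (df2_T (v 1)) p)
      (DT.var hN 0) ?_
    refine df2_B_dfn hN ?_ (DT.var hN 0)
    exact DT.insertT hN (DT.var hN 2) (DT.tcT hN (DT.var hN 2))
  · refine Dfn.ball hN (t := fun v => df2_T (v 1))
      (Q := fun v w => ∀ y ∈ N, (pair w y ∈ v 0 ↔ y = Φ (tl (tl v)) ((v 0).sep (df2_B N w))))
      (DT.insertT hN (DT.var hN 1) (DT.tcT hN (DT.var hN 1))) ?_
    refine Dfn.all (Q := fun v y => (pair (v 0) y ∈ v 1 ↔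
      y = Φ (tl (tl (tl v))) ((v 1).sep (df2_B N (v 0))))) ?_
    refine Dfn.iff (Dfn.mem hN (DT.pairT hN (DT.var hN 1) (DT.var hN 0)) (DT.var hN 2)) ?_
    refine Dfn.eq hN (DT.var hN 0) ?_
    have h1 : DT N (fun v => (v 2).sep (df2_B N (v 1))) :=
      DT.sepT hN (t := fun v => v 2) (Q := fun v p => df2_B N (v 1) p) (DT.var hN 2)
        (df2_B_dfn hN (DT.var hN 2) (DT.var hN 0))
    have h2 : DT N (fun v => Φ (tl (tl (tl (tl (tl v))))) (v 0)) :=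
      DT.rn (fun n => match n with | 0 => 0 | k + 1 => k + 5) h
    exact df2_sub hN h2 h1

private theorem df2_uniq (hN : ZF N) {Ψ : ZFSet.{u} → ZFSet.{u}} (hΨ : ∀ g ∈ N, Ψ g ∈ N)
    {z f : ZFSet.{u}} (hz : z ∈ N) (hf : f ∈ N) (hA : df2_A N Ψ z f) :
    f = gr (recF Ψ) (df2_T z) := by
  have hTN := df2_T_N hN hz
  have key : ∀ w, w ∈ df2_T z → f.sep (df2_B N w) = gr (recF Ψ) w := by
    intro w
    refine ZFSet.inductionOn (p := fun w => w ∈ df2_T z → f.sep (df2_B N w) = gr (recF Ψ) w)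
      w ?_
    intro w ih hw
    have h1 : ∀ a ∈ w, recF Ψ a ∈ N ∧ ∀ y ∈ N, (pair a y ∈ f ↔ y = recF Ψ a) := by
      intro a ha
      have haT := df2_T_trans hw ha
      have h2 := ih a ha haT
      have h3 : recF Ψ a = Ψ (f.sep (df2_B N a)) := by
        rw [h2]
        exact recF_eq Ψ a
      refine ⟨?_, ?_⟩
      · rw [h3]
        exact hΨ _ (df2_sep_N hN hf (mem_N hN hTN haT))
      · intro y hy
        rw [h3]
        exact hA.2 a haT y hy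
    ext p
    rw [mem_sep, mem_gr']
    constructor
    · rintro ⟨hp, a, ha, b, hb, rfl⟩
      refine ⟨a, ha, ?_⟩
      rw [((h1 a ha).2 b hb).1 hp]
    · rintro ⟨a, ha, rfl⟩
      exact ⟨((h1 a ha).2 _ (h1 a ha).1).2 rfl, a, ha, _, (h1 a ha).1, rfl⟩
  have h1 : ∀ a ∈ df2_T z, recF Ψ a ∈ N ∧ ∀ y ∈ N, (pair a y ∈ f ↔ y = recF Ψ a) := by
    intro a haT
    have h2 := key a haT
    have h3 : recF Ψ a = Ψ (f.sep (df2_B N a)) := by
      rw [h2]
      exact recF_eq Ψ a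
    refine ⟨?_, ?_⟩
    · rw [h3]
      exact hΨ _ (df2_sep_N hN hf (mem_N hN hTN haT))
    · intro y hy
      rw [h3]
      exact hA.2 a haT y hy
  ext p
  rw [mem_gr']
  constructor
  · intro hp
    obtain ⟨a, ha, b, hb, rfl⟩ := hA.1 p hp
    refine ⟨a, ha, ?_⟩
    rw [((h1 a ha).2 b hb).1 hp]
  · rintro ⟨a, ha, rfl⟩
    exact ((h1 a ha).2 _ (h1 a ha).1).2 rfl

private theorem df2_gr_sep (hN : ZF N) {F : ZFSet.{u} → ZFSet.{u}} {T w : ZFSet.{u}}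
    (hT : gr F T ∈ N) (hw : w ⊆ T) : (gr F T).sep (df2_B N w) = gr F w := by
  ext p
  rw [mem_sep, mem_gr', mem_gr']
  constructor
  · rintro ⟨⟨c, hc, rfl⟩, a, ha, b, hb, e⟩
    obtain ⟨rfl, -⟩ := pair_inj.1 e
    exact ⟨c, ha, rfl⟩
  · rintro ⟨a, ha, rfl⟩
    refine ⟨⟨a, hw ha, rfl⟩, a, ha, F a, ?_, rfl⟩
    have h1 : pair a (F a) ∈ N := mem_N hN hT (mem_gr.2 ⟨hw ha, rfl⟩)
    exact ((pair_mem_iff hN).1 h1).2

private theorem df2_ex (hN : ZF N) {Ψ : ZFSet.{u} → ZFSet.{u}}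
    {z : ZFSet.{u}} (hg : gr (recF Ψ) (df2_T z) ∈ N) : df2_A N Ψ z (gr (recF Ψ) (df2_T z)) := by
  refine ⟨fun p hp => ?_, fun w hw y hy => ?_⟩
  · have hpN := mem_N hN hg hp
    obtain ⟨a, ha, rfl⟩ := mem_gr'.1 hp
    exact ⟨a, ha, _, ((pair_mem_iff hN).1 hpN).2, rfl⟩
  · rw [df2_gr_sep hN hg (fun a ha => df2_T_trans hw ha), ← recF_eq Ψ w, mem_gr]
    exact ⟨fun h => h.2, fun h => ⟨hw, h⟩⟩

private theorem df2_closed (hN : ZF N) {Φ : Env.{u} → ZFSet.{u} → ZFSet.{u}}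
    (h : DT N (fun v => Φ (tl v) (v 0))) {v : Env.{u}} (hv : In N v) (z : ZFSet.{u}) :
    z ∈ N → gr (recF (Φ v)) (df2_T z) ∈ N := by
  have hΨ : ∀ g ∈ N, Φ v g ∈ N := fun g hg => h.1 (cons g v) (hv.cons hg)
  refine ZFSet.inductionOn (p := fun z => z ∈ N → gr (recF (Φ v)) (df2_T z) ∈ N) z ?_
  intro z ih hz
  have hzN : ∀ w ∈ z, w ∈ N := fun w hw => mem_N hN hz hw
  obtain ⟨b, hb, hbz⟩ := replU hN (Q := fun v z f => df2_A N (Φ v) z f) (df2_A_dfn hN h) hv hz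
    (fun w hw => ⟨gr (recF (Φ v)) (df2_T w), ⟨ih w hw (hzN w hw), df2_ex hN (ih w hw (hzN w hw))⟩,
      fun f hf => df2_uniq hN hΨ (hzN w hw) hf.1 hf.2⟩)
  have h1 : (⋃₀ b : ZFSet.{u}) = gr (recF (Φ v)) (tc z) := by
    ext p
    rw [mem_sUnion, mem_gr']
    constructor
    · rintro ⟨f, hf, hp⟩
      obtain ⟨hfN, w, hw, hA⟩ := (hbz f).1 hf
      rw [df2_uniq hN hΨ (hzN w hw) hfN hA, mem_gr'] at hp
      obtain ⟨a, ha, rfl⟩ := hp
      refine ⟨a, ?_, rfl⟩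
      rw [mem_tc]
      rcases df2_mem_T.1 ha with rfl | ha
      · exact Or.inl hw
      · exact Or.inr ⟨w, hw, ha⟩
    · rintro ⟨a, ha, rfl⟩
      have h2 : ∃ w ∈ z, a ∈ df2_T w := by
        rcases mem_tc.1 ha with ha | ⟨w, hw, ha⟩
        · exact ⟨a, ha, df2_mem_T.2 (Or.inl rfl)⟩
        · exact ⟨w, hw, df2_mem_T.2 (Or.inr ha)⟩
      obtain ⟨w, hw, haw⟩ := h2
      refine ⟨gr (recF (Φ v)) (df2_T w), (hbz _).2 ⟨ih w hw (hzN w hw), w, hw,
        df2_ex hN (ih w hw (hzN w hw))⟩, mem_gr.2 ⟨haw, rfl⟩⟩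
  have h2 : gr (recF (Φ v)) (tc z) ∈ N := by
    rw [← h1]
    exact sUnion_mem hN hb
  have h3 : gr (recF (Φ v)) z ∈ N := by
    rw [← df2_gr_sep hN h2 (subset_tc z)]
    exact df2_sep_N hN h2 hz
  have h4 : recF (Φ v) z ∈ N := by
    rw [recF_eq]
    exact hΨ _ h3
  have h5 : gr (recF (Φ v)) (df2_T z) = insert (pair z (recF (Φ v) z)) (gr (recF (Φ v)) (tc z)) := by
    ext p
    rw [mem_insert_iff, mem_gr', mem_gr']
    constructor
    · rintro ⟨a, ha, rfl⟩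
      rcases df2_mem_T.1 ha with rfl | ha
      · exact Or.inl rfl
      · exact Or.inr ⟨a, ha, rfl⟩
    · rintro (rfl | ⟨a, ha, rfl⟩)
      · exact ⟨z, df2_mem_T.2 (Or.inl rfl), rfl⟩
      · exact ⟨a, df2_mem_T.2 (Or.inr ha), rfl⟩
  rw [h5]
  exact insert_mem hN (pair_mem hN hz h4) h2

theorem recF_DT (hN : ZF N) {Φ : Env.{u} → ZFSet.{u} → ZFSet.{u}}
    (h : DT N (fun v => Φ (tl v) (v 0))) :
    DT N (fun v => recF (Φ (tl v)) (v 0)) := by
  have hval : ∀ v, In N v → ∀ z ∈ N, recF (Φ v) z ∈ N := by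
    intro v hv z hz
    have h1 := df2_closed hN h hv z hz
    have h2 : pair z (recF (Φ v) z) ∈ N :=
      mem_N hN h1 (mem_gr.2 ⟨df2_mem_T.2 (Or.inl rfl), rfl⟩)
    exact ((pair_mem_iff hN).1 h2).2
  refine ⟨fun v hv => hval (tl v) hv.tl (v 0) (hv 0), ?_⟩
  have hA : Dfn N (fun v => df2_A N (Φ (tl (tl (tl v)))) (v 2) (v 0)) :=
    (df2_A_dfn hN h).rn (fun n => match n with | 0 => 0 | k + 1 => k + 2)
  have h1 : Dfn N (fun v => df2_A N (Φ (tl (tl (tl v)))) (v 2) (v 0) ∧ pair (v 2) (v 1) ∈ v 0) :=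
    hA.and (Dfn.mem hN (DT.pairT hN (DT.var hN 2) (DT.var hN 1)) (DT.var hN 0))
  have h2 : Dfn N (fun v => ∃ f ∈ N, df2_A N (Φ (tl (tl v))) (v 1) f ∧ pair (v 1) (v 0) ∈ f) :=
    Dfn.ex (Q := fun v f => df2_A N (Φ (tl (tl v))) (v 1) f ∧ pair (v 1) (v 0) ∈ f) h1
  refine h2.congr fun v hv => ?_
  have hΨ : ∀ g ∈ N, Φ (tl (tl v)) g ∈ N := fun g hg => h.1 (cons g (tl (tl v))) (hv.tl.tl.cons hg)
  have hcl := df2_closed hN h hv.tl.tl (v 1) (hv 1)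
  change v 0 = recF (Φ (tl (tl v))) (v 1) ↔ _
  constructor
  · intro e
    exact ⟨_, hcl, df2_ex hN hcl, mem_gr.2 ⟨df2_mem_T.2 (Or.inl rfl), e⟩⟩
  · rintro ⟨f, hf, hfA, hp⟩
    rw [df2_uniq hN hΨ (hv 1) hf hfA] at hp
    exact (mem_gr.1 hp).2

theorem DT.recFT (hN : ZF N) {Φ : Env.{u} → ZFSet.{u} → ZFSet.{u}} {t : Env.{u} → ZFSet.{u}}
    (h : DT N (fun v => Φ (tl v) (v 0))) (ht : DT N t) :
    DT N (fun v => recF (Φ v) (t v)) := by
  exact df2_sub hN (recF_DT hN h) ht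

end Pool.Agent.FBZ
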