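import Pool.Agent.FBZ.DF2

/-!
# FBZ module DF3: recursion along the transitive closure

`recT Ψ x = Ψ x (gr (recT Ψ) (tc x))`: the value at `x` may use the values at all elements of the
transitive closure of `x`.  If `Ψ` is a definable term, so is `recT Ψ`.

Proof of `DT.recTT`.  Let `F = recT (Ψ v)` and `R x = gr F (insert x (tc x))`.  With
`u = ⋃₀ (img R x)` one has `u = gr F (tc x)` (`tc x` is the union of the sets `insert w (tc w)`,
`w ∈ x`, by `mem_tc`) and `R x = insert (pair x (Ψ v x u)) u`.  So `R = recF Φ` for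
`Φ g = insert (pair (dom g) (Ψ v (dom g) (⋃₀ (ran g)))) (⋃₀ (ran g))`: both functions satisfy the
same recursion (`recF_eq`, `dom_gr`, `ran_gr`), so they agree by `∈`-induction.  Hence `R` is a
definable term by `DT.recFT`, and `F x = ap (R x) x` (`ap_gr`).
-/

namespace Pool.Agent.FBZ
open ZFSet
universe u
variable {N : Set ZFSet.{u}}

/-- Recursion along the transitive closure. -/
noncomputable def recT (Ψ : ZFSet.{u} → ZFSet.{u} → ZFSet.{u}) (x : ZFSet.{u}) : ZFSet.{u} :=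
  Ψ x (ZFSet.range (fun z : ↥(tc x) => pair z.1 (recT Ψ z.1)))
termination_by x.rank
decreasing_by exact rank_lt_tc z.2

theorem recT_eq (Ψ : ZFSet.{u} → ZFSet.{u} → ZFSet.{u}) (x : ZFSet.{u}) :
    recT Ψ x = Ψ x (gr (recT Ψ) (tc x)) := by
  rw [recT]
  rfl

private theorem df3_sub {t s : Env.{u} → ZFSet.{u}} (hN : ZF N) (h : DT N t) (hs : DT N s) :
    DT N (fun v => t (cons (s v) v)) := by
  refine ⟨fun v hv => h.1 _ (In.cons (hs.1 v hv) hv), ?_⟩
  have h1 : Dfn N (fun v => v 1 = t (cons (v 0) (tl (tl v)))) := by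
    refine Dfn.congr (Dfn.rn (fun n => match n with | 0 => 1 | 1 => 0 | k + 2 => k + 2) h.2) ?_
    intro v _
    have e : tl (fun n => v ((fun n => match n with | 0 => 1 | 1 => 0 | k + 2 => k + 2) n)) =
        cons (v 0) (tl (tl v)) := by
      funext n
      cases n with
      | zero => rfl
      | succ n => rfl
    show v 1 = t (cons (v 0) (tl (tl v))) ↔
      v 1 = t (tl (fun n => v ((fun n => match n with | 0 => 1 | 1 => 0 | k + 2 => k + 2) n)))
    rw [e]
  exact Dfn.sub hN h1 (DT.shift hs)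

private theorem df3_rec (Ψ : ZFSet.{u} → ZFSet.{u} → ZFSet.{u}) (x : ZFSet.{u}) :
    recF (fun g => insert (pair (dom g) (Ψ (dom g) (⋃₀ (ran g) : ZFSet.{u})))
      (⋃₀ (ran g) : ZFSet.{u})) x = gr (recT Ψ) (insert x (tc x)) := by
  induction x using ZFSet.inductionOn with
  | _ x ih =>
    rw [recF_eq, dom_gr, ran_gr]
    have e : (⋃₀ (img (recF (fun g => insert (pair (dom g) (Ψ (dom g) (⋃₀ (ran g) : ZFSet.{u})))
        (⋃₀ (ran g) : ZFSet.{u}))) x) : ZFSet.{u}) = gr (recT Ψ) (tc x) := by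
      ext p
      rw [mem_sUnion, mem_gr']
      constructor
      · rintro ⟨z, hz, hp⟩
        rw [mem_img] at hz
        obtain ⟨w, hw, rfl⟩ := hz
        rw [ih w hw, mem_gr'] at hp
        obtain ⟨y, hy, rfl⟩ := hp
        refine ⟨y, ?_, rfl⟩
        rw [mem_insert_iff] at hy
        rw [mem_tc]
        rcases hy with rfl | hy
        · exact Or.inl hw
        · exact Or.inr ⟨w, hw, hy⟩
      · rintro ⟨y, hy, rfl⟩
        rw [mem_tc] at hy
        rcases hy with hy | ⟨w, hw, hy⟩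
        · refine ⟨_, mem_img.2 ⟨y, hy, rfl⟩, ?_⟩
          rw [ih y hy, mem_gr']
          exact ⟨y, mem_insert _ _, rfl⟩
        · refine ⟨_, mem_img.2 ⟨w, hw, rfl⟩, ?_⟩
          rw [ih w hw, mem_gr']
          exact ⟨y, mem_insert_of_mem _ hy, rfl⟩
    rw [e, ← recT_eq Ψ x]
    ext p
    rw [mem_insert_iff, mem_gr', mem_gr']
    constructor
    · rintro (rfl | ⟨y, hy, rfl⟩)
      · exact ⟨x, mem_insert _ _, rfl⟩
      · exact ⟨y, mem_insert_of_mem _ hy, rfl⟩
    · rintro ⟨y, hy, rfl⟩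
      rw [mem_insert_iff] at hy
      rcases hy with rfl | hy
      · exact Or.inl rfl
      · exact Or.inr ⟨y, hy, rfl⟩

theorem DT.recTT (hN : ZF N) {Ψ : Env.{u} → ZFSet.{u} → ZFSet.{u} → ZFSet.{u}}
    {t : Env.{u} → ZFSet.{u}}
    (h : DT N (fun v => Ψ (tl (tl v)) (v 0) (v 1))) (ht : DT N t) :
    DT N (fun v => recT (Ψ v) (t v)) := by
  have h1 : DT N (fun v => Ψ (tl (tl (tl v))) (v 0) (v 1)) :=
    DT.congr (DT.rn (fun n => match n with | 0 => 0 | 1 => 1 | k + 2 => k + 3) h)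
      (fun v _ => rfl)
  have h2 : DT N (fun v => Ψ (tl (tl v)) (dom (v 1)) (v 0)) :=
    DT.congr (df3_sub hN h1 (DT.domT hN (DT.var hN 1))) (fun v _ => rfl)
  have h3 : DT N (fun v => Ψ (tl v) (dom (v 0)) (⋃₀ (ran (v 0)) : ZFSet.{u})) :=
    DT.congr (df3_sub hN h2 (DT.sUnionT hN (DT.ranT hN (DT.var hN 0)))) (fun v _ => rfl)
  have h4 : DT N (fun v => (insert (pair (dom (v 0)) (Ψ (tl v) (dom (v 0))
      (⋃₀ (ran (v 0)) : ZFSet.{u}))) (⋃₀ (ran (v 0)) : ZFSet.{u}) : ZFSet.{u})) :=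
    DT.insertT hN (DT.pairT hN (DT.domT hN (DT.var hN 0)) h3)
      (DT.sUnionT hN (DT.ranT hN (DT.var hN 0)))
  have h5 := DT.recFT (Φ := fun (v : Env.{u}) (g : ZFSet.{u}) =>
      (insert (pair (dom g) (Ψ v (dom g) (⋃₀ (ran g) : ZFSet.{u})))
        (⋃₀ (ran g) : ZFSet.{u}) : ZFSet.{u})) hN h4 ht
  refine DT.congr (DT.apT hN h5 ht) ?_
  intro v _
  rw [df3_rec (Ψ v) (t v), ap_gr (mem_insert _ _)]

end Pool.Agent.FBZ
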