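import Pool.Agent.FBZ.DE1

/-!
# FBZ module DH0: Goedel's ordering of pairs of ordinals

`GLt p q`: compare the maximum (union) of the two entries, then the first entries, then the second
entries.  `OP p` says that `p` is a pair of ordinals.
* `glt_irrefl`: `mem_irrefl`.  `glt_trans`: case distinction; unions of two ordinals are ordinals
  (the larger one), and `∈` is transitive on ordinals (`IsOrdinal.mem_trans`).
* `glt_total`: trichotomy (`IsOrdinal.mem_trichotomous`) for the maxima, then for the first, then for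
  the second entries.
* `glt_min`: first minimise the maximum of the entries, then the first entry, then the second one
  (`ZFSet.mem_wf.has_min`).
* `glt_bound`, `glt_mem`: if `OP q`, `OP p`, `GLt p q` then both entries of `p` are subsets of the maximum of the
  entries of `q`, so they are equal to it or elements of it; if `N` is transitive and contains
  `q` it contains `p` (`pair_mem_iff`; the maximum of the entries of `q` is one of its entries).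
* `union_ord`: the union of two ordinals is one of them (`IsOrdinal.subset_total`).
-/

namespace Pool.Agent.FBZ
open ZFSet
universe u
variable {N : Set ZFSet.{u}}

/-- `p` is a pair of ordinals. -/
def OP (p : ZFSet.{u}) : Prop := ∃ a b : ZFSet.{u}, a.IsOrdinal ∧ b.IsOrdinal ∧ p = pair a b

/-- Goedel's ordering of pairs of ordinals. -/
def GLt (p q : ZFSet.{u}) : Prop :=
  fs p ∪ sn p ∈ fs q ∪ sn q ∨ (fs p ∪ sn p = fs q ∪ sn q ∧ (fs p ∈ fs q ∨ (fs p = fs q ∧ sn p ∈ sn q)))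

theorem union_ord {a b : ZFSet.{u}} (ha : a.IsOrdinal) (hb : b.IsOrdinal) :
    a ∪ b = a ∨ a ∪ b = b := by
  rcases ha.subset_total hb with h | h
  · right
    ext z
    rw [mem_union]
    exact ⟨fun hz => hz.elim (fun hz => h hz) id, Or.inr⟩
  · left
    ext z
    rw [mem_union]
    exact ⟨fun hz => hz.elim id (fun hz => h hz), Or.inl⟩

private theorem dh0_op {p : ZFSet.{u}} (hp : OP p) :
    (fs p).IsOrdinal ∧ (sn p).IsOrdinal ∧ (fs p ∪ sn p).IsOrdinal ∧ p = pair (fs p) (sn p) := by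
  obtain ⟨a, b, ha, hb, rfl⟩ := hp
  rw [fs_pair, sn_pair]
  refine ⟨ha, hb, ?_, rfl⟩
  rcases union_ord ha hb with h | h
  · rw [h]; exact ha
  · rw [h]; exact hb

theorem glt_irrefl (p : ZFSet.{u}) : ¬ GLt p p := by
  rintro (h | ⟨_, h | ⟨_, h⟩⟩)
  · exact mem_irrefl _ h
  · exact mem_irrefl _ h
  · exact mem_irrefl _ h

theorem glt_trans {p q r : ZFSet.{u}} (hp : OP p) (hq : OP q) (hr : OP r) (h : GLt p q)
    (h' : GLt q r) : GLt p r := by
  obtain ⟨hr1, hr2, hr3, -⟩ := dh0_op hr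
  unfold GLt at h h' ⊢
  rcases h with h | ⟨h, k⟩
  · rcases h' with h' | ⟨h', -⟩
    · exact Or.inl (hr3.mem_trans h h')
    · exact Or.inl (h' ▸ h)
  · rcases h' with h' | ⟨h', k'⟩
    · exact Or.inl (h ▸ h')
    · refine Or.inr ⟨h.trans h', ?_⟩
      rcases k with k | ⟨k, l⟩
      · rcases k' with k' | ⟨k', -⟩
        · exact Or.inl (hr1.mem_trans k k')
        · exact Or.inl (k' ▸ k)
      · rcases k' with k' | ⟨k', l'⟩
        · exact Or.inl (k ▸ k')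
        · exact Or.inr ⟨k.trans k', hr2.mem_trans l l'⟩

theorem glt_total {p q : ZFSet.{u}} (hp : OP p) (hq : OP q) : GLt p q ∨ p = q ∨ GLt q p := by
  obtain ⟨hp1, hp2, hp3, hp4⟩ := dh0_op hp
  obtain ⟨hq1, hq2, hq3, hq4⟩ := dh0_op hq
  unfold GLt
  rcases hp3.mem_trichotomous hq3 with h | h | h
  · exact Or.inl (Or.inl h)
  · rcases hp1.mem_trichotomous hq1 with k | k | k
    · exact Or.inl (Or.inr ⟨h, Or.inl k⟩)
    · rcases hp2.mem_trichotomous hq2 with l | l | l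
      · exact Or.inl (Or.inr ⟨h, Or.inr ⟨k, l⟩⟩)
      · right; left
        rw [hp4, hq4, k, l]
      · exact Or.inr (Or.inr (Or.inr ⟨h.symm, Or.inr ⟨k.symm, l⟩⟩))
    · exact Or.inr (Or.inr (Or.inr ⟨h.symm, Or.inl k⟩))
  · exact Or.inr (Or.inr (Or.inl h))

theorem glt_min {S : ZFSet.{u} → Prop} (h : ∃ p, OP p ∧ S p) :
    ∃ p, OP p ∧ S p ∧ ∀ q, OP q → S q → ¬ GLt q p := by
  obtain ⟨p0, hp0, hS0⟩ := h
  obtain ⟨A, ⟨p1, hp1, hS1, hA1⟩, hA⟩ := ZFSet.mem_wf.has_min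
    {A : ZFSet.{u} | ∃ p, OP p ∧ S p ∧ fs p ∪ sn p = A} ⟨_, p0, hp0, hS0, rfl⟩
  obtain ⟨B, ⟨p2, hp2, hS2, hA2, hB2⟩, hB⟩ := ZFSet.mem_wf.has_min
    {B : ZFSet.{u} | ∃ p, OP p ∧ S p ∧ fs p ∪ sn p = A ∧ fs p = B} ⟨_, p1, hp1, hS1, hA1, rfl⟩
  obtain ⟨D, ⟨p3, hp3, hS3, hA3, hB3, hD3⟩, hD⟩ := ZFSet.mem_wf.has_min
    {D : ZFSet.{u} | ∃ p, OP p ∧ S p ∧ fs p ∪ sn p = A ∧ fs p = B ∧ sn p = D}
    ⟨_, p2, hp2, hS2, hA2, hB2, rfl⟩
  refine ⟨p3, hp3, hS3, ?_⟩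
  intro q hq hSq hlt
  unfold GLt at hlt
  rw [hA3, hB3, hD3] at hlt
  rcases hlt with h | ⟨h, k | ⟨k, l⟩⟩
  · exact hA _ ⟨q, hq, hSq, rfl⟩ h
  · exact hB _ ⟨q, hq, hSq, h, rfl⟩ k
  · exact hD _ ⟨q, hq, hSq, h, k, rfl⟩ l

theorem glt_bound {p q : ZFSet.{u}} (hp : OP p) (hq : OP q) (h : GLt p q) :
    fs p ∈ insert (fs q ∪ sn q) (fs q ∪ sn q) ∧ sn p ∈ insert (fs q ∪ sn q) (fs q ∪ sn q) := by
  obtain ⟨hp1, hp2, hp3, hp4⟩ := dh0_op hp
  obtain ⟨hq1, hq2, hq3, hq4⟩ := dh0_op hq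
  have hsub : fs p ∪ sn p ⊆ fs q ∪ sn q := by
    unfold GLt at h
    rcases h with h | ⟨h, -⟩
    · exact hq3.subset_of_mem h
    · rw [h]
  have h1 : fs p ⊆ fs q ∪ sn q := fun z hz => hsub (mem_union.2 (Or.inl hz))
  have h2 : sn p ⊆ fs q ∪ sn q := fun z hz => hsub (mem_union.2 (Or.inr hz))
  rw [mem_insert_iff, mem_insert_iff]
  exact ⟨(hp1.subset_iff_eq_or_mem hq3).1 h1, (hp2.subset_iff_eq_or_mem hq3).1 h2⟩

theorem glt_mem (hN : ZF N) {p q : ZFSet.{u}} (hp : OP p) (hq : OP q) (h : GLt p q)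
    (hqN : q ∈ N) : p ∈ N := by
  obtain ⟨hp1, hp2, hp3, hp4⟩ := dh0_op hp
  obtain ⟨hq1, hq2, hq3, hq4⟩ := dh0_op hq
  rw [hq4, pair_mem_iff hN] at hqN
  have hu : fs q ∪ sn q ∈ N := union_mem hN hqN.1 hqN.2
  have hi : (insert (fs q ∪ sn q) (fs q ∪ sn q) : ZFSet.{u}) ∈ N := insert_mem hN hu hu
  have hb := glt_bound hp hq h
  rw [hp4]
  exact pair_mem hN (mem_N hN hi hb.1) (mem_N hN hi hb.2)

theorem Dfn.opT (hN : ZF N) {t : Env.{u} → ZFSet.{u}} (ht : DT N t) :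
    Dfn N (fun v => OP (t v)) := by
  refine Dfn.congr (Dfn.and (Dfn.isOrdinal hN (DT.fsT hN ht)) (Dfn.and
    (Dfn.isOrdinal hN (DT.snT hN ht)) (Dfn.eq hN ht (DT.pairT hN (DT.fsT hN ht)
      (DT.snT hN ht))))) ?_
  intro v _
  constructor
  · intro h
    obtain ⟨h1, h2, -, h4⟩ := dh0_op h
    exact ⟨h1, h2, h4⟩
  · rintro ⟨h1, h2, h4⟩
    exact ⟨_, _, h1, h2, h4⟩

theorem Dfn.glt (hN : ZF N) {t s : Env.{u} → ZFSet.{u}} (ht : DT N t) (hs : DT N s) :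
    Dfn N (fun v => GLt (t v) (s v)) := by
  unfold GLt
  exact Dfn.or (Dfn.mem hN (DT.unionT hN (DT.fsT hN ht) (DT.snT hN ht))
      (DT.unionT hN (DT.fsT hN hs) (DT.snT hN hs)))
    (Dfn.and (Dfn.eq hN (DT.unionT hN (DT.fsT hN ht) (DT.snT hN ht))
      (DT.unionT hN (DT.fsT hN hs) (DT.snT hN hs)))
      (Dfn.or (Dfn.mem hN (DT.fsT hN ht) (DT.fsT hN hs))
        (Dfn.and (Dfn.eq hN (DT.fsT hN ht) (DT.fsT hN hs))
          (Dfn.mem hN (DT.snT hN ht) (DT.snT hN hs)))))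

end Pool.Agent.FBZ
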