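import Pool.Agent.FBZ.DF2
import Pool.Agent.FBZ.DH0

/-!
# FBZ module DH1: the Goedel enumeration of pairs of ordinals

`nxt g` is the `GLt`-least pair of ordinals which is not in `ran g` (if there is one),
`goed = recF nxt` enumerates all pairs of ordinals in `GLt`-increasing order.
* `exists_op_not_mem`: otherwise every ordinal `α ∈ N` satisfies `pair α ∅ ∈ g`, so
  `S = (⋃₀ ⋃₀ g).sep IsOrdinal ∈ N` (`sep_mem`, `Dfn.isOrdinal`) contains all ordinals of `N`; it is a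
  set of ordinals of `N` and transitive, so it is an ordinal of `N`
  (`isOrdinal_iff_forall_mem_isOrdinal`), so `S ∈ S`, contradiction.
* `nxt_spec`: if some `p` with `OP p`, `p ∉ ran g` exists then by `glt_min` there is a least one; it
  satisfies the condition in the definition of `nxt` (`glt_total`).
* `nxt_DT`: for `g ∈ N` there is `q ∈ N`, `OP q`, `q ∉ ran g` (`exists_op_not_mem`, `ran_mem`); by
  `glt_total` `nxt g = q` or `GLt (nxt g) q` (not `GLt q (nxt g)`), so `nxt g ∈ N` by `glt_mem`.  For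
  `p ∈ N`: `p = nxt g ↔ OP p ∧ p ∉ ran g ∧ ∀ q ∈ N, OP q → GLt q p → q ∈ ran g` (`glt_mem`,
  `glt_total`), which is definable (`Dfn.opT`, `Dfn.glt`).
* `goed_DT`: `DT.recFT`.
* `goed_spec`: `recF_eq`, `ran_gr`, `nxt_spec` and `exists_op_not_mem` (`img goed x ∈ N`).
* `goed_mono`: let `x ∈ y`, `y` an ordinal.  `goed y ∉ img goed y ∋ goed x`, so `goed x ≠ goed y`; if
  `GLt (goed y) (goed x)` then `goed y ∈ img goed x ⊆ img goed y` (`x ⊆ y`), contradiction; use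
  `glt_total`.
* `goed_below`: for `z ∈ x`: `p ∉ img goed x ⊇ img goed z`, so not `GLt p (goed z)` (`goed_spec`), and
  `p ≠ goed z`.
-/

namespace Pool.Agent.FBZ
open ZFSet
universe u
variable {N : Set ZFSet.{u}}

open Classical in
/-- The least pair of ordinals not in the range of `g`. -/
noncomputable def nxt (g : ZFSet.{u}) : ZFSet.{u} :=
  if h : ∃ p, OP p ∧ p ∉ ran g ∧ ∀ q, OP q → GLt q p → q ∈ ran g then h.choose else ∅

/-- The enumeration of all pairs of ordinals. -/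
noncomputable def goed : ZFSet.{u} → ZFSet.{u} := recF nxt

theorem exists_op_not_mem (hN : ZF N) {g : ZFSet.{u}} (hg : g ∈ N) :
    ∃ p ∈ N, OP p ∧ p ∉ g := by
  by_contra hc
  push Not at hc
  obtain ⟨S, hS⟩ : ∃ S : ZFSet.{u}, S = (⋃₀ (⋃₀ g : ZFSet.{u}) : ZFSet.{u}).sep IsOrdinal :=
    ⟨_, rfl⟩
  have hSN : S ∈ N := by
    rw [hS]
    exact sep_mem hN (Dfn.isOrdinal hN (DT.var hN 0)) (sUnion_mem hN (sUnion_mem hN hg))
  have hall : ∀ a ∈ N, a.IsOrdinal → a ∈ S := by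
    intro a ha hao
    have h1 : pair a ∅ ∈ g := hc _ (pair_mem hN ha (empty_mem hN))
      ⟨a, ∅, hao, isOrdinal_empty, rfl⟩
    rw [hS, mem_sep]
    refine ⟨mem_sUnion.2 ⟨{a}, mem_sUnion.2 ⟨pair a ∅, h1, ?_⟩, ?_⟩, hao⟩
    · simp [pair]
    · simp
  have hSo : S.IsOrdinal := by
    rw [isOrdinal_iff_forall_mem_isOrdinal]
    refine ⟨fun x hx y hy => ?_, fun x hx => ?_⟩
    · have hxo : x.IsOrdinal := by
        rw [hS, mem_sep] at hx
        exact hx.2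
      exact hall y (mem_N hN (mem_N hN hSN hx) hy) (hxo.mem hy)
    · rw [hS, mem_sep] at hx
      exact hx.2
  exact mem_irrefl S (hall S hSN hSo)

theorem nxt_spec {g : ZFSet.{u}} (h : ∃ p, OP p ∧ p ∉ ran g) :
    OP (nxt g) ∧ nxt g ∉ ran g ∧ ∀ q, OP q → GLt q (nxt g) → q ∈ ran g := by
  have h' : ∃ p, OP p ∧ p ∉ ran g ∧ ∀ q, OP q → GLt q p → q ∈ ran g := by
    obtain ⟨p, hp, hpg, hmin⟩ := glt_min (S := fun p => p ∉ ran g) h
    exact ⟨p, hp, hpg, fun q hq hqp => by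
      by_contra hqg
      exact hmin q hq hqg hqp⟩
  have e : nxt g = h'.choose := by
    unfold nxt
    rw [dif_pos h']
  rw [e]
  exact h'.choose_spec

private theorem nxt_spec' (hN : ZF N) {g : ZFSet.{u}} (hg : g ∈ N) :
    OP (nxt g) ∧ nxt g ∉ ran g ∧ ∀ q, OP q → GLt q (nxt g) → q ∈ ran g := by
  obtain ⟨p, -, hp, hpg⟩ := exists_op_not_mem hN (ran_mem hN hg)
  exact nxt_spec ⟨p, hp, hpg⟩

private theorem nxt_mem (hN : ZF N) {g : ZFSet.{u}} (hg : g ∈ N) : nxt g ∈ N := by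
  obtain ⟨p, hpN, hp, hpg⟩ := exists_op_not_mem hN (ran_mem hN hg)
  obtain ⟨h1, h2, h3⟩ := nxt_spec' hN hg
  rcases glt_total h1 hp with h | h | h
  · exact glt_mem hN h1 hp h hpN
  · rw [h]; exact hpN
  · exact absurd (h3 p hp h) hpg

theorem nxt_DT (hN : ZF N) : DT N (fun v => nxt (v 0)) := by
  refine ⟨fun v hv => nxt_mem hN (hv 0), ?_⟩
  refine Dfn.congr (R := fun v => OP (v 0) ∧ v 0 ∉ ran (v 1) ∧
    ∀ q ∈ N, OP q → GLt q (v 0) → q ∈ ran (v 1)) ?_ ?_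
  · refine Dfn.and (Dfn.opT hN (DT.var hN 0)) (Dfn.and (Dfn.not
      (Dfn.mem hN (DT.var hN 0) (DT.ranT hN (DT.var hN 1)))) ?_)
    exact Dfn.all (Q := fun v q => OP q → GLt q (v 0) → q ∈ ran (v 1))
      (Dfn.imp (Dfn.opT hN (DT.var hN 0)) (Dfn.imp (Dfn.glt hN (DT.var hN 0) (DT.var hN 1))
        (Dfn.mem hN (DT.var hN 0) (DT.ranT hN (DT.var hN 2)))))
  · intro v hv
    have hg : v 1 ∈ N := hv 1
    have hp : v 0 ∈ N := hv 0
    change v 0 = nxt (v 1) ↔ _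
    obtain ⟨h1, h2, h3⟩ := nxt_spec' hN hg
    constructor
    · intro h
      rw [h]
      exact ⟨h1, h2, fun q _ => h3 q⟩
    · rintro ⟨k1, k2, k3⟩
      rcases glt_total k1 h1 with h | h | h
      · exact absurd (h3 _ k1 h) k2
      · exact h
      · exact absurd (k3 _ (glt_mem hN h1 k1 h hp) h1 h) h2

theorem goed_DT (hN : ZF N) : DT N (fun v => goed (v 0)) :=
  DT.recFT hN (Φ := fun _ g => nxt g) (nxt_DT hN) (DT.var hN 0)

theorem goed_spec (hN : ZF N) {x : ZFSet.{u}} (hx : x ∈ N) :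
    OP (goed x) ∧ goed x ∉ img goed x ∧ ∀ q, OP q → GLt q (goed x) → q ∈ img goed x := by
  have h1 : goed x = nxt (gr goed x) := recF_eq nxt x
  obtain ⟨p, -, hp, hpg⟩ := exists_op_not_mem hN (img_mem hN (goed_DT hN) hx)
  have h2 := nxt_spec (g := gr goed x) ⟨p, hp, by rwa [ran_gr]⟩
  rw [ran_gr, ← h1] at h2
  exact h2

theorem goed_mono (hN : ZF N) {x y : ZFSet.{u}} (hy : y ∈ N) (hyo : y.IsOrdinal) (hxy : x ∈ y) :
    GLt (goed x) (goed y) := by
  have hx : x ∈ N := mem_N hN hy hxy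
  obtain ⟨h1, h2, h3⟩ := goed_spec hN hx
  obtain ⟨k1, k2, k3⟩ := goed_spec hN hy
  rcases glt_total h1 k1 with h | h | h
  · exact h
  · exact absurd (mem_img.2 ⟨x, hxy, h.symm⟩) k2
  · obtain ⟨z, hz, hz'⟩ := mem_img.1 (h3 _ k1 h)
    exact absurd (mem_img.2 ⟨z, hyo.mem_trans hz hxy, hz'⟩) k2

theorem goed_below (hN : ZF N) {x p : ZFSet.{u}} (hx : x ∈ N) (hxo : x.IsOrdinal) (hp : OP p)
    (h : p ∉ img goed x) : ∀ z ∈ x, GLt (goed z) p := by
  intro z hz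
  obtain ⟨h1, h2, h3⟩ := goed_spec hN (mem_N hN hx hz)
  rcases glt_total h1 hp with h' | h' | h'
  · exact h'
  · exact absurd (mem_img.2 ⟨z, hz, h'.symm⟩) h
  · obtain ⟨w, hw, hw'⟩ := mem_img.1 (h3 p hp h')
    exact absurd (mem_img.2 ⟨w, hxo.mem_trans hw hz, hw'⟩) h

end Pool.Agent.FBZ
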