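import Pool.Agent.FBZ.DH1

/-!
# FBZ module DH2: Hessenberg's theorem inside `N`

For every infinite ordinal `x ∈ N` there is a function of `N` from `x` onto `x × x`.

Proof by `∈`-induction on the ordinal `x`, assuming the claim for all infinite `y ∈ x`.
Case 1: there is `a ∈ x` with `Onto N a x`.  Then `a` is infinite (`onto_fin`, and `x ⊇ ω` is
  infinite), so `ω ⊆ a` (`ord_nat_or`), and
  `Onto N a (a × a)`, `Onto N (a × a) (x × x)` (`onto_prod`), so with `Onto N x a`
  (`onto_subset`, `a ⊆ x`, `a ≠ ∅`) and `onto_trans` the claim follows.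
Case 2: there is no such `a` (`x` is a cardinal of `N`).  If `x × x ⊆ img goed x`, then
  `Onto N x (img goed x)` (`onto_img`, `goed_DT`) and `onto_subset` give the claim
  (`img goed x ∈ N` by `img_mem`).
  Otherwise there are `a, b ∈ x` with `pair a b ∉ img goed x`.  By `goed_below`
  `GLt (goed z) (pair a b)` for all `z ∈ x`.  Let `m = a ∪ b` (the larger one of the two ordinals,
  `m ∈ x`) and `m' = insert m m`; by the definition of `GLt` both entries of `goed z` are `⊆ m`, so in
  `m'`.  So `goed` maps `x` injectively (`goed_mono`, `glt_irrefl`, trichotomy) into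
  `m' × m'`, and the inverse, extended by `∅` outside the image, is a function of `N` from
  `m' × m'` onto `x`:  `F p = ⋃₀ (x.sep (fun z => goed z = p))` is a definable term, `F (goed z) = z`
  for `z ∈ x`; its image of `m' × m'` contains `x`, and `onto_subset`.
  `m' ∈ x`: trichotomy; `m' = x` is impossible since then `Onto N m x` for the infinite ordinal
  `m`: map `∅ ↦ m`, `nz (n+1) ↦ nz n`, and all other elements of `m` to themselves - or shorter:
  in this case (`x = m'`) apply the induction hypothesis to `m`: `Onto N m (m × m)` and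
  `Onto N (m × m) m'` (map `pair u v` to `u` if `v = ∅` and to `m` otherwise, onto by
  `onto_img` and `onto_subset`), so `Onto N m x`, contradiction with Case 2.  (If `m` is finite,
  `x = m'` is finite, contradiction.)
  If `m'` is finite then `m' × m'` is finite and so is `x` (`onto_fin`), contradiction.  If `m'` is
  infinite then `Onto N m' (m' × m')` by induction, so `Onto N m' x`, contradiction with Case 2.
Corollaries: `onto_omega`: `Onto N x ω` (`onto_subset`).  `onto_prod_self`: if `Onto N x a` and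
`Onto N x b` then `Onto N x (a × b)`.
`onto_insert`: with `Surj f x a` the map `p ↦ if sn p = ∅ then ap f (fs p) else c` is onto
`insert c a` on `prod x x` (`onto_img`, `DT.ite`; `∅, {∅} ∈ ω ⊆ x`); compose with `hessenberg`.
`insert_mem_card`: if `x` is an infinite ordinal which is a cardinal of `N` (`Card N x`) and
`m ∈ x` then `insert m m ∈ x` (see above).
-/

namespace Pool.Agent.FBZ
open ZFSet
universe u
variable {N : Set ZFSet.{u}}

theorem infinite_of_omega_subset {x : ZFSet.{u}} (h : ZFSet.omega ⊆ x) : ¬ Fin' x := by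
  have h1 : (x : Set ZFSet.{u}).Infinite :=
    Set.infinite_of_injective_forall_mem (f := nz.{u}) (fun a b hab => nz_inj.1 hab)
      (fun n => h (nz_mem_omega n))
  exact h1

/-- A definable injection of `x` into `y` gives a function of `N` from `y` onto `x`. -/
private theorem onto_of_inj (hN : ZF N) {x y : ZFSet.{u}} (hx : x ∈ N) (hy : y ∈ N)
    (hne : x ≠ ∅) {F : ZFSet.{u} → ZFSet.{u}} (hF : DT N (fun v => F (v 0)))
    (hmaps : ∀ z ∈ x, F z ∈ y) (hinj : ∀ z ∈ x, ∀ w ∈ x, F z = F w → z = w) : Onto N y x := by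
  obtain ⟨G, hGd⟩ : ∃ G : ZFSet.{u} → ZFSet.{u},
      ∀ p, G p = (⋃₀ (x.sep (fun z => F z = p)) : ZFSet.{u}) := ⟨_, fun _ => rfl⟩
  have hG : DT N (fun v : Env.{u} => G (v 0)) := by
    refine DT.congr (t := fun v => (⋃₀ (x.sep (fun z => F z = v 0)) : ZFSet.{u})) ?_
      (fun v _ => hGd _)
    apply DT.sUnionT hN
    apply DT.sepT hN (Q := fun v z => F z = v 0) (DT.cst hN hx)
    exact Dfn.eq hN hF (DT.var hN 1)
  have h1 := onto_img hN hG hy
  refine onto_trans hN h1 (onto_subset hN (img_mem hN hG hy) hx ?_ hne)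
  intro z hz
  rw [mem_img]
  refine ⟨F z, hmaps z hz, ?_⟩
  have h2 : x.sep (fun w => F w = F z) = {z} := by
    ext w
    rw [mem_sep, mem_singleton]
    constructor
    · rintro ⟨hw, he⟩
      exact hinj w hw z hz he
    · rintro rfl
      exact ⟨hz, rfl⟩
  rw [hGd, h2, sUnion_singleton]

private theorem fin_prod {a b : ZFSet.{u}} (ha : Fin' a) (hb : Fin' b) : Fin' (prod a b) := by
  have h1 : ((a : Set ZFSet.{u}) ×ˢ (b : Set ZFSet.{u})).Finite := Set.Finite.prod ha hb
  refine (h1.image (fun q : ZFSet.{u} × ZFSet.{u} => pair q.1 q.2)).subset ?_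
  intro z hz
  have hz' : z ∈ prod a b := hz
  obtain ⟨u, hu, v, hv, rfl⟩ := mem_prod.1 hz'
  exact ⟨(u, v), ⟨hu, hv⟩, rfl⟩

private theorem ne_empty_of_mem {x y : ZFSet.{u}} (h : y ∈ x) : x ≠ ∅ := by
  rintro rfl
  exact notMem_empty y h

private theorem zero_mem {x : ZFSet.{u}} (h : ZFSet.omega ⊆ x) : (∅ : ZFSet.{u}) ∈ x :=
  h (nz_mem_omega 0)

private theorem one_mem {x : ZFSet.{u}} (h : ZFSet.omega ⊆ x) : nz.{u} 1 ∈ x :=
  h (nz_mem_omega 1)

private theorem one_ne : nz.{u} 1 ≠ ∅ := by
  have h : nz.{u} 1 ≠ nz 0 := by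
    intro h
    have := nz_inj.1 h
    omega
  exact h

/-- Adding one element, with the square of `x` as the source. -/
private theorem onto_ins (hN : ZF N) {x a c : ZFSet.{u}} (hx : x ∈ N)
    (hinf : ZFSet.omega ⊆ x) (ha : Onto N x a) (hc : c ∈ N) :
    Onto N (prod x x) (insert c a) := by
  obtain ⟨f, hf, hs⟩ := ha
  have haN : a ∈ N := onto_mem_right hN ⟨f, hf, hs⟩
  classical
  obtain ⟨F, hFd⟩ : ∃ F : ZFSet.{u} → ZFSet.{u},
      ∀ p, F p = if sn p = ∅ then ap f (fs p) else c := ⟨_, fun _ => rfl⟩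
  have hF : DT N (fun v : Env.{u} => F (v 0)) := by
    refine DT.congr (DT.ite hN (Dfn.eq hN (DT.snT hN (DT.var hN 0)) (DT.empty hN))
      (DT.apT hN (DT.cst hN hf) (DT.fsT hN (DT.var hN 0))) (DT.cst hN hc)) ?_
    intro v _
    rw [hFd]
  have hxx := prod_mem hN hx hx
  refine onto_trans hN (onto_img hN hF hxx) (onto_subset hN (img_mem hN hF hxx)
    (insert_mem hN hc haN) ?_ (ne_empty_of_mem (ZFSet.mem_insert c a)))
  intro z hz
  rw [mem_img]
  rcases ZFSet.mem_insert_iff.1 hz with rfl | hz
  · refine ⟨pair ∅ (nz 1), pair_mem_prod.2 ⟨zero_mem hinf, one_mem hinf⟩, ?_⟩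
    rw [hFd, sn_pair, if_neg one_ne]
  · obtain ⟨y, hy, hyz⟩ := (surj_iff.1 hs).2 z hz
    refine ⟨pair y ∅, pair_mem_prod.2 ⟨hy, zero_mem hinf⟩, ?_⟩
    rw [hFd, sn_pair, if_pos rfl, fs_pair, hyz]

private theorem omega_sub_of_infinite {a : ZFSet.{u}} (ha : a.IsOrdinal) (h : ¬ Fin' a) :
    ZFSet.omega ⊆ a := by
  rcases ord_nat_or ha with ⟨n, rfl⟩ | h'
  · exact absurd (fin_nz n) h
  · exact h'

theorem hessenberg (hN : ZF N) {x : ZFSet.{u}} (hx : x ∈ N) (hxo : x.IsOrdinal)
    (hinf : ZFSet.omega ⊆ x) : Onto N x (prod x x) := by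
  revert hx hxo hinf
  refine inductionOn (p := fun x => x ∈ N → x.IsOrdinal → ZFSet.omega ⊆ x →
    Onto N x (prod x x)) x ?_
  intro x ih hx hxo hinf
  have hxinf : ¬ Fin' x := infinite_of_omega_subset hinf
  have hxne : x ≠ ∅ := ne_empty_of_mem (zero_mem hinf)
  have hxx := prod_mem hN hx hx
  by_cases hcase : ∃ a ∈ x, Onto N a x
  · obtain ⟨a, hax, ha⟩ := hcase
    have haN : a ∈ N := mem_N hN hx hax
    have hao : a.IsOrdinal := hxo.mem hax
    have hainf : ¬ Fin' a := fun h => hxinf (onto_fin ha h)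
    have haω := omega_sub_of_infinite hao hainf
    have h1 := ih a hax haN hao haω
    have h2 := onto_prod hN ha ha
    have h3 : Onto N x a := onto_subset hN hx haN (hxo.subset_of_mem hax)
      (ne_empty_of_mem (zero_mem haω))
    exact onto_trans hN h3 (onto_trans hN h1 h2)
  · by_cases hsub : prod x x ⊆ img goed x
    · exact onto_trans hN (onto_img hN (goed_DT hN) hx)
        (onto_subset hN (img_mem hN (goed_DT hN) hx) hxx hsub
          (ne_empty_of_mem (pair_mem_prod.2 ⟨zero_mem hinf, zero_mem hinf⟩)))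
    · exfalso
      have hex : ∃ p ∈ prod x x, p ∉ img goed x := by
        by_contra hcon
        push Not at hcon
        exact hsub hcon
      obtain ⟨p, hpx, hpi⟩ := hex
      obtain ⟨a, ha, b, hb, rfl⟩ := mem_prod.1 hpx
      have hao := hxo.mem ha
      have hbo := hxo.mem hb
      have hOP : OP (pair a b) := ⟨a, b, hao, hbo, rfl⟩
      have hbelow := goed_below hN hx hxo hOP hpi
      have hm : a ∪ b ∈ x := by
        rcases union_ord hao hbo with h | h
        · rw [h]; exact ha
        · rw [h]; exact hb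
      set m : ZFSet.{u} := a ∪ b with hmdef
      have hmo : m.IsOrdinal := hxo.mem hm
      have hmN : m ∈ N := mem_N hN hx hm
      have hm'o : (insert m m : ZFSet.{u}).IsOrdinal := isOrdinal_succ hmo
      have hm'N : (insert m m : ZFSet.{u}) ∈ N := insert_mem hN hmN hmN
      have hmaps : ∀ z ∈ x, goed z ∈ prod (insert m m) (insert m m) := by
        intro z hz
        have hzs := (goed_spec hN (mem_N hN hx hz)).1
        have h1 := glt_bound hzs hOP (hbelow z hz)
        rw [fs_pair, sn_pair, ← hmdef] at h1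
        obtain ⟨u, v, hu, hv, huv⟩ := hzs
        rw [huv, fs_pair, sn_pair] at h1
        rw [huv, pair_mem_prod]
        exact h1
      have hinj : ∀ z ∈ x, ∀ w ∈ x, goed z = goed w → z = w := by
        intro z hz w hw he
        rcases (hxo.mem hz).mem_trichotomous (hxo.mem hw) with h | h | h
        · have h1 := goed_mono hN (mem_N hN hx hw) (hxo.mem hw) h
          rw [he] at h1
          exact absurd h1 (glt_irrefl _)
        · exact h
        · have h1 := goed_mono hN (mem_N hN hx hz) (hxo.mem hz) h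
          rw [he] at h1
          exact absurd h1 (glt_irrefl _)
      have honto : Onto N (prod (insert m m) (insert m m)) x :=
        onto_of_inj hN hx (prod_mem hN hm'N hm'N) hxne (goed_DT hN) hmaps hinj
      have hm'inf : ¬ Fin' (insert m m : ZFSet.{u}) := fun h =>
        hxinf (onto_fin honto (fin_prod h h))
      have hminf : ¬ Fin' m := fun h => hm'inf (fin_insert h)
      have hmω := omega_sub_of_infinite hmo hminf
      rcases hm'o.mem_trichotomous hxo with h | h | h
      · exact hcase ⟨_, h, onto_trans hN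
          (ih _ h hm'N hm'o (omega_sub_of_infinite hm'o hm'inf)) honto⟩
      · have h1 := ih m hm hmN hmo hmω
        have h2 := onto_ins hN hmN hmω (onto_refl hN hmN) hmN
        rw [h] at h2
        exact hcase ⟨m, hm, onto_trans hN h1 h2⟩
      · rcases ZFSet.mem_insert_iff.1 h with h | h
        · rw [h] at hm
          exact mem_irrefl _ hm
        · exact mem_asymm h hm

theorem onto_omega (hN : ZF N) {x : ZFSet.{u}} (hx : x ∈ N) (hinf : ZFSet.omega ⊆ x) :
    Onto N x ZFSet.omega :=
  onto_subset hN hx hN.omega hinf (ne_empty_of_mem (nz_mem_omega 0))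

theorem onto_prod_self (hN : ZF N) {x a b : ZFSet.{u}} (hx : x ∈ N) (hxo : x.IsOrdinal)
    (hinf : ZFSet.omega ⊆ x) (ha : Onto N x a) (hb : Onto N x b) : Onto N x (prod a b) :=
  onto_trans hN (hessenberg hN hx hxo hinf) (onto_prod hN ha hb)

theorem onto_insert (hN : ZF N) {x a c : ZFSet.{u}} (hx : x ∈ N) (hxo : x.IsOrdinal)
    (hinf : ZFSet.omega ⊆ x) (ha : Onto N x a) (hc : c ∈ N) : Onto N x (insert c a) :=
  onto_trans hN (hessenberg hN hx hxo hinf) (onto_ins hN hx hinf ha hc)

theorem insert_mem_card (hN : ZF N) {x m : ZFSet.{u}} (hx : Card N x)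
    (hinf : ZFSet.omega ⊆ x) (hm : m ∈ x) : insert m m ∈ x := by
  obtain ⟨hxN, hxo, hcard⟩ := hx
  have hmo := hxo.mem hm
  have hmN := mem_N hN hxN hm
  rcases (isOrdinal_succ hmo).mem_trichotomous hxo with h | h | h
  · exact h
  · exfalso
    have hminf : ¬ Fin' m := by
      intro hf
      have h1 : Fin' (insert m m : ZFSet.{u}) := fin_insert hf
      rw [h] at h1
      exact infinite_of_omega_subset hinf h1
    obtain ⟨f, hf, hs⟩ := onto_insert hN hmN hmo (omega_sub_of_infinite hmo hminf)
      (onto_refl hN hmN) hmN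
    rw [h] at hs
    exact hcard m hm f hf hs
  · exfalso
    rcases ZFSet.mem_insert_iff.1 h with h | h
    · rw [h] at hm
      exact mem_irrefl _ hm
    · exact mem_asymm h hm

end Pool.Agent.FBZ
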