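import Pool.Agent.FBZ.DH2

/-!
# FBZ module DI: the finite subsets of an infinite ordinal

For every infinite ordinal `x ∈ N` there is a function of `N` from `x` onto `finset x`.

Proof.  Fix `s ∈ N` with `Surj s x (prod x x)` (`hessenberg`) and put `a z = fs (ap s z)`,
`b z = sn (ap s z)`.  Define by recursion on `n ∈ ω` set functions `h n` on `x`:
`h ∅ = gr (fun _ => ∅) x`, `h (n+1) = gr (fun z => insert (b z) (ap (h n) (a z))) x`.
Formally `h = recF Φ` with `Φ g = if dom g = ∅ then gr (fun _ => ∅) x else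
gr (fun z => insert (b z) (ap (ap g (⋃₀ (dom g))) (a z))) x`, a definable term (`DT.recFT`,
`DT.ite`, `DT.grT`, ...; `s` and `x` are parameters, `DT.cst`).  For `n : ℕ`,
`dom (gr h (nz (n+1))) = nz (n+1)` and `⋃₀ (nz (n+1)) = nz n` (`sUnion_nz_succ`), so `h` satisfies
the two displayed equations at `nz n` (`recF_eq`, `dom_gr`, `ap_gr`).
By induction on `n`: `ap (h (nz n)) z ∈ finset x` for `z ∈ x` (`fin_insert`), and every
`c ∈ finset x` with exactly `n` elements is of the form `ap (h (nz n)) z`, `z ∈ x` (remove an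
element `d` from `c`, write the rest as `ap (h (nz (n-1))) z'` and take `z ∈ x` with
`ap s z = pair z' d`).
Now `F z = if a z ∈ ω then ap (h (a z)) (b z) else ∅` is a definable term which maps `x` onto
`finset x` (for `c` with `n` elements take `z'` with `c = ap (h (nz n)) z'` and `z ∈ x` with
`ap s z = pair (nz n) z'`; `nz n ∈ ω ⊆ x`).  Conclude with `onto_img` (`img F x = finset x`).
-/

namespace Pool.Agent.FBZ
open ZFSet
universe u
variable {N : Set ZFSet.{u}}

open Classical in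
/-- The recursion for the finite subsets. -/
private noncomputable def DIphi (s x g : ZFSet.{u}) : ZFSet.{u} :=
  if dom g = ∅ then gr (fun _ => ∅) x else
    gr (fun z => insert (sn (ap s z)) (ap (ap g (⋃₀ (dom g) : ZFSet.{u})) (fs (ap s z)))) x

private noncomputable def DIh (s x : ZFSet.{u}) : ZFSet.{u} → ZFSet.{u} := recF (DIphi s x)

private theorem DIphi_DT (hN : ZF N) {s x : ZFSet.{u}} (hs : s ∈ N) (hx : x ∈ N) :
    DT N (fun v => DIphi s x (v 0)) := by
  unfold DIphi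
  refine DT.ite hN (Dfn.eq hN (DT.domT hN (DT.var hN 0)) (DT.empty hN))
    (DT.grT hN (DT.cst hN hx) (DT.empty hN)) ?_
  refine DT.grT hN (F := fun v z => insert (sn (ap s z))
    (ap (ap (v 0) (⋃₀ (dom (v 0)) : ZFSet.{u})) (fs (ap s z)))) (DT.cst hN hx) ?_
  refine DT.insertT hN (DT.snT hN (DT.apT hN (DT.cst hN hs) (DT.var hN 0))) ?_
  exact DT.apT hN (DT.apT hN (DT.var hN 1) (DT.sUnionT hN (DT.domT hN (DT.var hN 1))))
    (DT.fsT hN (DT.apT hN (DT.cst hN hs) (DT.var hN 0)))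

private theorem DIh_DT (hN : ZF N) {s x : ZFSet.{u}} (hs : s ∈ N) (hx : x ∈ N) :
    DT N (fun v => DIh s x (v 0)) :=
  DT.recFT hN (Φ := fun _ g => DIphi s x g) (DIphi_DT hN hs hx) (DT.var hN 0)

private theorem DIh_zero (s x : ZFSet.{u}) : DIh s x (nz 0) = gr (fun _ => ∅) x := by
  have h1 : DIh s x (nz 0) = DIphi s x (gr (DIh s x) (nz 0)) := recF_eq _ _
  rw [h1]
  unfold DIphi
  have h0 : nz.{u} 0 = ∅ := rfl
  rw [dom_gr, if_pos h0]

private theorem DIh_succ (s x : ZFSet.{u}) (n : ℕ) : DIh s x (nz (n + 1)) =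
    gr (fun z => insert (sn (ap s z)) (ap (DIh s x (nz n)) (fs (ap s z)))) x := by
  have h1 : DIh s x (nz (n + 1)) = DIphi s x (gr (DIh s x) (nz (n + 1))) := recF_eq _ _
  have h2 : nz.{u} n ∈ nz (n + 1) := nz_mem_nz.2 (Nat.lt_succ_self n)
  have h3 : nz.{u} (n + 1) ≠ ∅ := fun h => by
    rw [h] at h2
    exact notMem_empty _ h2
  rw [h1]
  unfold DIphi
  rw [dom_gr, if_neg h3, sUnion_nz_succ, ap_gr h2]

private theorem DI_mem {s x : ZFSet.{u}} (hs : Surj s x (prod x x)) {z : ZFSet.{u}}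
    (hz : z ∈ x) : fs (ap s z) ∈ x ∧ sn (ap s z) ∈ x := by
  obtain ⟨a, ha, b, hb, h⟩ := mem_prod.1 (pair_ap hs.1 hz).2
  rw [h, fs_pair, sn_pair]
  exact ⟨ha, hb⟩

private theorem DI_ex {s x a b : ZFSet.{u}} (hs : Surj s x (prod x x)) (ha : a ∈ x)
    (hb : b ∈ x) : ∃ z ∈ x, ap s z = pair a b :=
  (surj_iff.1 hs).2 _ (pair_mem_prod.2 ⟨ha, hb⟩)

private theorem DI_A {s x : ZFSet.{u}} (hs : Surj s x (prod x x)) (n : ℕ) :
    ∀ z ∈ x, ap (DIh s x (nz n)) z ∈ finset x := by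
  induction n with
  | zero =>
    intro z hz
    rw [DIh_zero, ap_gr hz, mem_finset]
    exact ⟨fun y hy => absurd hy (notMem_empty y), fin_empty⟩
  | succ n ih =>
    intro z hz
    obtain ⟨h1, h2⟩ := DI_mem hs hz
    rw [DIh_succ, ap_gr hz, mem_finset]
    obtain ⟨h3, h4⟩ := mem_finset.1 (ih _ h1)
    refine ⟨fun y hy => ?_, fin_insert h4⟩
    rw [mem_insert_iff] at hy
    rcases hy with rfl | hy
    · exact h2
    · exact h3 hy

private theorem DI_B {s x : ZFSet.{u}} (hs : Surj s x (prod x x)) (hx0 : ∅ ∈ x) (n : ℕ) :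
    ∀ c ∈ finset x, (c : Set ZFSet.{u}).ncard = n → ∃ z ∈ x, ap (DIh s x (nz n)) z = c := by
  induction n with
  | zero =>
    intro c hc hn
    refine ⟨∅, hx0, ?_⟩
    rw [DIh_zero, ap_gr hx0]
    have h1 : (c : Set ZFSet.{u}) = ∅ := (Set.ncard_eq_zero (mem_finset.1 hc).2).1 hn
    refine ((eq_empty c).2 fun y hy => ?_).symm
    have h2 : y ∈ (c : Set ZFSet.{u}) := hy
    rw [h1] at h2
    exact h2
  | succ n ih =>
    intro c hc hn
    obtain ⟨hcx, hcf⟩ := mem_finset.1 hc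
    have h1 : (c : Set ZFSet.{u}).Nonempty := by
      rw [← Set.ncard_pos hcf, hn]
      exact Nat.succ_pos n
    obtain ⟨d, hd⟩ := h1
    have hd' : d ∈ c := hd
    obtain ⟨c', hc'⟩ : ∃ c' : ZFSet.{u}, c' = c.sep (fun y => y ≠ d) := ⟨_, rfl⟩
    have h2 : ∀ y, y ∈ c' ↔ y ∈ c ∧ y ≠ d := fun y => by rw [hc', mem_sep]
    have h3 : (c' : Set ZFSet.{u}) = (c : Set ZFSet.{u}) \ {d} := by
      ext y
      exact h2 y
    have h4 : c' ∈ finset x := by
      refine mem_finset.2 ⟨fun y hy => hcx ((h2 y).1 hy).1, ?_⟩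
      unfold Fin'
      rw [h3]
      exact hcf.sdiff
    have h5 : (c' : Set ZFSet.{u}).ncard = n := by
      rw [h3, Set.ncard_sdiff_singleton_of_mem hd, hn]
      rfl
    obtain ⟨z', hz', hz''⟩ := ih c' h4 h5
    obtain ⟨z, hz, hzs⟩ := DI_ex hs hz' (hcx hd')
    refine ⟨z, hz, ?_⟩
    rw [DIh_succ, ap_gr hz, hzs, fs_pair, sn_pair, hz'']
    ext y
    rw [mem_insert_iff, h2]
    constructor
    · rintro (rfl | h)
      · exact hd'
      · exact h.1
    · intro h
      by_cases hy : y = d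
      · exact Or.inl hy
      · exact Or.inr ⟨h, hy⟩

open Classical in
private noncomputable def DIF (s x z : ZFSet.{u}) : ZFSet.{u} :=
  if fs (ap s z) ∈ ZFSet.omega then ap (DIh s x (fs (ap s z))) (sn (ap s z)) else ∅

private theorem DIF_DT (hN : ZF N) {s x : ZFSet.{u}} (hs : s ∈ N) (hx : x ∈ N) :
    DT N (fun v => DIF s x (v 0)) := by
  have h1 : DT N (fun v => fs (ap s (v 0))) :=
    DT.fsT hN (DT.apT hN (DT.cst hN hs) (DT.var hN 0))
  have h2 : DT N (fun v => sn (ap s (v 0))) :=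
    DT.snT hN (DT.apT hN (DT.cst hN hs) (DT.var hN 0))
  unfold DIF
  exact DT.ite hN (Dfn.mem hN h1 (DT.omegaT hN))
    (DT.apT hN (DT.app1 hN (DIh_DT hN hs hx) h1) h2) (DT.empty hN)

theorem onto_finset (hN : ZF N) {x : ZFSet.{u}} (hx : x ∈ N) (hxo : x.IsOrdinal)
    (hinf : ZFSet.omega ⊆ x) : Onto N x (finset x) := by
  obtain ⟨s, hs, hsurj⟩ := hessenberg hN hx hxo hinf
  have hx0 : ∅ ∈ x := hinf (nz_mem_omega 0)
  have h1 : img (DIF s x) x = finset x := by
    ext c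
    rw [mem_img]
    constructor
    · rintro ⟨z, hz, rfl⟩
      obtain ⟨h2, h3⟩ := DI_mem hsurj hz
      unfold DIF
      split_ifs with h
      · obtain ⟨n, hn⟩ := mem_omega.1 h
        rw [hn]
        exact DI_A hsurj n _ h3
      · exact mem_finset.2 ⟨fun y hy => absurd hy (notMem_empty y), fin_empty⟩
    · intro hc
      obtain ⟨z', hz', hz''⟩ := DI_B hsurj hx0 _ c hc rfl
      obtain ⟨z, hz, hzs⟩ := DI_ex hsurj
        (hinf (nz_mem_omega (c : Set ZFSet.{u}).ncard)) hz'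
      refine ⟨z, hz, ?_⟩
      unfold DIF
      rw [hzs, fs_pair, sn_pair, if_pos (nz_mem_omega _), hz'']
  rw [← h1]
  exact onto_img hN (DIF_DT hN hs hx) hx

end Pool.Agent.FBZ
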