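import Pool.Agent.FBZ.DH2

/-!
# FBZ module DJ: unions of finite sets of ordinals

If `x` is an infinite ordinal of `N`, `Onto N x A`, and `s` is a definable function such that
`s a` is a finite set of ordinals for every `a ∈ A`, then `Onto N x U` for `U = ⋃₀ (img s A)`,
provided `U ≠ ∅`.

Proof.  `U ∈ N` (`img_mem`, `sUnion_mem`); fix `u₀ ∈ U`.  For a finite set `c` of ordinals and
`α ∈ c` the number `nc (c ∩ α)` of predecessors of `α` in `c` determines `α` in `c` (if `α ∈ β` are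
both in `c` then `c ∩ α ⊆ c ∩ β` and `α ∈ (c ∩ β) \ (c ∩ α)`, so the numbers of elements differ:
`Set.ncard_lt_ncard`).  So put
`e p = ⋃₀ ((s (fs p)).sep (fun α => nc (s (fs p) ∩ α) = sn p))` if that `sep` is nonempty, and
`e p = u₀` otherwise; this is a definable term (`DT.ite`, `DT.ncT`, `DT.sepT`, ...), for
`α ∈ s a` one has `e (pair a (nc (s a ∩ α))) = α`, and always `e p ∈ U` for `p ∈ A × ω`.
So `img e (prod A ω) = U`, and `Onto N x (prod A ω)` by `onto_prod_self` and `onto_omega`; conclude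
with `onto_img` and `onto_trans`.
-/

namespace Pool.Agent.FBZ
open ZFSet
universe u
variable {N : Set ZFSet.{u}}

/-- The elements of `s (fs p)` with number `sn p`. -/
private noncomputable def DJT (s : ZFSet.{u} → ZFSet.{u}) (p : ZFSet.{u}) : ZFSet.{u} :=
  (s (fs p)).sep (fun α => nc (s (fs p) ∩ α) = sn p)

open Classical in
private noncomputable def DJe (s : ZFSet.{u} → ZFSet.{u}) (u₀ p : ZFSet.{u}) : ZFSet.{u} :=
  if DJT s p = ∅ then u₀ else (⋃₀ (DJT s p) : ZFSet.{u})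

private theorem DJT_DT (hN : ZF N) {s : ZFSet.{u} → ZFSet.{u}}
    (hs : DT N (fun v => s (v 0))) : DT N (fun v => DJT s (v 0)) := by
  have h1 : DT N (fun v => s (fs (v 0))) := DT.app1 hN hs (DT.fsT hN (DT.var hN 0))
  have h2 : DT N (fun v => s (fs (v 1))) := DT.app1 hN hs (DT.fsT hN (DT.var hN 1))
  unfold DJT
  exact DT.sepT hN (Q := fun v α => nc (s (fs (v 0)) ∩ α) = sn (v 0)) h1
    (Dfn.eq hN (DT.ncT hN (DT.interT hN h2 (DT.var hN 0))) (DT.snT hN (DT.var hN 1)))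

private theorem DJe_DT (hN : ZF N) {s : ZFSet.{u} → ZFSet.{u}}
    (hs : DT N (fun v => s (v 0))) {u₀ : ZFSet.{u}} (hu : u₀ ∈ N) :
    DT N (fun v => DJe s u₀ (v 0)) := by
  unfold DJe
  exact DT.ite hN (Dfn.eq hN (DJT_DT hN hs) (DT.empty hN)) (DT.cst hN hu)
    (DT.sUnionT hN (DJT_DT hN hs))

private theorem DJ_lt {c α β : ZFSet.{u}} (hc : Fin' c) (hα : α ∈ c) (hβo : β.IsOrdinal)
    (hαβ : α ∈ β) : nc (c ∩ α) ≠ nc (c ∩ β) := by
  have h1 : ((c ∩ α : ZFSet.{u}) : Set ZFSet.{u}) ⊂ ((c ∩ β : ZFSet.{u}) : Set ZFSet.{u}) := by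
    refine ⟨fun y hy => ?_, fun h => ?_⟩
    · have hy' : y ∈ c ∩ α := hy
      rw [mem_inter] at hy'
      have h2 : y ∈ c ∩ β := mem_inter.2 ⟨hy'.1, hβo.mem_trans hy'.2 hαβ⟩
      exact h2
    · have h2 : α ∈ c ∩ β := mem_inter.2 ⟨hα, hαβ⟩
      have h3 : α ∈ c ∩ α := h h2
      exact mem_irrefl α (mem_inter.1 h3).2
  have h2 : ((c ∩ β : ZFSet.{u}) : Set ZFSet.{u}).Finite := by
    refine hc.subset fun y hy => ?_
    have hy' : y ∈ c ∩ β := hy
    exact (mem_inter.1 hy').1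
  have h3 := Set.ncard_lt_ncard h1 h2
  intro h
  unfold nc at h
  rw [nz_inj] at h
  omega

private theorem DJ_uniq {c α β : ZFSet.{u}} (hc : Fin' c) (ho : ∀ γ ∈ c, γ.IsOrdinal)
    (hα : α ∈ c) (hβ : β ∈ c) (h : nc (c ∩ α) = nc (c ∩ β)) : α = β := by
  rcases (ho α hα).mem_trichotomous (ho β hβ) with h1 | h1 | h1
  · exact absurd h (DJ_lt hc hα (ho β hβ) h1)
  · exact h1
  · exact absurd h.symm (DJ_lt hc hβ (ho α hα) h1)

private theorem DJ_T {s : ZFSet.{u} → ZFSet.{u}} {p α : ZFSet.{u}} (hc : Fin' (s (fs p)))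
    (ho : ∀ γ ∈ s (fs p), γ.IsOrdinal) (hα : α ∈ DJT s p) : DJT s p = {α} := by
  have h1 : ∀ y, y ∈ DJT s p ↔ y ∈ s (fs p) ∧ nc (s (fs p) ∩ y) = sn p := fun y => by
    unfold DJT
    rw [mem_sep]
  have h2 := (h1 α).1 hα
  ext y
  rw [mem_singleton]
  constructor
  · intro hy
    have h3 := (h1 y).1 hy
    exact DJ_uniq hc ho h3.1 h2.1 (h3.2.trans h2.2.symm)
  · rintro rfl
    exact hα

private theorem DJ_e {s : ZFSet.{u} → ZFSet.{u}} {u₀ p α : ZFSet.{u}} (hc : Fin' (s (fs p)))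
    (ho : ∀ γ ∈ s (fs p), γ.IsOrdinal) (hα : α ∈ DJT s p) : DJe s u₀ p = α := by
  have h1 : DJT s p ≠ ∅ := fun h => by
    rw [h] at hα
    exact notMem_empty _ hα
  unfold DJe
  rw [if_neg h1, DJ_T hc ho hα, sUnion_singleton]

theorem onto_sUnion_fin (hN : ZF N) {x A : ZFSet.{u}} (hx : x ∈ N) (hxo : x.IsOrdinal)
    (hinf : ZFSet.omega ⊆ x) (hA : Onto N x A) {s : ZFSet.{u} → ZFSet.{u}}
    (hs : DT N (fun v => s (v 0)))
    (hfin : ∀ a ∈ A, Fin' (s a)) (hord : ∀ a ∈ A, ∀ α ∈ s a, α.IsOrdinal)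
    (hne : (⋃₀ (img s A) : ZFSet.{u}) ≠ ∅) : Onto N x (⋃₀ (img s A) : ZFSet.{u}) := by
  have hAN : A ∈ N := onto_mem_right hN hA
  have hUN : (⋃₀ (img s A) : ZFSet.{u}) ∈ N := sUnion_mem hN (img_mem hN hs hAN)
  obtain ⟨u₀, hu₀⟩ : ∃ u₀, u₀ ∈ (⋃₀ (img s A) : ZFSet.{u}) := by
    by_contra hc
    push Not at hc
    exact hne ((eq_empty _).2 hc)
  have hmemU : ∀ a ∈ A, ∀ α ∈ s a, α ∈ (⋃₀ (img s A) : ZFSet.{u}) := fun a ha α hα =>
    mem_sUnion.2 ⟨s a, mem_img.2 ⟨a, ha, rfl⟩, hα⟩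
  have hS : img (DJe s u₀) (prod A ZFSet.omega) = (⋃₀ (img s A) : ZFSet.{u}) := by
    ext z
    rw [mem_img]
    constructor
    · rintro ⟨p, hp, rfl⟩
      obtain ⟨a, ha, n, hn, rfl⟩ := mem_prod.1 hp
      by_cases h : DJT s (pair a n) = ∅
      · unfold DJe
        rw [if_pos h]
        exact hu₀
      · obtain ⟨α, hα⟩ : ∃ α, α ∈ DJT s (pair a n) := by
          by_contra hc
          push Not at hc
          exact h ((eq_empty _).2 hc)
        have h1 : α ∈ s a := by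
          unfold DJT at hα
          rw [mem_sep, fs_pair] at hα
          exact hα.1
        rw [DJ_e (by rw [fs_pair]; exact hfin a ha) (by rw [fs_pair]; exact hord a ha) hα]
        exact hmemU a ha α h1
    · intro hz
      obtain ⟨y, hy, hzy⟩ := mem_sUnion.1 hz
      obtain ⟨a, ha, rfl⟩ := mem_img.1 hy
      refine ⟨pair a (nc (s a ∩ z)), pair_mem_prod.2 ⟨ha, nz_mem_omega _⟩, ?_⟩
      refine (DJ_e (by rw [fs_pair]; exact hfin a ha) (by rw [fs_pair]; exact hord a ha)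
        ?_).symm
      unfold DJT
      rw [mem_sep, fs_pair, sn_pair]
      exact ⟨hzy, rfl⟩
  have h1 : Onto N x (prod A ZFSet.omega) :=
    onto_prod_self hN hx hxo hinf hA (onto_omega hN hx hinf)
  have h2 := onto_img hN (DJe_DT hN hs (mem_N hN hUN hu₀)) (prod_mem hN hAN hN.omega)
  rw [hS] at h2
  exact onto_trans hN h1 h2

end Pool.Agent.FBZ
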