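import Pool.Agent.FBZ.Base

/-!
# FBZ: definability with parameters, definable terms, images, recursion (definitions)
-/

namespace Pool.Agent.FBZ
open ZFSet
universe u

/-- The assignment with the even entries from `v` and the odd entries from `w`. -/
def mix (v w : Env.{u}) : Env.{u} := fun n => if n % 2 = 0 then v (n / 2) else w (n / 2)

/-- `R` (a property of assignments) is definable over `(N, ∈)` with parameters from `N`. -/
def Dfn (N : Set ZFSet.{u}) (R : Env.{u} → Prop) : Prop :=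
  ∃ (φ : Fml) (w : Env.{u}), In N w ∧ ∀ v, In N v → (R v ↔ Sat N φ (mix v w))

/-- `t` is a definable term: it maps assignments in `N` to elements of `N` and its graph is
definable. -/
def DT (N : Set ZFSet.{u}) (t : Env.{u} → ZFSet.{u}) : Prop :=
  (∀ v, In N v → t v ∈ N) ∧ Dfn N (fun v => v 0 = t (tl v))

/-- Renaming of variables. -/
def Fml.rn : (ℕ → ℕ) → Fml → Fml
  | f, .mem i j => .mem (f i) (f j)
  | f, .eq i j => .eq (f i) (f j)
  | f, .neg φ => .neg (φ.rn f)
  | f, .and φ ψ => .and (φ.rn f) (ψ.rn f)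
  | f, .all φ => .all (φ.rn (fun n => match n with | 0 => 0 | k + 1 => f k + 1))

/-- The image of the set `a` under an arbitrary function `F`. -/
noncomputable def img (F : ZFSet.{u} → ZFSet.{u}) (a : ZFSet.{u}) : ZFSet.{u} :=
  ZFSet.range (fun x : ↥a => F x.1)

theorem mem_img {F : ZFSet.{u} → ZFSet.{u}} {a z : ZFSet.{u}} : z ∈ img F a ↔ ∃ x ∈ a, z = F x := by
  unfold img
  rw [mem_range]
  constructor
  · rintro ⟨x, rfl⟩
    exact ⟨x.1, x.2, rfl⟩
  · rintro ⟨x, hx, rfl⟩
    exact ⟨⟨x, hx⟩, rfl⟩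

/-- The graph of `F` restricted to the set `a`. -/
noncomputable def gr (F : ZFSet.{u} → ZFSet.{u}) (a : ZFSet.{u}) : ZFSet.{u} :=
  img (fun z => pair z (F z)) a

/-- The function defined from `Φ` by recursion along `∈`:
`recF Φ x = Φ (gr (recF Φ) x)`, see `recF_eq`. -/
noncomputable def recF (Φ : ZFSet.{u} → ZFSet.{u}) (x : ZFSet.{u}) : ZFSet.{u} :=
  Φ (ZFSet.range (fun z : ↥x => pair z.1 (recF Φ z.1)))
termination_by x.rank
decreasing_by exact rank_lt_of_mem z.2

theorem recF_eq (Φ : ZFSet.{u} → ZFSet.{u}) (x : ZFSet.{u}) : recF Φ x = Φ (gr (recF Φ) x) := by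
  rw [recF]
  rfl

/-- Range and domain of a relation. -/
noncomputable def ran (e : ZFSet.{u}) : ZFSet.{u} :=
  (⋃₀ ⋃₀ e : ZFSet.{u}).sep (fun z => ∃ b, pair b z ∈ e)

noncomputable def dom (e : ZFSet.{u}) : ZFSet.{u} :=
  (⋃₀ ⋃₀ e : ZFSet.{u}).sep (fun z => ∃ b, pair z b ∈ e)

/-- The elements of `N` contained in `x`. -/
noncomputable def powN (N : Set ZFSet.{u}) (x : ZFSet.{u}) : ZFSet.{u} :=
  (powerset x).sep (fun z => z ∈ N)

/-- `x` is (externally) finite. -/
def Fin' (x : ZFSet.{u}) : Prop := (x : Set ZFSet.{u}).Finite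

/-- The set of all finite subsets of `x`. -/
noncomputable def finset (x : ZFSet.{u}) : ZFSet.{u} := (powerset x).sep Fin'

/-- The von Neumann natural number `n`. -/
def nz : ℕ → ZFSet.{u}
  | 0 => ∅
  | n + 1 => insert (nz n) (nz n)

end Pool.Agent.FBZ
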