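import Pool.Agent.FBZ.DF3

/-!
# FBZ module FA: check names, names for pairs, first properties of the generic extension

* `chk_eq`: `recF_eq`, `ran_gr`.  `DT.chkT`: `DT.recFT` with the parameter `P` (`DT.cst`).
* `val_chk`: `∈`-induction on `x` with `mem_val` and `chk_eq`: the elements of `val H (chk P x)` are the
  `val H (chk P y) = y` with `y ∈ x` for which some `p ∈ H` (`⊆ P`) exists.
* `gen_nonempty`: `P` itself is dense (`Forcing.refl`) and in `N`.
* `mem_Ext_of_mem`: `x = val H (chk P x)`.  `ext_trans`: if `w ∈ val H x`, `x ∈ N`, then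
  `w = val H y` with `pair y p ∈ x`, so `y ∈ N` (`pair_mem_iff`).
* `val_up`: `mem_val`; the elements of `upn P x y = prod {x, y} P` are the pairs `(x, p)`, `(y, p)`.
  `val_op`: definition of `pair` as `{{x}, {x, y}}` and `pair_eq_singleton`.
* `gen_mem`: a dense set of `N` meets `H`.
-/

namespace Pool.Agent.FBZ
open ZFSet
universe u
variable {N : Set ZFSet.{u}} {P le H : ZFSet.{u}} {t s : Env.{u} → ZFSet.{u}}

/-- The canonical name of `x`. -/
noncomputable def chk (P : ZFSet.{u}) : ZFSet.{u} → ZFSet.{u} := recF (fun g => prod (ran g) P)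

/-- A name for the unordered pair. -/
noncomputable def upn (P x y : ZFSet.{u}) : ZFSet.{u} := prod {x, y} P

/-- A name for the ordered pair. -/
noncomputable def opn (P x y : ZFSet.{u}) : ZFSet.{u} := upn P (upn P x x) (upn P x y)

theorem chk_eq (P x : ZFSet.{u}) : chk P x = prod (img (chk P) x) P := by
  show recF (fun g => prod (ran g) P) x = _
  rw [recF_eq, ran_gr]
  rfl

theorem DT.chkT (hN : ZF N) (hP : P ∈ N) (ht : DT N t) : DT N (fun v => chk P (t v)) := by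
  exact DT.recFT (Φ := fun _ g => prod (ran g) P) hN
    (DT.prodT hN (DT.ranT hN (DT.var hN 0)) (DT.cst hN hP)) ht

theorem DT.opnT (hN : ZF N) (hP : P ∈ N) (ht : DT N t) (hs : DT N s) :
    DT N (fun v => opn P (t v) (s v)) := by
  have h := fun {a b : Env.{u} → ZFSet.{u}} (ha : DT N a) (hb : DT N b) =>
    (DT.prodT hN (DT.upair hN ha hb) (DT.cst hN hP) : DT N (fun v => upn P (a v) (b v)))
  exact h (h ht ht) (h ht hs)

theorem gen_nonempty (hf : Forcing P le) (hP : P ∈ N) (hG : Generic N P le H) : ∃ p, p ∈ H := by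
  obtain ⟨p, hp, -⟩ := hG.meets P hP ⟨fun _ h => h, fun p hp => ⟨p, hp, hf.refl p hp⟩⟩
  exact ⟨p, hp⟩

theorem val_chk (hHP : H ⊆ P) (hne : ∃ p, p ∈ H) (x : ZFSet.{u}) : val H (chk P x) = x := by
  obtain ⟨p0, hp0⟩ := hne
  induction x using ZFSet.inductionOn with
  | _ x ih =>
    ext z
    rw [mem_val, chk_eq]
    constructor
    · rintro ⟨y, p, hp, h, rfl⟩
      rw [pair_mem_prod, mem_img] at h
      obtain ⟨⟨w, hw, rfl⟩, -⟩ := h
      rw [ih w hw]
      exact hw
    · intro hz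
      refine ⟨chk P z, p0, hp0, ?_, (ih z hz).symm⟩
      rw [pair_mem_prod, mem_img]
      exact ⟨⟨z, hz, rfl⟩, hHP hp0⟩

theorem mem_Ext_of_mem (hN : ZF N) (hP : P ∈ N) (hHP : H ⊆ P) (hne : ∃ p, p ∈ H)
    {x : ZFSet.{u}} (hx : x ∈ N) : x ∈ Ext N H := by
  refine ⟨chk P x, ?_, (val_chk hHP hne x).symm⟩
  exact (DT.chkT hN hP (DT.var hN 0)).1 (fun _ => x) (fun _ => hx)

theorem ext_trans (hN : ZF N) {z w : ZFSet.{u}} (hz : z ∈ Ext N H) (hw : w ∈ z) : w ∈ Ext N H := by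
  obtain ⟨x, hx, rfl⟩ := hz
  rw [mem_val] at hw
  obtain ⟨y, p, -, hyp, rfl⟩ := hw
  exact ⟨y, ((pair_mem_iff hN).1 (mem_N hN hx hyp)).1, rfl⟩

theorem val_up (hHP : H ⊆ P) (hne : ∃ p, p ∈ H) (x y : ZFSet.{u}) :
    val H (upn P x y) = {val H x, val H y} := by
  obtain ⟨p0, hp0⟩ := hne
  ext z
  rw [mem_val, mem_pair]
  constructor
  · rintro ⟨w, p, hp, h, rfl⟩
    rw [upn, pair_mem_prod, mem_pair] at h
    rcases h.1 with rfl | rfl
    · exact Or.inl rfl
    · exact Or.inr rfl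
  · rintro (rfl | rfl)
    · exact ⟨x, p0, hp0, by rw [upn, pair_mem_prod, mem_pair]; exact ⟨Or.inl rfl, hHP hp0⟩, rfl⟩
    · exact ⟨y, p0, hp0, by rw [upn, pair_mem_prod, mem_pair]; exact ⟨Or.inr rfl, hHP hp0⟩, rfl⟩

theorem val_op (hHP : H ⊆ P) (hne : ∃ p, p ∈ H) (x y : ZFSet.{u}) :
    val H (opn P x y) = pair (val H x) (val H y) := by
  rw [opn, val_up hHP hne, val_up hHP hne, val_up hHP hne, pair, pair_eq_singleton]

end Pool.Agent.FBZ
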