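import Pool.Agent.FBZ.FA

/-!
# FBZ module FB: the forcing relation for equality of names

Fix a transitive set `T` (of names).  `fE T P le x` is the set of all `pair y p`, `y ∈ T`, `p ∈ P`,
such that `p` forces `x = y`; recursion along the transitive closure of `x`.
* `forces_iff`: unfold with `recT_eq`; if `pair z r ∈ x` then `z ∈ tc x` (`z ∈ {z} ∈ pair z r ∈ x` and
  `tc x` is transitive and contains `x`), so `ap (gr (fE ..) (tc x)) z = fE .. z` (`ap_gr`).
  (`fs (pair y p) = y`, `sn (pair y p) = p`.)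
* `forces_mem`: membership in `prod T P`.
* `forces_mono`: immediate from `forces_iff` and the transitivity of `le` (a `q ≤ p' ≤ p`).
* `DT.fET`: `DT.recTT`; the body is a separation from `prod T P` by a formula with bounded
  quantifiers: all the quantifiers over `z, r, q, q', w, r'` can be bounded by `N` since
  `pair z r ∈ x ∈ N` etc. imply membership in `N` (`pair_mem_iff`); `T, P, le` are parameters.
-/

namespace Pool.Agent.FBZ
open ZFSet
universe u
variable {N : Set ZFSet.{u}} {T P le : ZFSet.{u}}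

/-- The condition `p` forces `x = y`, given the relation for the names occurring in `x`. -/
def FBody (le x y p : ZFSet.{u}) (S : ZFSet.{u} → ZFSet.{u} → ZFSet.{u} → Prop) : Prop :=
  (∀ z r, pair z r ∈ x → ∀ q, pair q p ∈ le → pair q r ∈ le →
    ∃ q' w r', pair q' q ∈ le ∧ pair w r' ∈ y ∧ pair q' r' ∈ le ∧ S z w q') ∧
  (∀ w r', pair w r' ∈ y → ∀ q, pair q p ∈ le → pair q r' ∈ le →
    ∃ q' z r, pair q' q ∈ le ∧ pair z r ∈ x ∧ pair q' r ∈ le ∧ S z w q')

/-- The set of all `pair y p` such that `p` forces `x = y`. -/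
noncomputable def fE (T P le : ZFSet.{u}) : ZFSet.{u} → ZFSet.{u} :=
  recT (fun x u => (prod T P).sep (fun a => FBody le x (fs a) (sn a)
    (fun z w q' => pair w q' ∈ ap u z)))

/-- `p` forces `x = y`. -/
def Forces (T P le x y p : ZFSet.{u}) : Prop := pair y p ∈ fE T P le x

private noncomputable def FB_Psi (T P le x u : ZFSet.{u}) : ZFSet.{u} :=
  (prod T P).sep (fun a => FBody le x (fs a) (sn a) (fun z w q' => pair w q' ∈ ap u z))

private theorem FB_eq (T P le x : ZFSet.{u}) :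
    fE T P le x = FB_Psi T P le x (gr (fE T P le) (tc x)) :=
  recT_eq _ x

theorem forces_mem {x y p : ZFSet.{u}} (h : Forces T P le x y p) : y ∈ T ∧ p ∈ P := by
  unfold Forces at h
  rw [FB_eq] at h
  exact pair_mem_prod.1 (mem_sep.1 h).1

private theorem FB_tc {x z r : ZFSet.{u}} (h : pair z r ∈ x) : z ∈ tc x := by
  have h1 : pair z r ∈ tc x := subset_tc x h
  have h2 : ({z} : ZFSet.{u}) ∈ pair z r := by simp [pair]
  have h3 : ({z} : ZFSet.{u}) ∈ tc x := (tc_trans x).subset_of_mem h1 h2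
  exact (tc_trans x).subset_of_mem h3 (by simp)

theorem forces_iff {x y p : ZFSet.{u}} (hy : y ∈ T) (hp : p ∈ P) :
    Forces T P le x y p ↔ FBody le x y p (Forces T P le) := by
  have h1 : Forces T P le x y p ↔ FBody le x y p
      (fun z w q' => pair w q' ∈ ap (gr (fE T P le) (tc x)) z) := by
    unfold Forces
    rw [FB_eq, FB_Psi, mem_sep, pair_mem_prod, fs_pair, sn_pair]
    exact ⟨fun h => h.2, fun h => ⟨⟨hy, hp⟩, h⟩⟩
  rw [h1]
  unfold FBody
  refine and_congr ?_ ?_
  · refine forall_congr' fun z => forall_congr' fun r => forall_congr' fun hz => ?_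
    have h2 : ap (gr (fE T P le) (tc x)) z = fE T P le z := ap_gr (FB_tc hz)
    beta_reduce
    rw [h2]
    rfl
  · refine forall_congr' fun w => forall_congr' fun r' => forall_congr' fun _ =>
      forall_congr' fun q => forall_congr' fun _ => forall_congr' fun _ => exists_congr fun q' =>
      exists_congr fun z => exists_congr fun r => ?_
    constructor
    · rintro ⟨h3, h4, h5, h6⟩
      have h2 : ap (gr (fE T P le) (tc x)) z = fE T P le z := ap_gr (FB_tc h4)
      beta_reduce at h6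
      rw [h2] at h6
      exact ⟨h3, h4, h5, h6⟩
    · rintro ⟨h3, h4, h5, h6⟩
      have h2 : ap (gr (fE T P le) (tc x)) z = fE T P le z := ap_gr (FB_tc h4)
      refine ⟨h3, h4, h5, ?_⟩
      beta_reduce
      rw [h2]
      exact h6

theorem forces_mono (hf : Forcing P le) {x y p q : ZFSet.{u}}
    (h : Forces T P le x y p) (hq : pair q p ∈ le) : Forces T P le x y q := by
  have h1 := forces_mem h
  have h2 := pair_mem_prod.1 (hf.field hq)
  rw [forces_iff h1.1 h2.1]
  rw [forces_iff h1.1 h1.2] at h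
  refine ⟨fun z r hz q₁ hq₁ => h.1 z r hz q₁ (hf.trans _ _ _ hq₁ hq),
    fun w r' hw q₁ hq₁ => h.2 w r' hw q₁ (hf.trans _ _ _ hq₁ hq)⟩

/-- Unbounded universal quantifiers whose hypotheses force the variable to be in `N`. -/
private theorem FB_all {Q : Env.{u} → ZFSet.{u} → Prop} (h : Dfn N (fun v => Q (tl v) (v 0)))
    (hb : ∀ v, In N v → ∀ x, x ∉ N → Q v x) : Dfn N (fun v => ∀ x, Q v x) :=
  Dfn.congr (Dfn.all h) fun v hv => ⟨fun h x _ => h x, fun h x => by
    by_cases hx : x ∈ N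
    · exact h x hx
    · exact hb v hv x hx⟩

private theorem FB_ex {Q : Env.{u} → ZFSet.{u} → Prop} (h : Dfn N (fun v => Q (tl v) (v 0)))
    (hb : ∀ v, In N v → ∀ x, Q v x → x ∈ N) : Dfn N (fun v => ∃ x, Q v x) :=
  Dfn.congr (Dfn.ex h) fun v hv => ⟨fun ⟨x, hx⟩ => ⟨x, hb v hv x hx, hx⟩, fun ⟨x, _, hx⟩ => ⟨x, hx⟩⟩

private theorem FB_in (hN : ZF N) {a x y : ZFSet.{u}} (ha : a ∈ N) (h : pair x y ∈ a) :
    x ∈ N ∧ y ∈ N := (pair_mem_iff hN).1 (mem_N hN ha h)

theorem DT.fET (hN : ZF N) (hT : T ∈ N) (hP : P ∈ N) (hle : le ∈ N) {t : Env.{u} → ZFSet.{u}}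
    (ht : DT N t) : DT N (fun v => fE T P le (t v)) := by
  refine DT.recTT (Ψ := fun _ x u => (prod T P).sep (fun a => FBody le x (fs a) (sn a)
    (fun z w q' => pair w q' ∈ ap u z))) hN ?_ ht
  refine DT.sepT (Q := fun v a => FBody le (v 0) (fs a) (sn a)
    (fun z w q' => pair w q' ∈ ap (v 1) z)) hN (DT.prodT hN (DT.cst hN hT) (DT.cst hN hP)) ?_
  -- variables: a = v 0, x = v 1, u = v 2
  refine Dfn.and ?_ ?_
  · refine FB_all (Q := fun v z => ∀ r, pair z r ∈ v 1 → ∀ q, pair q (sn (v 0)) ∈ le →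
      pair q r ∈ le → ∃ q' w r', pair q' q ∈ le ∧ pair w r' ∈ fs (v 0) ∧ pair q' r' ∈ le ∧
      pair w q' ∈ ap (v 2) z) ?_ ?_
    · -- z = v 0, a = v 1, x = v 2, u = v 3
      refine FB_all (Q := fun v r => pair (v 0) r ∈ v 2 → ∀ q, pair q (sn (v 1)) ∈ le →
        pair q r ∈ le → ∃ q' w r', pair q' q ∈ le ∧ pair w r' ∈ fs (v 1) ∧ pair q' r' ∈ le ∧
        pair w q' ∈ ap (v 3) (v 0)) ?_ ?_
      · -- r = v 0, z = v 1, a = v 2, x = v 3, u = v 4
        refine Dfn.imp (Dfn.mem hN (DT.pairT hN (DT.var hN 1) (DT.var hN 0)) (DT.var hN 3)) ?_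
        refine FB_all (Q := fun v q => pair q (sn (v 2)) ∈ le → pair q (v 0) ∈ le →
          ∃ q' w r', pair q' q ∈ le ∧ pair w r' ∈ fs (v 2) ∧ pair q' r' ∈ le ∧
          pair w q' ∈ ap (v 4) (v 1)) ?_ ?_
        · -- q = v 0, r = v 1, z = v 2, a = v 3, x = v 4, u = v 5
          refine Dfn.imp (Dfn.mem hN (DT.pairT hN (DT.var hN 0) (DT.snT hN (DT.var hN 3)))
            (DT.cst hN hle)) ?_
          refine Dfn.imp (Dfn.mem hN (DT.pairT hN (DT.var hN 0) (DT.var hN 1))
            (DT.cst hN hle)) ?_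
          refine FB_ex (Q := fun v q' => ∃ w r', pair q' (v 0) ∈ le ∧ pair w r' ∈ fs (v 3) ∧
            pair q' r' ∈ le ∧ pair w q' ∈ ap (v 5) (v 2)) ?_ ?_
          · -- q' = v 0, q = v 1, r = v 2, z = v 3, a = v 4, x = v 5, u = v 6
            refine FB_ex (Q := fun v w => ∃ r', pair (v 0) (v 1) ∈ le ∧ pair w r' ∈ fs (v 4) ∧
              pair (v 0) r' ∈ le ∧ pair w (v 0) ∈ ap (v 6) (v 3)) ?_ ?_
            · -- w = v 0, q' = v 1, q = v 2, r = v 3, z = v 4, a = v 5, x = v 6, u = v 7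
              refine FB_ex (Q := fun v r' => pair (v 1) (v 2) ∈ le ∧ pair (v 0) r' ∈ fs (v 5) ∧
                pair (v 1) r' ∈ le ∧ pair (v 0) (v 1) ∈ ap (v 7) (v 4)) ?_ ?_
              · refine Dfn.and (Dfn.mem hN (DT.pairT hN (DT.var hN 2) (DT.var hN 3))
                  (DT.cst hN hle)) (Dfn.and (Dfn.mem hN (DT.pairT hN (DT.var hN 1)
                  (DT.var hN 0)) (DT.fsT hN (DT.var hN 6))) (Dfn.and (Dfn.mem hN
                  (DT.pairT hN (DT.var hN 2) (DT.var hN 0)) (DT.cst hN hle)) ?_))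
                exact Dfn.mem hN (DT.pairT hN (DT.var hN 1) (DT.var hN 2))
                  (DT.apT hN (DT.var hN 8) (DT.var hN 5))
              · rintro v _ r' ⟨_, _, h, _⟩
                exact (FB_in hN hle h).2
            · rintro v hv w ⟨r', _, h, _⟩
              exact (FB_in hN ((DT.fsT hN (DT.var hN 4)).1 v hv) h).1
          · rintro v _ q' ⟨w, r', h, _⟩
            exact (FB_in hN hle h).1
        · intro v _ q hq h
          exact absurd (FB_in hN hle h).1 hq
      · intro v hv r hr h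
        exact absurd (FB_in hN (hv 2) h).2 hr
    · intro v hv z hz r h
      exact absurd (FB_in hN (hv 1) h).1 hz
  · refine FB_all (Q := fun v w => ∀ r', pair w r' ∈ fs (v 0) → ∀ q, pair q (sn (v 0)) ∈ le →
      pair q r' ∈ le → ∃ q' z r, pair q' q ∈ le ∧ pair z r ∈ v 1 ∧ pair q' r ∈ le ∧
      pair w q' ∈ ap (v 2) z) ?_ ?_
    · -- w = v 0, a = v 1, x = v 2, u = v 3
      refine FB_all (Q := fun v r' => pair (v 0) r' ∈ fs (v 1) → ∀ q, pair q (sn (v 1)) ∈ le →
        pair q r' ∈ le → ∃ q' z r, pair q' q ∈ le ∧ pair z r ∈ v 2 ∧ pair q' r ∈ le ∧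
        pair (v 0) q' ∈ ap (v 3) z) ?_ ?_
      · -- r' = v 0, w = v 1, a = v 2, x = v 3, u = v 4
        refine Dfn.imp (Dfn.mem hN (DT.pairT hN (DT.var hN 1) (DT.var hN 0))
          (DT.fsT hN (DT.var hN 2))) ?_
        refine FB_all (Q := fun v q => pair q (sn (v 2)) ∈ le → pair q (v 0) ∈ le →
          ∃ q' z r, pair q' q ∈ le ∧ pair z r ∈ v 3 ∧ pair q' r ∈ le ∧
          pair (v 1) q' ∈ ap (v 4) z) ?_ ?_
        · -- q = v 0, r' = v 1, w = v 2, a = v 3, x = v 4, u = v 5
          refine Dfn.imp (Dfn.mem hN (DT.pairT hN (DT.var hN 0) (DT.snT hN (DT.var hN 3)))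
            (DT.cst hN hle)) ?_
          refine Dfn.imp (Dfn.mem hN (DT.pairT hN (DT.var hN 0) (DT.var hN 1))
            (DT.cst hN hle)) ?_
          refine FB_ex (Q := fun v q' => ∃ z r, pair q' (v 0) ∈ le ∧ pair z r ∈ v 4 ∧
            pair q' r ∈ le ∧ pair (v 2) q' ∈ ap (v 5) z) ?_ ?_
          · -- q' = v 0, q = v 1, r' = v 2, w = v 3, a = v 4, x = v 5, u = v 6
            refine FB_ex (Q := fun v z => ∃ r, pair (v 0) (v 1) ∈ le ∧ pair z r ∈ v 5 ∧
              pair (v 0) r ∈ le ∧ pair (v 3) (v 0) ∈ ap (v 6) z) ?_ ?_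
            · -- z = v 0, q' = v 1, q = v 2, r' = v 3, w = v 4, a = v 5, x = v 6, u = v 7
              refine FB_ex (Q := fun v r => pair (v 1) (v 2) ∈ le ∧ pair (v 0) r ∈ v 6 ∧
                pair (v 1) r ∈ le ∧ pair (v 4) (v 1) ∈ ap (v 7) (v 0)) ?_ ?_
              · refine Dfn.and (Dfn.mem hN (DT.pairT hN (DT.var hN 2) (DT.var hN 3))
                  (DT.cst hN hle)) (Dfn.and (Dfn.mem hN (DT.pairT hN (DT.var hN 1)
                  (DT.var hN 0)) (DT.var hN 7)) (Dfn.and (Dfn.mem hN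
                  (DT.pairT hN (DT.var hN 2) (DT.var hN 0)) (DT.cst hN hle)) ?_))
                exact Dfn.mem hN (DT.pairT hN (DT.var hN 5) (DT.var hN 2))
                  (DT.apT hN (DT.var hN 8) (DT.var hN 1))
              · rintro v _ r ⟨_, _, h, _⟩
                exact (FB_in hN hle h).2
            · rintro v hv z ⟨r, _, h, _⟩
              exact (FB_in hN (hv 5) h).1
          · rintro v _ q' ⟨z, r, h, _⟩
            exact (FB_in hN hle h).1
        · intro v _ q hq h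
          exact absurd (FB_in hN hle h).1 hq
      · intro v hv r' hr h
        exact absurd (FB_in hN ((DT.fsT hN (DT.var hN 1)).1 v hv) h).2 hr
    · intro v hv w hw r' h
      exact absurd (FB_in hN ((DT.fsT hN (DT.var hN 0)).1 v hv) h).1 hw

theorem Dfn.forces (hN : ZF N) (hT : T ∈ N) (hP : P ∈ N) (hle : le ∈ N)
    {t s r : Env.{u} → ZFSet.{u}} (ht : DT N t) (hs : DT N s) (hr : DT N r) :
    Dfn N (fun v => Forces T P le (t v) (s v) (r v)) :=
  Dfn.mem hN (DT.pairT hN hs hr) (DT.fET hN hT hP hle ht)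

end Pool.Agent.FBZ
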