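import Pool.Agent.FBZ.FB

/-!
# FBZ module FC: the truth lemma for equality of names

For a transitive set `T ∈ N`, names `x ∈ N`, `y ∈ T`, and a generic filter `H`:
`val H x = val H y ↔ ∃ p ∈ H, Forces T P le x y p`.

Proof by induction on `rank x` (for all `y ∈ T`).  If `pair z r ∈ x` then `z ∈ N` and
`rank z < rank x`; if `pair w r' ∈ y` then `w ∈ T` (`w ∈ {w} ∈ pair w r' ∈ y ∈ T`).

(←) Let `p ∈ H` force `x = y`.  `val H x ⊆ val H y`: let `pair z r ∈ x`, `r ∈ H`.  Let `D` be the set of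
all `q ∈ P` such that either (a) `∃ w r', pair w r' ∈ y ∧ pair q r' ∈ le ∧ Forces z w q` or
(b) there is no `q₁` with `pair q₁ q ∈ le`, `pair q₁ p ∈ le`, `pair q₁ r ∈ le`.
`D ∈ N` (`sep_mem`, `Dfn.forces`).  `D` is dense: if `q` is not of kind (b), take such a `q₁` and apply
the first half of `FBody` to `q₁`: some `q' ≤ q₁` is of kind (a).  Let `q ∈ H ∩ D`.  Kind (b) is
impossible: `H` is a filter, so it contains a `q₁` below `q`, `p`, `r`.  So there are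
`w, r'` with `pair w r' ∈ y`, `r' ∈ H` (as `q ≤ r'`), `Forces z w q`; by induction
`val H z = val H w ∈ val H y`.  `val H y ⊆ val H x`: the same with the second half.
(→) Let `val H x = val H y`.  Let `D` be the set of all `p ∈ P` such that
(1) `Forces x y p`, or
(2) `∃ z r, pair z r ∈ x ∧ pair p r ∈ le ∧ ∀ q', pair q' p ∈ le → ∀ w r', pair w r' ∈ y →
     pair q' r' ∈ le → ¬ Forces z w q'`, or
(3) `∃ w r', pair w r' ∈ y ∧ pair p r' ∈ le ∧ ∀ q', pair q' p ∈ le → ∀ z r, pair z r ∈ x →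
     pair q' r ∈ le → ¬ Forces z w q'`.
`D ∈ N` and `D` is dense: if `p` does not satisfy (1), then `FBody` fails, and the witness `q ≤ p` of
the failure satisfies (2) or (3) (negate `FBody`).  Let `p ∈ H ∩ D`.  In case (2): `r ∈ H`,
`val H z ∈ val H x = val H y`, so `val H z = val H w` with `pair w r' ∈ y`, `r' ∈ H`; by induction some
`p' ∈ H` has `Forces z w p'`; take `q' ∈ H` below `p, p', r'`; `Forces z w q'` by `forces_mono`,
contradiction.  Case (3) is the same.  So (1) holds.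
-/

namespace Pool.Agent.FBZ
open ZFSet
universe u
variable {N : Set ZFSet.{u}} {T P le H : ZFSet.{u}}

private theorem below3 (hf : Forcing P le) (hG : Generic N P le H) {p q r : ZFSet.{u}}
    (hp : p ∈ H) (hq : q ∈ H) (hr : r ∈ H) :
    ∃ s ∈ H, pair s p ∈ le ∧ pair s q ∈ le ∧ pair s r ∈ le := by
  obtain ⟨a, ha, hap, haq⟩ := hG.dir p hp q hq
  obtain ⟨b, hb, hba, hbr⟩ := hG.dir a ha r hr
  exact ⟨b, hb, hf.trans _ _ _ hba hap, hf.trans _ _ _ hba haq, hbr⟩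

private theorem rank_fst {x z r : ZFSet.{u}} (h : pair z r ∈ x) : z.rank < x.rank := by
  have h1 : z.rank < ({z} : ZFSet.{u}).rank := rank_lt_of_mem (by simp)
  have h2 : ({z} : ZFSet.{u}).rank < (pair z r).rank := rank_lt_of_mem (by simp [pair])
  exact h1.trans (h2.trans (rank_lt_of_mem h))

private theorem fst_mem_T (hTt : T.IsTransitive) {y w r : ZFSet.{u}} (hy : y ∈ T)
    (h : pair w r ∈ y) : w ∈ T := by
  have h1 : pair w r ∈ T := hTt y hy h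
  have h2 : ({w} : ZFSet.{u}) ∈ T := hTt _ h1 (by simp [pair])
  exact hTt _ h2 (by simp)

private theorem le_left (hf : Forcing P le) {p q : ZFSet.{u}} (h : pair p q ∈ le) : p ∈ P :=
  (pair_mem_prod.1 (hf.field h)).1

private theorem aux (hN : ZF N) (hf : Forcing P le) (hP : P ∈ N) (hle : le ∈ N)
    (hG : Generic N P le H) (hT : T ∈ N) (hTt : T.IsTransitive) (o : Ordinal.{u}) :
    ∀ x ∈ N, x.rank = o → ∀ y ∈ T, (val H x = val H y ↔ ∃ p ∈ H, Forces T P le x y p) := by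
  induction o using WellFoundedLT.induction with
  | ind o ih =>
  intro x hx hxo y hy
  have hyN : y ∈ N := mem_N hN hT hy
  have hxm : ∀ {z r : ZFSet.{u}}, pair z r ∈ x → z ∈ N ∧ r ∈ N := fun h =>
    (pair_mem_iff hN).1 (mem_N hN hx h)
  have hym : ∀ {z r : ZFSet.{u}}, pair z r ∈ y → z ∈ N ∧ r ∈ N := fun h =>
    (pair_mem_iff hN).1 (mem_N hN hyN h)
  have hPN : ∀ {p : ZFSet.{u}}, p ∈ P → p ∈ N := fun h => mem_N hN hP h
  have hHN : ∀ {p : ZFSet.{u}}, p ∈ H → p ∈ N := fun h => hPN (hG.sub h)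
  have IH : ∀ {z r w r' : ZFSet.{u}}, pair z r ∈ x → pair w r' ∈ y →
      (val H z = val H w ↔ ∃ p ∈ H, Forces T P le z w p) := fun {z r w r'} h1 h2 =>
    ih z.rank (hxo ▸ rank_fst h1) z (hxm h1).1 rfl w (fst_mem_T hTt hy h2)
  constructor
  · intro hval
    -- the dense set
    have hD : P.sep (fun p => Forces T P le x y p ∨
        (∃ z ∈ N, ∃ r ∈ N, pair z r ∈ x ∧ pair p r ∈ le ∧ ∀ q' ∈ N, pair q' p ∈ le →
          ∀ w ∈ N, ∀ r' ∈ N, pair w r' ∈ y → pair q' r' ∈ le → ¬ Forces T P le z w q') ∨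
        (∃ w ∈ N, ∃ r' ∈ N, pair w r' ∈ y ∧ pair p r' ∈ le ∧ ∀ q' ∈ N, pair q' p ∈ le →
          ∀ z ∈ N, ∀ r ∈ N, pair z r ∈ x → pair q' r ∈ le → ¬ Forces T P le z w q')) ∈ N := by
      refine sep_mem hN ?_ hP
      refine Dfn.or (Dfn.forces hN hT hP hle (DT.cst hN hx) (DT.cst hN hyN) (DT.var hN 0))
        (Dfn.or ?_ ?_)
      · refine Dfn.ex (Dfn.ex (Dfn.and (Dfn.mem hN (DT.pairT hN (DT.var hN 1) (DT.var hN 0))
          (DT.cst hN hx)) (Dfn.and (Dfn.mem hN (DT.pairT hN (DT.var hN 2) (DT.var hN 0))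
          (DT.cst hN hle)) (Dfn.all ?_))))
        refine Dfn.imp (Dfn.mem hN (DT.pairT hN (DT.var hN 0) (DT.var hN 3)) (DT.cst hN hle))
          (Dfn.all (Dfn.all (Dfn.imp (Dfn.mem hN (DT.pairT hN (DT.var hN 1) (DT.var hN 0))
          (DT.cst hN hyN)) (Dfn.imp (Dfn.mem hN (DT.pairT hN (DT.var hN 2) (DT.var hN 0))
          (DT.cst hN hle)) (Dfn.not (Dfn.forces hN hT hP hle (DT.var hN 4) (DT.var hN 1)
          (DT.var hN 2)))))))
      · refine Dfn.ex (Dfn.ex (Dfn.and (Dfn.mem hN (DT.pairT hN (DT.var hN 1) (DT.var hN 0))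
          (DT.cst hN hyN)) (Dfn.and (Dfn.mem hN (DT.pairT hN (DT.var hN 2) (DT.var hN 0))
          (DT.cst hN hle)) (Dfn.all ?_))))
        refine Dfn.imp (Dfn.mem hN (DT.pairT hN (DT.var hN 0) (DT.var hN 3)) (DT.cst hN hle))
          (Dfn.all (Dfn.all (Dfn.imp (Dfn.mem hN (DT.pairT hN (DT.var hN 1) (DT.var hN 0))
          (DT.cst hN hx)) (Dfn.imp (Dfn.mem hN (DT.pairT hN (DT.var hN 2) (DT.var hN 0))
          (DT.cst hN hle)) (Dfn.not (Dfn.forces hN hT hP hle (DT.var hN 1) (DT.var hN 4)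
          (DT.var hN 2)))))))
    obtain ⟨p, hpH, hpD⟩ := hG.meets _ hD (by
      refine ⟨fun a ha => (mem_sep.1 ha).1, fun p hp => ?_⟩
      by_cases h1 : Forces T P le x y p
      · exact ⟨p, mem_sep.2 ⟨hp, Or.inl h1⟩, hf.refl p hp⟩
      · rw [forces_iff hy hp] at h1
        unfold FBody at h1
        rw [not_and_or] at h1
        rcases h1 with h1 | h1
        · push Not at h1
          obtain ⟨z, r, hzr, q, hqp, hqr, hq⟩ := h1
          refine ⟨q, mem_sep.2 ⟨le_left hf hqp, Or.inr (Or.inl ⟨z, (hxm hzr).1, r, (hxm hzr).2,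
            hzr, hqr, ?_⟩)⟩, hqp⟩
          intro q' _ hq'q w _ r' _ hwr hq'r'
          exact hq q' w r' hq'q hwr hq'r'
        · push Not at h1
          obtain ⟨w, r', hwr, q, hqp, hqr, hq⟩ := h1
          refine ⟨q, mem_sep.2 ⟨le_left hf hqp, Or.inr (Or.inr ⟨w, (hym hwr).1, r', (hym hwr).2,
            hwr, hqr, ?_⟩)⟩, hqp⟩
          intro q' _ hq'q z _ r _ hzr hq'r
          exact hq q' z r hq'q hzr hq'r)
    rcases (mem_sep.1 hpD).2 with h | ⟨z, hz, r, hr, hzr, hpr, hall⟩ | ⟨w, hw, r', hr', hwr, hpr, hall⟩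
    · exact ⟨p, hpH, h⟩
    · exfalso
      have h1 : val H z ∈ val H y := by
        rw [← hval]
        exact mem_val.2 ⟨z, r, hG.up p hpH r hpr, hzr, rfl⟩
      obtain ⟨w, r', hr'H, hwr, hzw⟩ := mem_val.1 h1
      obtain ⟨p', hp'H, hp'⟩ := (IH hzr hwr).1 hzw
      obtain ⟨q', hq'H, h2, h3, h4⟩ := below3 hf hG hpH hp'H hr'H
      exact hall q' (hHN hq'H) h2 w (hym hwr).1 r' (hym hwr).2 hwr h4 (forces_mono hf hp' h3)
    · exfalso
      have h1 : val H w ∈ val H x := by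
        rw [hval]
        exact mem_val.2 ⟨w, r', hG.up p hpH r' hpr, hwr, rfl⟩
      obtain ⟨z, r, hrH, hzr, hzw⟩ := mem_val.1 h1
      obtain ⟨p', hp'H, hp'⟩ := (IH hzr hwr).1 hzw.symm
      obtain ⟨q', hq'H, h2, h3, h4⟩ := below3 hf hG hpH hp'H hrH
      exact hall q' (hHN hq'H) h2 z (hxm hzr).1 r (hxm hzr).2 hzr h4 (forces_mono hf hp' h3)
  · rintro ⟨p, hpH, hp⟩
    have hpP : p ∈ P := hG.sub hpH
    obtain ⟨hF1, hF2⟩ := (forces_iff hy hpP).1 hp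
    ext v
    constructor
    · intro hv
      obtain ⟨z, r, hrH, hzr, rfl⟩ := mem_val.1 hv
      have hD : P.sep (fun q => (∃ w ∈ N, ∃ r' ∈ N, pair w r' ∈ y ∧ pair q r' ∈ le ∧
          Forces T P le z w q) ∨ ¬ ∃ q₁ ∈ N, pair q₁ q ∈ le ∧ pair q₁ p ∈ le ∧ pair q₁ r ∈ le)
          ∈ N := by
        refine sep_mem hN ?_ hP
        refine Dfn.or (Dfn.ex (Dfn.ex (Dfn.and (Dfn.mem hN (DT.pairT hN (DT.var hN 1)
          (DT.var hN 0)) (DT.cst hN hyN)) (Dfn.and (Dfn.mem hN (DT.pairT hN (DT.var hN 2)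
          (DT.var hN 0)) (DT.cst hN hle)) (Dfn.forces hN hT hP hle (DT.cst hN (hxm hzr).1)
          (DT.var hN 1) (DT.var hN 2)))))) (Dfn.not (Dfn.ex (Dfn.and (Dfn.mem hN
          (DT.pairT hN (DT.var hN 0) (DT.var hN 1)) (DT.cst hN hle)) (Dfn.and (Dfn.mem hN
          (DT.pairT hN (DT.var hN 0) (DT.cst hN (hHN hpH))) (DT.cst hN hle)) (Dfn.mem hN
          (DT.pairT hN (DT.var hN 0) (DT.cst hN (hHN hrH))) (DT.cst hN hle))))))
      obtain ⟨q, hqH, hqD⟩ := hG.meets _ hD (by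
        refine ⟨fun a ha => (mem_sep.1 ha).1, fun q hq => ?_⟩
        by_cases h1 : ∃ q₁ ∈ N, pair q₁ q ∈ le ∧ pair q₁ p ∈ le ∧ pair q₁ r ∈ le
        · obtain ⟨q₁, _, h2, h3, h4⟩ := h1
          obtain ⟨q', w, r', h5, h6, h7, h8⟩ := hF1 z r hzr q₁ h3 h4
          exact ⟨q', mem_sep.2 ⟨le_left hf h5, Or.inl ⟨w, (hym h6).1, r', (hym h6).2, h6, h7,
            h8⟩⟩, hf.trans _ _ _ h5 h2⟩
        · exact ⟨q, mem_sep.2 ⟨hq, Or.inr h1⟩, hf.refl q hq⟩)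
      rcases (mem_sep.1 hqD).2 with ⟨w, _, r', _, hwr, hqr', hfo⟩ | h1
      · rw [(IH hzr hwr).2 ⟨q, hqH, hfo⟩]
        exact mem_val.2 ⟨w, r', hG.up q hqH r' hqr', hwr, rfl⟩
      · exfalso
        obtain ⟨s, hsH, h2, h3, h4⟩ := below3 hf hG hqH hpH hrH
        exact h1 ⟨s, hHN hsH, h2, h3, h4⟩
    · intro hv
      obtain ⟨w, r', hr'H, hwr, rfl⟩ := mem_val.1 hv
      have hD : P.sep (fun q => (∃ z ∈ N, ∃ r ∈ N, pair z r ∈ x ∧ pair q r ∈ le ∧
          Forces T P le z w q) ∨ ¬ ∃ q₁ ∈ N, pair q₁ q ∈ le ∧ pair q₁ p ∈ le ∧ pair q₁ r' ∈ le)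
          ∈ N := by
        refine sep_mem hN ?_ hP
        refine Dfn.or (Dfn.ex (Dfn.ex (Dfn.and (Dfn.mem hN (DT.pairT hN (DT.var hN 1)
          (DT.var hN 0)) (DT.cst hN hx)) (Dfn.and (Dfn.mem hN (DT.pairT hN (DT.var hN 2)
          (DT.var hN 0)) (DT.cst hN hle)) (Dfn.forces hN hT hP hle (DT.var hN 1)
          (DT.cst hN (hym hwr).1) (DT.var hN 2)))))) (Dfn.not (Dfn.ex (Dfn.and (Dfn.mem hN
          (DT.pairT hN (DT.var hN 0) (DT.var hN 1)) (DT.cst hN hle)) (Dfn.and (Dfn.mem hN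
          (DT.pairT hN (DT.var hN 0) (DT.cst hN (hHN hpH))) (DT.cst hN hle)) (Dfn.mem hN
          (DT.pairT hN (DT.var hN 0) (DT.cst hN (hHN hr'H))) (DT.cst hN hle))))))
      obtain ⟨q, hqH, hqD⟩ := hG.meets _ hD (by
        refine ⟨fun a ha => (mem_sep.1 ha).1, fun q hq => ?_⟩
        by_cases h1 : ∃ q₁ ∈ N, pair q₁ q ∈ le ∧ pair q₁ p ∈ le ∧ pair q₁ r' ∈ le
        · obtain ⟨q₁, _, h2, h3, h4⟩ := h1
          obtain ⟨q', z, r, h5, h6, h7, h8⟩ := hF2 w r' hwr q₁ h3 h4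
          exact ⟨q', mem_sep.2 ⟨le_left hf h5, Or.inl ⟨z, (hxm h6).1, r, (hxm h6).2, h6, h7,
            h8⟩⟩, hf.trans _ _ _ h5 h2⟩
        · exact ⟨q, mem_sep.2 ⟨hq, Or.inr h1⟩, hf.refl q hq⟩)
      rcases (mem_sep.1 hqD).2 with ⟨z, _, r, _, hzr, hqr, hfo⟩ | h1
      · rw [← (IH hzr hwr).2 ⟨q, hqH, hfo⟩]
        exact mem_val.2 ⟨z, r, hG.up q hqH r hqr, hzr, rfl⟩
      · exfalso
        obtain ⟨s, hsH, h2, h3, h4⟩ := below3 hf hG hqH hpH hr'H
        exact h1 ⟨s, hHN hsH, h2, h3, h4⟩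

theorem truth_eq (hN : ZF N) (hf : Forcing P le) (hP : P ∈ N) (hle : le ∈ N)
    (hG : Generic N P le H) (hT : T ∈ N) (hTt : T.IsTransitive) {x y : ZFSet.{u}} (hx : x ∈ N)
    (hy : y ∈ T) : val H x = val H y ↔ ∃ p ∈ H, Forces T P le x y p := by
  exact aux hN hf hP hle hG hT hTt x.rank x hx rfl y hy

end Pool.Agent.FBZ
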