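import Pool.Agent.FBZ.FD

/-!
# FBZ module FE: nice names for functions into an ordinal

`Nice P le A J B`: `B` consists of triples `pair a (pair j p)`, `a ∈ A`, `j ∈ J`, `p ∈ P`; for fixed
`a, j` the set of the `p` is open and regular, for fixed `a` and different `j` these sets are
incompatible, and for fixed `a` their union is dense.

`nice_of`: let `C ∈ N`, `C ⊆ prod (prod A J) P`, be open in the last coordinate, and suppose that
for each `a ∈ A` exactly one `j ∈ J` has some `p ∈ H` with `pair (pair a j) p ∈ C`.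
For `a ∈ A`, `j ∈ J`, `r ∈ P` let
`V a j r := pair (pair a j) r ∈ C ∧ ∀ j' ∈ j, ∀ s, pair s r ∈ le → pair (pair a j') s ∉ C`, and
`V' a j r := V a j r ∨ (j = ∅ ∧ ∀ j' ∈ J, ∀ s, pair s r ∈ le → pair (pair a j') s ∉ C)`.
Put `B = {pair a (pair j p) : ∀ q, pair q p ∈ le → ∃ r, pair r q ∈ le ∧ V' a j r}` (a separation from
`prod A (prod J P)` by a definable predicate; quantifiers over `P` are bounded by `N`).
* `V'` is open: if `V' a j r` and `s ≤ r` then `V' a j s`.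
* `V' a j r`, `V' a j' r'` with `r, r'` compatible imply `j = j'`: pass to a common extension `s`,
  `V' a j s`, `V' a j' s`.  If both are of the first kind and e.g. `j ∈ j'` (trichotomy, `J` ordinal)
  then `pair (pair a j) s ∈ C` contradicts `V a j' s` (with `refl`).  If one is of the first
  kind and the other of the second kind: contradiction.  If both are of the second kind,
  `j = ∅ = j'`.
* for every `a ∈ A`, `p ∈ P` there are `j ∈ J`, `r ≤ p` with `V' a j r`: if no `s ≤ p` is in `C` for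
  any `j'` then `j = ∅`, `r = p`.  Otherwise take the `∈`-least `j ∈ J` such that some `s ≤ p` has
  `pair (pair a j) s ∈ C`; then `V a j s`.
* hence `Nice`: `sub` clear; `opn` by transitivity; `reg`: if below every `q ≤ p` there is `r` with
  `pair a (pair j r) ∈ B` then there is `r' ≤ r` with `V' a j r'`; `fn`: from the second item;
  `dns`: from the third item, as `V' a j r` implies `pair a (pair j r) ∈ B` (openness).
* truth: let `p ∈ H`, `pair a (pair j p) ∈ B`.  The set `{q : V' a j q ∨ ¬ compatible with p}` is dense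
  and in `N`, so some `q ∈ H` has `V' a j q`.  If it is of the first kind then
  `pair (pair a j) q ∈ C`.  The second kind is impossible: some `j₀`, `p₀ ∈ H` have
  `pair (pair a j₀) p₀ ∈ C` by hypothesis, and a common extension of `q` and `p₀` contradicts it.
  Conversely let `p ∈ H`, `pair (pair a j) p ∈ C`.  The set `{q : ∃ j' ∈ J, V' a j' q}` is dense and
  in `N`, so some `q ∈ H`, `j' ∈ J` have `V' a j' q`, so `pair a (pair j' q) ∈ B`; by the direction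
  just proved `j'` has some `p' ∈ H` with `pair (pair a j') p' ∈ C`, so `j' = j` by uniqueness.
-/

namespace Pool.Agent.FBZ
open ZFSet
universe u
variable {N : Set ZFSet.{u}} {P le H : ZFSet.{u}}

/-- A nice name for a function from `A` to `J`. -/
structure Nice (P le A J B : ZFSet.{u}) : Prop where
  sub : B ⊆ prod A (prod J P)
  opn : ∀ a j p q, pair a (pair j p) ∈ B → pair q p ∈ le → pair a (pair j q) ∈ B
  reg : ∀ a ∈ A, ∀ j ∈ J, ∀ p ∈ P,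
    (∀ q, pair q p ∈ le → ∃ r, pair r q ∈ le ∧ pair a (pair j r) ∈ B) → pair a (pair j p) ∈ B
  fn : ∀ a j j' p q r, pair a (pair j p) ∈ B → pair a (pair j' q) ∈ B →
    pair r p ∈ le → pair r q ∈ le → j = j'
  dns : ∀ a ∈ A, ∀ p ∈ P, ∃ q j, pair q p ∈ le ∧ pair a (pair j q) ∈ B

private def FE_V1 (le C a j r : ZFSet.{u}) : Prop :=
  pair (pair a j) r ∈ C ∧ ∀ j' ∈ j, ∀ s, pair s r ∈ le → pair (pair a j') s ∉ C

private def FE_V2 (le C J a j r : ZFSet.{u}) : Prop :=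
  FE_V1 le C a j r ∨ (j = ∅ ∧ ∀ j' ∈ J, ∀ s, pair s r ∈ le → pair (pair a j') s ∉ C)

private theorem FE_none (hN : ZF N) {C : ZFSet.{u}} (hle : le ∈ N) (hC : C ∈ N)
    {ta tj tr : Env.{u} → ZFSet.{u}} (ha : DT N ta) (hj : DT N tj) (hr : DT N tr) :
    Dfn N (fun v => ∀ j' ∈ tj v, ∀ s, pair s (tr v) ∈ le → pair (pair (ta v) j') s ∉ C) := by
  refine Dfn.ball (Q := fun v j' => ∀ s, pair s (tr v) ∈ le → pair (pair (ta v) j') s ∉ C) hN hj ?_
  refine Dfn.congr (R := fun v => ∀ s ∈ N, pair s (tr (tl v)) ∈ le →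
    pair (pair (ta (tl v)) (v 0)) s ∉ C) ?_ ?_
  · refine Dfn.all (Q := fun v s => pair s (tr (tl v)) ∈ le → pair (pair (ta (tl v)) (v 0)) s ∉ C) ?_
    exact Dfn.imp (Dfn.mem hN (DT.pairT hN (DT.var hN 0) hr.shift.shift) (DT.cst hN hle))
      (Dfn.not (Dfn.mem hN (DT.pairT hN (DT.pairT hN ha.shift.shift (DT.var hN 1)) (DT.var hN 0))
        (DT.cst hN hC)))
  · intro v _
    refine ⟨fun h s _ => h s, fun h s hs => h s ?_ hs⟩
    exact ((pair_mem_iff hN).1 (mem_N hN hle hs)).1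

private theorem FE_dV1 (hN : ZF N) {C : ZFSet.{u}} (hle : le ∈ N) (hC : C ∈ N)
    {ta tj tr : Env.{u} → ZFSet.{u}} (ha : DT N ta) (hj : DT N tj) (hr : DT N tr) :
    Dfn N (fun v => FE_V1 le C (ta v) (tj v) (tr v)) :=
  Dfn.and (Dfn.mem hN (DT.pairT hN (DT.pairT hN ha hj) hr) (DT.cst hN hC))
    (FE_none hN hle hC ha hj hr)

private theorem FE_dV2 (hN : ZF N) {C J : ZFSet.{u}} (hle : le ∈ N) (hC : C ∈ N) (hJ : J ∈ N)
    {ta tj tr : Env.{u} → ZFSet.{u}} (ha : DT N ta) (hj : DT N tj) (hr : DT N tr) :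
    Dfn N (fun v => FE_V2 le C J (ta v) (tj v) (tr v)) :=
  Dfn.or (FE_dV1 hN hle hC ha hj hr)
    (Dfn.and (Dfn.eq hN hj (DT.empty hN)) (FE_none hN hle hC ha (DT.cst hN hJ) hr))

private theorem FE_V2_open (hf : Forcing P le) {J C a j r s : ZFSet.{u}}
    (hCo : ∀ a p q, pair a p ∈ C → pair q p ∈ le → pair a q ∈ C)
    (h : FE_V2 le C J a j r) (hs : pair s r ∈ le) : FE_V2 le C J a j s := by
  rcases h with ⟨h1, h2⟩ | ⟨h1, h2⟩
  · exact Or.inl ⟨hCo _ _ _ h1 hs, fun j' hj' t ht => h2 j' hj' t (hf.trans _ _ _ ht hs)⟩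
  · exact Or.inr ⟨h1, fun j' hj' t ht => h2 j' hj' t (hf.trans _ _ _ ht hs)⟩

private theorem FE_P (hf : Forcing P le) {p q : ZFSet.{u}} (h : pair p q ∈ le) : p ∈ P ∧ q ∈ P :=
  pair_mem_prod.1 (hf.field h)

private theorem FE_V2_fn (hf : Forcing P le) {J C a j j' r : ZFSet.{u}} (hJo : J.IsOrdinal)
    (hj : j ∈ J) (hj' : j' ∈ J) (hr : r ∈ P)
    (h : FE_V2 le C J a j r) (h' : FE_V2 le C J a j' r) : j = j' := by
  have hrr := hf.refl r hr
  rcases h with ⟨h1, h2⟩ | ⟨h1, h2⟩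
  · rcases h' with ⟨h3, h4⟩ | ⟨h3, h4⟩
    · rcases (hJo.mem hj).mem_trichotomous (hJo.mem hj') with h5 | h5 | h5
      · exact absurd h1 (h4 j h5 r hrr)
      · exact h5
      · exact absurd h3 (h2 j' h5 r hrr)
    · exact absurd h1 (h4 j hj r hrr)
  · rcases h' with ⟨h3, h4⟩ | ⟨h3, h4⟩
    · exact absurd h3 (h2 j' hj' r hrr)
    · rw [h1, h3]

private theorem FE_V2_dense (hf : Forcing P le) {J C a p : ZFSet.{u}} (hJo : J.IsOrdinal)
    (hJ0 : ∅ ∈ J) (hp : p ∈ P) :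
    ∃ j ∈ J, ∃ r, pair r p ∈ le ∧ FE_V2 le C J a j r := by
  by_cases hex : ∃ j, j ∈ J ∧ ∃ s, pair s p ∈ le ∧ pair (pair a j) s ∈ C
  · obtain ⟨j, ⟨hj, s, hs, hsC⟩, hmin⟩ := ZFSet.mem_wf.has_min
      {j | j ∈ J ∧ ∃ s, pair s p ∈ le ∧ pair (pair a j) s ∈ C} hex
    refine ⟨j, hj, s, hs, Or.inl ⟨hsC, ?_⟩⟩
    intro j' hj' t ht htC
    exact hmin j' ⟨hJo.mem_trans hj' hj, t, hf.trans _ _ _ ht hs, htC⟩ hj'
  · refine ⟨∅, hJ0, p, hf.refl p hp, Or.inr ⟨rfl, ?_⟩⟩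
    intro j' hj' s hs hsC
    exact hex ⟨j', hj', s, hs, hsC⟩

theorem nice_of (hN : ZF N) (hf : Forcing P le) (hP : P ∈ N) (hle : le ∈ N)
    (hG : Generic N P le H) {A J C : ZFSet.{u}} (hA : A ∈ N) (hJ : J ∈ N) (hJo : J.IsOrdinal)
    (hJ0 : ∅ ∈ J) (hC : C ∈ N) (hCs : C ⊆ prod (prod A J) P)
    (hCo : ∀ a p q, pair a p ∈ C → pair q p ∈ le → pair a q ∈ C)
    (hu : ∀ a ∈ A, ∃! j, j ∈ J ∧ ∃ p ∈ H, pair (pair a j) p ∈ C) :
    ∃ B ∈ N, Nice P le A J B ∧ ∀ a ∈ A, ∀ j ∈ J,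
      ((∃ p ∈ H, pair (pair a j) p ∈ C) ↔ ∃ p ∈ H, pair a (pair j p) ∈ B) := by
  set B : ZFSet.{u} := (prod A (prod J P)).sep (fun z => ∀ q, pair q (sn (sn z)) ∈ le →
    ∃ r, pair r q ∈ le ∧ FE_V2 le C J (fs z) (fs (sn z)) r) with hBdef
  have hBmem : ∀ a j p, pair a (pair j p) ∈ B ↔ (a ∈ A ∧ j ∈ J ∧ p ∈ P) ∧
      ∀ q, pair q p ∈ le → ∃ r, pair r q ∈ le ∧ FE_V2 le C J a j r := by
    intro a j p
    rw [hBdef, mem_sep, pair_mem_prod, pair_mem_prod, sn_pair, fs_pair, sn_pair, fs_pair]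
  have hBN : B ∈ N := by
    refine sep_mem (Q := fun z => ∀ q, pair q (sn (sn z)) ∈ le →
      ∃ r, pair r q ∈ le ∧ FE_V2 le C J (fs z) (fs (sn z)) r) hN ?_ (prod_mem hN hA
        (prod_mem hN hJ hP))
    refine Dfn.congr (R := fun v => ∀ q ∈ N, pair q (sn (sn (v 0))) ∈ le →
      ∃ r ∈ N, pair r q ∈ le ∧ FE_V2 le C J (fs (v 0)) (fs (sn (v 0))) r) ?_ ?_
    · refine Dfn.all (Q := fun v q => pair q (sn (sn (v 0))) ∈ le →
        ∃ r ∈ N, pair r q ∈ le ∧ FE_V2 le C J (fs (v 0)) (fs (sn (v 0))) r) ?_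
      refine Dfn.imp (Dfn.mem hN (DT.pairT hN (DT.var hN 0)
        (DT.snT hN (DT.snT hN (DT.var hN 1)))) (DT.cst hN hle)) ?_
      refine Dfn.ex (Q := fun v r => pair r (v 0) ∈ le ∧
        FE_V2 le C J (fs (v 1)) (fs (sn (v 1))) r) ?_
      exact Dfn.and (Dfn.mem hN (DT.pairT hN (DT.var hN 0) (DT.var hN 1)) (DT.cst hN hle))
        (FE_dV2 hN hle hC hJ (DT.fsT hN (DT.var hN 2)) (DT.fsT hN (DT.snT hN (DT.var hN 2)))
          (DT.var hN 0))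
    · intro v _
      constructor
      · intro h q _ hq
        obtain ⟨r, hr, hr'⟩ := h q hq
        exact ⟨r, ((pair_mem_iff hN).1 (mem_N hN hle hr)).1, hr, hr'⟩
      · intro h q hq
        obtain ⟨r, _, hr, hr'⟩ := h q ((pair_mem_iff hN).1 (mem_N hN hle hq)).1 hq
        exact ⟨r, hr, hr'⟩
  have hV : ∀ a ∈ A, ∀ j ∈ J, ∀ r ∈ P, FE_V2 le C J a j r → pair a (pair j r) ∈ B := by
    intro a ha j hj r hr h
    rw [hBmem]
    refine ⟨⟨ha, hj, hr⟩, fun q hq => ⟨q, hf.refl q (FE_P hf hq).1, FE_V2_open hf hCo h hq⟩⟩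
  have hopn : ∀ a j p q, pair a (pair j p) ∈ B → pair q p ∈ le → pair a (pair j q) ∈ B := by
    intro a j p q h hq
    rw [hBmem] at h ⊢
    refine ⟨⟨h.1.1, h.1.2.1, (FE_P hf hq).1⟩, fun s hs => h.2 s (hf.trans _ _ _ hs hq)⟩
  have hnice : Nice P le A J B := by
    refine ⟨sep_subset, hopn, ?_, ?_, ?_⟩
    · intro a ha j hj p hp h
      rw [hBmem]
      refine ⟨⟨ha, hj, hp⟩, fun q hq => ?_⟩
      obtain ⟨r, hr, hrB⟩ := h q hq
      rw [hBmem] at hrB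
      obtain ⟨r', hr', hr''⟩ := hrB.2 r (hf.refl r (FE_P hf hr).1)
      exact ⟨r', hf.trans _ _ _ hr' hr, hr''⟩
    · intro a j j' p q r hp hq hrp hrq
      have h1 := hopn _ _ _ _ hp hrp
      have h2 := hopn _ _ _ _ hq hrq
      rw [hBmem] at h1 h2
      obtain ⟨s, hs, hs'⟩ := h1.2 r (hf.refl r h1.1.2.2)
      obtain ⟨t, ht, ht'⟩ := h2.2 s hs
      exact FE_V2_fn hf hJo h1.1.2.1 h2.1.2.1 (FE_P hf ht).1 (FE_V2_open hf hCo hs' ht) ht'
    · intro a ha p hp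
      obtain ⟨j, hj, r, hr, h⟩ := FE_V2_dense (C := C) (a := a) hf hJo hJ0 hp
      exact ⟨r, j, hr, hV a ha j hj r (FE_P hf hr).1 h⟩
  have hdir : ∀ a ∈ A, ∀ j ∈ J, (∃ p ∈ H, pair a (pair j p) ∈ B) →
      ∃ p ∈ H, pair (pair a j) p ∈ C := by
    rintro a ha j hj ⟨p, hpH, hpB⟩
    have haN := mem_N hN hA ha
    have hjN := mem_N hN hJ hj
    have hpN := mem_N hN hP (hG.sub hpH)
    set D : ZFSet.{u} := P.sep (fun q => FE_V2 le C J a j q ∨
      ¬ ∃ r ∈ N, pair r q ∈ le ∧ pair r p ∈ le) with hD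
    have hDN : D ∈ N := by
      refine sep_mem (Q := fun q => FE_V2 le C J a j q ∨
        ¬ ∃ r ∈ N, pair r q ∈ le ∧ pair r p ∈ le) hN ?_ hP
      refine Dfn.or (FE_dV2 hN hle hC hJ (DT.cst hN haN) (DT.cst hN hjN) (DT.var hN 0))
        (Dfn.not ?_)
      refine Dfn.ex (Q := fun v r => pair r (v 0) ∈ le ∧ pair r p ∈ le) ?_
      exact Dfn.and (Dfn.mem hN (DT.pairT hN (DT.var hN 0) (DT.var hN 1)) (DT.cst hN hle))
        (Dfn.mem hN (DT.pairT hN (DT.var hN 0) (DT.cst hN hpN)) (DT.cst hN hle))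
    have hDd : Dense P le D := by
      refine ⟨sep_subset, fun q hq => ?_⟩
      by_cases hc : ∃ r ∈ N, pair r q ∈ le ∧ pair r p ∈ le
      · obtain ⟨r, _, hrq, hrp⟩ := hc
        obtain ⟨s, hs, hs'⟩ := ((hBmem _ _ _).1 hpB).2 r hrp
        exact ⟨s, mem_sep.2 ⟨(FE_P hf hs).1, Or.inl hs'⟩, hf.trans _ _ _ hs hrq⟩
      · exact ⟨q, mem_sep.2 ⟨hq, Or.inr hc⟩, hf.refl q hq⟩
    obtain ⟨q, hqH, hqD⟩ := hG.meets D hDN hDd
    rcases (mem_sep.1 hqD).2 with h1 | h1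
    · rcases h1 with ⟨h2, h3⟩ | ⟨h2, h3⟩
      · exact ⟨q, hqH, h2⟩
      · obtain ⟨j₀, ⟨hj₀, p₀, hp₀, hp₀C⟩, _⟩ := hu a ha
        obtain ⟨s, hsH, hs1, hs2⟩ := hG.dir q hqH p₀ hp₀
        exact absurd (hCo _ _ _ hp₀C hs2) (h3 j₀ hj₀ s hs1)
    · obtain ⟨s, hsH, hs1, hs2⟩ := hG.dir q hqH p hpH
      exact absurd ⟨s, mem_N hN hP (hG.sub hsH), hs1, hs2⟩ h1
  refine ⟨B, hBN, hnice, fun a ha j hj => ⟨?_, hdir a ha j hj⟩⟩
  rintro ⟨p, hpH, hpC⟩
  have haN := mem_N hN hA ha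
  have hDN : P.sep (fun q => ∃ j' ∈ J, FE_V2 le C J a j' q) ∈ N := by
    refine sep_mem (Q := fun q => ∃ j' ∈ J, FE_V2 le C J a j' q) hN ?_ hP
    refine Dfn.bex (Q := fun v j' => FE_V2 le C J a j' (v 0)) hN (DT.cst hN hJ) ?_
    exact FE_dV2 hN hle hC hJ (DT.cst hN haN) (DT.var hN 0) (DT.var hN 1)
  have hDd : Dense P le (P.sep (fun q => ∃ j' ∈ J, FE_V2 le C J a j' q)) := by
    refine ⟨sep_subset, fun q hq => ?_⟩
    obtain ⟨j', hj', r, hr, h⟩ := FE_V2_dense (C := C) (a := a) hf hJo hJ0 hq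
    exact ⟨r, mem_sep.2 ⟨(FE_P hf hr).1, j', hj', h⟩, hr⟩
  obtain ⟨q, hqH, hqD⟩ := hG.meets _ hDN hDd
  obtain ⟨j', hj', h⟩ := (mem_sep.1 hqD).2
  have h1 := hV a ha j' hj' q (hG.sub hqH) h
  obtain ⟨p', hp', hp'C⟩ := hdir a ha j' hj' ⟨q, hqH, h1⟩
  have h2 : j' = j := (hu a ha).unique ⟨hj', p', hp', hp'C⟩ ⟨hj, p, hpH, hpC⟩
  exact ⟨q, hqH, h2 ▸ h1⟩

end Pool.Agent.FBZ
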