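import Pool.Agent.FBZ.FE

/-!
# FBZ module FG: nice names for functions and for sequences of reals in the extension

* `nice_fun`: `flat_one` for `f` and the set `prod A J` gives `C` (elements `pair (pair a j) p`, and
  `pair a j ∈ f ↔ ∃ p ∈ H, pair (pair a j) p ∈ C`); apply `nice_of` (uniqueness because `f` is a
  function from `A` to `J`).
* `nice_seq`: `flat_two` for `F` gives `C` (elements `pair (pair (pair β n) j) p`); apply `nice_of` with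
  `A = prod l ω`, `J = ω`: for `β ∈ l`, `n ∈ ω` there is exactly one `j ∈ ω` with
  `∃ x, pair β x ∈ F ∧ pair n j ∈ x`, because `F` is a function from `l` to `funs ω ω`
  (`mem_funs`).
-/

namespace Pool.Agent.FBZ
open ZFSet
universe u
variable {N : Set ZFSet.{u}} {P le H : ZFSet.{u}}

theorem nice_fun (hN : ZF N) (hf : Forcing P le) (hP : P ∈ N) (hle : le ∈ N)
    (hG : Generic N P le H) {A J f : ZFSet.{u}} (hA : A ∈ N) (hJ : J ∈ N) (hJo : J.IsOrdinal)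
    (hJ0 : ∅ ∈ J) (hfE : f ∈ Ext N H) (hfun : IsFunc A J f) :
    ∃ B ∈ N, Nice P le A J B ∧ ∀ a ∈ A, ∀ j ∈ J,
      (pair a j ∈ f ↔ ∃ p ∈ H, pair a (pair j p) ∈ B) := by
  obtain ⟨C, hC, hCs, hCo, hCt⟩ := flat_one hN hf hP hle hG hfE (prod_mem hN hA hJ)
  have hu : ∀ a ∈ A, ∃! j, j ∈ J ∧ ∃ p ∈ H, pair (pair a j) p ∈ C := by
    intro a ha
    obtain ⟨j, hj, hju⟩ := hfun.2 a ha
    have hjJ : j ∈ J := (pair_mem_prod.1 (hfun.1 hj)).2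
    refine ⟨j, ⟨hjJ, (hCt _ (pair_mem_prod.2 ⟨ha, hjJ⟩)).1 hj⟩, ?_⟩
    rintro j' ⟨hj', hp'⟩
    exact hju j' ((hCt _ (pair_mem_prod.2 ⟨ha, hj'⟩)).2 hp')
  obtain ⟨B, hB, hnice, ht⟩ := nice_of hN hf hP hle hG hA hJ hJo hJ0 hC hCs hCo hu
  refine ⟨B, hB, hnice, fun a ha j hj => ?_⟩
  rw [hCt _ (pair_mem_prod.2 ⟨ha, hj⟩)]
  exact ht a ha j hj

theorem nice_seq (hN : ZF N) (hf : Forcing P le) (hP : P ∈ N) (hle : le ∈ N)
    (hG : Generic N P le H) {l F : ZFSet.{u}} (hl : l ∈ N) (hF : F ∈ Ext N H)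
    (hfun : IsFunc l (funs ZFSet.omega ZFSet.omega) F) :
    ∃ B ∈ N, Nice P le (prod l ZFSet.omega) ZFSet.omega B ∧
      ∀ β ∈ l, ∀ n ∈ ZFSet.omega.{u}, ∀ j ∈ ZFSet.omega.{u},
        ((∃ x, pair β x ∈ F ∧ pair n j ∈ x) ↔ ∃ p ∈ H, pair (pair β n) (pair j p) ∈ B) := by
  obtain ⟨C, hC, hCs, hCo, hCt⟩ := flat_two hN hf hP hle hG hF hl
  have hom : ZFSet.omega.{u} ∈ N := (DT.omegaT hN).1 (fun _ => l) fun _ => hl
  have hu : ∀ a ∈ prod l ZFSet.omega, ∃! j, j ∈ ZFSet.omega.{u} ∧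
      ∃ p ∈ H, pair (pair a j) p ∈ C := by
    intro a ha
    obtain ⟨β, hβ, n, hn, rfl⟩ := mem_prod.1 ha
    obtain ⟨x, hx, hxu⟩ := hfun.2 β hβ
    have hxf : IsFunc ZFSet.omega ZFSet.omega x := mem_funs.1 (pair_mem_prod.1 (hfun.1 hx)).2
    obtain ⟨j, hj, hju⟩ := hxf.2 n hn
    have hjo : j ∈ ZFSet.omega.{u} := (pair_mem_prod.1 (hxf.1 hj)).2
    refine ⟨j, ⟨hjo, (hCt β hβ n hn j hjo).1 ⟨x, hx, hj⟩⟩, ?_⟩
    rintro j' ⟨hj', hp'⟩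
    obtain ⟨x', hx', hn'⟩ := (hCt β hβ n hn j' hj').2 hp'
    rw [hxu x' hx'] at hn'
    exact hju j' hn'
  obtain ⟨B, hB, hnice, ht⟩ := nice_of hN hf hP hle hG (prod_mem hN hl hom) hom isOrdinal_omega
    omega_zero hC hCs hCo hu
  refine ⟨B, hB, hnice, fun β hβ n hn j hj => ?_⟩
  rw [hCt β hβ n hn j hj]
  exact ht _ (pair_mem_prod.2 ⟨hβ, hn⟩) j hj

end Pool.Agent.FBZ
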