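import Pool.Agent.FBZ.PDef

/-!
# FBZ module PA: atoms, conditions, codes: elementary facts

* injectivity: `pair_inj`; `ga ≠ sa` because `∅ ≠ {∅}`.  `fs_ga`, `fs_sa`: `fs_pair`.
* `not_ord_pair`: an ordinal which is not `∅` contains `∅` (take an `∈`-minimal element; or
  trichotomy), but the elements `{a}`, `{a, b}` of `pair a b` are nonempty, and `pair a b ≠ ∅`.
* `mem_CS`: a condition `p` is a finite subset of `At I μ`; conversely by definition.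
* `mem_rs`: `mem_sep`.
* `CS_mono`: if every index in `J` is in `I` then `CS J μ ⊆ CS I μ`.
* `rs_mem_CS`: subsets of conditions are conditions; if all indices of `rs C p` are in `J` then
  `rs C p ∈ CS J μ`.
-/

namespace Pool.Agent.FBZ
open ZFSet
universe u
variable {N : Set ZFSet.{u}} {μ κ : ZFSet.{u}}

theorem ga_inj {i n k i' n' k' : ZFSet.{u}} : ga i n k = ga i' n' k' ↔ i = i' ∧ n = n' ∧ k = k' := by
  unfold ga
  constructor
  · intro h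
    have h1 := pair_inj.1 h
    have h2 := pair_inj.1 h1.2
    have h3 := pair_inj.1 h2.2
    exact ⟨h1.1, h3.1, h3.2⟩
  · rintro ⟨rfl, rfl, rfl⟩
    rfl

theorem sa_inj {i β i' β' : ZFSet.{u}} : sa i β = sa i' β' ↔ i = i' ∧ β = β' := by
  unfold sa
  constructor
  · intro h
    have h1 := pair_inj.1 h
    have h2 := pair_inj.1 h1.2
    exact ⟨h1.1, h2.2⟩
  · rintro ⟨rfl, rfl⟩
    rfl

theorem ga_ne_sa {i n k i' β : ZFSet.{u}} : ga i n k ≠ sa i' β := by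
  intro h
  unfold ga sa at h
  have h1 := (pair_inj.1 (pair_inj.1 h).2).1
  have h2 : (∅ : ZFSet.{u}) ∈ ({∅} : ZFSet.{u}) := mem_singleton.2 rfl
  rw [← h1] at h2
  exact notMem_empty _ h2

theorem fs_ga (i n k : ZFSet.{u}) : fs (ga i n k) = i := by
  unfold ga
  exact fs_pair _ _

theorem fs_sa (i β : ZFSet.{u}) : fs (sa i β) = i := by
  unfold sa
  exact fs_pair _ _

theorem cd_inj {ξ e τ ξ' e' τ' : ZFSet.{u}} : cd ξ e τ = cd ξ' e' τ' ↔ ξ = ξ' ∧ e = e' ∧ τ = τ' := by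
  unfold cd
  constructor
  · intro h
    have h1 := pair_inj.1 h
    have h2 := pair_inj.1 h1.2
    exact ⟨h1.1, h2.1, h2.2⟩
  · rintro ⟨rfl, rfl, rfl⟩
    rfl

theorem not_ord_pair (a b : ZFSet.{u}) : ¬ (pair a b).IsOrdinal := by
  intro h
  have hne : pair a b ≠ ∅ := by
    intro h0
    have : ({a} : ZFSet.{u}) ∈ pair a b := by simp [pair]
    rw [h0] at this
    exact notMem_empty _ this
  obtain ⟨y, hy, hy'⟩ := regularity _ hne
  have hy0 : y = ∅ := by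
    rw [eq_empty]
    intro z hz
    have h1 : z ∈ pair a b := h.mem_trans hz hy
    have h2 : z ∈ pair a b ∩ y := mem_inter.2 ⟨h1, hz⟩
    rw [hy'] at h2
    exact notMem_empty _ h2
  subst hy0
  rw [pair, mem_pair] at hy
  rcases hy with hy | hy
  · have : a ∈ ({a} : ZFSet.{u}) := mem_singleton.2 rfl
    rw [← hy] at this
    exact notMem_empty _ this
  · have : a ∈ ({a, b} : ZFSet.{u}) := mem_pair.2 (Or.inl rfl)
    rw [← hy] at this
    exact notMem_empty _ this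

theorem not_ord_cd (ξ e τ : ZFSet.{u}) : ¬ (cd ξ e τ).IsOrdinal := by
  unfold cd
  exact not_ord_pair _ _

theorem mem_CS {I p : ZFSet.{u}} : p ∈ CS I μ ↔ Cnd I μ p := by
  unfold CS
  rw [mem_sep, mem_finset]
  refine ⟨fun h => h.2, fun h => ⟨⟨?_, h.1⟩, h⟩⟩
  intro a ha
  unfold At
  rcases h.2.1 a ha with ⟨i, hi, n, hn, k, hk, rfl⟩ | ⟨i, hi, β, hβ, rfl⟩
  · unfold ga
    rw [pair_mem_prod, mem_union, pair_mem_prod, pair_mem_prod, mem_singleton]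
    exact ⟨hi, Or.inl ⟨rfl, hn, hk⟩⟩
  · unfold sa
    rw [pair_mem_prod, mem_union, pair_mem_prod, pair_mem_prod, mem_singleton]
    exact ⟨hi, Or.inr ⟨mem_singleton.2 rfl, hβ⟩⟩

theorem mem_rs {C : ZFSet.{u} → Prop} {p a : ZFSet.{u}} : a ∈ rs C p ↔ a ∈ p ∧ C (fs a) := by
  unfold rs
  exact mem_sep

theorem rs_sub (C : ZFSet.{u} → Prop) (p : ZFSet.{u}) : rs C p ⊆ p := by
  intro a ha
  exact (mem_rs.1 ha).1

/-- Every atom of a condition is of one of the two kinds, its index is in `I`. -/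
theorem atom_cases {I p a : ZFSet.{u}} (hp : p ∈ CS I μ) (ha : a ∈ p) :
    (∃ i ∈ I, ∃ n ∈ ZFSet.omega.{u}, ∃ k ∈ ZFSet.omega.{u}, a = ga i n k) ∨
      ∃ i ∈ I, ∃ β ∈ μ, a = sa i β := by
  exact (mem_CS.1 hp).2.1 a ha

theorem fs_mem_of_mem {I p a : ZFSet.{u}} (hp : p ∈ CS I μ) (ha : a ∈ p) : fs a ∈ I := by
  rcases atom_cases hp ha with ⟨i, hi, n, hn, k, hk, rfl⟩ | ⟨i, hi, β, hβ, rfl⟩
  · rw [fs_ga]
    exact hi
  · rw [fs_sa]
    exact hi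

theorem CS_fun {I p i n k k' : ZFSet.{u}} (hp : p ∈ CS I μ) (h : ga i n k ∈ p)
    (h' : ga i n k' ∈ p) : k = k' := by
  exact (mem_CS.1 hp).2.2 i n k k' h h'

theorem CS_sub {I p q : ZFSet.{u}} (hp : p ∈ CS I μ) (h : q ⊆ p) : q ∈ CS I μ := by
  have h' := mem_CS.1 hp
  exact mem_CS.2 ⟨fin_subset h'.1 h, fun a ha => h'.2.1 a (h ha),
    fun i n k k' h1 h2 => h'.2.2 i n k k' (h h1) (h h2)⟩

theorem CS_of {I J p : ZFSet.{u}} (hp : p ∈ CS I μ) (h : ∀ a ∈ p, fs a ∈ J) : p ∈ CS J μ := by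
  have h' := mem_CS.1 hp
  refine mem_CS.2 ⟨h'.1, fun a ha => ?_, h'.2.2⟩
  have h1 := h a ha
  rcases h'.2.1 a ha with ⟨i, hi, n, hn, k, hk, rfl⟩ | ⟨i, hi, β, hβ, rfl⟩
  · rw [fs_ga] at h1
    exact Or.inl ⟨i, h1, n, hn, k, hk, rfl⟩
  · rw [fs_sa] at h1
    exact Or.inr ⟨i, h1, β, hβ, rfl⟩

theorem rs_mem {I p : ZFSet.{u}} (C : ZFSet.{u} → Prop) (hp : p ∈ CS I μ) : rs C p ∈ CS I μ := by
  exact CS_sub hp (rs_sub C p)

theorem rs_mem_IC {ξ e p : ZFSet.{u}} (hp : p ∈ PP N μ κ) : rs (InC ξ e) p ∈ CS (IC N μ κ ξ e) μ := by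
  refine CS_of (rs_mem _ hp) ?_
  intro a ha
  have h := mem_rs.1 ha
  unfold IC
  rw [mem_sep]
  exact ⟨fs_mem_of_mem hp h.1, h.2⟩

theorem mem_PP_of_IC {ξ e p : ZFSet.{u}} (hp : p ∈ CS (IC N μ κ ξ e) μ) : p ∈ PP N μ κ := by
  refine CS_of hp ?_
  intro a ha
  have h := fs_mem_of_mem hp ha
  unfold IC at h
  rw [mem_sep] at h
  exact h.1

theorem rs_eq_of_IC {ξ e p : ZFSet.{u}} (hp : p ∈ CS (IC N μ κ ξ e) μ) : rs (InC ξ e) p = p := by
  ext a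
  rw [mem_rs]
  refine ⟨fun h => h.1, fun h => ⟨h, ?_⟩⟩
  have h := fs_mem_of_mem hp h
  unfold IC at h
  rw [mem_sep] at h
  exact h.2

theorem CS_union {I p q : ZFSet.{u}} (hp : p ∈ CS I μ) (hq : q ∈ CS I μ)
    (h : ∀ i n k k', ga i n k ∈ p → ga i n k' ∈ q → k = k') : p ∪ q ∈ CS I μ := by
  have hp' := mem_CS.1 hp
  have hq' := mem_CS.1 hq
  refine mem_CS.2 ⟨fin_union hp'.1 hq'.1, fun a ha => ?_, ?_⟩
  · rcases mem_union.1 ha with ha | ha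
    · exact hp'.2.1 a ha
    · exact hq'.2.1 a ha
  · intro i n k k' h1 h2
    rcases mem_union.1 h1 with h1 | h1 <;> rcases mem_union.1 h2 with h2 | h2
    · exact hp'.2.2 i n k k' h1 h2
    · exact h i n k k' h1 h2
    · exact (h i n k' k h2 h1).symm
    · exact hq'.2.2 i n k k' h1 h2

theorem mem_LE {p q : ZFSet.{u}} :
    pair q p ∈ LE N μ κ ↔ q ∈ PP N μ κ ∧ p ∈ PP N μ κ ∧ Le q p := by
  unfold LE
  rw [mem_sep, pair_mem_prod, fs_pair, sn_pair, and_assoc]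

theorem exists_Bd {I p : ZFSet.{u}} (hp : p ∈ CS I μ) :
    ∃ m : ℕ, ∀ m' ≥ m, Bd (nz m') p := by
  have hp' := mem_CS.1 hp
  have h1 : ∀ a ∈ p, ∃ M : ℕ, ∀ i n k, a = ga i n k → n ∈ nz.{u} M ∧ k ∈ nz.{u} M := by
    intro a ha
    rcases hp'.2.1 a ha with ⟨i, hi, n, hn, k, hk, rfl⟩ | ⟨i, hi, β, hβ, rfl⟩
    · obtain ⟨n, rfl⟩ := mem_omega.1 hn
      obtain ⟨k, rfl⟩ := mem_omega.1 hk
      refine ⟨max n k + 1, ?_⟩
      intro i' n' k' h
      obtain ⟨rfl, rfl, rfl⟩ := ga_inj.1 h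
      rw [nz_mem_nz, nz_mem_nz]
      omega
    · exact ⟨0, fun i' n' k' h => absurd h.symm ga_ne_sa⟩
  choose! g hg using h1
  have hfin : (g '' (p : Set ZFSet.{u})).Finite := Set.Finite.image g hp'.1
  obtain ⟨M, hM⟩ := hfin.bddAbove
  refine ⟨max M (p : Set ZFSet.{u}).ncard, ?_⟩
  intro m' hm'
  refine ⟨?_, ?_⟩
  · unfold nc
    rw [nz_subset_nz]
    omega
  · intro i n k h
    have h2 := hg _ h i n k rfl
    have h3 : g (ga i n k) ≤ M := hM ⟨_, h, rfl⟩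
    have h4 : nz.{u} (g (ga i n k)) ⊆ nz m' := nz_subset_nz.2 (by omega)
    exact ⟨h4 h2.1, h4 h2.2⟩

end Pool.Agent.FBZ
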