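import Pool.Agent.FBZ.PA

/-!
# FBZ module PB: which sets are codes; closed classes of indices

* `ran_sub`: `IsFunc μ κ e → ran e ⊆ κ`.
* `mem_Ys`: for `ξ ∈ κ` unfold `Ys` with `recF_eq`: `Ys N μ κ ξ = Lv N μ κ Z ξ` with
  `Z = ⋃₀ (img (Ys N μ κ) ξ)` (`ran_gr`, `dom_gr`).  So `y ∈ Ys ξ` iff
  `y = cd ξ e τ` with `e ∈ N`, `e ⊆ prod μ κ`, `τ ∈ N`,
  `τ ⊆ prod (prod μ ω) (prod (CS (κ ∪ Z) μ) ω)` and `CodeOK μ κ J ξ e τ` for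
  `J = (κ ∪ Z).sep (InC ξ e)` (`fs (sn y) = e`, `sn (sn y) = τ`); the inclusions for `e`, `τ` follow
  from `CodeOK` (`CS J μ ⊆ CS (κ ∪ Z) μ`).  It remains to see `J = IC N μ κ ξ e` if
  `IsFunc μ κ e`: `Z ⊆ YY` because `ξ ⊆ κ`.  Let `i ∈ II`, `InC ξ e i`.  If `i ∈ κ` fine.
  If `i ∈ YY`, `i ∈ Ys ξ''` for a `ξ'' ∈ κ`, so `i = cd ξ'' e'' τ''`; `i ∈ ran e ⊆ κ` is impossible
  (`not_ord_cd`), so `i = cd ξ' e' τ'` with `ξ' ∈ ξ`, and `ξ' = ξ''` by `cd_inj`; so `i ∈ Z`.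
* `mem_YY`: `mem_Ys` and `mem_sUnion`, `mem_img`.
* `cl_InC`: let `cd ξ' e' τ' ∈ YY` with `InC ξ e (cd ξ' e' τ')`: as it is not an ordinal, `ξ' ∈ ξ` and
  `ran e' ⊆ ran e`.  Let `i ∈ II`, `InC ξ' e' i`.  If `i ∈ ran e'` then `i ∈ ran e`.  If
  `i = cd ξ'' e'' τ''`, `ξ'' ∈ ξ'`, `ran e'' ⊆ ran e'` then `ξ'' ∈ ξ` (`ξ ∈ κ` is an ordinal), fine.
* `not_InC_self`: `cd ξ e τ` is not an ordinal and `ξ ∉ ξ`.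
* `cl_ne`: the class of the indices different from `α ∈ κ` and from all codes with `α ∈ ran e`
  is closed.
* `II_cases`: an index is an ordinal in `κ` (not a code) or a code.
-/

namespace Pool.Agent.FBZ
open ZFSet
universe u
variable {N : Set ZFSet.{u}} {μ κ : ZFSet.{u}}

theorem ran_sub {a b e : ZFSet.{u}} (h : IsFunc a b e) : ran e ⊆ b := by
  intro z hz
  obtain ⟨b', hb'⟩ := mem_ran.1 hz
  exact (pair_mem_prod.1 (h.1 hb')).2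

private theorem PB_Ys_eq (ξ : ZFSet.{u}) :
    Ys N μ κ ξ = Lv N μ κ (⋃₀ (img (Ys N μ κ) ξ) : ZFSet.{u}) ξ := by
  have h := recF_eq (fun g => Lv N μ κ (⋃₀ (ran g) : ZFSet.{u}) (dom g)) ξ
  have h2 : Ys N μ κ ξ = Lv N μ κ (⋃₀ (ran (gr (Ys N μ κ) ξ)) : ZFSet.{u})
    (dom (gr (Ys N μ κ) ξ)) := h
  rw [ran_gr, dom_gr] at h2
  exact h2

private theorem PB_mem_YY' {y : ZFSet.{u}} : y ∈ YY N μ κ ↔ ∃ ξ ∈ κ, y ∈ Ys N μ κ ξ := by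
  unfold YY
  rw [mem_sUnion]
  constructor
  · rintro ⟨z, hz, hy⟩
    obtain ⟨ξ, hξ, rfl⟩ := mem_img.1 hz
    exact ⟨ξ, hξ, hy⟩
  · rintro ⟨ξ, hξ, hy⟩
    exact ⟨_, mem_img.2 ⟨ξ, hξ, rfl⟩, hy⟩

private theorem PB_mem_Z {ξ y : ZFSet.{u}} : y ∈ (⋃₀ (img (Ys N μ κ) ξ) : ZFSet.{u}) ↔
    ∃ ξ' ∈ ξ, y ∈ Ys N μ κ ξ' := by
  rw [mem_sUnion]
  constructor
  · rintro ⟨z, hz, hy⟩
    obtain ⟨ξ, hξ, rfl⟩ := mem_img.1 hz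
    exact ⟨ξ, hξ, hy⟩
  · rintro ⟨ξ, hξ, hy⟩
    exact ⟨_, mem_img.2 ⟨ξ, hξ, rfl⟩, hy⟩

private theorem PB_ord (h : Hyp N μ κ) : κ.IsOrdinal := h.succ.2.1.2.1

private theorem PB_Ys_form {ξ y : ZFSet.{u}} (hy : y ∈ Ys N μ κ ξ) :
    ∃ e τ, y = cd ξ e τ := by
  rw [PB_Ys_eq] at hy
  unfold Lv at hy
  rw [mem_sep, mem_prod] at hy
  obtain ⟨⟨a, ha, b, hb, rfl⟩, -⟩ := hy
  rw [mem_singleton] at ha
  subst ha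
  obtain ⟨e, he, τ, hτ, rfl⟩ := mem_prod.1 hb
  exact ⟨e, τ, rfl⟩

private theorem PB_J (h : Hyp N μ κ) {ξ e : ZFSet.{u}} (hξ : ξ ∈ κ) (he : IsFunc μ κ e) :
    (κ ∪ (⋃₀ (img (Ys N μ κ) ξ) : ZFSet.{u})).sep (InC ξ e) = IC N μ κ ξ e := by
  unfold IC II
  ext i
  rw [mem_sep, mem_sep, mem_union, mem_union, PB_mem_Z, PB_mem_YY']
  constructor
  · rintro ⟨h1 | ⟨ξ', hξ', h1⟩, h2⟩
    · exact ⟨Or.inl h1, h2⟩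
    · exact ⟨Or.inr ⟨ξ', (PB_ord h).mem_trans hξ' hξ, h1⟩, h2⟩
  · rintro ⟨h1 | ⟨ξ', hξ', h1⟩, h2⟩
    · exact ⟨Or.inl h1, h2⟩
    · refine ⟨Or.inr ?_, h2⟩
      obtain ⟨e', τ', rfl⟩ := PB_Ys_form h1
      rcases h2 with h2 | ⟨ξ'', e'', τ'', h3, h4, h5⟩
      · exact absurd ((PB_ord h).mem (ran_sub he h2)) (not_ord_cd _ _ _)
      · obtain ⟨rfl, rfl, rfl⟩ := cd_inj.1 h3
        exact ⟨ξ', h4, h1⟩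

private theorem PB_mem_Ys (h : Hyp N μ κ) {ξ y : ZFSet.{u}} (hξ : ξ ∈ κ) :
    y ∈ Ys N μ κ ξ ↔ ∃ e ∈ N, ∃ τ ∈ N, y = cd ξ e τ ∧
      CodeOK μ κ (IC N μ κ ξ e) ξ e τ := by
  constructor
  · intro hy
    rw [PB_Ys_eq] at hy
    unfold Lv at hy
    rw [mem_sep, mem_prod] at hy
    obtain ⟨⟨a, ha, b, hb, rfl⟩, hok⟩ := hy
    rw [mem_singleton] at ha
    subst ha
    obtain ⟨e, he, τ, hτ, rfl⟩ := mem_prod.1 hb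
    rw [sn_pair, fs_pair, sn_pair] at hok
    rw [PB_J h hξ hok.1] at hok
    exact ⟨e, (mem_powN.1 he).1, τ, (mem_powN.1 hτ).1, rfl, hok⟩
  · rintro ⟨e, he, τ, hτ, rfl, hok⟩
    have hJ := PB_J h hξ hok.1
    rw [PB_Ys_eq]
    unfold Lv
    rw [mem_sep]
    refine ⟨?_, ?_⟩
    · unfold cd
      rw [pair_mem_prod, pair_mem_prod, mem_singleton, mem_powN, mem_powN]
      refine ⟨rfl, ⟨he, hok.1.1⟩, hτ, ?_⟩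
      intro z hz
      have h1 := hok.2.2.1 hz
      rw [mem_prod] at h1 ⊢
      obtain ⟨a, ha, b, hb, rfl⟩ := h1
      refine ⟨a, ha, b, ?_, rfl⟩
      rw [mem_prod] at hb ⊢
      obtain ⟨q, hq, j, hj, rfl⟩ := hb
      refine ⟨q, CS_of hq ?_, j, hj, rfl⟩
      intro x hx
      have h2 := fs_mem_of_mem hq hx
      rw [← hJ, mem_sep] at h2
      exact h2.1
    · unfold cd
      rw [sn_pair, fs_pair, sn_pair, hJ]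
      exact hok

theorem mem_YY (h : Hyp N μ κ) {y : ZFSet.{u}} :
    y ∈ YY N μ κ ↔ ∃ ξ ∈ κ, ∃ e ∈ N, ∃ τ ∈ N, y = cd ξ e τ ∧
      CodeOK μ κ (IC N μ κ ξ e) ξ e τ := by
  constructor
  · intro hy
    obtain ⟨ξ, hξ, hy⟩ := PB_mem_YY'.1 hy
    obtain ⟨e, he, τ, hτ, h1, h2⟩ := (PB_mem_Ys h hξ).1 hy
    exact ⟨ξ, hξ, e, he, τ, hτ, h1, h2⟩
  · rintro ⟨ξ, hξ, e, he, τ, hτ, h1, h2⟩
    exact PB_mem_YY'.2 ⟨ξ, hξ, (PB_mem_Ys h hξ).2 ⟨e, he, τ, hτ, h1, h2⟩⟩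

theorem cd_mem_YY (h : Hyp N μ κ) {ξ e τ : ZFSet.{u}} :
    cd ξ e τ ∈ YY N μ κ ↔ ξ ∈ κ ∧ e ∈ N ∧ τ ∈ N ∧ CodeOK μ κ (IC N μ κ ξ e) ξ e τ := by
  rw [mem_YY h]
  constructor
  · rintro ⟨ξ', hξ, e', he, τ', hτ, h1, h2⟩
    obtain ⟨rfl, rfl, rfl⟩ := cd_inj.1 h1
    exact ⟨hξ, he, hτ, h2⟩
  · rintro ⟨hξ, he, hτ, h2⟩
    exact ⟨ξ, hξ, e, he, τ, hτ, rfl, h2⟩

theorem ord_of_mem (h : Hyp N μ κ) {α : ZFSet.{u}} (hα : α ∈ κ) : α.IsOrdinal := by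
  exact (PB_ord h).mem hα

theorem II_cases (h : Hyp N μ κ) {i : ZFSet.{u}} (hi : i ∈ II N μ κ) :
    (i ∈ κ ∧ ∀ ξ e τ, i ≠ cd ξ e τ) ∨ ∃ ξ e τ, i = cd ξ e τ ∧ cd ξ e τ ∈ YY N μ κ := by
  unfold II at hi
  rcases mem_union.1 hi with hi | hi
  · left
    refine ⟨hi, ?_⟩
    rintro ξ e τ rfl
    exact not_ord_cd _ _ _ (ord_of_mem h hi)
  · right
    obtain ⟨ξ, hξ, e, he, τ, hτ, rfl, h2⟩ := (mem_YY h).1 hi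
    exact ⟨ξ, e, τ, rfl, hi⟩

theorem cl_InC (h : Hyp N μ κ) {ξ e τ : ZFSet.{u}} (hy : cd ξ e τ ∈ YY N μ κ) :
    Cl N μ κ (InC ξ e) := by
  have hy' := (cd_mem_YY h).1 hy
  intro ξ' e' τ' hy1 hC i hi hi'
  have hC' : ξ' ∈ ξ ∧ ran e' ⊆ ran e := by
    rcases hC with hC | ⟨ξ'', e'', τ'', h3, h4, h5⟩
    · exact absurd (ord_of_mem h (ran_sub hy'.2.2.2.1 hC)) (not_ord_cd _ _ _)
    · obtain ⟨rfl, rfl, rfl⟩ := cd_inj.1 h3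
      exact ⟨h4, h5⟩
  rcases hi' with hi' | ⟨ξ'', e'', τ'', rfl, h4, h5⟩
  · exact Or.inl (hC'.2 hi')
  · refine Or.inr ⟨ξ'', e'', τ'', rfl, ?_, ?_⟩
    · exact (ord_of_mem h hy'.1).mem_trans h4 hC'.1
    · intro x hx
      exact hC'.2 (h5 hx)

theorem not_InC_self (h : Hyp N μ κ) {ξ e τ : ZFSet.{u}} (hy : cd ξ e τ ∈ YY N μ κ) :
    ¬ InC ξ e (cd ξ e τ) := by
  have hy' := (cd_mem_YY h).1 hy
  rintro (hC | ⟨ξ'', e'', τ'', h3, h4, h5⟩)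
  · exact not_ord_cd _ _ _ (ord_of_mem h (ran_sub hy'.2.2.2.1 hC))
  · obtain ⟨rfl, rfl, rfl⟩ := cd_inj.1 h3
    exact mem_irrefl _ h4

theorem cl_ne (h : Hyp N μ κ) {α : ZFSet.{u}} (hα : α ∈ κ) :
    Cl N μ κ (fun i => i ≠ α ∧ ∀ ξ e τ, i = cd ξ e τ → α ∉ ran e) := by
  intro ξ e τ hy hC i hi hi'
  have hy' := (cd_mem_YY h).1 hy
  have hα' := hC.2 ξ e τ rfl
  rcases hi' with hi' | ⟨ξ'', e'', τ'', rfl, h4, h5⟩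
  · refine ⟨?_, ?_⟩
    · rintro rfl
      exact hα' hi'
    · rintro ξ' e' τ' rfl
      exact absurd (ord_of_mem h (ran_sub hy'.2.2.2.1 hi')) (not_ord_cd _ _ _)
  · refine ⟨?_, ?_⟩
    · rintro rfl
      exact not_ord_cd _ _ _ (ord_of_mem h hα)
    · intro ξ' e' τ' h6 h7
      obtain ⟨rfl, rfl, rfl⟩ := cd_inj.1 h6
      exact hα' (h5 h7)

end Pool.Agent.FBZ
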