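import Pool.Agent.FBZ.PA

/-!
# FBZ module PC1: conditions and their order are definable

* `gaT`, `saT`, `cdT`: `DT.pairT`, `DT.empty`, `DT.singleT`.
* `Dfn.inC`: `InC x y i := i ∈ ran y ∨ ∃ ξ' e' τ', i = cd ξ' e' τ' ∧ ξ' ∈ x ∧ ran e' ⊆ ran y`;
  the quantifiers can be bounded by `N` (`i ∈ N`, `pair_mem_iff`).  `DT.rsT`: `DT.sepT`, `DT.fsT`.
* `Dfn.le`: `Le q p`: all quantifiers can be bounded by `N`: `sa (cd ξ e τ) β ∈ p ∈ N` gives
  `ξ, e, τ, β ∈ N`; `ga .. n k ∈ q` gives `n, k ∈ N`; the element of `τ ∈ N` gives `j ∈ N`.  It is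
  convenient to write it with `∀ ξ ∈ N, ∀ e ∈ N, ...` (`Dfn.all` repeatedly, `Dfn.imp`, `Dfn.ex`)
  and to use `Dfn.congr`.
* `Dfn.cnd`: `Cnd I μ p`: `Dfn.fin`, and the quantifiers again bounded by `N`, `I`, `ω`, `μ`.
* `DT.AtT`: `DT.prodT`, `DT.unionT`.  `DT.CST`: `DT.finsetT`, `DT.sepT`.
* `Dfn.codeOK`: `CodeOK μ κ J ξ e τ`, all quantifiers bounded by `N`.
* `Dfn.bd`: `DT.ncT`, quantifiers bounded by `N`.
-/

namespace Pool.Agent.FBZ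
open ZFSet
universe u
variable {N : Set ZFSet.{u}} {a b c d x y : Env.{u} → ZFSet.{u}}

/-- Unbounded universal quantifiers whose hypotheses force the variable to be in `N`. -/
private theorem PC1_all {Q : Env.{u} → ZFSet.{u} → Prop} (h : Dfn N (fun v => Q (tl v) (v 0)))
    (hb : ∀ v, In N v → ∀ x, x ∉ N → Q v x) : Dfn N (fun v => ∀ x, Q v x) :=
  Dfn.congr (Dfn.all h) fun v hv => ⟨fun h x _ => h x, fun h x => by
    by_cases hx : x ∈ N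
    · exact h x hx
    · exact hb v hv x hx⟩

private theorem PC1_ex {Q : Env.{u} → ZFSet.{u} → Prop} (h : Dfn N (fun v => Q (tl v) (v 0)))
    (hb : ∀ v, In N v → ∀ x, Q v x → x ∈ N) : Dfn N (fun v => ∃ x, Q v x) :=
  Dfn.congr (Dfn.ex h) fun v hv => ⟨fun ⟨x, hx⟩ => ⟨x, hb v hv x hx, hx⟩, fun ⟨x, _, hx⟩ => ⟨x, hx⟩⟩

private theorem PC1_pair (hN : ZF N) {x y : ZFSet.{u}} (h : pair x y ∈ N) : x ∈ N ∧ y ∈ N :=
  (pair_mem_iff hN).1 h

private theorem PC1_ga (hN : ZF N) {i n k : ZFSet.{u}} (h : ga i n k ∈ N) :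
    i ∈ N ∧ n ∈ N ∧ k ∈ N := by
  unfold ga at h
  have h1 := PC1_pair hN h
  have h2 := PC1_pair hN h1.2
  have h3 := PC1_pair hN h2.2
  exact ⟨h1.1, h3.1, h3.2⟩

private theorem PC1_sa (hN : ZF N) {i β : ZFSet.{u}} (h : sa i β ∈ N) : i ∈ N ∧ β ∈ N := by
  unfold sa at h
  have h1 := PC1_pair hN h
  exact ⟨h1.1, (PC1_pair hN h1.2).2⟩

private theorem PC1_cd (hN : ZF N) {ξ e τ : ZFSet.{u}} (h : cd ξ e τ ∈ N) :
    ξ ∈ N ∧ e ∈ N ∧ τ ∈ N := by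
  unfold cd at h
  have h1 := PC1_pair hN h
  have h2 := PC1_pair hN h1.2
  exact ⟨h1.1, h2.1, h2.2⟩

theorem DT.gaT (hN : ZF N) (ha : DT N a) (hb : DT N b) (hc : DT N c) :
    DT N (fun v => ga (a v) (b v) (c v)) :=
  DT.pairT hN ha (DT.pairT hN (DT.empty hN) (DT.pairT hN hb hc))

theorem DT.saT (hN : ZF N) (ha : DT N a) (hb : DT N b) : DT N (fun v => sa (a v) (b v)) :=
  DT.pairT hN ha (DT.pairT hN (DT.singleT hN (DT.empty hN)) hb)

theorem DT.cdT (hN : ZF N) (ha : DT N a) (hb : DT N b) (hc : DT N c) :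
    DT N (fun v => cd (a v) (b v) (c v)) :=
  DT.pairT hN ha (DT.pairT hN hb hc)

theorem Dfn.inC (hN : ZF N) (ha : DT N a) (hb : DT N b) (hc : DT N c) :
    Dfn N (fun v => InC (a v) (b v) (c v)) := by
  refine Dfn.or (Dfn.mem hN hc (DT.ranT hN hb)) ?_
  refine PC1_ex (Q := fun v ξ' => ∃ e' τ', c v = cd ξ' e' τ' ∧ ξ' ∈ a v ∧ ran e' ⊆ ran (b v)) ?_ ?_
  · refine PC1_ex (Q := fun v e' => ∃ τ', c (tl v) = cd (v 0) e' τ' ∧ v 0 ∈ a (tl v) ∧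
      ran e' ⊆ ran (b (tl v))) ?_ ?_
    · refine PC1_ex (Q := fun v τ' => c (tl (tl v)) = cd (v 1) (v 0) τ' ∧ v 1 ∈ a (tl (tl v)) ∧
        ran (v 0) ⊆ ran (b (tl (tl v)))) ?_ ?_
      · exact Dfn.and (Dfn.eq hN hc.shift.shift.shift
          (DT.cdT hN (DT.var hN 2) (DT.var hN 1) (DT.var hN 0)))
          (Dfn.and (Dfn.mem hN (DT.var hN 2) ha.shift.shift.shift)
            (Dfn.subset hN (DT.ranT hN (DT.var hN 1)) (DT.ranT hN hb.shift.shift.shift)))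
      · rintro v hv τ' ⟨h, _⟩
        have h1 : c (tl (tl v)) ∈ N := hc.shift.shift.1 v hv
        rw [h] at h1
        exact (PC1_cd hN h1).2.2
    · rintro v hv e' ⟨τ', h, _⟩
      have h1 : c (tl v) ∈ N := hc.shift.1 v hv
      rw [h] at h1
      exact (PC1_cd hN h1).2.1
  · rintro v hv ξ' ⟨e', τ', h, _⟩
    have h1 : c v ∈ N := hc.1 v hv
    rw [h] at h1
    exact (PC1_cd hN h1).1

theorem DT.rsT (hN : ZF N) (ha : DT N a) (hb : DT N b) (hc : DT N c) :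
    DT N (fun v => rs (InC (a v) (b v)) (c v)) := by
  refine DT.sepT (Q := fun v x => InC (a v) (b v) (fs x)) hN hc ?_
  exact Dfn.inC hN ha.shift hb.shift (DT.fsT hN (DT.var hN 0))

theorem Dfn.le (hN : ZF N) (ha : DT N a) (hb : DT N b) : Dfn N (fun v => Le (a v) (b v)) := by
  refine Dfn.and (Dfn.subset hN hb ha) ?_
  refine PC1_all (Q := fun v ξ => ∀ e τ β n k, sa (cd ξ e τ) β ∈ b v → ga (cd ξ e τ) n k ∈ a v →
    ga (cd ξ e τ) n k ∉ b v →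
    ∃ j, (j ∈ k ∨ j = k) ∧ pair (pair β n) (pair (rs (InC ξ e) (a v)) j) ∈ τ) ?_ ?_
  swap
  · intro v hv ξ hξ e τ β n k h
    exact absurd (PC1_cd hN (PC1_sa hN (mem_N hN (hb.1 v hv) h)).1).1 hξ
  refine PC1_all (Q := fun v e => ∀ τ β n k, sa (cd (v 0) e τ) β ∈ b (tl v) →
    ga (cd (v 0) e τ) n k ∈ a (tl v) → ga (cd (v 0) e τ) n k ∉ b (tl v) →
    ∃ j, (j ∈ k ∨ j = k) ∧ pair (pair β n) (pair (rs (InC (v 0) e) (a (tl v))) j) ∈ τ) ?_ ?_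
  swap
  · intro v hv e he τ β n k h
    exact absurd (PC1_cd hN (PC1_sa hN (mem_N hN (hb.shift.1 v hv) h)).1).2.1 he
  refine PC1_all (Q := fun v τ => ∀ β n k, sa (cd (v 1) (v 0) τ) β ∈ b (tl (tl v)) →
    ga (cd (v 1) (v 0) τ) n k ∈ a (tl (tl v)) → ga (cd (v 1) (v 0) τ) n k ∉ b (tl (tl v)) →
    ∃ j, (j ∈ k ∨ j = k) ∧
      pair (pair β n) (pair (rs (InC (v 1) (v 0)) (a (tl (tl v)))) j) ∈ τ) ?_ ?_
  swap
  · intro v hv τ hτ β n k h
    exact absurd (PC1_cd hN (PC1_sa hN (mem_N hN (hb.shift.shift.1 v hv) h)).1).2.2 hτ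
  refine PC1_all (Q := fun v β => ∀ n k, sa (cd (v 2) (v 1) (v 0)) β ∈ b (tl (tl (tl v))) →
    ga (cd (v 2) (v 1) (v 0)) n k ∈ a (tl (tl (tl v))) →
    ga (cd (v 2) (v 1) (v 0)) n k ∉ b (tl (tl (tl v))) →
    ∃ j, (j ∈ k ∨ j = k) ∧
      pair (pair β n) (pair (rs (InC (v 2) (v 1)) (a (tl (tl (tl v))))) j) ∈ v 0) ?_ ?_
  swap
  · intro v hv β hβ n k h
    exact absurd (PC1_sa hN (mem_N hN (hb.shift.shift.shift.1 v hv) h)).2 hβ
  refine PC1_all (Q := fun v n => ∀ k, sa (cd (v 3) (v 2) (v 1)) (v 0) ∈ b (tl (tl (tl (tl v)))) →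
    ga (cd (v 3) (v 2) (v 1)) n k ∈ a (tl (tl (tl (tl v)))) →
    ga (cd (v 3) (v 2) (v 1)) n k ∉ b (tl (tl (tl (tl v)))) →
    ∃ j, (j ∈ k ∨ j = k) ∧
      pair (pair (v 0) n) (pair (rs (InC (v 3) (v 2)) (a (tl (tl (tl (tl v)))))) j) ∈ v 1) ?_ ?_
  swap
  · intro v hv n hn k _ h
    exact absurd (PC1_ga hN (mem_N hN (ha.shift.shift.shift.shift.1 v hv) h)).2.1 hn
  refine PC1_all (Q := fun v k =>
    sa (cd (v 4) (v 3) (v 2)) (v 1) ∈ b (tl (tl (tl (tl (tl v))))) →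
    ga (cd (v 4) (v 3) (v 2)) (v 0) k ∈ a (tl (tl (tl (tl (tl v))))) →
    ga (cd (v 4) (v 3) (v 2)) (v 0) k ∉ b (tl (tl (tl (tl (tl v))))) →
    ∃ j, (j ∈ k ∨ j = k) ∧
      pair (pair (v 1) (v 0)) (pair (rs (InC (v 4) (v 3)) (a (tl (tl (tl (tl (tl v))))))) j) ∈ v 2)
    ?_ ?_
  swap
  · intro v hv k hk _ h
    exact absurd (PC1_ga hN (mem_N hN (ha.shift.shift.shift.shift.shift.1 v hv) h)).2.2 hk
  -- k = v 0, n = v 1, β = v 2, τ = v 3, e = v 4, ξ = v 5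
  have hg := DT.gaT hN (DT.cdT hN (DT.var hN 5) (DT.var hN 4) (DT.var hN 3)) (DT.var hN 1)
    (DT.var hN 0)
  refine Dfn.imp (Dfn.mem hN (DT.saT hN (DT.cdT hN (DT.var hN 5) (DT.var hN 4) (DT.var hN 3))
    (DT.var hN 2)) hb.shift.shift.shift.shift.shift.shift) ?_
  refine Dfn.imp (Dfn.mem hN hg ha.shift.shift.shift.shift.shift.shift) ?_
  refine Dfn.imp (Dfn.not (Dfn.mem hN hg hb.shift.shift.shift.shift.shift.shift)) ?_
  refine PC1_ex (Q := fun v j => (j ∈ v 0 ∨ j = v 0) ∧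
    pair (pair (v 2) (v 1)) (pair (rs (InC (v 5) (v 4)) (a (tl (tl (tl (tl (tl (tl v)))))))) j) ∈
      v 3) ?_ ?_
  · refine Dfn.and (Dfn.or (Dfn.mem hN (DT.var hN 0) (DT.var hN 1))
      (Dfn.eq hN (DT.var hN 0) (DT.var hN 1))) ?_
    exact Dfn.mem hN (DT.pairT hN (DT.pairT hN (DT.var hN 3) (DT.var hN 2))
      (DT.pairT hN (DT.rsT hN (DT.var hN 6) (DT.var hN 5)
        ha.shift.shift.shift.shift.shift.shift.shift) (DT.var hN 0))) (DT.var hN 4)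
  · rintro v hv j ⟨_, h⟩
    exact (PC1_pair hN (PC1_pair hN (mem_N hN (hv 3) h)).2).2

theorem Dfn.cnd (hN : ZF N) (ha : DT N a) (hb : DT N b) (hc : DT N c) :
    Dfn N (fun v => Cnd (a v) (b v) (c v)) := by
  refine Dfn.and (Dfn.fin hN hc) (Dfn.and ?_ ?_)
  · refine Dfn.ball (Q := fun v x => (∃ i ∈ a v, ∃ n ∈ ZFSet.omega.{u}, ∃ k ∈ ZFSet.omega.{u},
      x = ga i n k) ∨ ∃ i ∈ a v, ∃ β ∈ b v, x = sa i β) hN hc ?_
    refine Dfn.or ?_ ?_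
    · refine Dfn.bex (Q := fun v i => ∃ n ∈ ZFSet.omega.{u}, ∃ k ∈ ZFSet.omega.{u},
        v 0 = ga i n k) hN ha.shift ?_
      refine Dfn.bex (Q := fun v n => ∃ k ∈ ZFSet.omega.{u}, v 1 = ga (v 0) n k) hN
        (DT.omegaT hN) ?_
      refine Dfn.bex (Q := fun v k => v 2 = ga (v 1) (v 0) k) hN (DT.omegaT hN) ?_
      exact Dfn.eq hN (DT.var hN 3) (DT.gaT hN (DT.var hN 2) (DT.var hN 1) (DT.var hN 0))
    · refine Dfn.bex (Q := fun v i => ∃ β ∈ b (tl v), v 0 = sa i β) hN ha.shift ?_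
      refine Dfn.bex (Q := fun v β => v 1 = sa (v 0) β) hN hb.shift.shift ?_
      exact Dfn.eq hN (DT.var hN 2) (DT.saT hN (DT.var hN 1) (DT.var hN 0))
  · refine PC1_all (Q := fun v i => ∀ n k k', ga i n k ∈ c v → ga i n k' ∈ c v → k = k') ?_ ?_
    swap
    · intro v hv i hi n k k' h
      exact absurd (PC1_ga hN (mem_N hN (hc.1 v hv) h)).1 hi
    refine PC1_all (Q := fun v n => ∀ k k', ga (v 0) n k ∈ c (tl v) → ga (v 0) n k' ∈ c (tl v) →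
      k = k') ?_ ?_
    swap
    · intro v hv n hn k k' h
      exact absurd (PC1_ga hN (mem_N hN (hc.shift.1 v hv) h)).2.1 hn
    refine PC1_all (Q := fun v k => ∀ k', ga (v 1) (v 0) k ∈ c (tl (tl v)) →
      ga (v 1) (v 0) k' ∈ c (tl (tl v)) → k = k') ?_ ?_
    swap
    · intro v hv k hk k' h
      exact absurd (PC1_ga hN (mem_N hN (hc.shift.shift.1 v hv) h)).2.2 hk
    refine PC1_all (Q := fun v k' => ga (v 2) (v 1) (v 0) ∈ c (tl (tl (tl v))) →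
      ga (v 2) (v 1) k' ∈ c (tl (tl (tl v))) → v 0 = k') ?_ ?_
    swap
    · intro v hv k' hk' _ h
      exact absurd (PC1_ga hN (mem_N hN (hc.shift.shift.shift.1 v hv) h)).2.2 hk'
    refine Dfn.imp (Dfn.mem hN (DT.gaT hN (DT.var hN 3) (DT.var hN 2) (DT.var hN 1))
      hc.shift.shift.shift.shift) ?_
    exact Dfn.imp (Dfn.mem hN (DT.gaT hN (DT.var hN 3) (DT.var hN 2) (DT.var hN 0))
      hc.shift.shift.shift.shift) (Dfn.eq hN (DT.var hN 1) (DT.var hN 0))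

theorem DT.AtT (hN : ZF N) (ha : DT N a) (hb : DT N b) : DT N (fun v => At (a v) (b v)) :=
  DT.prodT hN ha (DT.unionT hN (DT.prodT hN (DT.singleT hN (DT.empty hN))
    (DT.prodT hN (DT.omegaT hN) (DT.omegaT hN)))
    (DT.prodT hN (DT.singleT hN (DT.singleT hN (DT.empty hN))) hb))

theorem DT.CST (hN : ZF N) (ha : DT N a) (hb : DT N b) : DT N (fun v => CS (a v) (b v)) := by
  refine DT.sepT (Q := fun v x => Cnd (a v) (b v) x) hN (DT.finsetT hN (DT.AtT hN ha hb)) ?_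
  exact Dfn.cnd hN ha.shift hb.shift (DT.var hN 0)

theorem Dfn.codeOK (hN : ZF N) (ha : DT N a) (hb : DT N b) (hc : DT N c) (hd : DT N d)
    (hx : DT N x) (hy : DT N y) :
    Dfn N (fun v => CodeOK (a v) (b v) (c v) (d v) (x v) (y v)) := by
  refine Dfn.and (Dfn.isFunc hN ha hb hx) (Dfn.and (Dfn.subset hN hd (DT.ranT hN hx))
    (Dfn.and (Dfn.subset hN hy (DT.prodT hN (DT.prodT hN ha (DT.omegaT hN))
      (DT.prodT hN (DT.CST hN hc ha) (DT.omegaT hN)))) ?_))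
  refine PC1_all (Q := fun v b => ∀ p j q, pair b (pair p j) ∈ y v → q ∈ CS (c v) (a v) →
    Le q p → pair b (pair q j) ∈ y v) ?_ ?_
  swap
  · intro v hv b hb p j q h
    exact absurd (PC1_pair hN (mem_N hN (hy.1 v hv) h)).1 hb
  refine PC1_all (Q := fun v p => ∀ j q, pair (v 0) (pair p j) ∈ y (tl v) →
    q ∈ CS (c (tl v)) (a (tl v)) → Le q p → pair (v 0) (pair q j) ∈ y (tl v)) ?_ ?_
  swap
  · intro v hv p hp j q h
    exact absurd (PC1_pair hN (PC1_pair hN (mem_N hN (hy.shift.1 v hv) h)).2).1 hp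
  refine PC1_all (Q := fun v j => ∀ q, pair (v 1) (pair (v 0) j) ∈ y (tl (tl v)) →
    q ∈ CS (c (tl (tl v))) (a (tl (tl v))) → Le q (v 0) →
      pair (v 1) (pair q j) ∈ y (tl (tl v))) ?_ ?_
  swap
  · intro v hv j hj q h
    exact absurd (PC1_pair hN (PC1_pair hN (mem_N hN (hy.shift.shift.1 v hv) h)).2).2 hj
  refine PC1_all (Q := fun v q => pair (v 2) (pair (v 1) (v 0)) ∈ y (tl (tl (tl v))) →
    q ∈ CS (c (tl (tl (tl v)))) (a (tl (tl (tl v)))) → Le q (v 1) →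
      pair (v 2) (pair q (v 0)) ∈ y (tl (tl (tl v)))) ?_ ?_
  swap
  · intro v hv q hq _ h
    exact absurd (mem_N hN ((DT.CST hN hc.shift.shift.shift ha.shift.shift.shift).1 v hv) h) hq
  refine Dfn.imp (Dfn.mem hN (DT.pairT hN (DT.var hN 3) (DT.pairT hN (DT.var hN 2)
    (DT.var hN 1))) hy.shift.shift.shift.shift) ?_
  refine Dfn.imp (Dfn.mem hN (DT.var hN 0) (DT.CST hN hc.shift.shift.shift.shift
    ha.shift.shift.shift.shift)) ?_
  refine Dfn.imp (Dfn.le hN (DT.var hN 0) (DT.var hN 2)) ?_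
  exact Dfn.mem hN (DT.pairT hN (DT.var hN 3) (DT.pairT hN (DT.var hN 0) (DT.var hN 1)))
    hy.shift.shift.shift.shift

theorem Dfn.bd (hN : ZF N) (ha : DT N a) (hb : DT N b) : Dfn N (fun v => Bd (a v) (b v)) := by
  refine Dfn.and (Dfn.subset hN (DT.ncT hN hb) ha) ?_
  refine PC1_all (Q := fun v i => ∀ n k, ga i n k ∈ b v → n ∈ a v ∧ k ∈ a v) ?_ ?_
  swap
  · intro v hv i hi n k h
    exact absurd (PC1_ga hN (mem_N hN (hb.1 v hv) h)).1 hi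
  refine PC1_all (Q := fun v n => ∀ k, ga (v 0) n k ∈ b (tl v) → n ∈ a (tl v) ∧ k ∈ a (tl v))
    ?_ ?_
  swap
  · intro v hv n hn k h
    exact absurd (PC1_ga hN (mem_N hN (hb.shift.1 v hv) h)).2.1 hn
  refine PC1_all (Q := fun v k => ga (v 1) (v 0) k ∈ b (tl (tl v)) →
    v 0 ∈ a (tl (tl v)) ∧ k ∈ a (tl (tl v))) ?_ ?_
  swap
  · intro v hv k hk h
    exact absurd (PC1_ga hN (mem_N hN (hb.shift.shift.1 v hv) h)).2.2 hk
  refine Dfn.imp (Dfn.mem hN (DT.gaT hN (DT.var hN 2) (DT.var hN 1) (DT.var hN 0))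
    hb.shift.shift.shift) ?_
  exact Dfn.and (Dfn.mem hN (DT.var hN 1) ha.shift.shift.shift)
    (Dfn.mem hN (DT.var hN 0) ha.shift.shift.shift)

end Pool.Agent.FBZ
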