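import Pool.Agent.FBZ.PC1

/-!
# FBZ module PC2: the forcing notion is in `N`

* `DT.LvT`: `DT.sepT` from `DT.prodT`, `DT.singleT`, `DT.powT`, `DT.CST`, with the predicate
  `Dfn.codeOK` in which `J = (κ ∪ Z).sep (InC ξ (fs (sn y)))` is again a `DT.sepT` with `Dfn.inC`.
* `Ys_DT`: `DT.recFT`.  `YY_mem`: `img_mem`, `sUnion_mem` (`κ ∈ N` because `Card N κ`).
* `II_mem`, `IC_mem` (for `ξ, e ∈ N`), `PP_mem`, `LE_mem`: `union_mem`, `sep_mem`, `DT.CST`, `prod_mem`,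
  `Dfn.le`.
* `DT.ICT`: `DT.sepT`.
-/

namespace Pool.Agent.FBZ
open ZFSet
universe u
variable {N : Set ZFSet.{u}} {μ κ : ZFSet.{u}} {a b : Env.{u} → ZFSet.{u}}

theorem μ_mem (h : Hyp N μ κ) : μ ∈ N := h.succ.1.1

theorem κ_mem (h : Hyp N μ κ) : κ ∈ N := h.succ.2.1.1

theorem DT.LvT (hN : ZF N) (hμ : μ ∈ N) (hκ : κ ∈ N) (ha : DT N a) (hb : DT N b) :
    DT N (fun v => Lv N μ κ (a v) (b v)) := by
  unfold Lv
  refine DT.sepT hN ?_ ?_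
  · exact DT.prodT hN (DT.singleT hN hb)
      (DT.prodT hN (DT.powT hN (DT.cst hN (prod_mem hN hμ hκ)))
        (DT.powT hN (DT.prodT hN (DT.cst hN (prod_mem hN hμ hN.omega))
          (DT.prodT hN (DT.CST hN (DT.unionT hN (DT.cst hN hκ) ha) (DT.cst hN hμ))
            (DT.omegaT hN)))))
  · refine Dfn.codeOK hN (DT.cst hN hμ) (DT.cst hN hκ) ?_ hb.shift
      (DT.fsT hN (DT.snT hN (DT.var hN 0))) (DT.snT hN (DT.snT hN (DT.var hN 0)))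
    exact DT.sepT hN (DT.unionT hN (DT.cst hN hκ) ha.shift)
      (Dfn.inC hN hb.shift.shift (DT.fsT hN (DT.snT hN (DT.var hN 1))) (DT.var hN 0))

theorem Ys_DT (h : Hyp N μ κ) : DT N (fun v => Ys N μ κ (v 0)) := by
  have hN := h.zf
  unfold Ys
  refine DT.recFT (Φ := fun _ g => Lv N μ κ (⋃₀ (ran g) : ZFSet.{u}) (dom g)) hN ?_ (DT.var hN 0)
  exact DT.LvT hN (μ_mem h) (κ_mem h) (DT.sUnionT hN (DT.ranT hN (DT.var hN 0)))
    (DT.domT hN (DT.var hN 0))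

theorem YY_mem (h : Hyp N μ κ) : YY N μ κ ∈ N :=
  sUnion_mem h.zf (img_mem h.zf (Ys_DT h) (κ_mem h))

theorem II_mem (h : Hyp N μ κ) : II N μ κ ∈ N :=
  union_mem h.zf (κ_mem h) (YY_mem h)

private theorem PC2_sep (hN : ZF N) {P : ZFSet.{u} → Prop} (hP : Dfn N (fun v => P (v 0)))
    {x : ZFSet.{u}} (hx : x ∈ N) : x.sep P ∈ N :=
  (DT.sepT (t := fun _ => x) (Q := fun _ => P) hN (DT.cst hN hx) hP).1 (fun _ => x)
    (fun _ => hx)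

theorem IC_mem (h : Hyp N μ κ) {ξ e : ZFSet.{u}} (hξ : ξ ∈ N) (he : e ∈ N) :
    IC N μ κ ξ e ∈ N :=
  PC2_sep h.zf (Dfn.inC h.zf (DT.cst h.zf hξ) (DT.cst h.zf he) (DT.var h.zf 0)) (II_mem h)

theorem PP_mem (h : Hyp N μ κ) : PP N μ κ ∈ N :=
  (DT.CST (a := fun _ => II N μ κ) (b := fun _ => μ) h.zf (DT.cst h.zf (II_mem h))
    (DT.cst h.zf (μ_mem h))).1 (fun _ => μ) (fun _ => μ_mem h)

theorem LE_mem (h : Hyp N μ κ) : LE N μ κ ∈ N :=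
  PC2_sep (P := fun a => Le (fs a) (sn a)) h.zf
    (Dfn.le (a := fun v => fs (v 0)) (b := fun v => sn (v 0)) h.zf
      (DT.fsT h.zf (DT.var h.zf 0)) (DT.snT h.zf (DT.var h.zf 0)))
    (prod_mem h.zf (PP_mem h) (PP_mem h))

end Pool.Agent.FBZ
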