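import Pool.Agent.FBZ.PB

/-!
# FBZ module PD: the order of conditions

Notation: for a code `y = cd ξ e τ` the restriction `rs (InC ξ e) p` is written `p|y`.
* `le_refl`: no new atoms.
* `le_rs`: `Le p (rs C p)`: if `sa y β ∈ rs C p` then `C y`, so `ga y n k ∈ p` implies
  `ga y n k ∈ rs C p` (`fs_sa`, `fs_ga`, `mem_rs`): no new atoms at `y`.
* `rs_rs`: if `C' i → C i` for all indices `i` of `p`, then `rs C' (rs C p) = rs C' p`.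
* `rs_mono`: let `Cl N μ κ C` and `Le q p`.  `rs C p ⊆ rs C q`.  Let `sa y β ∈ rs C p`,
  `ga y n k ∈ rs C q`, `ga y n k ∉ rs C p` with `y = cd ξ e τ`; then `C y`, `y ∈ II`, so `y ∈ YY`
  (`II_cases`), `ga y n k ∉ p`, and `Le q p` gives `j` with `pair (pair β n) (pair (q|y) j) ∈ τ`.
  And `(rs C q)|y = q|y` by `rs_rs`, since every index `i` of `q` with `InC ξ e i` has `C i` (`Cl`).
* `le_trans`: `Le r q`, `Le q p`.  Let `sa y β ∈ p`, `ga y n k ∈ r \ p`, `y = cd ξ e τ` (a code of `YY`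
  because `p ∈ PP`).  If `ga y n k ∈ q`: `Le q p` gives `j` with `pair (pair β n) (pair (q|y) j) ∈ τ`;
  `r|y ∈ CS (IC ξ e) μ` (`rs_mem_IC`) and `Le (r|y) (q|y)` by `rs_mono` and `cl_InC`; the openness
  of `τ` (`cd_mem_YY`, last part of `CodeOK`) gives `pair (pair β n) (pair (r|y) j) ∈ τ`.
  If `ga y n k ∉ q`: `sa y β ∈ q`, apply `Le r q`.
* `forcing_PP`: `∅ ∈ PP`; `mem_LE`; `le_refl`, `le_trans`.
* `code_of_sa`: if `sa (cd ξ e τ) β ∈ p ∈ PP` (or a `ga` atom) then `cd ξ e τ ∈ YY`.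
-/

namespace Pool.Agent.FBZ
open ZFSet
universe u
variable {N : Set ZFSet.{u}} {μ κ : ZFSet.{u}}

private theorem PD_code (h : Hyp N μ κ) {p a ξ e τ : ZFSet.{u}} (hp : p ∈ PP N μ κ)
    (ha : a ∈ p) (hf : fs a = cd ξ e τ) : cd ξ e τ ∈ YY N μ κ := by
  have h1 : cd ξ e τ ∈ II N μ κ := by
    have := fs_mem_of_mem hp ha
    rwa [hf] at this
  rcases II_cases h h1 with ⟨_, h2⟩ | ⟨ξ', e', τ', h2, h3⟩
  · exact absurd rfl (h2 ξ e τ)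
  · rw [h2]; exact h3

theorem code_of_sa (h : Hyp N μ κ) {p ξ e τ β : ZFSet.{u}} (hp : p ∈ PP N μ κ)
    (ha : sa (cd ξ e τ) β ∈ p) : cd ξ e τ ∈ YY N μ κ :=
  PD_code h hp ha (fs_sa _ _)

theorem le_refl' (p : ZFSet.{u}) : Le p p :=
  ⟨fun _ h => h, fun _ _ _ _ _ _ _ h1 h2 => absurd h1 h2⟩

theorem le_rs (C : ZFSet.{u} → Prop) (p : ZFSet.{u}) : Le p (rs C p) := by
  refine ⟨rs_sub C p, fun ξ e τ β n k h1 h2 h3 => ?_⟩
  exfalso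
  have h4 := (mem_rs.1 h1).2
  rw [fs_sa] at h4
  refine h3 (mem_rs.2 ⟨h2, ?_⟩)
  rw [fs_ga]
  exact h4

theorem rs_rs {C C' : ZFSet.{u} → Prop} {p : ZFSet.{u}} (hC : ∀ a ∈ p, C' (fs a) → C (fs a)) :
    rs C' (rs C p) = rs C' p := by
  ext a
  simp only [mem_rs]
  exact ⟨fun ⟨⟨h1, _⟩, h3⟩ => ⟨h1, h3⟩, fun ⟨h1, h3⟩ => ⟨⟨h1, hC a h1 h3⟩, h3⟩⟩

theorem rs_mono (h : Hyp N μ κ) {C : ZFSet.{u} → Prop} (hC : Cl N μ κ C) {p q : ZFSet.{u}}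
    (hp : p ∈ PP N μ κ) (hq : q ∈ PP N μ κ) (hle : Le q p) : Le (rs C q) (rs C p) := by
  refine ⟨fun a ha => ?_, fun ξ e τ β n k h1 h2 h3 => ?_⟩
  · have := mem_rs.1 ha
    exact mem_rs.2 ⟨hle.1 this.1, this.2⟩
  · obtain ⟨h1p, h1C⟩ := mem_rs.1 h1
    rw [fs_sa] at h1C
    obtain ⟨h2q, _⟩ := mem_rs.1 h2
    have h3p : ga (cd ξ e τ) n k ∉ p := fun h4 => h3 (mem_rs.2 ⟨h4, by rw [fs_ga]; exact h1C⟩)
    have hy : cd ξ e τ ∈ YY N μ κ := code_of_sa h hp h1p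
    obtain ⟨j, hj, hjτ⟩ := hle.2 ξ e τ β n k h1p h2q h3p
    refine ⟨j, hj, ?_⟩
    rw [rs_rs]
    · exact hjτ
    · intro a ha hI
      exact hC ξ e τ hy h1C (fs a) (fs_mem_of_mem hq ha) hI

theorem le_trans' (h : Hyp N μ κ) {p q r : ZFSet.{u}} (hp : p ∈ PP N μ κ) (hq : q ∈ PP N μ κ)
    (hr : r ∈ PP N μ κ) (h1 : Le r q) (h2 : Le q p) : Le r p := by
  refine ⟨fun a ha => h1.1 (h2.1 ha), fun ξ e τ β n k hs hg hng => ?_⟩
  have hy : cd ξ e τ ∈ YY N μ κ := code_of_sa h hp hs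
  by_cases hgq : ga (cd ξ e τ) n k ∈ q
  · obtain ⟨j, hj, hjτ⟩ := h2.2 ξ e τ β n k hs hgq hng
    refine ⟨j, hj, ?_⟩
    exact ((cd_mem_YY h).1 hy).2.2.2.2.2.2 _ _ _ _ hjτ (rs_mem_IC hr)
      (rs_mono h (cl_InC h hy) hq hr h1)
  · exact h1.2 ξ e τ β n k (h2.1 hs) hg hgq

theorem forcing_PP (h : Hyp N μ κ) : Forcing (PP N μ κ) (LE N μ κ) where
  nonempty := by
    refine ⟨∅, mem_CS.2 ⟨?_, ?_, ?_⟩⟩
    · have : (((∅ : ZFSet.{u}) : Set ZFSet.{u})) = ∅ := by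
        ext x; simp
      show Set.Finite _
      rw [this]
      exact Set.finite_empty
    · intro a ha; exact absurd ha (ZFSet.notMem_empty a)
    · intro i n k k' ha; exact absurd ha (ZFSet.notMem_empty _)
  field := fun a ha => (mem_sep.1 ha).1
  refl := fun p hp => mem_LE.2 ⟨hp, hp, le_refl' p⟩
  trans := fun p q r h1 h2 => by
    obtain ⟨hp, hq, hpq⟩ := mem_LE.1 h1
    obtain ⟨_, hr, hqr⟩ := mem_LE.1 h2
    exact mem_LE.2 ⟨hp, hr, le_trans' h hr hq hp hpq hqr⟩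

end Pool.Agent.FBZ
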