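import Pool.Agent.FBZ.FG
import Pool.Agent.FBZ.FH
import Pool.Agent.FBZ.FI
import Pool.Agent.FBZ.FJ
import Pool.Agent.FBZ.DI
import Pool.Agent.FBZ.DJ

/-!
# FBZ: the forcing notion (definitions)

Let `μ` be an infinite cardinal of `N` and `κ` its successor cardinal in `N`.  The index set of the
forcing is `I = κ ∪ 𝒴`: an ordinal `α ∈ κ` is the index of a Cohen real, a code
`y = cd ξ e τ ∈ 𝒴` is the index of a real which eventually dominates the `μ` reals named by `τ`.
A condition is a finite set of atoms `ga i n k` (the real with index `i` has the value `k` at `n`)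
and `sa i β` (from now on the real with index `i` is above the `β`-th real named by `i`).

A code of rank `ξ ∈ κ` is `cd ξ e τ` with `e : μ → κ` in `N`, `ξ ⊆ ran e`, and `τ ∈ N` an open set
of quadruples `((β, n), (p, j))` where `p` is a condition with all indices in
`IC ξ e`, i.e. in `ran e` or codes `cd ξ' e' τ'` with `ξ' ∈ ξ` and `ran e' ⊆ ran e`.
-/

namespace Pool.Agent.FBZ
open ZFSet
universe u

/-- The atom: the real with index `i` has value `k` at `n`. -/
noncomputable def ga (i n k : ZFSet.{u}) : ZFSet.{u} := pair i (pair ∅ (pair n k))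

/-- The atom: side condition `β` at the index `i`. -/
noncomputable def sa (i β : ZFSet.{u}) : ZFSet.{u} := pair i (pair {∅} β)

/-- Codes. -/
noncomputable def cd (ξ e τ : ZFSet.{u}) : ZFSet.{u} := pair ξ (pair e τ)

/-- The indices on which a name with the data `ξ, e` may depend. -/
def InC (ξ e i : ZFSet.{u}) : Prop :=
  i ∈ ran e ∨ ∃ ξ' e' τ', i = cd ξ' e' τ' ∧ ξ' ∈ ξ ∧ ran e' ⊆ ran e

/-- Restriction of a condition to the indices with property `C`. -/
noncomputable def rs (C : ZFSet.{u} → Prop) (p : ZFSet.{u}) : ZFSet.{u} := p.sep (fun a => C (fs a))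

/-- The ordering of conditions: `q` is stronger than `p`. -/
def Le (q p : ZFSet.{u}) : Prop :=
  p ⊆ q ∧ ∀ ξ e τ β n k, sa (cd ξ e τ) β ∈ p → ga (cd ξ e τ) n k ∈ q → ga (cd ξ e τ) n k ∉ p →
    ∃ j, (j ∈ k ∨ j = k) ∧ pair (pair β n) (pair (rs (InC ξ e) q) j) ∈ τ

/-- `p` is a condition with indices in `I` and side conditions in `μ`. -/
def Cnd (I μ p : ZFSet.{u}) : Prop :=
  Fin' p ∧ (∀ a ∈ p, (∃ i ∈ I, ∃ n ∈ ZFSet.omega.{u}, ∃ k ∈ ZFSet.omega.{u}, a = ga i n k) ∨
    ∃ i ∈ I, ∃ β ∈ μ, a = sa i β) ∧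
  ∀ i n k k', ga i n k ∈ p → ga i n k' ∈ p → k = k'

/-- The set of all atoms. -/
noncomputable def At (I μ : ZFSet.{u}) : ZFSet.{u} :=
  prod I (prod {∅} (prod ZFSet.omega ZFSet.omega) ∪ prod {{∅}} μ)

/-- The set of all conditions with indices in `I` and side conditions in `μ`. -/
noncomputable def CS (I μ : ZFSet.{u}) : ZFSet.{u} := (finset (At I μ)).sep (Cnd I μ)

/-- The requirements on a code `cd ξ e τ`, where `J` is the set of indices allowed in `τ`. -/
def CodeOK (μ κ J ξ e τ : ZFSet.{u}) : Prop :=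
  IsFunc μ κ e ∧ ξ ⊆ ran e ∧ τ ⊆ prod (prod μ ZFSet.omega) (prod (CS J μ) ZFSet.omega) ∧
    ∀ b p j q, pair b (pair p j) ∈ τ → q ∈ CS J μ → Le q p → pair b (pair q j) ∈ τ

/-- The codes of rank `ξ`, when `Z` is the set of all codes of smaller rank. -/
noncomputable def Lv (N : Set ZFSet.{u}) (μ κ Z ξ : ZFSet.{u}) : ZFSet.{u} :=
  (prod {ξ} (prod (powN N (prod μ κ))
    (powN N (prod (prod μ ZFSet.omega) (prod (CS (κ ∪ Z) μ) ZFSet.omega))))).sep
    (fun y => CodeOK μ κ ((κ ∪ Z).sep (InC ξ (fs (sn y)))) ξ (fs (sn y)) (sn (sn y)))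

/-- The codes of rank `ξ`. -/
noncomputable def Ys (N : Set ZFSet.{u}) (μ κ : ZFSet.{u}) : ZFSet.{u} → ZFSet.{u} :=
  recF (fun g => Lv N μ κ (⋃₀ (ran g) : ZFSet.{u}) (dom g))

/-- All codes. -/
noncomputable def YY (N : Set ZFSet.{u}) (μ κ : ZFSet.{u}) : ZFSet.{u} :=
  (⋃₀ (img (Ys N μ κ) κ) : ZFSet.{u})

/-- All indices. -/
noncomputable def II (N : Set ZFSet.{u}) (μ κ : ZFSet.{u}) : ZFSet.{u} := κ ∪ YY N μ κ

/-- The indices allowed in a name with data `ξ, e`. -/
noncomputable def IC (N : Set ZFSet.{u}) (μ κ ξ e : ZFSet.{u}) : ZFSet.{u} :=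
  (II N μ κ).sep (InC ξ e)

/-- The set of conditions. -/
noncomputable def PP (N : Set ZFSet.{u}) (μ κ : ZFSet.{u}) : ZFSet.{u} := CS (II N μ κ) μ

/-- The order relation on the conditions. -/
noncomputable def LE (N : Set ZFSet.{u}) (μ κ : ZFSet.{u}) : ZFSet.{u} :=
  (prod (PP N μ κ) (PP N μ κ)).sep (fun a => Le (fs a) (sn a))

/-- Standing assumptions. -/
structure Hyp (N : Set ZFSet.{u}) (μ κ : ZFSet.{u}) : Prop where
  zf : ZF N
  inf : ZFSet.omega ⊆ μ
  succ : SuccCard N μ κ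

/-- A class of indices which is closed under the indices used by its codes. -/
def Cl (N : Set ZFSet.{u}) (μ κ : ZFSet.{u}) (C : ZFSet.{u} → Prop) : Prop :=
  ∀ ξ e τ, cd ξ e τ ∈ YY N μ κ → C (cd ξ e τ) → ∀ i ∈ II N μ κ, InC ξ e i → C i

/-- The condition `p` has at most `m` atoms (`m ∈ ω`), and only values and arguments below `m`. -/
def Bd (m p : ZFSet.{u}) : Prop := nc p ⊆ m ∧ ∀ i n k, ga i n k ∈ p → n ∈ m ∧ k ∈ m

/-- The index `i` is in the support of the set of all `p` with `pair a (pair j p) ∈ B`. -/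
def Sp (B a j i : ZFSet.{u}) : Prop :=
  ∃ p, pair a (pair j p) ∈ B ∧ (∃ b ∈ p, fs b = i) ∧ pair a (pair j (rs (fun x => x ≠ i) p)) ∉ B

/-- The part of the support seen by conditions with `Bd m` and side conditions in `S`. -/
def SpB (B a j m S i : ZFSet.{u}) : Prop :=
  ∃ p, Bd m p ∧ (∀ x β, sa x β ∈ p → β ∈ S) ∧ pair a (pair j p) ∈ B ∧ (∃ b ∈ p, fs b = i) ∧
    pair a (pair j (rs (fun x => x ≠ i) p)) ∉ B

end Pool.Agent.FBZ
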