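import Pool.Agent.FBZ.PD

/-!
# FBZ module PE: amalgamation of conditions

* `amalg`: let `C` be closed, `p, q ∈ PP`, all indices of `q` in `C`, `Le q (rs C p)`; put
  `r = q ∪ rs (fun i => ¬ C i) p`.  `r ∈ PP` (`CS_union`: the indices are disjoint).  `p ⊆ r`: atoms
  of `p` with index in `C` are in `rs C p ⊆ q`.  `Le r p`: let `sa y β ∈ p`, `ga y n k ∈ r \ p`,
  `y = cd ξ e τ`.  If `C y`: `sa y β ∈ rs C p`, `ga y n k ∈ q \ rs C p`, so there is `j` with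
  `pair (pair β n) (pair (rs (InC ξ e) q) j) ∈ τ`, and `rs (InC ξ e) r = rs (InC ξ e) q` because
  indices `i` of `r` with `InC ξ e i` satisfy `C i` (`Cl`, `y ∈ YY` by `code_of_sa`).  If `¬ C y` then
  `ga y n k ∈ p`, contradiction.  `Le r q`: if `sa y β ∈ q` then `C y`, so `ga y n k ∈ r` gives
  `ga y n k ∈ q`.  `rs C r = q`.
* `amalg_over`: let `p, r ∈ PP`, `Le r (rs D p)` and every common index of `p` and `r` is in `D`.
  Then `p ∪ r ∈ PP`: if `ga i n k ∈ p`, `ga i n k' ∈ r`, then `D i`, so `ga i n k ∈ rs D p ⊆ r` and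
  `k = k'`.  `Le (p ∪ r) r`: if `sa y β ∈ r`, `ga y n k ∈ p`, then `D y`, so `ga y n k ∈ r`.
  `Le (p ∪ r) p`: if `sa y β ∈ p`, `ga y n k ∈ r \ p`, then `D y`, `sa y β ∈ rs D p`,
  `ga y n k ∉ rs D p`, so there is `j` with `pair (pair β n) (pair (rs (InC ξ e) r) j) ∈ τ`; by
  openness (`cd_mem_YY`) and `Le (rs (InC ξ e) (p ∪ r)) (rs (InC ξ e) r)` (`rs_mono`, `cl_InC`) the
  same holds for `p ∪ r`.
* `amalg_eq`: let `p, q ∈ PP` have the same `ga` atoms at every common index.  Then `p ∪ q ∈ PP`,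
  `Le (p ∪ q) p`, `Le (p ∪ q) q`: if `sa y β ∈ p` and `ga y n k ∈ q` then `y` is a common index, so
  `ga y n k ∈ p`.
-/

namespace Pool.Agent.FBZ
open ZFSet
universe u
variable {N : Set ZFSet.{u}} {μ κ : ZFSet.{u}}

theorem amalg (h : Hyp N μ κ) {C : ZFSet.{u} → Prop} (hC : Cl N μ κ C) {p q : ZFSet.{u}}
    (hp : p ∈ PP N μ κ) (hq : q ∈ PP N μ κ) (hqC : ∀ a ∈ q, C (fs a)) (hle : Le q (rs C p)) :
    q ∪ rs (fun i => ¬ C i) p ∈ PP N μ κ ∧ Le (q ∪ rs (fun i => ¬ C i) p) p ∧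
      Le (q ∪ rs (fun i => ¬ C i) p) q ∧ rs C (q ∪ rs (fun i => ¬ C i) p) = q := by
  refine ⟨?_, ⟨?_, ?_⟩, ⟨?_, ?_⟩, ?_⟩
  · refine CS_union hq (rs_mem _ hp) ?_
    intro i n k k' h1 h2
    have h3 := hqC _ h1
    have h4 := (mem_rs.1 h2).2
    rw [fs_ga] at h3 h4
    exact absurd h3 h4
  · intro a ha
    by_cases hc : C (fs a)
    · exact mem_union.2 (Or.inl (hle.1 (mem_rs.2 ⟨ha, hc⟩)))
    · exact mem_union.2 (Or.inr (mem_rs.2 ⟨ha, hc⟩))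
  · intro ξ e τ β n k hs hg hng
    have hy : cd ξ e τ ∈ YY N μ κ := code_of_sa h hp hs
    rcases mem_union.1 hg with hgq | hgp
    · have hCy := hqC _ hgq
      rw [fs_ga] at hCy
      have h1 : sa (cd ξ e τ) β ∈ rs C p := mem_rs.2 ⟨hs, by rw [fs_sa]; exact hCy⟩
      have h2 : ga (cd ξ e τ) n k ∉ rs C p := fun h3 => hng (mem_rs.1 h3).1
      obtain ⟨j, hj, hjτ⟩ := hle.2 ξ e τ β n k h1 hgq h2
      refine ⟨j, hj, ?_⟩
      have h4 : rs (InC ξ e) (q ∪ rs (fun i => ¬ C i) p) = rs (InC ξ e) q := by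
        ext a
        rw [mem_rs, mem_rs, mem_union]
        constructor
        · rintro ⟨h5 | h5, h6⟩
          · exact ⟨h5, h6⟩
          · have h7 := mem_rs.1 h5
            exact absurd (hC ξ e τ hy hCy (fs a) (fs_mem_of_mem hp h7.1) h6) h7.2
        · rintro ⟨h5, h6⟩
          exact ⟨Or.inl h5, h6⟩
      rw [h4]
      exact hjτ
    · exact absurd (mem_rs.1 hgp).1 hng
  · intro a ha
    exact mem_union.2 (Or.inl ha)
  · intro ξ e τ β n k hs hg hng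
    rcases mem_union.1 hg with hgq | hgp
    · exact absurd hgq hng
    · have h1 := hqC _ hs
      have h2 := (mem_rs.1 hgp).2
      rw [fs_sa] at h1
      rw [fs_ga] at h2
      exact absurd h1 h2
  · ext a
    rw [mem_rs, mem_union]
    constructor
    · rintro ⟨h5 | h5, h6⟩
      · exact h5
      · exact absurd h6 (mem_rs.1 h5).2
    · intro h5
      exact ⟨Or.inl h5, hqC a h5⟩

theorem amalg_over (h : Hyp N μ κ) {D : ZFSet.{u} → Prop} {p r : ZFSet.{u}}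
    (hp : p ∈ PP N μ κ) (hr : r ∈ PP N μ κ) (hle : Le r (rs D p))
    (hD : ∀ a ∈ p, ∀ b ∈ r, fs a = fs b → D (fs a)) :
    p ∪ r ∈ PP N μ κ ∧ Le (p ∪ r) p ∧ Le (p ∪ r) r := by
  have hpr : p ∪ r ∈ PP N μ κ := by
    refine CS_union hp hr ?_
    intro i n k k' h1 h2
    have h3 : D (fs (ga i n k)) := hD _ h1 _ h2 (by rw [fs_ga, fs_ga])
    exact CS_fun hr (hle.1 (mem_rs.2 ⟨h1, h3⟩)) h2
  have hler : Le (p ∪ r) r := by
    refine ⟨fun a ha => mem_union.2 (Or.inr ha), ?_⟩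
    intro ξ e τ β n k hs hg hng
    rcases mem_union.1 hg with hgp | hgr
    · have h3 : D (fs (ga (cd ξ e τ) n k)) := hD _ hgp _ hs (by rw [fs_ga, fs_sa])
      exact absurd (hle.1 (mem_rs.2 ⟨hgp, h3⟩)) hng
    · exact absurd hgr hng
  refine ⟨hpr, ⟨fun a ha => mem_union.2 (Or.inl ha), ?_⟩, hler⟩
  intro ξ e τ β n k hs hg hng
  have hy : cd ξ e τ ∈ YY N μ κ := code_of_sa h hp hs
  rcases mem_union.1 hg with hgp | hgr
  · exact absurd hgp hng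
  · have h3 : D (fs (sa (cd ξ e τ) β)) := hD _ hs _ hgr (by rw [fs_ga, fs_sa])
    have h4 : ga (cd ξ e τ) n k ∉ rs D p := fun h5 => hng (mem_rs.1 h5).1
    obtain ⟨j, hj, hjτ⟩ := hle.2 ξ e τ β n k (mem_rs.2 ⟨hs, h3⟩) hgr h4
    refine ⟨j, hj, ?_⟩
    exact ((cd_mem_YY h).1 hy).2.2.2.2.2.2 _ _ _ _ hjτ (rs_mem_IC hpr)
      (rs_mono h (cl_InC h hy) hr hpr hler)

theorem amalg_eq {p q : ZFSet.{u}} (hp : p ∈ PP N μ κ) (hq : q ∈ PP N μ κ)
    (he : ∀ i, (∃ a ∈ p, fs a = i) → (∃ b ∈ q, fs b = i) →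
      ∀ n k, (ga i n k ∈ p ↔ ga i n k ∈ q)) :
    p ∪ q ∈ PP N μ κ ∧ Le (p ∪ q) p ∧ Le (p ∪ q) q := by
  refine ⟨?_, ⟨fun a ha => mem_union.2 (Or.inl ha), ?_⟩, ⟨fun a ha => mem_union.2 (Or.inr ha), ?_⟩⟩
  · refine CS_union hp hq ?_
    intro i n k k' h1 h2
    have h3 := (he i ⟨_, h1, fs_ga _ _ _⟩ ⟨_, h2, fs_ga _ _ _⟩ n k).1 h1
    exact CS_fun hq h3 h2
  · intro ξ e τ β n k hs hg hng
    rcases mem_union.1 hg with hgp | hgq
    · exact absurd hgp hng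
    · exact absurd ((he _ ⟨_, hs, fs_sa _ _⟩ ⟨_, hgq, fs_ga _ _ _⟩ n k).2 hgq) hng
  · intro ξ e τ β n k hs hg hng
    rcases mem_union.1 hg with hgp | hgq
    · exact absurd ((he _ ⟨_, hgp, fs_ga _ _ _⟩ ⟨_, hs, fs_sa _ _⟩ n k).1 hgp) hng
    · exact absurd hgq hng

end Pool.Agent.FBZ
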