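import Mathlib

/-!
# FBZ module PF: a finiteness lemma (pure combinatorics, Mathlib only)

`F` is a set of triples `(D, w, l)`: a finite set `D` of indices with at most `n` elements, a
function `w` from the indices to a finite set, and a label `l`.  For a finite set `E` and a
function `v` let `F(E, v)` be the set of the members with `E ⊆ D` and `w = v` on `E`.  Assume that for
all `E, v` either the set of labels of `F(E, v)` is finite or there is a finite set `R` which meets
`D \ E` for all members of `F(E, v)`.  Then the set of all labels is finite.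

Proof.  Show by induction on `n - |E|` (for all `E, v`) that the set `L(E, v)` of labels of `F(E, v)`
is finite; then take `E = ∅`.  If the first alternative holds for `E, v`, done.  Otherwise let `R` be
as in the second one.  If `|E| ≥ n`: for a member of `F(E, v)` we have `E ⊆ D`, `|D| ≤ n ≤ |E|`, so
`D = E` and `D \ E` is empty and is not met by `R`; so `F(E, v)` is empty and `L(E, v) = ∅`.
If `|E| < n`: `L(E, v)` is contained in the union over `i ∈ R \ E` and `c : σ` of
`L(insert i E, Function.update v i c)`: for a member `(D, w, l)` choose `i ∈ R`, `i ∈ D`, `i ∉ E` and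
`c = w i`.  These are finitely many sets, finite by induction.
-/

namespace Pool.Agent.FBZ

theorem fin_labels {ι σ Λ : Type*} [Finite σ] (n : ℕ) (F : Set (Finset ι × (ι → σ) × Λ))
    (hcard : ∀ x ∈ F, x.1.card ≤ n)
    (hF : ∀ (E : Finset ι) (v : ι → σ),
      {l | ∃ D w, (D, w, l) ∈ F ∧ E ⊆ D ∧ ∀ i ∈ E, w i = v i}.Finite ∨
      ∃ R : Finset ι, ∀ D w l, (D, w, l) ∈ F → E ⊆ D → (∀ i ∈ E, w i = v i) →
        ∃ i ∈ R, i ∈ D ∧ i ∉ E) :
    {l | ∃ D w, (D, w, l) ∈ F}.Finite := by
  classical
  have key : ∀ (k : ℕ) (E : Finset ι) (v : ι → σ), n ≤ E.card + k →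
      {l | ∃ D w, (D, w, l) ∈ F ∧ E ⊆ D ∧ ∀ i ∈ E, w i = v i}.Finite := by
    intro k
    induction k with
    | zero =>
      intro E v hE
      rcases hF E v with h | ⟨R, hR⟩
      · exact h
      · have : {l | ∃ D w, (D, w, l) ∈ F ∧ E ⊆ D ∧ ∀ i ∈ E, w i = v i} = ∅ := by
          ext l
          simp only [Set.mem_ofPred_eq, Set.mem_empty_iff_false, iff_false]
          rintro ⟨D, w, hD, hED, hw⟩
          obtain ⟨i, _, hiD, hiE⟩ := hR D w l hD hED hw
          have h1 : D.card ≤ n := hcard _ hD
          have h2 : E = D := Finset.eq_of_subset_of_card_le hED (by omega)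
          exact hiE (h2 ▸ hiD)
        rw [this]
        exact Set.finite_empty
    | succ k ih =>
      intro E v hE
      rcases hF E v with h | ⟨R, hR⟩
      · exact h
      · refine Set.Finite.subset (s := ⋃ i ∈ R \ E, ⋃ c : σ,
          {l | ∃ D w, (D, w, l) ∈ F ∧ insert i E ⊆ D ∧
            ∀ j ∈ insert i E, w j = Function.update v i c j}) ?_ ?_
        · refine Set.Finite.biUnion (Finset.finite_toSet _) ?_
          intro i hi
          refine Set.finite_iUnion ?_
          intro c
          refine ih _ _ ?_
          have hi' : i ∉ E := by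
            have := Finset.mem_sdiff.1 (Finset.mem_coe.1 hi)
            exact this.2
          rw [Finset.card_insert_of_notMem hi']
          omega
        · rintro l ⟨D, w, hD, hED, hw⟩
          obtain ⟨i, hiR, hiD, hiE⟩ := hR D w l hD hED hw
          simp only [Set.mem_iUnion]
          refine ⟨i, Finset.mem_sdiff.2 ⟨hiR, hiE⟩, w i, D, w, hD, ?_, ?_⟩
          · exact Finset.insert_subset hiD hED
          · intro j hj
            rcases Finset.mem_insert.1 hj with rfl | hj
            · simp
            · have hji : j ≠ i := fun h => hiE (h ▸ hj)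
              rw [Function.update_of_ne hji]
              exact hw j hj
  rcases isEmpty_or_nonempty (ι → σ) with h0 | ⟨⟨v⟩⟩
  · refine Set.Finite.subset Set.finite_empty ?_
    rintro l ⟨D, w, _⟩
    exact (h0.false w).elim
  · refine Set.Finite.subset (key n ∅ v (by omega)) ?_
    rintro l ⟨D, w, hD⟩
    exact ⟨D, w, hD, Finset.empty_subset _, fun i hi => absurd hi (Finset.notMem_empty _)⟩

end Pool.Agent.FBZ
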