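import Pool.Agent.FBZ.PE
import Pool.Agent.FBZ.PF

/-!
# FBZ module PG1: only finitely many values are decided by conditions of bounded size

Let `Nice (PP) (LE) A J B`, `a ∈ A`, `m : ℕ`.  The set of all `j ∈ J` for which some condition `p`
with `Bd (nz m) p` has `pair a (pair j p) ∈ B` is finite.

Proof.  Apply `fin_labels` with indices `ι = ZFSet`, `σ = Set (Fin m × Fin m)`, labels `ZFSet`, `n = m`,
`F = {(D, w, j) : ∃ p, pair a (pair j p) ∈ B, Bd (nz m) p, D = the finite set of all fs b, b ∈ p,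
w i = {(s, t) : ga i (nz s) (nz t) ∈ p}}`.  `|D| ≤ |p| ≤ m` (`nc p ⊆ nz m`, `nz_subset_nz`).
Let `E, v` be given.  If the labels of `F(E, v)` are not all equal, take two members with different
labels `j₀ ≠ j₁`, given by `p₀, D₀` and `p₁, D₁`, and put `R = D₀ ∪ D₁`.  Let `p, D, w, j` be a member
of `F(E, v)`.  Then `j ≠ j₀` or `j ≠ j₁`, say `j ≠ j₀`.  If there were no `i ∈ D₀ ∩ D`, `i ∉ E`, then
every common index of `p` and `p₀` is in `E`, and there `w = v = w₀`, so `p` and `p₀` have the same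
`ga` atoms at every common index (all their values and arguments are `< m`: `Bd`, `mem_nz`);
`amalg_eq` gives a common extension, so `j = j₀` by `Nice.fn` (`mem_LE`), contradiction.
-/

namespace Pool.Agent.FBZ
open ZFSet
universe u
variable {N : Set ZFSet.{u}} {μ κ : ZFSet.{u}}

/-- The index set, the `ga` atoms and the label of a condition. -/
private def PG1_mem (B a : ZFSet.{u}) (m : ℕ) (p : ZFSet.{u}) (D : Finset ZFSet.{u})
    (w : ZFSet.{u} → Set (Fin m × Fin m)) (j : ZFSet.{u}) : Prop :=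
  pair a (pair j p) ∈ B ∧ Bd (nz m) p ∧ (∀ i, i ∈ D ↔ ∃ b ∈ p, fs b = i) ∧
    ∀ i, ∀ st : Fin m × Fin m, st ∈ w i ↔ ga i (nz st.1) (nz st.2) ∈ p

private theorem PG1_key {A J B a : ZFSet.{u}} {m : ℕ}
    (hB : Nice (PP N μ κ) (LE N μ κ) A J B) {p q : ZFSet.{u}} {D D' : Finset ZFSet.{u}}
    {w w' v : ZFSet.{u} → Set (Fin m × Fin m)} {j j' : ZFSet.{u}} {E : Finset ZFSet.{u}}
    (h1 : PG1_mem B a m p D w j) (h2 : PG1_mem B a m q D' w' j')
    (hw : ∀ i ∈ E, w i = v i) (hw' : ∀ i ∈ E, w' i = v i)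
    (hE : ∀ i ∈ D', i ∈ D → i ∈ E) : j = j' := by
  obtain ⟨hpB, hpm, hpD, hpw⟩ := h1
  obtain ⟨hqB, hqm, hqD, hqw⟩ := h2
  have hp : p ∈ PP N μ κ := (pair_mem_prod.1 (pair_mem_prod.1 (hB.sub hpB)).2).2
  have hq : q ∈ PP N μ κ := (pair_mem_prod.1 (pair_mem_prod.1 (hB.sub hqB)).2).2
  have key := amalg_eq hp hq (fun i hi hi' n k => by
    have hiE : i ∈ E := hE i ((hqD i).2 hi') ((hpD i).2 hi)
    have hww : w i = w' i := (hw i hiE).trans (hw' i hiE).symm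
    constructor
    · intro hg
      obtain ⟨hn, hk⟩ := hpm.2 i n k hg
      obtain ⟨s, hs, rfl⟩ := mem_nz.1 hn
      obtain ⟨t, ht, rfl⟩ := mem_nz.1 hk
      have := (hpw i (⟨s, hs⟩, ⟨t, ht⟩)).2 hg
      rw [hww] at this
      exact (hqw i (⟨s, hs⟩, ⟨t, ht⟩)).1 this
    · intro hg
      obtain ⟨hn, hk⟩ := hqm.2 i n k hg
      obtain ⟨s, hs, rfl⟩ := mem_nz.1 hn
      obtain ⟨t, ht, rfl⟩ := mem_nz.1 hk
      have := (hqw i (⟨s, hs⟩, ⟨t, ht⟩)).2 hg
      rw [← hww] at this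
      exact (hpw i (⟨s, hs⟩, ⟨t, ht⟩)).1 this)
  exact hB.fn a j j' p q (p ∪ q) hpB hqB (mem_LE.2 ⟨key.1, hp, key.2.1⟩)
    (mem_LE.2 ⟨key.1, hq, key.2.2⟩)

theorem fin_values (h : Hyp N μ κ) {A J B a : ZFSet.{u}}
    (hB : Nice (PP N μ κ) (LE N μ κ) A J B) (ha : a ∈ A) (m : ℕ) :
    {j | ∃ p, Bd (nz m) p ∧ pair a (pair j p) ∈ B}.Finite := by
  classical
  have hPP : ∀ {j p : ZFSet.{u}}, pair a (pair j p) ∈ B → p ∈ PP N μ κ := by
    intro j p hp
    exact (pair_mem_prod.1 (pair_mem_prod.1 (hB.sub hp)).2).2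
  have hfinp : ∀ {p : ZFSet.{u}}, p ∈ PP N μ κ → (p : Set ZFSet.{u}).Finite := by
    intro p hp
    exact (mem_CS.1 hp).1
  refine Set.Finite.subset (fin_labels (ι := ZFSet.{u}) (σ := Set (Fin m × Fin m))
    (Λ := ZFSet.{u}) m {x | ∃ p, PG1_mem B a m p x.1 x.2.1 x.2.2} ?_ ?_) ?_
  · rintro ⟨D, w, j⟩ ⟨p, hpB, hpm, hpD, hpw⟩
    have hfin := hfinp (hPP hpB)
    have h1 : D ⊆ hfin.toFinset.image fs := by
      intro i hi
      obtain ⟨b, hb, hbi⟩ := (hpD i).1 hi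
      exact Finset.mem_image.2 ⟨b, hfin.mem_toFinset.2 hb, hbi⟩
    have h2 : D.card ≤ hfin.toFinset.card := (Finset.card_le_card h1).trans Finset.card_image_le
    have h3 : hfin.toFinset.card ≤ m := by
      have h4 := hpm.1
      unfold nc at h4
      have h5 := nz_subset_nz.1 h4
      rwa [Set.ncard_eq_toFinset_card _ hfin] at h5
    exact h2.trans h3
  · intro E v
    by_cases hS : ∀ l l', (∃ D w, (D, w, l) ∈ {x : Finset ZFSet.{u} ×
        (ZFSet.{u} → Set (Fin m × Fin m)) × ZFSet.{u} | ∃ p, PG1_mem B a m p x.1 x.2.1 x.2.2} ∧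
        E ⊆ D ∧ ∀ i ∈ E, w i = v i) →
        (∃ D w, (D, w, l') ∈ {x : Finset ZFSet.{u} ×
        (ZFSet.{u} → Set (Fin m × Fin m)) × ZFSet.{u} | ∃ p, PG1_mem B a m p x.1 x.2.1 x.2.2} ∧
        E ⊆ D ∧ ∀ i ∈ E, w i = v i) → l = l'
    · left
      exact Set.Subsingleton.finite (fun l hl l' hl' => hS l l' hl hl')
    · right
      push Not at hS
      obtain ⟨j0, j1, ⟨D0, w0, ⟨p0, hp0⟩, _, hw0⟩, ⟨D1, w1, ⟨p1, hp1⟩, _, hw1⟩, hne⟩ := hS
      refine ⟨D0 ∪ D1, ?_⟩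
      rintro D w l ⟨p, hp⟩ hED hw
      by_contra hcon
      push Not at hcon
      have e0 : l = j0 := by
        refine PG1_key hB hp hp0 hw hw0 ?_
        intro i hi hi'
        exact hcon i (Finset.mem_union_left _ hi) hi'
      have e1 : l = j1 := by
        refine PG1_key hB hp hp1 hw hw1 ?_
        intro i hi hi'
        exact hcon i (Finset.mem_union_right _ hi) hi'
      exact hne (e0.symm.trans e1)
  · rintro j ⟨p, hpm, hpB⟩
    have hfin := hfinp (hPP hpB)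
    refine ⟨hfin.toFinset.image fs, fun i => {st | ga i (nz st.1) (nz st.2) ∈ p}, p, hpB, hpm,
      ?_, ?_⟩
    · intro i
      simp only [Finset.mem_image, Set.Finite.mem_toFinset]
      exact Iff.rfl
    · intro i st
      exact Iff.rfl

end Pool.Agent.FBZ
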