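import Pool.Agent.FBZ.PE
import Pool.Agent.FBZ.PF

/-!
# FBZ module PG2: supports are locally finite

Let `Nice (PP) (LE) A J B`, `a ∈ A`, `j ∈ J`, `m : ℕ`, `S` a finite set.  Then
`{i : SpB B a j (nz m) S i}` is finite.

Proof.  Apply `fin_labels` with `ι = ZFSet`, `σ = Set (Fin m × Fin m) × Set S` (a finite type, `S`
as a type), `n = m`, and `F = {(D, w, i) : ∃ p as in the definition of SpB, D = the finite set of
all indices fs b, b ∈ p, w x = ({(s, t) : ga x (nz s) (nz t) ∈ p}, {β ∈ S : sa x β ∈ p})}`.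
The atoms of such a `p` at an index `x` are determined by `w x`; `|D| ≤ m`.
Let `E, v` be given, and suppose `F(E, v)` is nonempty; let `p₀` be one of its conditions and
`v₀ = rs (· ∈ E) p₀`.  Every condition `p` of `F(E, v)` has `rs (· ∈ E) p = v₀`.
Case A: `pair a (pair j v₀) ∈ B`.  Let `(D, w, i)` be a member, with `p`.  If `i ∉ E` then for
  `p' = rs (· ≠ i) p` we have `rs (· ∈ E) p' = v₀` so `Le p' v₀` (`le_rs`), so
  `pair a (pair j p') ∈ B` by `Nice.opn`, which contradicts the choice of `p`.  So all labels are in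
  `E`: finite.
Case B: `pair a (pair j v₀) ∉ B`.  By `Nice.reg` there is `r ∈ PP`, `Le r v₀`, such that no extension
  `r'` of `r` has `pair a (pair j r') ∈ B`.  Let `R` be the finite set of indices of `r`.  Let
  `(D, w, i)` be a member, with `p`.  If no `x ∈ R` has `x ∈ D`, `x ∉ E`, then every common index of
  `p` and `r` is in `E`; `amalg_over` (with `D := (· ∈ E)`, `rs (· ∈ E) p = v₀`) gives
  `p ∪ r ∈ PP` below `p` and `r`; `pair a (pair j (p ∪ r)) ∈ B` by `Nice.opn`, contradiction.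
-/

namespace Pool.Agent.FBZ
open ZFSet
universe u
variable {N : Set ZFSet.{u}} {μ κ : ZFSet.{u}}

/-- the data of a condition at an index -/
private def PG2_W (m : ℕ) (S p x : ZFSet.{u}) :
    Set (Fin m × Fin m) × Set ((S : Set ZFSet.{u})) :=
  ({st | ga x (nz st.1) (nz st.2) ∈ p}, {β | sa x β.1 ∈ p})

private theorem PG2_sub {m : ℕ} {S p q : ZFSet.{u}} {I : ZFSet.{u}} (hp : p ∈ CS I μ)
    (hb : Bd (nz m) p) (hs : ∀ x β, sa x β ∈ p → β ∈ S) {E : Finset ZFSet.{u}}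
    (hE : ∀ i ∈ E, PG2_W m S p i = PG2_W m S q i) {b : ZFSet.{u}} (hbp : b ∈ p)
    (hbE : fs b ∈ E) : b ∈ q := by
  rcases atom_cases hp hbp with ⟨i, _, n, _, k, _, rfl⟩ | ⟨i, _, β, _, rfl⟩
  · rw [fs_ga] at hbE
    obtain ⟨hn, hk⟩ := hb.2 i n k hbp
    obtain ⟨s, hs', rfl⟩ := mem_nz.1 hn
    obtain ⟨t, ht', rfl⟩ := mem_nz.1 hk
    have h1 : ((⟨s, hs'⟩, ⟨t, ht'⟩) : Fin m × Fin m) ∈ (PG2_W m S p i).1 := hbp
    rw [hE i hbE] at h1
    exact h1
  · rw [fs_sa] at hbE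
    have hβ := hs i β hbp
    have h1 : (⟨β, hβ⟩ : (S : Set ZFSet.{u})) ∈ (PG2_W m S p i).2 := hbp
    rw [hE i hbE] at h1
    exact h1

private theorem PG2_rs {m : ℕ} {S p q : ZFSet.{u}} {I : ZFSet.{u}} (hp : p ∈ CS I μ)
    (hbp : Bd (nz m) p) (hsp : ∀ x β, sa x β ∈ p → β ∈ S) (hq : q ∈ CS I μ)
    (hbq : Bd (nz m) q) (hsq : ∀ x β, sa x β ∈ q → β ∈ S) {E : Finset ZFSet.{u}}
    (hE : ∀ i ∈ E, PG2_W m S p i = PG2_W m S q i) :
    rs (fun x => x ∈ E) p = rs (fun x => x ∈ E) q := by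
  ext b
  rw [mem_rs, mem_rs]
  constructor
  · rintro ⟨h1, h2⟩
    exact ⟨PG2_sub hp hbp hsp hE h1 h2, h2⟩
  · rintro ⟨h1, h2⟩
    exact ⟨PG2_sub hq hbq hsq (fun i hi => (hE i hi).symm) h1 h2, h2⟩

theorem fin_support (h : Hyp N μ κ) {A J B a j S : ZFSet.{u}}
    (hB : Nice (PP N μ κ) (LE N μ κ) A J B) (ha : a ∈ A) (hj : j ∈ J) (m : ℕ) (hS : Fin' S) :
    {i | SpB B a j (nz m) S i}.Finite := by
  classical
  have hPP : ∀ p, pair a (pair j p) ∈ B → p ∈ PP N μ κ := by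
    intro p hp
    have h1 := hB.sub hp
    rw [pair_mem_prod] at h1
    have h2 := h1.2
    rw [pair_mem_prod] at h2
    exact h2.2
  have hfp : ∀ p, p ∈ PP N μ κ → Fin' p := fun p hp => (mem_CS.1 hp).1
  have hSfin : Finite ((S : Set ZFSet.{u})) := hS
  set F : Set (Finset ZFSet.{u} × (ZFSet.{u} → (Set (Fin m × Fin m) × Set ((S : Set ZFSet.{u})))) ×
    ZFSet.{u}) := {X | ∃ p, Bd (nz m) p ∧ (∀ x β, sa x β ∈ p → β ∈ S) ∧
      pair a (pair j p) ∈ B ∧ (∃ b ∈ p, fs b = X.2.2) ∧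
      pair a (pair j (rs (fun x => x ≠ X.2.2) p)) ∉ B ∧
      (∀ x, x ∈ X.1 ↔ ∃ b ∈ p, fs b = x) ∧ X.2.1 = PG2_W m S p} with hF
  have hind : ∀ p, Fin' p → ∃ D : Finset ZFSet.{u}, ∀ x, x ∈ D ↔ ∃ b ∈ p, fs b = x := by
    intro p hp
    have h1 : (fs '' (p : Set ZFSet.{u})).Finite := Set.Finite.image _ hp
    refine ⟨h1.toFinset, fun x => ?_⟩
    rw [Set.Finite.mem_toFinset]
    constructor
    · rintro ⟨b, hb, rfl⟩
      exact ⟨b, hb, rfl⟩
    · rintro ⟨b, hb, rfl⟩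
      exact ⟨b, hb, rfl⟩
  have hsub : {i | SpB B a j (nz m) S i} ⊆ {l | ∃ D w, (D, w, l) ∈ F} := by
    rintro i ⟨p, h1, h2, h3, h4, h5⟩
    obtain ⟨D, hD⟩ := hind p (hfp p (hPP p h3))
    exact ⟨D, PG2_W m S p, p, h1, h2, h3, h4, h5, hD, rfl⟩
  refine Set.Finite.subset (fin_labels m F ?_ ?_) hsub
  · rintro ⟨D, w, l⟩ ⟨p, h1, h2, h3, h4, h5, h6, h7⟩
    have hp := hfp p (hPP p h3)
    have h8 : (D : Set ZFSet.{u}) ⊆ fs '' (p : Set ZFSet.{u}) := by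
      intro x hx
      obtain ⟨b, hb, hbx⟩ := (h6 x).1 hx
      exact ⟨b, hb, hbx⟩
    have h9 : (p : Set ZFSet.{u}).ncard ≤ m := nz_subset_nz.1 h1.1
    calc D.card = (D : Set ZFSet.{u}).ncard := (Set.ncard_coe_finset D).symm
      _ ≤ (fs '' (p : Set ZFSet.{u})).ncard := Set.ncard_le_ncard h8 (Set.Finite.image _ hp)
      _ ≤ (p : Set ZFSet.{u}).ncard := Set.ncard_image_le hp
      _ ≤ m := h9
  · intro E v
    by_cases hne : ∃ D w l, (D, w, l) ∈ F ∧ E ⊆ D ∧ ∀ i ∈ E, w i = v i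
    swap
    · left
      have h1 : {l | ∃ D w, (D, w, l) ∈ F ∧ E ⊆ D ∧ ∀ i ∈ E, w i = v i} = ∅ := by
        ext l
        simp only [Set.mem_setOf_eq, Set.mem_empty_iff_false, iff_false]
        rintro ⟨D, w, h⟩
        exact hne ⟨D, w, l, h⟩
      rw [h1]
      exact Set.finite_empty
    obtain ⟨D₀, w₀, l₀, ⟨p₀, a1, a2, a3, a4, a5, a6, a7⟩, hE₀, hv₀⟩ := hne
    have hp₀ := hPP p₀ a3
    have key : ∀ D w l, (D, w, l) ∈ F → E ⊆ D → (∀ i ∈ E, w i = v i) →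
        ∀ p, Bd (nz m) p → (∀ x β, sa x β ∈ p → β ∈ S) → pair a (pair j p) ∈ B →
        w = PG2_W m S p → rs (fun x => x ∈ E) p = rs (fun x => x ∈ E) p₀ := by
      intro D w l _ _ hv p b1 b2 b3 b4
      refine PG2_rs (hPP p b3) b1 b2 hp₀ a1 a2 fun i hi => ?_
      have h1 : w₀ = PG2_W m S p₀ := a7
      rw [← b4, ← h1, hv i hi, hv₀ i hi]
    set v₀ := rs (fun x => x ∈ E) p₀ with hv₀'
    have hv₀P : v₀ ∈ PP N μ κ := rs_mem _ hp₀
    by_cases hA : pair a (pair j v₀) ∈ B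
    · left
      refine Set.Finite.subset E.finite_toSet ?_
      rintro l ⟨D, w, hX, hED, hvE⟩
      by_contra hl
      have hl' : l ∉ E := hl
      obtain ⟨p, b1, b2, b3, b4, b5, b6, b7⟩ := id hX
      have hk := key D w l hX hED hvE p b1 b2 b3 b7
      have hp := hPP p b3
      refine b5 (hB.opn a j v₀ _ hA ?_)
      rw [mem_LE]
      refine ⟨rs_mem _ hp, hv₀P, ?_⟩
      have h1 : rs (fun x => x ∈ E) (rs (fun x => x ≠ l) p) = rs (fun x => x ∈ E) p :=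
        rs_rs (fun b _ hb hbl => hl' (hbl ▸ hb))
      rw [← hk, ← h1]
      exact le_rs _ _
    · right
      have h1 : ∃ r, pair r v₀ ∈ LE N μ κ ∧ ∀ r', pair r' r ∈ LE N μ κ →
          pair a (pair j r') ∉ B := by
        by_contra hcon
        push Not at hcon
        exact hA (hB.reg a ha j hj v₀ hv₀P hcon)
      obtain ⟨r, hr1, hr2⟩ := h1
      obtain ⟨hrP, _, hrle⟩ := mem_LE.1 hr1
      obtain ⟨R, hR⟩ := hind r (hfp r hrP)
      refine ⟨R, fun D w l hX hED hvE => ?_⟩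
      obtain ⟨p, b1, b2, b3, b4, b5, b6, b7⟩ := id hX
      have hk := key D w l hX hED hvE p b1 b2 b3 b7
      have hp := hPP p b3
      by_contra hcon
      push Not at hcon
      have hle : Le r (rs (fun x => x ∈ E) p) := by
        rw [hk]
        exact hrle
      obtain ⟨c1, c2, c3⟩ := amalg_over h hp hrP hle (fun b hb b' hb' hbb => by
        refine hcon (fs b) ?_ ?_
        · rw [hR]
          exact ⟨b', hb', hbb.symm⟩
        · exact (b6 (fs b)).2 ⟨b, hb, rfl⟩)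
      exact hr2 _ (mem_LE.2 ⟨c1, hrP, c3⟩) (hB.opn a j p _ b3 (mem_LE.2 ⟨c1, hp, c2⟩))

end Pool.Agent.FBZ
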