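import Pool.Agent.FBZ.PE

/-!
# FBZ module PH: an open regular set is determined by its support

Let `Nice (PP) (LE) A J B`, and let `C` be a class containing all `i` with `Sp B a j i`.  If
`pair a (pair j p) ∈ B` then `pair a (pair j (rs C p)) ∈ B`.

Proof.  Induction on the number of indices of `p` which are not in `C` (a finite number, `p` is
finite).  If there is none then `rs C p = p`.  Otherwise let `i = fs b`, `b ∈ p`, `¬ C i`, and
`p' = rs (· ≠ i) p`.  Since `¬ Sp B a j i`, `pair a (pair j p') ∈ B`.  `p'` has one index less outside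
`C`, and `rs C p' = rs C p` (`rs_rs`, because `C x` implies `x ≠ i`).
`exists_SpB`: if `Sp B a j i` then there are `m₀` and a finite set `S ⊆ μ` with
`SpB B a j (nz m) S i` for all `m ≥ m₀`: take the condition `p` of `Sp`, `m₀` from `exists_Bd`, and
`S = μ.sep (fun β => ∃ x, sa x β ∈ p)` (finite: image of a subset of `p`).
`Sp_mem`: the index of an atom of a condition is in `II`.
-/

namespace Pool.Agent.FBZ
open ZFSet
universe u
variable {N : Set ZFSet.{u}} {μ κ : ZFSet.{u}}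

private theorem PH_mem_PP {A J B a j p : ZFSet.{u}}
    (hB : Nice (PP N μ κ) (LE N μ κ) A J B) (hp : pair a (pair j p) ∈ B) : p ∈ PP N μ κ := by
  have h := hB.sub hp
  rw [pair_mem_prod, pair_mem_prod] at h
  exact h.2.2

theorem determined {A J B a j : ZFSet.{u}}
    (hB : Nice (PP N μ κ) (LE N μ κ) A J B) {C : ZFSet.{u} → Prop}
    (hC : ∀ i, Sp B a j i → C i) {p : ZFSet.{u}} (hp : pair a (pair j p) ∈ B) :
    pair a (pair j (rs C p)) ∈ B := by
  suffices H : ∀ (k : ℕ) (p : ZFSet.{u}), pair a (pair j p) ∈ B →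
      {x : ZFSet.{u} | x ∈ p ∧ ¬ C (fs x)}.ncard = k → pair a (pair j (rs C p)) ∈ B from
    H _ p hp rfl
  intro k
  induction k using Nat.strong_induction_on with
  | _ k ih =>
    intro p hp hk
    have hP := PH_mem_PP hB hp
    have hfin : Fin' p := (mem_CS.1 hP).1
    have hfin' : {x : ZFSet.{u} | x ∈ p ∧ ¬ C (fs x)}.Finite := hfin.subset fun x hx => hx.1
    by_cases hemp : ∃ b ∈ p, ¬ C (fs b)
    · obtain ⟨b, hb, hCb⟩ := hemp
      have hns : ¬ Sp B a j (fs b) := fun h => hCb (hC _ h)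
      have hp' : pair a (pair j (rs (fun x => x ≠ fs b) p)) ∈ B := by
        by_contra hcon
        exact hns ⟨p, hp, ⟨b, hb, rfl⟩, hcon⟩
      have hlt : {x : ZFSet.{u} | x ∈ rs (fun x => x ≠ fs b) p ∧ ¬ C (fs x)}.ncard < k := by
        rw [← hk]
        refine Set.ncard_lt_ncard ⟨?_, ?_⟩ hfin'
        · rintro x ⟨hx, hx'⟩
          exact ⟨(mem_rs.1 hx).1, hx'⟩
        · intro hsub
          have h1 : b ∈ {x : ZFSet.{u} | x ∈ p ∧ ¬ C (fs x)} := ⟨hb, hCb⟩
          have h2 := hsub h1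
          exact (mem_rs.1 h2.1).2 rfl
      have h3 := ih _ hlt _ hp' rfl
      have h4 : rs C (rs (fun x => x ≠ fs b) p) = rs C p := by
        ext x
        rw [mem_rs, mem_rs, mem_rs]
        refine ⟨fun h => ⟨h.1.1, h.2⟩, fun h => ⟨⟨h.1, ?_⟩, h.2⟩⟩
        intro he
        exact hCb (he ▸ h.2)
      rwa [h4] at h3
    · push Not at hemp
      have h4 : rs C p = p := by
        ext x
        rw [mem_rs]
        exact ⟨fun h => h.1, fun h => ⟨h, hemp x h⟩⟩
      rwa [h4]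

theorem exists_SpB {A J B a j i : ZFSet.{u}}
    (hB : Nice (PP N μ κ) (LE N μ κ) A J B) (hi : Sp B a j i) :
    ∃ S ∈ finset μ, ∃ m : ℕ, SpB B a j (nz m) S i := by
  obtain ⟨p, hp, hb, hn⟩ := hi
  have hP := PH_mem_PP hB hp
  have hfin : Fin' p := (mem_CS.1 hP).1
  obtain ⟨m, hm⟩ := exists_Bd hP
  have hβ : ∀ x β, sa x β ∈ p → β ∈ μ := by
    intro x β h
    rcases atom_cases hP h with ⟨i, _, n, _, k, _, he⟩ | ⟨i, _, β', hβ', he⟩
    · exact absurd he.symm ga_ne_sa
    · rw [(sa_inj.1 he).2]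
      exact hβ'
  refine ⟨μ.sep (fun β => ∃ x, sa x β ∈ p), ?_, m, p, hm m le_rfl, ?_, hp, hb, hn⟩
  · rw [mem_finset]
    refine ⟨fun β h => (mem_sep.1 h).1, ?_⟩
    refine Set.Finite.subset (hfin.image fun a => sn (sn a)) ?_
    intro β h
    have h' : β ∈ μ.sep (fun β => ∃ x, sa x β ∈ p) := h
    obtain ⟨x, hx⟩ := (mem_sep.1 h').2
    refine ⟨sa x β, hx, ?_⟩
    show sn (sn (pair x (pair {∅} β))) = β
    rw [sn_pair, sn_pair]
  · intro x β h
    exact mem_sep.2 ⟨hβ x β h, x, h⟩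

theorem Sp_mem {A J B a j i : ZFSet.{u}}
    (hB : Nice (PP N μ κ) (LE N μ κ) A J B) (hi : Sp B a j i) : i ∈ II N μ κ := by
  obtain ⟨p, hp, ⟨b, hb, rfl⟩, _⟩ := hi
  exact fs_mem_of_mem (PH_mem_PP hB hp) hb

theorem SpB_Sp {B a j m S i : ZFSet.{u}} (hi : SpB B a j m S i) : Sp B a j i := by
  obtain ⟨p, _, _, hp, hb, hn⟩ := hi
  exact ⟨p, hp, hb, hn⟩

end Pool.Agent.FBZ
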