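import Pool.Agent.FBZ.PE

/-!
# FBZ module PI: extending conditions by one atom

* `ins_sa`: `insert (sa i β) p` is a condition and `Le (insert (sa i β) p) p` (no new `ga` atoms).
* `ins_cohen`: for `α ∈ κ`, `n, k ∈ ω` and `p` without any `ga α n k'`: the new atom has an index
  which is not a code (`II_cases`/`not_ord_cd`, `ord_of_mem`), so there is no requirement.
* `ins_code`: for a code `y = cd ξ e τ`: the only new atom is `ga y n k`; a pair
  `sa y' β ∈ p`, `ga y' n' k' ∈ insert (ga y n k) p \ p` has `y' = y`, `n' = n`, `k' = k` (`ga_inj`,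
  `cd_inj`), and `rs (InC ξ e) (insert (ga y n k) p) = rs (InC ξ e) p` because `¬ InC ξ e y`
  (`not_InC_self`).
* `decide_all`: let `y = cd ξ e τ ∈ YY` be total (hypothesis `htot`), `n ∈ ω`, `S` a finite set of
  elements of `μ`, `p ∈ CS (IC ξ e) μ`.  Then some `q ∈ CS (IC ξ e) μ` with `Le q p` decides all
  values at `n`: by induction on the finite set `S` (`Set.Finite.induction_on`): for one more `β`
  apply `htot` to the `q` obtained so far; the decisions for the earlier elements of `S` persist by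
  the openness of `τ` (`cd_mem_YY`), and `Le` is transitive (`le_trans'`, `mem_PP_of_IC`).  The number
  `k` is the maximum of the decided values: all `j ⊆ k`, i.e. `j ∈ k ∨ j = k` (elements of `ω`
  are ordinals, `nz`).
* `dense_code`: for `p ∈ PP` without `ga y n k'`: let `S = {β : sa y β ∈ p}` (finite, `⊆ μ`), take
  `q` from `decide_all` for `rs (InC ξ e) p` and let `r = q ∪ rs (¬ InC ξ e ·) p` (`amalg`,
  `cl_InC`); `Le r p`, `rs (InC ξ e) r = q`; an atom `sa y β ∈ r` is in `p` and there is no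
  `ga y n k' ∈ r`, because `¬ InC ξ e y` (all indices of `q` are in `InC ξ e`).  Now `ins_code`
  applies to `r` and `k`.
-/

namespace Pool.Agent.FBZ
open ZFSet
universe u
variable {N : Set ZFSet.{u}} {μ κ : ZFSet.{u}}

private theorem pi_ins {I p a : ZFSet.{u}} (hp : p ∈ CS I μ)
    (ha : (∃ i ∈ I, ∃ n ∈ ZFSet.omega.{u}, ∃ k ∈ ZFSet.omega.{u}, a = ga i n k) ∨
      ∃ i ∈ I, ∃ β ∈ μ, a = sa i β)
    (hf : ∀ i n k k', ga i n k = a → ga i n k' ∈ p → k = k') : insert a p ∈ CS I μ := by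
  rw [mem_CS] at hp ⊢
  obtain ⟨h1, h2, h3⟩ := hp
  refine ⟨?_, ?_, ?_⟩
  · change ((insert a p : ZFSet.{u}) : Set ZFSet.{u}).Finite
    rw [coe_insert]
    exact Set.Finite.insert a h1
  · intro b hb
    rcases mem_insert_iff.1 hb with rfl | hb
    · exact ha
    · exact h2 b hb
  · intro i n k k' hk hk'
    rcases mem_insert_iff.1 hk with e | hk <;> rcases mem_insert_iff.1 hk' with e' | hk'
    · exact (ga_inj.1 (e.trans e'.symm)).2.2
    · exact hf i n k k' e hk'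
    · exact (hf i n k' k e' hk).symm
    · exact h3 i n k k' hk hk'

private theorem pi_sub {a p : ZFSet.{u}} : p ⊆ insert a p :=
  fun _ hz => mem_insert_iff.2 (Or.inr hz)

theorem ins_sa {p i β : ZFSet.{u}} (hp : p ∈ PP N μ κ) (hi : i ∈ II N μ κ)
    (hβ : β ∈ μ) : insert (sa i β) p ∈ PP N μ κ ∧ Le (insert (sa i β) p) p := by
  refine ⟨pi_ins hp (Or.inr ⟨i, hi, β, hβ, rfl⟩) fun i' n k k' e _ => (ga_ne_sa e).elim, pi_sub, ?_⟩
  intro ξ e τ β' n k _ hg hn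
  rcases mem_insert_iff.1 hg with e' | hg
  · exact (ga_ne_sa e').elim
  · exact (hn hg).elim

theorem ins_cohen (h : Hyp N μ κ) {p α n k : ZFSet.{u}} (hp : p ∈ PP N μ κ) (hα : α ∈ κ)
    (hn : n ∈ ZFSet.omega) (hk : k ∈ ZFSet.omega) (hno : ∀ k', ga α n k' ∉ p) :
    insert (ga α n k) p ∈ PP N μ κ ∧ Le (insert (ga α n k) p) p := by
  have hα' : α ∈ II N μ κ := mem_union.2 (Or.inl hα)
  refine ⟨pi_ins hp (Or.inl ⟨α, hα', n, hn, k, hk, rfl⟩) ?_, pi_sub, ?_⟩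
  · intro i' n' k1 k' e hk'
    obtain ⟨rfl, rfl, rfl⟩ := ga_inj.1 e
    exact (hno _ hk').elim
  · intro ξ e τ β' n' k' _ hg hn'
    rcases mem_insert_iff.1 hg with e' | hg
    · have e1 : cd ξ e τ = α := (ga_inj.1 e').1
      have h2 := ord_of_mem h hα
      rw [← e1] at h2
      exact (not_ord_cd ξ e τ h2).elim
    · exact (hn' hg).elim

theorem ins_code (h : Hyp N μ κ) {p ξ e τ n k : ZFSet.{u}} (hp : p ∈ PP N μ κ)
    (hy : cd ξ e τ ∈ YY N μ κ) (hn : n ∈ ZFSet.omega) (hk : k ∈ ZFSet.omega)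
    (hno : ∀ k', ga (cd ξ e τ) n k' ∉ p)
    (hreq : ∀ β, sa (cd ξ e τ) β ∈ p →
      ∃ j, (j ∈ k ∨ j = k) ∧ pair (pair β n) (pair (rs (InC ξ e) p) j) ∈ τ) :
    insert (ga (cd ξ e τ) n k) p ∈ PP N μ κ ∧ Le (insert (ga (cd ξ e τ) n k) p) p := by
  have hy' : cd ξ e τ ∈ II N μ κ := mem_union.2 (Or.inr hy)
  refine ⟨pi_ins hp (Or.inl ⟨_, hy', n, hn, k, hk, rfl⟩) ?_, pi_sub, ?_⟩
  · intro i' n' k1 k' e' hk'
    obtain ⟨rfl, rfl, rfl⟩ := ga_inj.1 e'
    exact (hno _ hk').elim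
  · intro ξ' e' τ' β' n' k' hs hg hn'
    rcases mem_insert_iff.1 hg with e1 | hg
    · obtain ⟨e2, rfl, rfl⟩ := ga_inj.1 e1
      obtain ⟨rfl, rfl, rfl⟩ := cd_inj.1 e2
      obtain ⟨j, hj, hj'⟩ := hreq β' hs
      refine ⟨j, hj, ?_⟩
      have e3 : rs (InC ξ' e') (insert (ga (cd ξ' e' τ') n' k') p) = rs (InC ξ' e') p := by
        ext a
        rw [mem_rs, mem_rs, mem_insert_iff]
        constructor
        · rintro ⟨rfl | ha, hc⟩
          · rw [fs_ga] at hc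
            exact (not_InC_self h hy hc).elim
          · exact ⟨ha, hc⟩
        · rintro ⟨ha, hc⟩
          exact ⟨Or.inr ha, hc⟩
      rw [e3]
      exact hj'
    · exact (hn' hg).elim

/-- The code `cd ξ e τ` names total functions. -/
def Total (N : Set ZFSet.{u}) (μ κ ξ e τ : ZFSet.{u}) : Prop :=
  ∀ β ∈ μ, ∀ n ∈ ZFSet.omega.{u}, ∀ p ∈ CS (IC N μ κ ξ e) μ,
    ∃ q ∈ CS (IC N μ κ ξ e) μ, Le q p ∧ ∃ j, pair (pair β n) (pair q j) ∈ τ

theorem decide_all (h : Hyp N μ κ) {ξ e τ : ZFSet.{u}} (hy : cd ξ e τ ∈ YY N μ κ)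
    (htot : Total N μ κ ξ e τ) {n p S : ZFSet.{u}} (hn : n ∈ ZFSet.omega)
    (hp : p ∈ CS (IC N μ κ ξ e) μ) (hS : Fin' S) (hSμ : S ⊆ μ) :
    ∃ q ∈ CS (IC N μ κ ξ e) μ, Le q p ∧ ∃ k ∈ ZFSet.omega.{u}, ∀ β ∈ S,
      ∃ j, (j ∈ k ∨ j = k) ∧ pair (pair β n) (pair q j) ∈ τ := by
  have hOK := ((cd_mem_YY h).1 hy).2.2.2
  obtain ⟨-, -, hτ, hopen⟩ := hOK
  have main : ∀ T : Set ZFSet.{u}, T.Finite → (∀ β ∈ T, β ∈ μ) →
      ∃ q ∈ CS (IC N μ κ ξ e) μ, Le q p ∧ ∃ k ∈ ZFSet.omega.{u}, ∀ β ∈ T,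
        ∃ j, (j ∈ k ∨ j = k) ∧ pair (pair β n) (pair q j) ∈ τ := by
    intro T hT
    induction T, hT using Set.Finite.induction_on with
    | empty =>
      intro _
      exact ⟨p, hp, le_refl' p, ∅, omega_zero, fun β hβ => (Set.notMem_empty β hβ).elim⟩
    | @insert β T _ _ ih =>
      intro hTμ
      obtain ⟨q, hq, hle, k, hk, hqk⟩ := ih fun γ hγ => hTμ γ (Set.mem_insert_of_mem _ hγ)
      obtain ⟨q', hq', hle', j', hj'⟩ := htot β (hTμ β (Set.mem_insert _ _)) n hn q hq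
      have hjω : j' ∈ ZFSet.omega.{u} := by
        have h1 := hτ hj'
        exact (pair_mem_prod.1 (pair_mem_prod.1 h1).2).2
      obtain ⟨a, rfl⟩ := mem_omega.1 hk
      obtain ⟨b, rfl⟩ := mem_omega.1 hjω
      have hle2 : Le q' p :=
        le_trans' h (mem_PP_of_IC hp) (mem_PP_of_IC hq) (mem_PP_of_IC hq') hle' hle
      refine ⟨q', hq', hle2, nz (max a b), nz_mem_omega _, ?_⟩
      intro γ hγ
      rcases hγ with rfl | hγ
      · refine ⟨nz b, ?_, hj'⟩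
        rcases lt_or_eq_of_le (le_max_right a b) with h1 | h1
        · exact Or.inl (nz_mem_nz.2 h1)
        · exact Or.inr (congrArg nz h1)
      · obtain ⟨j, hj, hjτ⟩ := hqk γ hγ
        refine ⟨j, ?_, hopen _ _ _ _ hjτ hq' hle'⟩
        obtain ⟨c, hc, rfl⟩ : ∃ c, c ≤ a ∧ j = nz c := by
          rcases hj with hj | rfl
          · obtain ⟨c, hc, rfl⟩ := mem_nz.1 hj
            exact ⟨c, hc.le, rfl⟩
          · exact ⟨a, le_rfl, rfl⟩
        rcases lt_or_eq_of_le (hc.trans (le_max_left a b)) with h1 | h1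
        · exact Or.inl (nz_mem_nz.2 h1)
        · exact Or.inr (congrArg nz h1)
  exact main (S : Set ZFSet.{u}) hS fun β hβ => hSμ hβ

theorem dense_code (h : Hyp N μ κ) {ξ e τ : ZFSet.{u}} (hy : cd ξ e τ ∈ YY N μ κ)
    (htot : Total N μ κ ξ e τ) {n p : ZFSet.{u}} (hn : n ∈ ZFSet.omega) (hp : p ∈ PP N μ κ) :
    ∃ q ∈ PP N μ κ, Le q p ∧ ∃ k ∈ ZFSet.omega.{u}, ga (cd ξ e τ) n k ∈ q := by
  by_cases hex : ∃ k', ga (cd ξ e τ) n k' ∈ p
  · obtain ⟨k', hk'⟩ := hex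
    refine ⟨p, hp, le_refl' p, k', ?_, hk'⟩
    rcases atom_cases hp hk' with ⟨i, _, n', _, k1, hk1, e1⟩ | ⟨i, _, β, _, e1⟩
    · rw [(ga_inj.1 e1).2.2]
      exact hk1
    · exact (ga_ne_sa e1).elim
  · have hno : ∀ k', ga (cd ξ e τ) n k' ∉ p := fun k' hk' => hex ⟨k', hk'⟩
    have hfin : Fin' (μ.sep (fun β => sa (cd ξ e τ) β ∈ p)) := by
      have h1 : Fin' p := (mem_CS.1 hp).1
      refine (Set.Finite.preimage (f := fun β : ZFSet.{u} => sa (cd ξ e τ) β) ?_ h1).subset ?_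
      · intro a _ b _ hab
        exact (sa_inj.1 hab).2
      · intro β hβ
        exact (ZFSet.mem_sep.1 hβ).2
    have hq0 : rs (InC ξ e) p ∈ CS (IC N μ κ ξ e) μ := rs_mem_IC hp
    obtain ⟨q, hq, hle, k, hk, hqk⟩ := decide_all h hy htot hn hq0 hfin
      (fun β hβ => (ZFSet.mem_sep.1 hβ).1)
    have hqC : ∀ a ∈ q, InC ξ e (fs a) := fun a ha =>
      (ZFSet.mem_sep.1 (fs_mem_of_mem hq ha)).2
    have hqP : q ∈ PP N μ κ := mem_PP_of_IC hq
    obtain ⟨hr, hrp, -, hrs⟩ := amalg h (cl_InC h hy) hp hqP hqC hle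
    have hself := not_InC_self h hy
    have hins := ins_code h hr hy hn hk (fun k' hk' => by
      rcases mem_union.1 hk' with h1 | h1
      · have h2 := hqC _ h1
        rw [fs_ga] at h2
        exact hself h2
      · exact hno k' (mem_rs.1 h1).1) (fun β hβ => by
      rw [hrs]
      rcases mem_union.1 hβ with h1 | h1
      · have h2 := hqC _ h1
        rw [fs_sa] at h2
        exact (hself h2).elim
      · have h2 := (mem_rs.1 h1).1
        refine hqk β (ZFSet.mem_sep.2 ⟨?_, h2⟩)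
        rcases atom_cases hp h2 with ⟨i, _, n', _, k1, hk1, e1⟩ | ⟨i, _, β', hβ', e1⟩
        · exact (ga_ne_sa e1.symm).elim
        · rw [(sa_inj.1 e1).2]
          exact hβ')
    exact ⟨_, hins.1, le_trans' h hp hr hins.1 hins.2 hrp, k, hk, mem_insert _ _⟩

end Pool.Agent.FBZ
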