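import Pool.Agent.FBZ.PI
import Pool.Agent.FBZ.PC2

/-!
# FBZ module PJ: the generic real of a total code dominates

Let `y = cd ξ e τ ∈ YY` be total, and let `τ` be functional (hypothesis `hfun`), `H` generic.  Let
`g = {pair n k ∈ ω × ω : ∃ p ∈ H, ga y n k ∈ p}`.
* `g ∈ Ext N H` by `build_one` with `A = prod ω ω`, `C = {pair (pair n k) p : ga y n k ∈ p} ∈ N`
  (`sep_mem` in `prod (prod ω ω) (PP)`, `DT.gaT`, `PP_mem`).
* `g` is a function `ω → ω`: for `n ∈ ω` the set `{p ∈ PP : ∃ k ∈ ω, ga y n k ∈ p}` is in `N` and dense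
  (`dense_code`, `mem_LE`), so it meets `H`; uniqueness: if `ga y n k ∈ p`, `ga y n k' ∈ p'` with
  `p, p' ∈ H` then a common lower bound in `H` contains both atoms (`Le` implies `⊇`), so `k = k'`
  (`CS_fun`).
* domination: let `β ∈ μ` and `x : ω → ω` such that every `pair n j ∈ x` has some `p ∈ H` with
  `pair (pair β n) (pair p j) ∈ τ`.  The set `{p ∈ PP : sa y β ∈ p}` is in `N` and dense (`ins_sa`), so
  there is `p ∈ H` with `sa y β ∈ p`.  By `exists_Bd` there is `m` such that all `n` with some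
  `ga y n k ∈ p` are in `nz m`.  Let `n ∈ ω`, `nz m ⊆ n`, `pair n a ∈ x`, `pair n b ∈ g`; so
  `ga y n b ∈ q` for some `q ∈ H`.  Let `r ∈ H` be below `p` and `q`.  `ga y n b ∈ r`, and
  `ga y n b ∉ p` (as `n ∉ nz m`).  By `Le r p` there is `j` with `j ∈ b ∨ j = b` and
  `pair (pair β n) (pair (rs (InC ξ e) r) j) ∈ τ`.  `rs (InC ξ e) r ∈ H` (`le_rs`, `Generic.up`,
  `mem_LE`, `rs_mem`).  There is `p' ∈ H` with `pair (pair β n) (pair p' a) ∈ τ`; take a common lower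
  bound in `H` and apply `hfun`: `a = j`.  So `a ⊆ b` (`b ∈ ω` is transitive).
-/

namespace Pool.Agent.FBZ
open ZFSet
universe u
variable {N : Set ZFSet.{u}} {μ κ H : ZFSet.{u}}

/-- The values named by `τ` are unique. -/
def Functional (N : Set ZFSet.{u}) (μ κ τ : ZFSet.{u}) : Prop :=
  ∀ b j j' p q r, pair b (pair p j) ∈ τ → pair b (pair q j') ∈ τ → r ∈ PP N μ κ → Le r p →
    Le r q → j = j'

theorem dominate (h : Hyp N μ κ) (hG : Generic N (PP N μ κ) (LE N μ κ) H) {ξ e τ : ZFSet.{u}}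
    (hy : cd ξ e τ ∈ YY N μ κ) (htot : Total N μ κ ξ e τ) (hfun : Functional N μ κ τ) :
    ∃ g ∈ Ext N H, IsFunc ZFSet.omega ZFSet.omega g ∧
      ∀ β ∈ μ, ∀ x, IsFunc ZFSet.omega ZFSet.omega x →
        (∀ n j, pair n j ∈ x → ∃ p ∈ H, pair (pair β n) (pair p j) ∈ τ) → LeStar x g := by
  have hN := h.zf
  have hPP := PP_mem h
  have hyN : cd ξ e τ ∈ N := mem_N hN (YY_mem h) hy
  have hω : ZFSet.omega ∈ N := hN.omega
  have hne : ∃ p, p ∈ H := gen_nonempty (forcing_PP h) hPP hG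
  have hHP : ∀ {p}, p ∈ H → p ∈ PP N μ κ := fun hp => hG.sub hp
  have hdir : ∀ {p q}, p ∈ H → q ∈ H → ∃ r ∈ H, Le r p ∧ Le r q := by
    intro p q hp hq
    obtain ⟨r, hr, h1, h2⟩ := hG.dir p hp q hq
    exact ⟨r, hr, (mem_LE.1 h1).2.2, (mem_LE.1 h2).2.2⟩
  let C : ZFSet.{u} := (prod (prod ZFSet.omega ZFSet.omega) (PP N μ κ)).sep
    (fun c => ga (cd ξ e τ) (fs (fs c)) (sn (fs c)) ∈ sn c)
  have hC : C ∈ N := by
    refine sep_mem hN (Q := fun c => ga (cd ξ e τ) (fs (fs c)) (sn (fs c)) ∈ sn c) ?_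
      (prod_mem hN (prod_mem hN hω hω) hPP)
    exact Dfn.mem hN (DT.gaT hN (DT.cst hN hyN) (DT.fsT hN (DT.fsT hN (DT.var hN 0)))
      (DT.snT hN (DT.fsT hN (DT.var hN 0)))) (DT.snT hN (DT.var hN 0))
  let g : ZFSet.{u} := (prod ZFSet.omega ZFSet.omega).sep (fun a => ∃ p ∈ H, pair a p ∈ C)
  have hgE : g ∈ Ext N H := build_one hN hPP hG.sub hne (prod_mem hN hω hω) hC
  have hg : ∀ n k, pair n k ∈ g ↔ n ∈ ZFSet.omega.{u} ∧ k ∈ ZFSet.omega.{u} ∧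
      ∃ p ∈ H, ga (cd ξ e τ) n k ∈ p := by
    intro n k
    simp only [g, C, ZFSet.mem_sep, ZFSet.pair_mem_prod, fs_pair, sn_pair]
    constructor
    · rintro ⟨⟨hn, hk⟩, p, hp, _, hc⟩
      exact ⟨hn, hk, p, hp, hc⟩
    · rintro ⟨hn, hk, p, hp, hc⟩
      exact ⟨⟨hn, hk⟩, p, hp, ⟨⟨hn, hk⟩, hHP hp⟩, hc⟩
  refine ⟨g, hgE, ⟨ZFSet.sep_subset, ?_⟩, ?_⟩
  · intro n hn
    have hD : (PP N μ κ).sep (fun p => ∃ k ∈ ZFSet.omega.{u}, ga (cd ξ e τ) n k ∈ p) ∈ N := by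
      refine sep_mem hN (Q := fun p => ∃ k ∈ ZFSet.omega.{u}, ga (cd ξ e τ) n k ∈ p) ?_ hPP
      refine Dfn.bex hN (DT.cst hN hω) (Q := fun v k => ga (cd ξ e τ) n k ∈ v 0) ?_
      exact Dfn.mem hN (DT.gaT hN (DT.cst hN hyN) (DT.cst hN (mem_N hN hω hn)) (DT.var hN 0))
        (DT.var hN 1)
    have hdense : Dense (PP N μ κ) (LE N μ κ)
        ((PP N μ κ).sep (fun p => ∃ k ∈ ZFSet.omega.{u}, ga (cd ξ e τ) n k ∈ p)) := by
      refine ⟨ZFSet.sep_subset, ?_⟩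
      intro p hp
      obtain ⟨q, hq, hle, k, hk, hqk⟩ := dense_code h hy htot hn hp
      exact ⟨q, ZFSet.mem_sep.2 ⟨hq, k, hk, hqk⟩, mem_LE.2 ⟨hq, hp, hle⟩⟩
    obtain ⟨p, hpH, hpD⟩ := hG.meets _ hD hdense
    obtain ⟨_, k, hk, hpk⟩ := ZFSet.mem_sep.1 hpD
    refine ⟨k, (hg n k).2 ⟨hn, hk, p, hpH, hpk⟩, ?_⟩
    intro k' hk'
    obtain ⟨_, _, p', hp'H, hp'k⟩ := (hg n k').1 hk'
    obtain ⟨r, hrH, hrp, hrp'⟩ := hdir hpH hp'H
    exact CS_fun (hHP hrH) (hrp'.1 hp'k) (hrp.1 hpk)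
  · intro β hβ x hx hxτ
    have hβN : β ∈ N := mem_N hN (μ_mem h) hβ
    have hD : (PP N μ κ).sep (fun p => sa (cd ξ e τ) β ∈ p) ∈ N := by
      refine sep_mem hN (Q := fun p => sa (cd ξ e τ) β ∈ p) ?_ hPP
      exact Dfn.mem hN (DT.saT hN (DT.cst hN hyN) (DT.cst hN hβN)) (DT.var hN 0)
    have hyI : cd ξ e τ ∈ II N μ κ := ZFSet.mem_union.2 (Or.inr hy)
    have hdense : Dense (PP N μ κ) (LE N μ κ)
        ((PP N μ κ).sep (fun p => sa (cd ξ e τ) β ∈ p)) := by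
      refine ⟨ZFSet.sep_subset, ?_⟩
      intro p hp
      obtain ⟨hq, hle⟩ := ins_sa hp hyI hβ
      exact ⟨insert (sa (cd ξ e τ) β) p, ZFSet.mem_sep.2 ⟨hq, ZFSet.mem_insert _ _⟩,
        mem_LE.2 ⟨hq, hp, hle⟩⟩
    obtain ⟨p, hpH, hpD⟩ := hG.meets _ hD hdense
    have hpβ := (ZFSet.mem_sep.1 hpD).2
    obtain ⟨m, hm⟩ := exists_Bd (hHP hpH)
    refine ⟨nz m, nz_mem_omega m, ?_⟩
    intro n hn hmn a b hna hnb
    obtain ⟨_, hb, q, hqH, hqb⟩ := (hg n b).1 hnb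
    obtain ⟨r, hrH, hrp, hrq⟩ := hdir hpH hqH
    have hrb : ga (cd ξ e τ) n b ∈ r := hrq.1 hqb
    have hpb : ga (cd ξ e τ) n b ∉ p := by
      intro hc
      have h1 := ((hm m le_rfl).2 _ _ _ hc).1
      exact ZFSet.mem_irrefl n (hmn h1)
    obtain ⟨j, hj, hjτ⟩ := hrp.2 ξ e τ β n b hpβ hrb hpb
    have hrr : rs (InC ξ e) r ∈ H := by
      refine hG.up r hrH _ (mem_LE.2 ⟨hHP hrH, rs_mem _ (hHP hrH), le_rs _ _⟩)
    obtain ⟨p', hp'H, hp'τ⟩ := hxτ n a hna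
    obtain ⟨s, hsH, hs1, hs2⟩ := hdir hrr hp'H
    have hja : j = a := hfun _ _ _ _ _ s hjτ hp'τ (hHP hsH) hs1 hs2
    subst hja
    rcases hj with hj | hj
    · obtain ⟨b', rfl⟩ := mem_omega.1 hb
      exact (isOrdinal_nz b').isTransitive.subset_of_mem hj
    · rw [hj]

end Pool.Agent.FBZ
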