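import Pool.Agent.FBZ.PG1
import Pool.Agent.FBZ.PC2

/-!
# FBZ module PK: all cardinals are preserved

Let `Card N ν`; show `Card (Ext N H) ν`.  `ν ∈ Ext N H` (`mem_Ext_of_mem`, `gen_nonempty`,
`forcing_PP`, `PP_mem`).  Let `a ∈ ν`, `f ∈ Ext N H`, `Surj f a ν`.
* `a` is infinite: if `a` is finite then so is `ν` (image), so `a = nz s`, `ν = nz t`, `s < t`
  (`ord_nat_or`, `nz_mem_nz`, `infinite_of_omega_subset`), and a surjection from a set with `s`
  elements onto a set with `t > s` elements is impossible (`Set.ncard_image_le` or `Finset.card`).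
  So `ω ⊆ a` (`ord_nat_or`).  Also `∅ ∈ ν`.
* `nice_fun` with `A = a`, `J = ν` gives `B ∈ N` with `Nice`, and
  `pair i j ∈ f ↔ ∃ p ∈ H, pair i (pair j p) ∈ B`.
* For `c = pair i m ∈ prod a ω` let
  `s c = ν.sep (fun j => ∃ p ∈ PP, Bd (sn c) p ∧ pair (fs c) (pair j p) ∈ B)`: a finite set by
  `fin_values` (`m = nz m'`), consisting of ordinals, and `s` is a definable term (`Dfn.bd`).
* `⋃₀ (img s (prod a ω)) = ν`: every `j ∈ ν` has some `i ∈ a` with `pair i j ∈ f`, so some `p ∈ H` with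
  `pair i (pair j p) ∈ B`, and `Bd (nz m) p` for some `m` (`exists_Bd`).
* `onto_sUnion_fin` with `x = a`, `A = prod a ω` (`onto_prod_self`, `onto_refl`, `onto_omega`):
  `Onto N a ν`, which contradicts `Card N ν`.
`card_iff`: together with `card_of_card_ext`.
-/

namespace Pool.Agent.FBZ
open ZFSet
universe u
variable {N : Set ZFSet.{u}} {μ κ H : ZFSet.{u}}

theorem card_pres (h : Hyp N μ κ) (hG : Generic N (PP N μ κ) (LE N μ κ) H) {ν : ZFSet.{u}}
    (hν : Card N ν) : Card (Ext N H) ν := by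
  have hN := h.zf
  have hf := forcing_PP h
  have hP := PP_mem h
  have hle := LE_mem h
  have hne := gen_nonempty hf hP hG
  refine ⟨mem_Ext_of_mem hN hP hG.sub hne hν.1, hν.2.1, ?_⟩
  intro a ha f hfE hs
  have hνN := hν.1
  have haN : a ∈ N := mem_N hN hνN ha
  have hνo := hν.2.1
  have hao : a.IsOrdinal := hνo.mem ha
  have hω : ZFSet.omega ⊆ a := by
    rcases ord_nat_or hao with ⟨n, hn⟩ | hω
    · exfalso
      have hfa : Fin' a := hn ▸ fin_nz n
      have hff : Fin' f := by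
        have h1 : (f : Set ZFSet.{u}) ⊆ (fun x => pair x (ap f x)) '' (a : Set ZFSet.{u}) := by
          intro z hz
          have hz' : z ∈ gr (ap f) a := by
            rw [← isFunc_gr hs.1]
            exact hz
          obtain ⟨x, hx, rfl⟩ := mem_gr'.1 hz'
          exact ⟨x, hx, rfl⟩
        exact (Set.Finite.image _ hfa).subset h1
      have hfN : f ∈ N := by
        refine fin_mem hN hff fun z hz => ?_
        have hz' := hs.1.1 hz
        rw [ZFSet.mem_prod] at hz'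
        obtain ⟨x, hx, y, hy, rfl⟩ := hz'
        exact pair_mem hN (mem_N hN haN hx) (mem_N hN hνN hy)
      exact hν.2.2 a ha f hfN hs
    · exact hω
  have h0 : (∅ : ZFSet.{u}) ∈ ν := hνo.mem_trans (hω (nz_mem_omega 0)) ha
  obtain ⟨B, hBN, hB, hBf⟩ := nice_fun hN hf hP hle hG haN hνN hνo h0 hfE hs.1
  let s : ZFSet.{u} → ZFSet.{u} := fun c =>
    ν.sep (fun j => ∃ p ∈ PP N μ κ, Bd (sn c) p ∧ pair (fs c) (pair j p) ∈ B)
  have hsDT : DT N (fun v => s (v 0)) := by
    refine DT.sepT (Q := fun v j => ∃ p ∈ PP N μ κ, Bd (sn (v 0)) p ∧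
      pair (fs (v 0)) (pair j p) ∈ B) hN (DT.cst hN hνN) ?_
    refine Dfn.bex (Q := fun v p => Bd (sn (v 1)) p ∧ pair (fs (v 1)) (pair (v 0) p) ∈ B) hN
      (DT.cst hN hP) ?_
    refine Dfn.and ?_ ?_
    · exact Dfn.bd hN (DT.snT hN (DT.var hN 2)) (DT.var hN 0)
    · exact Dfn.mem hN (DT.pairT hN (DT.fsT hN (DT.var hN 2))
        (DT.pairT hN (DT.var hN 1) (DT.var hN 0))) (DT.cst hN hBN)
  have hfin : ∀ c ∈ prod a ZFSet.omega, Fin' (s c) := by
    intro c hc
    rw [ZFSet.mem_prod] at hc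
    obtain ⟨i, hi, m, hm, rfl⟩ := hc
    obtain ⟨m', rfl⟩ := mem_omega.1 hm
    refine (fin_values h hB hi m').subset ?_
    intro j hj
    have hj' : j ∈ s (pair i (nz m')) := hj
    obtain ⟨_, p, hp, hb, hpB⟩ := mem_sep.1 hj'
    rw [sn_pair] at hb
    rw [fs_pair] at hpB
    exact ⟨p, hb, hpB⟩
  have hord : ∀ c ∈ prod a ZFSet.omega, ∀ α ∈ s c, α.IsOrdinal := by
    intro c hc α hα
    exact hνo.mem (mem_sep.1 hα).1
  have hU : (⋃₀ (img s (prod a ZFSet.omega)) : ZFSet.{u}) = ν := by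
    ext j
    rw [mem_sUnion]
    constructor
    · rintro ⟨z, hz, hjz⟩
      obtain ⟨c, hc, rfl⟩ := mem_img.1 hz
      exact (mem_sep.1 hjz).1
    · intro hj
      obtain ⟨x, hx, hxf⟩ := hs.2 j hj
      obtain ⟨p, hpH, hpB⟩ := (hBf x hx j hj).1 hxf
      have hpP := hG.sub hpH
      obtain ⟨m, hm⟩ := exists_Bd (I := II N μ κ) (μ := μ) hpP
      refine ⟨s (pair x (nz m)), mem_img.2 ⟨pair x (nz m), ?_, rfl⟩, ?_⟩
      · rw [ZFSet.mem_prod]
        exact ⟨x, hx, nz m, nz_mem_omega m, rfl⟩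
      · refine mem_sep.2 ⟨hj, p, hpP, ?_, ?_⟩
        · rw [sn_pair]
          exact hm m le_rfl
        · rw [fs_pair]
          exact hpB
  have hO := onto_sUnion_fin hN haN hao hω
    (onto_prod_self hN haN hao hω (onto_refl hN haN) (onto_omega hN haN hω)) hsDT hfin hord
    (by
      rw [hU]
      intro he
      rw [he] at h0
      exact ZFSet.notMem_empty _ h0)
  rw [hU] at hO
  obtain ⟨g, hg, hgs⟩ := hO
  exact hν.2.2 a ha g hg hgs

theorem card_iff (h : Hyp N μ κ) (hG : Generic N (PP N μ κ) (LE N μ κ) H) (ν : ZFSet.{u}) :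
    Card N ν ↔ Card (Ext N H) ν :=
  ⟨card_pres h hG, card_of_card_ext h.zf (PP_mem h) hG.sub
    (gen_nonempty (forcing_PP h) (PP_mem h) hG)⟩

end Pool.Agent.FBZ
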