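import Pool.Agent.FBZ.PG2
import Pool.Agent.FBZ.PH
import Pool.Agent.FBZ.PC2

/-!
# FBZ module PL: the supports of a nice name are covered by a set of size `μ`

Let `B ∈ N` be a nice name for a function from `A` to `ω`, `Onto N μ A`.  There is `E ∈ N`, `E ⊆ κ`,
`Onto N μ E`, such that every index `i` in the support of some `B`-set satisfies: if `i ∈ κ` then
`i ∈ E`, and if `i = cd ξ e τ` then `ran e ⊆ E`.

Proof.  Index set `A' = prod (prod A ω) (prod ω (prod (finset μ) μ))`; its elements are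
`c = pair (pair a j) (pair m (pair S γ))`, the components are given by `fs`, `sn`.  Let
`s c = κ.sep (fun δ => δ = ∅ ∨ ∃ i ∈ II, SpB B a j m S i ∧
  (δ = i ∨ ∃ ξ' ∈ N, ∃ e' ∈ N, ∃ τ' ∈ N, i = cd ξ' e' τ' ∧ pair γ δ ∈ e'))`.
This is a definable term (`DT.sepT`, `Dfn.bd`, ...; in `SpB` the quantifier over `p` can be bounded
by `N`, and `rs (fun x => x ≠ i) p` is a definable term by `DT.sepT`).  `s c` is finite for `c ∈ A'`:
there are finitely many `i` (`fin_support`; `m = nz m'`), and each contributes at most `i` itself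
and, if `i = cd ξ' e' τ'` is in `YY`, the unique `δ` with `pair γ δ ∈ e'` (`e'` is a function,
`cd_mem_YY`, `cd_inj`).  Its elements are ordinals (`ord_of_mem`).
`Onto N μ A'`: `onto_prod_self` repeatedly, `onto_omega`, `onto_finset`, `onto_refl` (`μ` is an
infinite ordinal of `N`).  `E = ⋃₀ (img s A')` is nonempty (`∅ ∈ E`, as `∅ ∈ κ`), so
`Onto N μ E` by `onto_sUnion_fin`; `E ∈ N`, `E ⊆ κ`.
If `Sp B a j i` take `S`, `m` from `exists_SpB`.  If `i ∈ κ` then `i ∈ s c ⊆ E` for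
`c = pair (pair a j) (pair (nz m) (pair S ∅))` (`∅ ∈ μ`).  If `i = cd ξ' e' τ'`: `i ∈ II` (`Sp_mem`), so
`i ∈ YY` and `e' : μ → κ`; for `δ ∈ ran e'` there is `γ ∈ μ` with `pair γ δ ∈ e'`, and
`δ ∈ s c ⊆ E` for `c = pair (pair a j) (pair (nz m) (pair S γ))`.
-/

namespace Pool.Agent.FBZ
open ZFSet
universe u
variable {N : Set ZFSet.{u}} {μ κ : ZFSet.{u}}

private theorem pl_dfn_SpB (hN : ZF N) {B : ZFSet.{u}} (hB : B ∈ N) {a j m S i : Env.{u} → ZFSet.{u}}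
    (ha : DT N a) (hj : DT N j) (hm : DT N m) (hS : DT N S) (hi : DT N i) :
    Dfn N (fun v => SpB B (a v) (j v) (m v) (S v) (i v)) := by
  refine Dfn.congr (R := fun v => ∃ p ∈ N, Bd (m v) p ∧ (∀ x ∈ N, ∀ β ∈ N, sa x β ∈ p → β ∈ S v) ∧
    pair (a v) (pair (j v) p) ∈ B ∧ (∃ b ∈ p, fs b = i v) ∧
    pair (a v) (pair (j v) (p.sep (fun x => fs x ≠ i v))) ∉ B) ?_ ?_
  · refine Dfn.ex (Q := fun v p => Bd (m v) p ∧ (∀ x ∈ N, ∀ β ∈ N, sa x β ∈ p → β ∈ S v) ∧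
      pair (a v) (pair (j v) p) ∈ B ∧ (∃ b ∈ p, fs b = i v) ∧
      pair (a v) (pair (j v) (p.sep (fun x => fs x ≠ i v))) ∉ B) ?_
    refine Dfn.and ?_ (Dfn.and ?_ (Dfn.and ?_ (Dfn.and ?_ ?_)))
    · exact Dfn.bd hN (DT.shift hm) (DT.var hN 0)
    · refine Dfn.all (Q := fun v x => ∀ β ∈ N, sa x β ∈ v 0 → β ∈ S (tl v)) ?_
      refine Dfn.all (Q := fun v β => sa (v 0) β ∈ v 1 → β ∈ S (tl (tl v))) ?_
      exact Dfn.imp (Dfn.mem hN (DT.saT hN (DT.var hN 1) (DT.var hN 0)) (DT.var hN 2))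
        (Dfn.mem hN (DT.var hN 0) (DT.shift (DT.shift (DT.shift hS))))
    · exact Dfn.mem hN (DT.pairT hN (DT.shift ha) (DT.pairT hN (DT.shift hj) (DT.var hN 0)))
        (DT.cst hN hB)
    · refine Dfn.bex hN (DT.var hN 0) (Q := fun v b => fs b = i (tl v)) ?_
      exact Dfn.eq hN (DT.fsT hN (DT.var hN 0)) (DT.shift (DT.shift hi))
    · refine Dfn.not (Dfn.mem hN (DT.pairT hN (DT.shift ha) (DT.pairT hN (DT.shift hj) ?_))
        (DT.cst hN hB))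
      refine DT.sepT hN (DT.var hN 0) (Q := fun v x => fs x ≠ i (tl v)) ?_
      exact Dfn.not (Dfn.eq hN (DT.fsT hN (DT.var hN 0)) (DT.shift (DT.shift hi)))
  · intro v hv
    unfold SpB
    constructor
    · rintro ⟨p, h1, h2, h3, h4, h5⟩
      exact ⟨p, ((pair_mem_iff hN).1 ((pair_mem_iff hN).1 (mem_N hN hB h3)).2).2, h1,
        fun x _ β _ hx => h2 x β hx, h3, h4, h5⟩
    · rintro ⟨p, hp, h1, h2, h3, h4, h5⟩
      refine ⟨p, h1, ?_, h3, h4, h5⟩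
      intro x β hx
      have h6 := mem_N hN hp hx
      unfold sa at h6
      have h7 := (pair_mem_iff hN).1 h6
      exact h2 x h7.1 β ((pair_mem_iff hN).1 h7.2).2 hx

theorem supp_enum (h : Hyp N μ κ) {A B : ZFSet.{u}} (hA : Onto N μ A) (hBN : B ∈ N)
    (hB : Nice (PP N μ κ) (LE N μ κ) A ZFSet.omega B) :
    ∃ E ∈ N, E ⊆ κ ∧ Onto N μ E ∧ ∀ a ∈ A, ∀ j ∈ ZFSet.omega.{u}, ∀ i, Sp B a j i →
      (i ∈ κ → i ∈ E) ∧ ∀ ξ e τ, i = cd ξ e τ → ran e ⊆ E := by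
  have hN := h.zf
  have hμ : μ ∈ N := μ_mem h
  have hκ : κ ∈ N := κ_mem h
  have hμo : μ.IsOrdinal := h.succ.1.2.1
  have hκo : κ.IsOrdinal := h.succ.2.1.2.1
  have hμκ : μ ∈ κ := h.succ.2.2.1
  have h0ω : (∅ : ZFSet.{u}) ∈ ZFSet.omega.{u} := nz_mem_omega 0
  have h0μ : (∅ : ZFSet.{u}) ∈ μ := h.inf h0ω
  have h0κ : (∅ : ZFSet.{u}) ∈ κ := hκo.isTransitive.subset_of_mem hμκ h0μ
  let Q : ZFSet.{u} → ZFSet.{u} → Prop := fun c δ => δ = ∅ ∨ ∃ i ∈ II N μ κ,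
    SpB B (fs (fs c)) (sn (fs c)) (fs (sn c)) (fs (sn (sn c))) i ∧
      (δ = i ∨ ∃ ξ' ∈ N, ∃ e' ∈ N, ∃ τ' ∈ N, i = cd ξ' e' τ' ∧ pair (sn (sn (sn c))) δ ∈ e')
  let s : ZFSet.{u} → ZFSet.{u} := fun c => κ.sep (Q c)
  let A' : ZFSet.{u} := prod (prod A ZFSet.omega) (prod ZFSet.omega (prod (finset μ) μ))
  have hs : DT N (fun v => s (v 0)) := by
    refine DT.sepT hN (DT.cst hN hκ) (Q := fun v δ => Q (v 0) δ) ?_
    refine Dfn.or (Dfn.eq hN (DT.var hN 0) (DT.empty hN)) ?_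
    refine Dfn.bex hN (DT.cst hN (II_mem h)) (Q := fun v i =>
      SpB B (fs (fs (v 1))) (sn (fs (v 1))) (fs (sn (v 1))) (fs (sn (sn (v 1)))) i ∧
      (v 0 = i ∨ ∃ ξ' ∈ N, ∃ e' ∈ N, ∃ τ' ∈ N, i = cd ξ' e' τ' ∧
        pair (sn (sn (sn (v 1)))) (v 0) ∈ e')) ?_
    refine Dfn.and ?_ (Dfn.or (Dfn.eq hN (DT.var hN 1) (DT.var hN 0)) ?_)
    · exact pl_dfn_SpB hN hBN (DT.fsT hN (DT.fsT hN (DT.var hN 2)))
        (DT.snT hN (DT.fsT hN (DT.var hN 2))) (DT.fsT hN (DT.snT hN (DT.var hN 2)))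
        (DT.fsT hN (DT.snT hN (DT.snT hN (DT.var hN 2)))) (DT.var hN 0)
    · refine Dfn.ex (Q := fun v ξ' => ∃ e' ∈ N, ∃ τ' ∈ N, v 0 = cd ξ' e' τ' ∧
        pair (sn (sn (sn (v 2)))) (v 1) ∈ e') ?_
      refine Dfn.ex (Q := fun v e' => ∃ τ' ∈ N, v 1 = cd (v 0) e' τ' ∧
        pair (sn (sn (sn (v 3)))) (v 2) ∈ e') ?_
      refine Dfn.ex (Q := fun v τ' => v 2 = cd (v 1) (v 0) τ' ∧
        pair (sn (sn (sn (v 4)))) (v 3) ∈ v 0) ?_
      refine Dfn.and (Dfn.eq hN (DT.var hN 3) (DT.cdT hN (DT.var hN 2) (DT.var hN 1)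
        (DT.var hN 0))) ?_
      exact Dfn.mem hN (DT.pairT hN (DT.snT hN (DT.snT hN (DT.snT hN (DT.var hN 5))))
        (DT.var hN 4)) (DT.var hN 1)
  have hA'O : Onto N μ A' := by
    refine onto_prod_self hN hμ hμo h.inf
      (onto_prod_self hN hμ hμo h.inf hA (onto_omega hN hμ h.inf))
      (onto_prod_self hN hμ hμo h.inf (onto_omega hN hμ h.inf)
        (onto_prod_self hN hμ hμo h.inf (onto_finset hN hμ hμo h.inf) (onto_refl hN hμ)))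
  have hmemA' : ∀ {a j m S γ : ZFSet.{u}}, a ∈ A → j ∈ ZFSet.omega.{u} → m ∈ ZFSet.omega.{u} →
      S ∈ finset μ → γ ∈ μ → pair (pair a j) (pair m (pair S γ)) ∈ A' := by
    intro a j m S γ h1 h2 h3 h4 h5
    simp only [A', ZFSet.pair_mem_prod]
    exact ⟨⟨h1, h2⟩, h3, h4, h5⟩
  have hscκ : ∀ c, s c ⊆ κ := fun c => ZFSet.sep_subset
  have hfin : ∀ c ∈ A', Fin' (s c) := by
    intro c hc
    simp only [A', ZFSet.mem_prod] at hc
    obtain ⟨c1, ⟨a, ha, j, hj, rfl⟩, c2, ⟨m, hm, c3, ⟨S, hS, γ, hγ, rfl⟩, rfl⟩, rfl⟩ := hc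
    obtain ⟨m', rfl⟩ := mem_omega.1 hm
    have hf := fin_support h hB ha hj m' (mem_finset.1 hS).2
    have hsub : ((s (pair (pair a j) (pair (nz m') (pair S γ))) : ZFSet.{u}) : Set ZFSet.{u}) ⊆
        {∅} ∪ ⋃ i ∈ {i | SpB B a j (nz m') S i}, ({i} ∪ {δ | i ∈ II N μ κ ∧
          ∃ ξ' e' τ', i = cd ξ' e' τ' ∧ pair γ δ ∈ e'}) := by
      intro δ hδ
      have h1 := (ZFSet.mem_sep.1 hδ).2
      simp only [Q, fs_pair, sn_pair] at h1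
      rcases h1 with h1 | ⟨i, hi, h2, h3⟩
      · exact Or.inl h1
      · refine Or.inr (Set.mem_biUnion (show i ∈ {i | SpB B a j (nz m') S i} from h2) ?_)
        rcases h3 with h3 | ⟨ξ', _, e', _, τ', _, h4, h5⟩
        · exact Or.inl h3
        · exact Or.inr ⟨hi, ξ', e', τ', h4, h5⟩
    refine Set.Finite.subset ?_ hsub
    refine (Set.finite_singleton _).union (hf.biUnion ?_)
    intro i _
    refine (Set.finite_singleton _).union (Set.Subsingleton.finite ?_)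
    rintro δ ⟨hi, ξ', e', τ', h4, h5⟩ δ' ⟨_, ξ'', e'', τ'', h4', h5'⟩
    obtain ⟨_, he, _⟩ := cd_inj.1 (h4.symm.trans h4')
    subst he
    have hyy : cd ξ' e' τ' ∈ YY N μ κ := by
      rcases II_cases h hi with ⟨_, hno⟩ | ⟨x, y, z, hxyz, hY⟩
      · exact absurd h4 (hno _ _ _)
      · rw [← h4, hxyz]; exact hY
    have hfun := ((cd_mem_YY h).1 hyy).2.2.2.1
    obtain ⟨w, _, hw⟩ := hfun.2 γ hγ
    rw [hw δ h5, hw δ' h5']
  have hne : (⋃₀ (img s A') : ZFSet.{u}) ≠ ∅ := by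
    obtain ⟨f, _, hf⟩ := hA
    obtain ⟨a, ha, _⟩ := hf.1.2 ∅ h0μ
    have ha' : a ∈ A := (ZFSet.pair_mem_prod.1 (hf.1.1 ha)).2
    have h1 : pair (pair a ∅) (pair ∅ (pair ∅ ∅)) ∈ A' :=
      hmemA' ha' h0ω h0ω (mem_finset.2 ⟨ZFSet.empty_subset _, fin_empty⟩) h0μ
    intro h2
    have h3 : (∅ : ZFSet.{u}) ∈ (⋃₀ (img s A') : ZFSet.{u}) := by
      rw [ZFSet.mem_sUnion]
      exact ⟨_, mem_img.2 ⟨_, h1, rfl⟩, ZFSet.mem_sep.2 ⟨h0κ, Or.inl rfl⟩⟩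
    rw [h2] at h3
    exact ZFSet.notMem_empty _ h3
  have hEmem : ∀ {c δ}, c ∈ A' → δ ∈ κ → Q c δ → δ ∈ (⋃₀ (img s A') : ZFSet.{u}) := by
    intro c δ hc hδ hQ
    rw [ZFSet.mem_sUnion]
    exact ⟨_, mem_img.2 ⟨c, hc, rfl⟩, ZFSet.mem_sep.2 ⟨hδ, hQ⟩⟩
  refine ⟨(⋃₀ (img s A') : ZFSet.{u}), ?_, ?_, ?_, ?_⟩
  · exact sUnion_mem hN (img_mem hN hs (onto_mem_right hN hA'O))
  · intro δ hδ
    rw [ZFSet.mem_sUnion] at hδ
    obtain ⟨z, hz, hδz⟩ := hδ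
    obtain ⟨c, _, rfl⟩ := mem_img.1 hz
    exact hscκ c hδz
  · exact onto_sUnion_fin hN hμ hμo h.inf hA'O hs hfin
      (fun c _ α hα => ord_of_mem h (hscκ c hα)) hne
  · intro a ha j hj i hi
    obtain ⟨S, hS, m, hSp⟩ := exists_SpB hB hi
    have hiI : i ∈ II N μ κ := Sp_mem hB hi
    constructor
    · intro hiκ
      refine hEmem (hmemA' ha hj (nz_mem_omega m) hS h0μ) hiκ ?_
      simp only [Q, fs_pair, sn_pair]
      exact Or.inr ⟨i, hiI, hSp, Or.inl rfl⟩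
    · intro ξ e τ hie δ hδ
      have hyy : cd ξ e τ ∈ YY N μ κ := by
        rcases II_cases h hiI with ⟨_, hno⟩ | ⟨x, y, z, hxyz, hY⟩
        · exact absurd hie (hno _ _ _)
        · rw [← hie, hxyz]; exact hY
      obtain ⟨hξ, heN, hτN, hok⟩ := (cd_mem_YY h).1 hyy
      obtain ⟨γ, hγ⟩ := mem_ran.1 hδ
      have h1 := ZFSet.pair_mem_prod.1 (hok.1.1 hγ)
      refine hEmem (hmemA' ha hj (nz_mem_omega m) hS h1.1) h1.2 ?_
      simp only [Q, fs_pair, sn_pair]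
      exact Or.inr ⟨i, hiI, hSp, Or.inr ⟨ξ, mem_N hN hκ hξ, e, heN, τ, hτN, hie, hγ⟩⟩

end Pool.Agent.FBZ
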