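import Pool.Agent.FBZ.PL
import Pool.Agent.FBZ.PJ

/-!
# FBZ module PM: every sequence of reals has a code

Let `Surj s μ l`, `s ∈ N`, and let `B ∈ N` be a nice name for a function from `l × ω` to `ω`.  There
is a total, functional code `cd ξ e τ` which names the sequence re-indexed by `s`.

Proof.
* `Onto N μ (prod l ω)` (`onto_prod_self`, `onto_omega`); let `E` be from `supp_enum`.
* `σ = ⋃₀ X`, `X = κ.sep (fun ξ' => ∃ a ∈ prod l ω, ∃ j ∈ ω, ∃ i, Sp B a j i ∧ ∃ e' τ', i = cd ξ' e' τ')`.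
  `X` is a set of ordinals so `σ` is an ordinal (transitive set of ordinals).  For `ξ' ∈ X`
  with `i = cd ξ' e' τ' ∈ YY` (`Sp_mem`, `II_cases`): `ξ' ⊆ ran e' ⊆ E` (`cd_mem_YY`), so `σ ⊆ E` and
  `σ ∈ κ` by `ord_subset_mem`.  `ξ = insert σ σ ∈ κ` by `insert_mem_card` (`ω ⊆ κ`).
* `Onto N μ (insert σ E)` by `onto_insert`; so there is `e ∈ N` with
  `Surj e μ (insert σ E)`, hence `IsFunc μ κ e` (`isFunc_mono`) and `ran e = insert σ E ⊇ ξ`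
  (`ran_surj`).
* every `i` with `Sp B a j i` (`a ∈ prod l ω`, `j ∈ ω`) satisfies `InC ξ e i`: if `i ∈ κ` then
  `i ∈ E ⊆ ran e`; if `i = cd ξ' e' τ' ∈ YY` then `ξ' ∈ X`, so `ξ' ⊆ σ`, so `ξ' = σ` or `ξ' ∈ σ`, in
  both cases `ξ' ∈ ξ`, and `ran e' ⊆ E ⊆ ran e`.
* `τ = {c ∈ prod (prod μ ω) (prod (CS (IC ξ e) μ) ω) :
    pair (pair (ap s (fs (fs c))) (sn (fs c))) (pair (sn (sn c)) (fs (sn c))) ∈ B}`, that is
  `pair (pair β n) (pair p j) ∈ τ ↔ β ∈ μ, n ∈ ω, p ∈ CS (IC ξ e) μ, j ∈ ω and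
  pair (pair (ap s β) n) (pair j p) ∈ B`; `τ ∈ N` (`sep_mem`, `DT.apT`, `IC_mem`, `DT.CST`).
* `cd ξ e τ ∈ YY`: `cd_mem_YY`; the last clause of `CodeOK` is `Nice.opn` with `mem_LE`,
  `mem_PP_of_IC`.
* total: let `p ∈ CS (IC ξ e) μ`.  `Nice.dns` gives `q ∈ PP`, `Le q p`, and `j` with
  `pair (pair (ap s β) n) (pair j q) ∈ B`; `q' = rs (InC ξ e) q` is in `CS (IC ξ e) μ`
  (`rs_mem_IC`), `pair (pair (ap s β) n) (pair j q') ∈ B` by `determined`, and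
  `Le q' (rs (InC ξ e) p) = Le q' p` by `rs_mono`, `cl_InC`, `rs_eq_of_IC`.
* functional: `Nice.fn`.
* if `H` is generic, `p ∈ H` and `pair (pair (ap s β) n) (pair j p) ∈ B` then
  `p' = rs (InC ξ e) p ∈ H` (`le_rs`, `Generic.up`) and `pair (pair β n) (pair p' j) ∈ τ`
  (`determined`).
-/

namespace Pool.Agent.FBZ
open ZFSet
universe u
variable {N : Set ZFSet.{u}} {μ κ : ZFSet.{u}}

private theorem PM_sUnion_ord {X : ZFSet.{u}} (hX : ∀ x ∈ X, x.IsOrdinal) :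
    (⋃₀ X : ZFSet.{u}).IsOrdinal := by
  refine ⟨?_, ?_⟩
  · intro y hy z hz
    obtain ⟨x, hx, hyx⟩ := ZFSet.mem_sUnion.1 hy
    exact ZFSet.mem_sUnion.2 ⟨x, hx, (hX x hx).mem_trans hz hyx⟩
  · intro y z w hyz hzw hw
    obtain ⟨x, hx, hwx⟩ := ZFSet.mem_sUnion.1 hw
    exact ((hX x hx).mem hwx).mem_trans hyz hzw

/-- The rank and the enumeration of a code which covers the support. -/
private theorem PM_data (h : Hyp N μ κ) {A B : ZFSet.{u}} (hA : Onto N μ A) (hBN : B ∈ N)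
    (hB : Nice (PP N μ κ) (LE N μ κ) A ZFSet.omega B) :
    ∃ ξ ∈ κ, ∃ e ∈ N, IsFunc μ κ e ∧ ξ ⊆ ran e ∧
      ∀ a ∈ A, ∀ j ∈ ZFSet.omega.{u}, ∀ i, Sp B a j i → InC ξ e i := by
  have hN := h.zf
  have hμ : μ ∈ N := μ_mem h
  have hκ : κ ∈ N := κ_mem h
  have hμo : μ.IsOrdinal := h.succ.1.2.1
  have hκo : κ.IsOrdinal := h.succ.2.1.2.1
  have hμκ : μ ∈ κ := h.succ.2.2.1
  obtain ⟨E, hEN, hEκ, hEO, hE⟩ := supp_enum h hA hBN hB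
  set X : ZFSet.{u} := κ.sep (fun ξ' => ∃ a ∈ A, ∃ j ∈ ZFSet.omega.{u}, ∃ i, Sp B a j i ∧
    ∃ e' τ', i = cd ξ' e' τ') with hXdef
  have hXord : ∀ x ∈ X, x.IsOrdinal := by
    intro x hx
    exact hκo.mem (ZFSet.mem_sep.1 hx).1
  have hσo : (⋃₀ X : ZFSet.{u}).IsOrdinal := PM_sUnion_ord hXord
  have hYY : ∀ {a j ξ' e' τ' : ZFSet.{u}}, Sp B a j (cd ξ' e' τ') →
      cd ξ' e' τ' ∈ YY N μ κ := by
    intro a j ξ' e' τ' hsp
    rcases II_cases h (Sp_mem hB hsp) with ⟨_, hno⟩ | ⟨x, y, z, hxyz, hY⟩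
    · exact absurd rfl (hno ξ' e' τ')
    · rw [hxyz]; exact hY
  have hσE : (⋃₀ X : ZFSet.{u}) ⊆ E := by
    intro z hz
    obtain ⟨ξ', hξ', hz'⟩ := ZFSet.mem_sUnion.1 hz
    obtain ⟨hξκ, a, ha, j, hj, i, hsp, e', τ', rfl⟩ := ZFSet.mem_sep.1 hξ'
    have h1 := (cd_mem_YY h).1 (hYY hsp)
    exact (hE a ha j hj _ hsp).2 ξ' e' τ' rfl (h1.2.2.2.2.1 hz')
  have hσκ : (⋃₀ X : ZFSet.{u}) ∈ κ := ord_subset_mem h.succ hσo hσE hEκ hEO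
  have hωκ : ZFSet.omega ⊆ κ := fun x hx => hκo.subset_of_mem hμκ (h.inf hx)
  have hξκ : insert (⋃₀ X : ZFSet.{u}) (⋃₀ X : ZFSet.{u}) ∈ κ :=
    insert_mem_card hN h.succ.2.1 hωκ hσκ
  have hOnto : Onto N μ (insert (⋃₀ X : ZFSet.{u}) E) :=
    onto_insert hN hμ hμo h.inf hEO (mem_N hN hκ hσκ)
  obtain ⟨e, heN, he⟩ := hOnto
  have hsub : insert (⋃₀ X : ZFSet.{u}) E ⊆ κ := by
    intro z hz
    rcases ZFSet.mem_insert_iff.1 hz with rfl | hz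
    · exact hσκ
    · exact hEκ hz
  have hran : ran e = insert (⋃₀ X : ZFSet.{u}) E := ran_surj he
  refine ⟨_, hξκ, e, heN, isFunc_mono he.1 hsub, ?_, ?_⟩
  · rw [hran]
    intro z hz
    rcases ZFSet.mem_insert_iff.1 hz with rfl | hz
    · exact ZFSet.mem_insert_iff.2 (Or.inl rfl)
    · exact ZFSet.mem_insert_iff.2 (Or.inr (hσE hz))
  · intro a ha j hj i hsp
    rcases II_cases h (Sp_mem hB hsp) with ⟨hiκ, _⟩ | ⟨ξ', e', τ', hi, hY⟩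
    · left
      rw [hran]
      exact ZFSet.mem_insert_iff.2 (Or.inr ((hE a ha j hj i hsp).1 hiκ))
    · right
      refine ⟨ξ', e', τ', hi, ?_, ?_⟩
      · have hξ'κ := ((cd_mem_YY h).1 hY).1
        have hξX : ξ' ∈ X := ZFSet.mem_sep.2 ⟨hξ'κ, a, ha, j, hj, i, hsp, e', τ', hi⟩
        have hsubσ : ξ' ⊆ (⋃₀ X : ZFSet.{u}) := fun z hz => ZFSet.mem_sUnion.2 ⟨ξ', hξX, hz⟩
        rcases ((hκo.mem hξ'κ).subset_iff_eq_or_mem hσo).1 hsubσ with h1 | h1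
        · exact ZFSet.mem_insert_iff.2 (Or.inl h1)
        · exact ZFSet.mem_insert_iff.2 (Or.inr h1)
      · rw [hran]
        intro z hz
        exact ZFSet.mem_insert_iff.2 (Or.inr ((hE a ha j hj i hsp).2 ξ' e' τ' hi hz))

theorem exists_code (h : Hyp N μ κ) {l s B : ZFSet.{u}} (hs : s ∈ N) (hsu : Surj s μ l)
    (hBN : B ∈ N) (hB : Nice (PP N μ κ) (LE N μ κ) (prod l ZFSet.omega) ZFSet.omega B) :
    ∃ ξ e τ, cd ξ e τ ∈ YY N μ κ ∧ Total N μ κ ξ e τ ∧ Functional N μ κ τ ∧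
      ∀ H, Generic N (PP N μ κ) (LE N μ κ) H → ∀ β ∈ μ, ∀ n ∈ ZFSet.omega.{u},
        ∀ j ∈ ZFSet.omega.{u}, (∃ p ∈ H, pair (pair (ap s β) n) (pair j p) ∈ B) →
          ∃ p ∈ H, pair (pair β n) (pair p j) ∈ τ := by
  have hN := h.zf
  have hμ : μ ∈ N := μ_mem h
  have hμo : μ.IsOrdinal := h.succ.1.2.1
  have hκN : κ ∈ N := κ_mem h
  have hA : Onto N μ (prod l ZFSet.omega) :=
    onto_prod_self hN hμ hμo h.inf ⟨s, hs, hsu⟩ (onto_omega hN hμ h.inf)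
  obtain ⟨ξ, hξ, e, he, hef, hξe, hsp⟩ := PM_data h hA hBN hB
  have hξN : ξ ∈ N := mem_N hN hκN hξ
  set W : ZFSet.{u} := CS (IC N μ κ ξ e) μ with hW
  have hWN : W ∈ N :=
    (DT.CST (a := fun _ => IC N μ κ ξ e) (b := fun _ => μ) hN (DT.cst hN (IC_mem h hξN he))
      (DT.cst hN hμ)).1 (fun _ => μ) (fun _ => hμ)
  set τ : ZFSet.{u} := (prod (prod μ ZFSet.omega) (prod W ZFSet.omega)).sep
    (fun c => pair (pair (ap s (fs (fs c))) (sn (fs c))) (pair (sn (sn c)) (fs (sn c))) ∈ B)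
    with hτdef
  have hτN : τ ∈ N := by
    refine sep_mem (Q := fun c => pair (pair (ap s (fs (fs c))) (sn (fs c)))
      (pair (sn (sn c)) (fs (sn c))) ∈ B) hN ?_
      (prod_mem hN (prod_mem hN hμ hN.omega) (prod_mem hN hWN hN.omega))
    have h0 : DT N (fun v => v 0) := DT.var hN 0
    exact Dfn.mem hN (DT.pairT hN (DT.pairT hN
      (DT.apT hN (DT.cst hN hs) (DT.fsT hN (DT.fsT hN h0))) (DT.snT hN (DT.fsT hN h0)))
      (DT.pairT hN (DT.snT hN (DT.snT hN h0)) (DT.fsT hN (DT.snT hN h0)))) (DT.cst hN hBN)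
  have hτ : ∀ β n p j, pair (pair β n) (pair p j) ∈ τ ↔
      ((β ∈ μ ∧ n ∈ ZFSet.omega.{u}) ∧ p ∈ W ∧ j ∈ ZFSet.omega.{u}) ∧
        pair (pair (ap s β) n) (pair j p) ∈ B := by
    intro β n p j
    rw [hτdef, ZFSet.mem_sep, pair_mem_prod, pair_mem_prod, pair_mem_prod]
    simp only [fs_pair, sn_pair]
  have hyy : cd ξ e τ ∈ YY N μ κ := by
    rw [cd_mem_YY h]
    refine ⟨hξ, he, hτN, hef, hξe, ZFSet.sep_subset, ?_⟩
    intro b p j q hb hq hqp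
    have hb' := ZFSet.sep_subset hb
    rw [pair_mem_prod] at hb'
    obtain ⟨β, hβ, n, hn, rfl⟩ := ZFSet.mem_prod.1 hb'.1
    have hb1 := (hτ β n p j).1 hb
    refine (hτ β n q j).2 ⟨⟨⟨hβ, hn⟩, hq, hb1.1.2.2⟩, ?_⟩
    exact hB.opn _ _ _ _ hb1.2 (mem_LE.2 ⟨mem_PP_of_IC hq, mem_PP_of_IC hb1.1.2.1, hqp⟩)
  have hap : ∀ β ∈ μ, ap s β ∈ l := fun β hβ => (pair_ap hsu.1 hβ).2
  have hdet : ∀ β ∈ μ, ∀ n ∈ ZFSet.omega.{u}, ∀ j ∈ ZFSet.omega.{u}, ∀ p,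
      pair (pair (ap s β) n) (pair j p) ∈ B →
      pair (pair β n) (pair (rs (InC ξ e) p) j) ∈ τ := by
    intro β hβ n hn j hj p hp
    have hpP : p ∈ PP N μ κ := (pair_mem_prod.1 (pair_mem_prod.1 (hB.sub hp)).2).2
    refine (hτ β n _ j).2 ⟨⟨⟨hβ, hn⟩, rs_mem_IC hpP, hj⟩, ?_⟩
    exact determined hB (hsp _ (pair_mem_prod.2 ⟨hap β hβ, hn⟩) j hj) hp
  refine ⟨ξ, e, τ, hyy, ?_, ?_, ?_⟩
  · intro β hβ n hn p hp
    have hpP : p ∈ PP N μ κ := mem_PP_of_IC hp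
    obtain ⟨q, j, hqp, hqB⟩ := hB.dns (pair (ap s β) n) (pair_mem_prod.2 ⟨hap β hβ, hn⟩) p hpP
    obtain ⟨hq, _, hle⟩ := mem_LE.1 hqp
    have hj : j ∈ ZFSet.omega.{u} := (pair_mem_prod.1 (pair_mem_prod.1 (hB.sub hqB)).2).1
    refine ⟨rs (InC ξ e) q, rs_mem_IC hq, ?_, j, hdet β hβ n hn j hj q hqB⟩
    have h1 := rs_mono h (cl_InC h hyy) hpP hq hle
    rwa [rs_eq_of_IC hp] at h1
  · intro b j j' p q r hp hq hr hrp hrq
    have hb' := ZFSet.sep_subset hp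
    rw [pair_mem_prod] at hb'
    obtain ⟨β, hβ, n, hn, rfl⟩ := ZFSet.mem_prod.1 hb'.1
    have h1 := (hτ β n p j).1 hp
    have h2 := (hτ β n q j').1 hq
    exact hB.fn _ _ _ _ _ r h1.2 h2.2 (mem_LE.2 ⟨hr, mem_PP_of_IC h1.1.2.1, hrp⟩)
      (mem_LE.2 ⟨hr, mem_PP_of_IC h2.1.2.1, hrq⟩)
  · rintro H hG β hβ n hn j hj ⟨p, hpH, hpB⟩
    have hpP : p ∈ PP N μ κ := hG.sub hpH
    refine ⟨rs (InC ξ e) p, ?_, hdet β hβ n hn j hj p hpB⟩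
    refine hG.up p hpH _ (mem_LE.2 ⟨hpP, ?_, le_rs _ p⟩)
    exact rs_mem _ hpP

end Pool.Agent.FBZ
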