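import Pool.Agent.FBZ.PM

/-!
# FBZ module PN: families of size less than `κ` are bounded

Let `l ∈ κ`, `F ∈ Ext N H`; suppose `Unbounded (Ext N H) l F`, so `F : l → (ω → ω)`.
* `l ≠ ∅`: otherwise the unboundedness, applied to any function `ω → ω` of `N ⊆ Ext N H` (e.g.
  `gr (fun _ => ∅) ω`, `gr_mem`, `mem_Ext_of_mem`), gives an element of `∅`.
* `Onto N μ l` by `onto_of_mem_succ`: `s ∈ N`, `Surj s μ l`.
* `nice_seq` gives `B`; `exists_code` gives `ξ, e, τ`; `dominate` gives `g ∈ Ext N H`, `g : ω → ω`.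
* For `α ∈ l`, `pair α x ∈ F`: choose `β ∈ μ` with `ap s β = α` (`surj_iff`).  `x : ω → ω`
  (`mem_funs`), and if `pair n j ∈ x` then (`n, j ∈ ω`) `∃ p ∈ H, pair (pair α n) (pair j p) ∈ B`
  by `nice_seq`, so `∃ p ∈ H, pair (pair β n) (pair p j) ∈ τ`.  So `LeStar x g`, for all `α ∈ l`:
  contradiction to `Unbounded`.
-/

namespace Pool.Agent.FBZ
open ZFSet
universe u
variable {N : Set ZFSet.{u}} {μ κ H : ZFSet.{u}}

theorem bounded_small (h : Hyp N μ κ) (hG : Generic N (PP N μ κ) (LE N μ κ) H)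
    {l F : ZFSet.{u}} (hl : l ∈ κ) (hF : F ∈ Ext N H) : ¬ Unbounded (Ext N H) l F := by
  rintro ⟨hfun, hunb⟩
  have hN := h.zf
  have hlN : l ∈ N := hN.trans κ (κ_mem h) l hl
  have hne := gen_nonempty (forcing_PP h) (PP_mem h) hG
  have hl0 : l ≠ ∅ := by
    rintro rfl
    have hg0 : gr (fun _ => (∅ : ZFSet.{u})) ZFSet.omega ∈ N := by
      refine gr_mem hN (F := fun _ => (∅ : ZFSet.{u})) ?_ hN.omega
      have h0 : (∅ : ZFSet.{u}) ∈ N := hN.trans _ hN.omega _ omega_zero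
      exact DT.cst hN h0
    have hgf : IsFunc ZFSet.omega ZFSet.omega (gr (fun _ => (∅ : ZFSet.{u})) ZFSet.omega) :=
      gr_isFunc fun _ _ => omega_zero
    obtain ⟨α, hα, -⟩ := hunb _ (mem_Ext_of_mem hN (PP_mem h) hG.sub hne hg0) hgf
    exact ZFSet.notMem_empty α hα
  obtain ⟨s, hs, hsu⟩ := onto_of_mem_succ hN h.succ h.inf hl hl0
  obtain ⟨B, hBN, hB, hBF⟩ := nice_seq hN (forcing_PP h) (PP_mem h) (LE_mem h) hG hlN hF hfun
  obtain ⟨ξ, e, τ, hy, htot, hfu, hcode⟩ := exists_code h hs hsu hBN hB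
  obtain ⟨g, hg, hgf, hdom⟩ := dominate h hG hy htot hfu
  obtain ⟨α, hα, x, hx, hnle⟩ := hunb g hg hgf
  obtain ⟨β, hβ, hβα⟩ := (surj_iff.1 hsu).2 α hα
  have hxf : IsFunc ZFSet.omega ZFSet.omega x := mem_funs.1 (pair_mem_prod.1 (hfun.1 hx)).2
  refine hnle (hdom β hβ x hxf fun n j hnj => ?_)
  obtain ⟨hn, hj⟩ := pair_mem_prod.1 (hxf.1 hnj)
  refine hcode H hG β hβ n hn j hj ?_
  rw [hβα]
  exact (hBF α hα n hn j hj).1 ⟨x, hx, hnj⟩

end Pool.Agent.FBZ
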