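import Pool.Agent.FBZ.PI
import Pool.Agent.FBZ.PC2

/-!
# FBZ module PO: the family of Cohen reals

`cohen H α = {pair n k ∈ ω × ω : ∃ p ∈ H, ga α n k ∈ p}`, `cohens = gr (cohen H) κ`.
* `cohens_mem`: `build_seq` with `A = κ`, `W = prod ω ω` and
  `C = {pair α (pair w p) : ga α (fs w) (sn w) ∈ p} ∈ N` (`sep_mem` in `prod κ (prod (prod ω ω) PP)`).
* `cohen_fun`: for `n ∈ ω` the set `{p ∈ PP : ∃ k ∈ ω, ga α n k ∈ p}` is in `N` and dense (`ins_cohen`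
  with `k = ∅` if there is no such atom), so it meets `H`; uniqueness with a common lower bound in
  `H` and `CS_fun`.
* `cohens_fun`: `gr_isFunc`, `mem_funs`.
-/

namespace Pool.Agent.FBZ
open ZFSet
universe u
variable {N : Set ZFSet.{u}} {μ κ H : ZFSet.{u}}

/-- The Cohen real with index `α`. -/
noncomputable def cohen (H α : ZFSet.{u}) : ZFSet.{u} :=
  (prod ZFSet.omega ZFSet.omega).sep (fun w => ∃ p ∈ H, ga α (fs w) (sn w) ∈ p)

theorem mem_cohen {α n k : ZFSet.{u}} :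
    pair n k ∈ cohen H α ↔ n ∈ ZFSet.omega ∧ k ∈ ZFSet.omega ∧ ∃ p ∈ H, ga α n k ∈ p := by
  unfold cohen
  rw [mem_sep, pair_mem_prod, fs_pair, sn_pair, and_assoc]

theorem cohens_mem (h : Hyp N μ κ) (hG : Generic N (PP N μ κ) (LE N μ κ) H) :
    gr (cohen H) κ ∈ Ext N H := by
  have hN := h.zf
  have hne := gen_nonempty (forcing_PP h) (PP_mem h) hG
  have hW : prod ZFSet.omega ZFSet.omega ∈ N := prod_mem hN hN.omega hN.omega
  have hC : (prod κ (prod (prod ZFSet.omega ZFSet.omega) (PP N μ κ))).sep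
      (fun c => ga (fs c) (fs (fs (sn c))) (sn (fs (sn c))) ∈ sn (sn c)) ∈ N := by
    refine sep_mem hN ?_ (prod_mem hN (κ_mem h) (prod_mem hN hW (PP_mem h)))
    exact Dfn.mem hN (DT.gaT hN (DT.fsT hN (DT.var hN 0))
      (DT.fsT hN (DT.fsT hN (DT.snT hN (DT.var hN 0))))
      (DT.snT hN (DT.fsT hN (DT.snT hN (DT.var hN 0))))) (DT.snT hN (DT.snT hN (DT.var hN 0)))
  have hb := build_seq hN (PP_mem h) hG.sub hne (κ_mem h) hW hC
  have e : ∀ α ∈ κ, (prod ZFSet.omega ZFSet.omega).sep (fun w => ∃ p ∈ H, pair α (pair w p) ∈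
      (prod κ (prod (prod ZFSet.omega ZFSet.omega) (PP N μ κ))).sep
      (fun c => ga (fs c) (fs (fs (sn c))) (sn (fs (sn c))) ∈ sn (sn c))) = cohen H α := by
    intro α hα
    ext w
    unfold cohen
    rw [mem_sep, mem_sep]
    refine and_congr_right fun hw => ?_
    constructor
    · rintro ⟨p, hp, hc⟩
      rw [mem_sep] at hc
      obtain ⟨_, hc⟩ := hc
      simp only [fs_pair, sn_pair] at hc
      exact ⟨p, hp, hc⟩
    · rintro ⟨p, hp, hc⟩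
      refine ⟨p, hp, mem_sep.2 ⟨pair_mem_prod.2 ⟨hα, pair_mem_prod.2 ⟨hw, hG.sub hp⟩⟩, ?_⟩⟩
      simp only [fs_pair, sn_pair]
      exact hc
  have e2 : gr (fun α => (prod ZFSet.omega ZFSet.omega).sep (fun w => ∃ p ∈ H,
      pair α (pair w p) ∈ (prod κ (prod (prod ZFSet.omega ZFSet.omega) (PP N μ κ))).sep
      (fun c => ga (fs c) (fs (fs (sn c))) (sn (fs (sn c))) ∈ sn (sn c)))) κ = gr (cohen H) κ := by
    ext p
    rw [mem_gr', mem_gr']
    constructor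
    · rintro ⟨α, hα, rfl⟩
      exact ⟨α, hα, by rw [e α hα]⟩
    · rintro ⟨α, hα, rfl⟩
      exact ⟨α, hα, by rw [e α hα]⟩
  rw [← e2]
  exact hb

theorem cohen_fun (h : Hyp N μ κ) (hG : Generic N (PP N μ κ) (LE N μ κ) H) {α : ZFSet.{u}}
    (hα : α ∈ κ) : IsFunc ZFSet.omega ZFSet.omega (cohen H α) := by
  have hN := h.zf
  refine ⟨fun w hw => (mem_sep.1 hw).1, fun n hn => ?_⟩
  have hD : (PP N μ κ).sep (fun p => ∃ k ∈ ZFSet.omega.{u}, ga α n k ∈ p) ∈ N := by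
    refine sep_mem hN ?_ (PP_mem h)
    exact Dfn.bex hN (DT.omegaT hN) (Dfn.mem hN (DT.gaT hN (DT.cst hN (mem_N hN (κ_mem h) hα))
      (DT.cst hN (mem_N hN hN.omega hn)) (DT.var hN 0)) (DT.var hN 1))
  obtain ⟨p, hpH, hpD⟩ := hG.meets _ hD (by
    refine ⟨fun a ha => (mem_sep.1 ha).1, fun p hp => ?_⟩
    by_cases h1 : ∃ k, ga α n k ∈ p
    · obtain ⟨k, hk⟩ := h1
      refine ⟨p, mem_sep.2 ⟨hp, k, ?_, hk⟩, (forcing_PP h).refl p hp⟩
      rcases atom_cases hp hk with ⟨i, _, n', _, k', hk', e⟩ | ⟨i, _, β, _, e⟩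
      · rw [(ga_inj.1 e).2.2]
        exact hk'
      · exact absurd e ga_ne_sa
    · push Not at h1
      obtain ⟨h2, h3⟩ := ins_cohen h hp hα hn omega_zero h1
      exact ⟨_, mem_sep.2 ⟨h2, ∅, omega_zero, mem_insert _ _⟩, mem_LE.2 ⟨h2, hp, h3⟩⟩)
  obtain ⟨k, hk, hkp⟩ := (mem_sep.1 hpD).2
  refine ⟨k, mem_cohen.2 ⟨hn, hk, p, hpH, hkp⟩, fun k' hk' => ?_⟩
  obtain ⟨_, _, p', hp'H, hk'p⟩ := mem_cohen.1 hk'
  obtain ⟨r, hrH, hrp, hrp'⟩ := hG.dir p hpH p' hp'H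
  exact CS_fun (hG.sub hrH) ((mem_LE.1 hrp').2.2.1 hk'p) ((mem_LE.1 hrp).2.2.1 hkp)

theorem cohens_fun (h : Hyp N μ κ) (hG : Generic N (PP N μ κ) (LE N μ κ) H) :
    IsFunc κ (funs ZFSet.omega ZFSet.omega) (gr (cohen H) κ) := by
  exact gr_isFunc fun α hα => mem_funs.2 (cohen_fun h hG hα)

end Pool.Agent.FBZ
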