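import Pool.Agent.FBZ.PL
import Pool.Agent.FBZ.PO

/-!
# FBZ module PQ: the family of the `κ` Cohen reals is unbounded

Let `g ∈ Ext N H`, `g : ω → ω`.  `nice_fun` with `A = J = ω` gives `B ∈ N`,
`Nice (PP) (LE) ω ω B`, `pair a j ∈ g ↔ ∃ p ∈ H, pair a (pair j p) ∈ B`.  `supp_enum` (with
`onto_omega`) gives `E ∈ N`, `E ⊆ κ`, `Onto N μ E`.  `E ≠ κ` by `not_onto_succ`, so there is
`α ∈ κ`, `α ∉ E`.  Claim: `¬ LeStar (cohen H α) g`.
Let `C i := i ≠ α ∧ ∀ ξ e τ, i = cd ξ e τ → α ∉ ran e`; `Cl N μ κ C` (`cl_ne`).  If `Sp B a j i`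
(`a, j ∈ ω`) then `C i`: if `i ∈ κ` then `i ∈ E`, so `i ≠ α`, and `i` is not a code; if
`i = cd ξ e τ` then `i ≠ α` (`not_ord_cd`) and `ran e ⊆ E`, so `α ∉ ran e` (also for any other
representation, `cd_inj`).  So by `determined`:
(*) `pair a (pair j q) ∈ B → pair a (pair j (rs C q)) ∈ B`.
Let `m ∈ ω`.  The set `D` of all `p ∈ PP` such that there are `n, k ∈ ω` with `m ⊆ n`,
`ga α n (insert k k) ∈ p`, `pair n (pair k p) ∈ B` is in `N`, and dense: let `p ∈ PP`.  Choose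
`n ∈ ω`, `m ⊆ n`, such that `p` has no atom `ga α n k'` (`exists_Bd`; `m = nz m'`).  By `Nice.dns` there
are `q ∈ PP`, `Le q p`, `k ∈ ω` with `pair n (pair k q) ∈ B`.  Let `q₁ = rs C q`; by (*)
`pair n (pair k q₁) ∈ B`; `Le q₁ (rs C p)` by `rs_mono`.  Let `q₂ = q₁ ∪ rs (¬ C ·) p` (`amalg`):
`q₂ ∈ PP`, `Le q₂ p`, `Le q₂ q₁`.  `q₂` has no atom `ga α n k'`, because `¬ C α`, so such an atom would be
in `p`.  `q₃ = insert (ga α n (insert k k)) q₂` is in `PP` and below `q₂` (`ins_cohen`,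
`omega_succ`), and `pair n (pair k q₃) ∈ B` by `Nice.opn`.  So `q₃ ∈ D`, `Le q₃ p` (`le_trans'`).
Now if `LeStar (cohen H α) g`, with `m ∈ ω`: take `p ∈ H ∩ D` and `n, k`.  Then
`pair n (insert k k) ∈ cohen H α` and `pair n k ∈ g`, so `insert k k ⊆ k`, so `k ∈ k`, contradiction.
Conclusion: `Unbounded (Ext N H) κ (gr (cohen H) κ)` with `cohens_fun`, `mem_gr`.
-/

namespace Pool.Agent.FBZ
open ZFSet
universe u
variable {N : Set ZFSet.{u}} {μ κ H : ZFSet.{u}}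

theorem not_leStar_cohen (h : Hyp N μ κ) (hG : Generic N (PP N μ κ) (LE N μ κ) H)
    {g : ZFSet.{u}} (hg : g ∈ Ext N H) (hgf : IsFunc ZFSet.omega ZFSet.omega g) :
    ∃ α ∈ κ, ¬ LeStar (cohen H α) g := by
  have hN := h.zf
  have hf := forcing_PP h
  have hP := PP_mem h
  have hLE := LE_mem h
  obtain ⟨B, hBN, hB, hBg⟩ := nice_fun hN hf hP hLE hG hN.omega hN.omega isOrdinal_omega
    omega_zero hg hgf
  obtain ⟨E, hEN, hEκ, hEO, hE⟩ := supp_enum h (onto_omega hN (μ_mem h) h.inf) hBN hB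
  have hne : ∃ α ∈ κ, α ∉ E := by
    by_contra hcon
    push Not at hcon
    have hEq : E = κ := by
      ext x
      exact ⟨fun hx => hEκ hx, fun hx => hcon x hx⟩
    rw [hEq] at hEO
    exact not_onto_succ h.succ hEO
  obtain ⟨α, hα, hαE⟩ := hne
  refine ⟨α, hα, ?_⟩
  have hαo : α.IsOrdinal := h.succ.2.1.2.1.mem hα
  let C : ZFSet.{u} → Prop := fun i => i ≠ α ∧ ∀ ξ e τ, i = cd ξ e τ → α ∉ ran e
  have hCl : Cl N μ κ C := cl_ne h hα
  have hSpC : ∀ a ∈ ZFSet.omega.{u}, ∀ j ∈ ZFSet.omega.{u}, ∀ i, Sp B a j i → C i := by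
    intro a ha j hj i hi
    have hE' := hE a ha j hj i hi
    have hiI := Sp_mem hB hi
    rcases II_cases h hiI with ⟨hik, hno⟩ | ⟨ξ, e, τ, hie, hY⟩
    · refine ⟨?_, fun ξ e τ he => absurd he (hno ξ e τ)⟩
      rintro rfl
      exact hαE (hE'.1 hik)
    · refine ⟨?_, ?_⟩
      · intro he
        rw [← he, hie] at hαo
        exact not_ord_cd ξ e τ hαo
      · intro ξ' e' τ' he hran
        exact hαE ((hE'.2 ξ' e' τ' he) hran)
  have hstar : ∀ a ∈ ZFSet.omega.{u}, ∀ j ∈ ZFSet.omega.{u}, ∀ q, pair a (pair j q) ∈ B →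
      pair a (pair j (rs C q)) ∈ B :=
    fun a ha j hj q hq => determined hB (hSpC a ha j hj) hq
  have hαN : α ∈ N := mem_N hN (κ_mem h) hα
  rintro ⟨m, hm, hle⟩
  have hmN : m ∈ N := mem_N hN hN.omega hm
  let Q : ZFSet.{u} → Prop := fun p => ∃ n ∈ ZFSet.omega.{u}, ∃ k ∈ ZFSet.omega.{u},
    m ⊆ n ∧ ga α n (insert k k) ∈ p ∧ pair n (pair k p) ∈ B
  have hD : (PP N μ κ).sep Q ∈ N := by
    refine sep_mem hN ?_ hP
    refine Dfn.bex hN (DT.omegaT hN) (Q := fun v n => ∃ k ∈ ZFSet.omega.{u},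
      m ⊆ n ∧ ga α n (insert k k) ∈ v 0 ∧ pair n (pair k (v 0)) ∈ B) ?_
    refine Dfn.bex hN (DT.omegaT hN) (Q := fun v k =>
      m ⊆ v 0 ∧ ga α (v 0) (insert k k) ∈ v 1 ∧ pair (v 0) (pair k (v 1)) ∈ B) ?_
    refine Dfn.and (Dfn.subset hN (DT.cst hN hmN) (DT.var hN 1)) (Dfn.and ?_ ?_)
    · exact Dfn.mem hN (DT.gaT hN (DT.cst hN hαN) (DT.var hN 1)
        (DT.insertT hN (DT.var hN 0) (DT.var hN 0))) (DT.var hN 2)
    · exact Dfn.mem hN (DT.pairT hN (DT.var hN 1) (DT.pairT hN (DT.var hN 0) (DT.var hN 2)))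
        (DT.cst hN hBN)
  have hdense : Dense (PP N μ κ) (LE N μ κ) ((PP N μ κ).sep Q) := by
    refine ⟨fun a ha => (mem_sep.1 ha).1, fun p hp => ?_⟩
    obtain ⟨m', hm'⟩ := mem_omega.1 hm
    obtain ⟨b, hb⟩ := exists_Bd hp
    have hn : nz (max m' b) ∈ ZFSet.omega.{u} := nz_mem_omega _
    have hno : ∀ k, ga α (nz (max m' b)) k ∉ p := by
      intro k hk
      have h1 := ((hb (max m' b) (le_max_right _ _)).2 _ _ _ hk).1
      exact mem_irrefl _ h1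
    obtain ⟨q, k, hqp, hqB⟩ := hB.dns (nz (max m' b)) hn p hp
    have hk : k ∈ ZFSet.omega.{u} := (pair_mem_prod.1 (pair_mem_prod.1 (hB.sub hqB)).2).1
    have hqP : q ∈ PP N μ κ := (mem_LE.1 hqp).1
    have hq1P : rs C q ∈ PP N μ κ := rs_mem C hqP
    have hq1B := hstar _ hn _ hk _ hqB
    have hle1 : Le (rs C q) (rs C p) := rs_mono h hCl hp hqP (mem_LE.1 hqp).2.2
    obtain ⟨h2P, h2p, h2q, _⟩ := amalg h hCl hp hq1P (fun a ha => (mem_rs.1 ha).2) hle1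
    have hno2 : ∀ k', ga α (nz (max m' b)) k' ∉ rs C q ∪ rs (fun i => ¬ C i) p := by
      intro k' hk'
      rw [mem_union] at hk'
      rcases hk' with hk' | hk'
      · have h4 := (mem_rs.1 hk').2
        rw [fs_ga] at h4
        exact h4.1 rfl
      · exact hno k' (mem_rs.1 hk').1
    obtain ⟨h3P, h3le⟩ := ins_cohen h h2P hα hn (omega_succ hk) hno2
    refine ⟨_, mem_sep.2 ⟨h3P, nz (max m' b), hn, k, hk, ?_, mem_insert _ _, ?_⟩,
      mem_LE.2 ⟨h3P, hp, le_trans' h hp h2P h3P h3le h2p⟩⟩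
    · rw [hm']
      exact nz_subset_nz.2 (le_max_left _ _)
    · exact hB.opn _ _ _ _ hq1B (mem_LE.2 ⟨h3P, hq1P, le_trans' h hq1P h2P h3P h3le h2q⟩)
  obtain ⟨p, hpH, hpD⟩ := hG.meets _ hD hdense
  obtain ⟨n, hn, k, hk, hmn, hga, hpB⟩ := (mem_sep.1 hpD).2
  have h1 : pair n (insert k k) ∈ cohen H α := mem_cohen.2 ⟨hn, omega_succ hk, p, hpH, hga⟩
  have h2 : pair n k ∈ g := (hBg n hn k hk).2 ⟨p, hpH, hpB⟩
  have h3 := hle n hn hmn _ _ h1 h2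
  exact mem_irrefl k (h3 (mem_insert _ _))

theorem unbounded_cohens (h : Hyp N μ κ) (hG : Generic N (PP N μ κ) (LE N μ κ) H) :
    Unbounded (Ext N H) κ (gr (cohen H) κ) := by
  refine ⟨cohens_fun h hG, fun g hg hgf => ?_⟩
  obtain ⟨α, hα, hn⟩ := not_leStar_cohen h hG hg hgf
  exact ⟨α, hα, cohen H α, mem_gr.2 ⟨hα, rfl⟩, hn⟩

end Pool.Agent.FBZ
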