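import Pool.Agent.FBZ.PK
import Pool.Agent.FBZ.PN
import Pool.Agent.FBZ.PQ

/-!
# FBZ module PZ: assembly
-/

namespace Pool.Agent.FBZ
open ZFSet
universe u
variable {N : Set ZFSet.{u}}

theorem main_succ (h : ZF N) {μ : ZFSet.{u}} (hμ : Card N μ) (hinf : ZFSet.omega ⊆ μ) :
    ∃ κ, SuccCard N μ κ ∧ ∃ P ∈ N, ∃ le ∈ N, Forcing P le ∧
      (∀ H, Generic N P le H → (∀ ν, Card N ν ↔ Card (Ext N H) ν) ∧
        SuccCard (Ext N H) μ κ ∧ BoundingNumber (Ext N H) κ) ∧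
      (N.Countable → ∀ p ∈ P, ∃ H, Generic N P le H ∧ p ∈ H) := by
  obtain ⟨κ, hκ⟩ := exists_succCard h hμ hinf
  have hyp : Hyp N μ κ := ⟨h, hinf, hκ⟩
  refine ⟨κ, hκ, PP N μ κ, PP_mem hyp, LE N μ κ, LE_mem hyp, forcing_PP hyp, ?_, ?_⟩
  · intro H hG
    have hc : ∀ ν, Card N ν ↔ Card (Ext N H) ν := card_iff hyp hG
    refine ⟨hc, (succ_ext hc μ κ).1 hκ, (hc κ).1 hκ.2.1, ⟨_, cohens_mem hyp hG,
      unbounded_cohens hyp hG⟩, ?_⟩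
    intro a ha F hF
    exact bounded_small hyp hG ha hF
  · intro hN p hp
    exact exists_generic (forcing_PP hyp) (PP_mem hyp) hN hp

theorem main_omega2 (h : ZF N) :
    ∃ P ∈ N, ∃ le ∈ N, Forcing P le ∧
      (∀ H, Generic N P le H → (∀ ν, Card N ν ↔ Card (Ext N H) ν) ∧
        ∃ κ, Omega2 (Ext N H) κ ∧ BoundingNumber (Ext N H) κ) ∧
      (N.Countable → ∀ p ∈ P, ∃ H, Generic N P le H ∧ p ∈ H) := by
  obtain ⟨κ₁, h₁⟩ := exists_succCard h (card_omega h) (fun _ hx => hx)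
  have hinf : ZFSet.omega ⊆ κ₁ := (h₁.2.1.2.1).subset_of_mem h₁.2.2.1
  obtain ⟨κ, hκ, P, hP, le, hle, hf, hH, hc⟩ := main_succ h h₁.2.1 hinf
  refine ⟨P, hP, le, hle, hf, ?_, hc⟩
  intro H hG
  obtain ⟨hcard, hs, hb⟩ := hH H hG
  exact ⟨hcard, κ, ⟨κ₁, (succ_ext hcard _ _).1 h₁, hs⟩, hb⟩

end Pool.Agent.FBZ
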